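import Mathlib

/-!
# Winding numbers of a path closed by a segment (MP_099f24_an)
-/

namespace Pool.Agent.MP099f24

open Filter Topology Set Metric

/-- A continuous logarithm of `γ - w`. -/
theorem wind_lift {γ : ℝ → ℂ} (hγ : Continuous γ) {w : ℂ} (hw : ∀ t, γ t ≠ w) :
    ∃ L : ℝ → ℂ, Continuous L ∧ ∀ t, Complex.exp (L t) = γ t - w := by
  have h1 : IsSimplyConnected (univ : Set ℝ) := by
    haveI : ContractibleSpace (univ : Set ℝ) := convex_univ.contractibleSpace ⟨0, trivial⟩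
    exact SimplyConnectedSpace.ofContractible _
  obtain ⟨f, hf, he⟩ := Complex.exists_continuousOn_eqOn_exp_comp h1 isOpen_univ
    (g := fun t => γ t - w) (hγ.sub continuous_const).continuousOn
    (by rintro ⟨t, -, ht⟩; exact hw t (sub_eq_zero.1 ht))
  exact ⟨f, continuousOn_univ.1 hf, fun t => he (mem_univ t)⟩

/-- A continuous function all of whose values are logarithms of `1` is constant. -/
theorem wind_const {A : Set ℝ} (hA : IsPreconnected A) {M : ℝ → ℂ} (hM : ContinuousOn M A)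
    (h1 : ∀ t ∈ A, Complex.exp (M t) = 1) {s t : ℝ} (hs : s ∈ A) (ht : t ∈ A) : M s = M t := by
  refine hA.induction₂' (fun s t => M s = M t) ?_ (fun _ _ _ _ _ _ h h' => h.trans h') hs ht
  intro x hx
  have h2 : ∀ᶠ y in 𝓝[A] x, dist (M y) (M x) < 1 := hM x hx (ball_mem_nhds _ one_pos)
  filter_upwards [h2, self_mem_nhdsWithin] with y hy hyA
  have h3 : M y = M x := by
    obtain ⟨n, hn⟩ := Complex.exp_eq_one_iff.1 (h1 y hyA)
    obtain ⟨m, hm⟩ := Complex.exp_eq_one_iff.1 (h1 x hx)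
    rw [hn, hm, Complex.dist_eq, ← sub_mul, norm_mul] at hy
    have h4 : ‖(2 * (Real.pi : ℂ) * Complex.I)‖ = 2 * Real.pi := by
      simp [abs_of_pos Real.pi_pos]
    rw [h4] at hy
    have h5 : ‖((n : ℂ) - m)‖ < 1 := by
      have := Real.pi_gt_three
      nlinarith [norm_nonneg ((n : ℂ) - m)]
    have h6 : ((n - m : ℤ) : ℂ) = (n : ℂ) - m := by push_cast; ring
    rw [← h6, Complex.norm_intCast] at h5
    have h7 : |n - m| < 1 := by exact_mod_cast h5
    have h8 : n - m = 0 := Int.abs_lt_one_iff.1 h7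
    have h9 : n = m := by omega
    rw [hn, hm, h9]
  exact ⟨h3.symm, h3⟩

/-- Two complex numbers that are logarithms of the same number and are close are equal. -/
theorem wind_eq_of_close {z z' : ℂ} (h : Complex.exp z = Complex.exp z') (hd : ‖z - z'‖ < 6) :
    z = z' := by
  obtain ⟨n, hn⟩ := Complex.exp_eq_exp_iff_exists_int.1 h
  have h1 : z - z' = n * (2 * Real.pi * Complex.I) := by rw [hn]; ring
  rw [h1, norm_mul] at hd
  have h4 : ‖(2 * (Real.pi : ℂ) * Complex.I)‖ = 2 * Real.pi := by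
    simp [abs_of_pos Real.pi_pos]
  rw [h4, Complex.norm_intCast] at hd
  have h5 : |(n : ℝ)| < 1 := by
    have := Real.pi_gt_three
    nlinarith [abs_nonneg (n : ℝ)]
  have h7 : |n| < 1 := by exact_mod_cast h5
  have h8 : n = 0 := Int.abs_lt_one_iff.1 h7
  rw [hn, h8]
  simp

/-- The variation of a continuous logarithm of `γ - w` along `[0,1]`. -/
theorem wind_unique {γ : ℝ → ℂ} {w : ℂ} {L L' : ℝ → ℂ} (hL : ContinuousOn L (Icc 0 1))
    (hL' : ContinuousOn L' (Icc 0 1))
    (h : ∀ t ∈ Icc (0 : ℝ) 1, Complex.exp (L t) = γ t - w)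
    (h' : ∀ t ∈ Icc (0 : ℝ) 1, Complex.exp (L' t) = γ t - w) : L 1 - L 0 = L' 1 - L' 0 := by
  have h1 := wind_const (A := Icc (0 : ℝ) 1) isPreconnected_Icc (M := fun t => L t - L' t)
    (hL.sub hL') (fun t ht => by
      rw [Complex.exp_sub, h t ht, h' t ht]
      refine div_self ?_
      rw [← h t ht]
      exact Complex.exp_ne_zero _) (s := 1) (t := 0) (by simp) (by simp)
  linear_combination h1

/-- `(q - w)/(p - w)` is in the slit plane when `w` is not on the segment `[p, q]` -/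
theorem wind_slit {p q w : ℂ} (hw : w ∉ segment ℝ p q) : (q - w) / (p - w) ∈ Complex.slitPlane := by
  have hp : p ≠ w := by rintro rfl; exact hw (left_mem_segment ℝ _ _)
  have hp' : p - w ≠ 0 := sub_ne_zero.2 hp
  by_contra hcon
  rw [Complex.mem_slitPlane_iff] at hcon
  push Not at hcon
  obtain ⟨h1, h2⟩ := hcon
  set c : ℂ := (q - w) / (p - w) with hc
  have h3 : q - w = c * (p - w) := by rw [hc, div_mul_cancel₀ _ hp']
  have h4 : c = (c.re : ℂ) := Complex.ext (by simp) (by simp [h2])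
  apply hw
  rw [segment_eq_image]
  set s : ℝ := -c.re with hs
  have hs0 : 0 ≤ s := by linarith
  refine ⟨1 / (1 + s), ⟨by positivity, by rw [div_le_one (by linarith)]; linarith⟩, ?_⟩
  have h5 : q = w - s * (p - w) := by
    have : q = w + c * (p - w) := by linear_combination h3
    rw [this, h4, hs]
    push_cast
    ring
  simp only [Complex.real_smul]
  rw [h5]
  have h6 : (1 + (s : ℂ)) ≠ 0 := by
    have : (1 + s : ℝ) ≠ 0 := by positivity
    exact_mod_cast this
  push_cast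
  field_simp
  ring

/-- The index of `w`: the variation of a logarithm of `γ - w` minus the one along the segment
from `γ 0` to `γ 1`. -/
def IsInd (γ : ℝ → ℂ) (w : ℂ) (z : ℂ) : Prop :=
  ∃ L : ℝ → ℂ, ContinuousOn L (Icc 0 1) ∧ (∀ t ∈ Icc (0 : ℝ) 1, Complex.exp (L t) = γ t - w) ∧
    z = L 1 - L 0 - Complex.log ((γ 1 - w) / (γ 0 - w))

theorem isInd_unique {γ : ℝ → ℂ} {w z z' : ℂ} (h : IsInd γ w z) (h' : IsInd γ w z') : z = z' := by
  obtain ⟨L, h1, h2, h3⟩ := h
  obtain ⟨L', h1', h2', h3'⟩ := h'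
  rw [h3, h3', wind_unique h1 h1' h2 h2']

theorem isInd_exists {γ : ℝ → ℂ} (hγ : Continuous γ) {w : ℂ} (hw : ∀ t, γ t ≠ w) :
    ∃ z, IsInd γ w z := by
  obtain ⟨L, h1, h2⟩ := wind_lift hγ hw
  exact ⟨_, L, h1.continuousOn, fun t _ => h2 t, rfl⟩

theorem isInd_exp {γ : ℝ → ℂ} {w z : ℂ} (hs : w ∉ segment ℝ (γ 0) (γ 1)) (h : IsInd γ w z) :
    Complex.exp z = 1 := by
  obtain ⟨L, h1, h2, h3⟩ := h
  have e0 := h2 0 (by simp)
  have e1 := h2 1 (by simp)
  have n0 : γ 0 - w ≠ 0 := by rw [← e0]; exact Complex.exp_ne_zero _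
  have n1 : γ 1 - w ≠ 0 := by rw [← e1]; exact Complex.exp_ne_zero _
  rw [h3, Complex.exp_sub, Complex.exp_sub, e0, e1, Complex.exp_log (div_ne_zero n1 n0)]
  exact div_self (div_ne_zero n1 n0)

/-- The index is locally constant. -/
theorem isInd_locally {γ : ℝ → ℂ} (hγ : Continuous γ) {w : ℂ} (hw : ∀ t, γ t ≠ w)
    (hs : w ∉ segment ℝ (γ 0) (γ 1)) {z : ℂ} (h : IsInd γ w z) :
    ∀ᶠ w' in 𝓝 w, IsInd γ w' z := by
  have hz := isInd_exp hs h
  obtain ⟨L, h1, h2, h3⟩ := h
  -- distance from the curve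
  have hcomp : IsCompact (γ '' Icc 0 1) := isCompact_Icc.image hγ
  have hne : w ∉ γ '' Icc 0 1 := by rintro ⟨t, -, ht⟩; exact hw t ht
  obtain ⟨δ, hδ, hδ'⟩ : ∃ δ > 0, ∀ t ∈ Icc (0 : ℝ) 1, δ ≤ ‖γ t - w‖ := by
    obtain ⟨δ, hδ, h4⟩ := Metric.isOpen_iff.1 hcomp.isClosed.isOpen_compl w hne
    refine ⟨δ, hδ, fun t ht => ?_⟩
    by_contra hlt
    push Not at hlt
    exact h4 (by rwa [mem_ball, dist_eq_norm]) (mem_image_of_mem γ ht)
  -- the new logarithm
  have hslit : ∀ w', ‖w' - w‖ < δ → ∀ t ∈ Icc (0 : ℝ) 1,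
      0 < ((γ t - w') / (γ t - w)).re := by
    intro w' hw' t ht
    have h5 : γ t - w ≠ 0 := sub_ne_zero.2 (hw t)
    have h6 : (γ t - w') / (γ t - w) = 1 - (w' - w) / (γ t - w) := by field_simp; ring
    rw [h6, Complex.sub_re, Complex.one_re, sub_pos]
    refine (Complex.re_le_norm _).trans_lt ?_
    rw [norm_div, div_lt_one (norm_pos_iff.2 h5)]
    exact hw'.trans_le (hδ' t ht)
  set F : ℂ → ℂ := fun w' => (L 1 + Complex.log ((γ 1 - w') / (γ 1 - w))) -
    (L 0 + Complex.log ((γ 0 - w') / (γ 0 - w))) - Complex.log ((γ 1 - w') / (γ 0 - w')) with hF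
  have hInd : ∀ w', ‖w' - w‖ < δ → IsInd γ w' (F w') := by
    intro w' hw'
    refine ⟨fun t => L t + Complex.log ((γ t - w') / (γ t - w)), ?_, ?_, rfl⟩
    · refine h1.add (ContinuousOn.clog ?_ fun t ht => Or.inl (hslit w' hw' t ht))
      exact ((hγ.sub continuous_const).continuousOn).div ((hγ.sub continuous_const).continuousOn)
        fun t _ => sub_ne_zero.2 (hw t)
    · intro t ht
      have h5 : γ t - w ≠ 0 := sub_ne_zero.2 (hw t)
      have h6 : (γ t - w') / (γ t - w) ≠ 0 := by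
        intro h0
        have := hslit w' hw' t ht
        rw [h0] at this
        simp at this
      rw [Complex.exp_add, h2 t ht, Complex.exp_log h6, mul_div_cancel₀ _ h5]
  have hcont : ContinuousAt F w := by
    have c0 : γ 0 - w ≠ 0 := sub_ne_zero.2 (hw 0)
    have c1 : γ 1 - w ≠ 0 := sub_ne_zero.2 (hw 1)
    have a1 : ContinuousAt (fun w' => Complex.log ((γ 1 - w') / (γ 1 - w))) w := by
      refine ContinuousAt.clog (by fun_prop) ?_
      rw [div_self c1]
      simp
    have a2 : ContinuousAt (fun w' => Complex.log ((γ 0 - w') / (γ 0 - w))) w := by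
      refine ContinuousAt.clog (by fun_prop) ?_
      rw [div_self c0]
      simp
    have a3 : ContinuousAt (fun w' => Complex.log ((γ 1 - w') / (γ 0 - w'))) w := by
      refine ContinuousAt.clog ?_ (wind_slit hs)
      exact (continuousAt_const.sub continuousAt_id).div (continuousAt_const.sub continuousAt_id) c0
    exact ((continuousAt_const.add a1).sub (continuousAt_const.add a2)).sub a3
  have hFw : F w = z := by
    have c0 : γ 0 - w ≠ 0 := sub_ne_zero.2 (hw 0)
    have c1 : γ 1 - w ≠ 0 := sub_ne_zero.2 (hw 1)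
    rw [hF, h3]
    simp only
    rw [div_self c1, div_self c0, Complex.log_one]
    ring
  have hopen : ∀ᶠ w' in 𝓝 w, w' ∉ segment ℝ (γ 0) (γ 1) := by
    have : IsClosed (segment ℝ (γ 0) (γ 1)) := by
      rw [segment_eq_image_lineMap]
      exact (isCompact_Icc.image AffineMap.lineMap_continuous).isClosed
    exact this.isOpen_compl.mem_nhds hs
  have hball : ∀ᶠ w' in 𝓝 w, ‖w' - w‖ < δ := by
    filter_upwards [ball_mem_nhds w hδ] with w' hw'
    rwa [mem_ball, dist_eq_norm] at hw'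
  have hclose : ∀ᶠ w' in 𝓝 w, ‖F w' - F w‖ < 6 := by
    have := hcont (ball_mem_nhds (F w) (by norm_num : (0 : ℝ) < 6))
    filter_upwards [this] with w' hw'
    rwa [mem_preimage, mem_ball, dist_eq_norm] at hw'
  filter_upwards [hopen, hball, hclose] with w' g1 g2 g3
  have g4 := hInd w' g2
  have g5 : F w' = z := by
    rw [← hFw]
    refine wind_eq_of_close ?_ g3
    rw [isInd_exp g1 g4, hFw, hz]
  rw [← g5]
  exact g4

/-- The index is constant on connected sets. -/
theorem isInd_connected {γ : ℝ → ℂ} (hγ : Continuous γ) {A : Set ℂ} (hA : IsPreconnected A)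
    (hw : ∀ w ∈ A, ∀ t, γ t ≠ w) (hs : ∀ w ∈ A, w ∉ segment ℝ (γ 0) (γ 1)) {w w' : ℂ}
    (h : w ∈ A) (h' : w' ∈ A) {z : ℂ} (hz : IsInd γ w z) : IsInd γ w' z := by
  have key : ∀ z, IsInd γ w z ↔ IsInd γ w' z := by
    refine hA.induction₂' (fun w w' => ∀ z, IsInd γ w z ↔ IsInd γ w' z) ?_
      (fun _ _ _ _ _ _ h1 h2 z => (h1 z).trans (h2 z)) h h'
    intro x hx
    obtain ⟨y, hy⟩ := isInd_exists hγ (hw x hx)
    have h3 := isInd_locally hγ (hw x hx) (hs x hx) hy
    filter_upwards [nhdsWithin_le_nhds h3] with x' hx'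
    have h4 : ∀ z, IsInd γ x z ↔ IsInd γ x' z := by
      intro z
      constructor
      · intro h5
        rwa [isInd_unique h5 hy]
      · intro h5
        rwa [isInd_unique h5 hx']
    exact ⟨h4, fun z => (h4 z).symm⟩
  exact (key z).1 hz

/-- The index of far points is zero. -/
theorem isInd_far {γ : ℝ → ℂ} (hγ : Continuous γ) : ∃ R : ℝ, ∀ w : ℂ, R < ‖w‖ → IsInd γ w 0 := by
  obtain ⟨R, hR⟩ := (isCompact_Icc (a := (0 : ℝ)) (b := 1)).exists_bound_of_continuousOn
    hγ.continuousOn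
  refine ⟨max R 0, fun w hw => ?_⟩
  have hw0 : 0 < ‖w‖ := (le_max_right _ _).trans_lt hw
  have hwn : w ≠ 0 := norm_pos_iff.1 hw0
  have hre : ∀ t ∈ Icc (0 : ℝ) 1, 0 < (1 - γ t / w).re := by
    intro t ht
    rw [Complex.sub_re, Complex.one_re, sub_pos]
    refine (Complex.re_le_norm _).trans_lt ?_
    rw [norm_div, div_lt_one hw0]
    exact (hR t ht).trans_lt ((le_max_left _ _).trans_lt hw)
  have hne : ∀ t ∈ Icc (0 : ℝ) 1, 1 - γ t / w ≠ 0 := by
    intro t ht h0
    have := hre t ht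
    rw [h0] at this
    simp at this
  have hexp : ∀ t ∈ Icc (0 : ℝ) 1,
      Complex.exp (Complex.log (1 - γ t / w) + Complex.log (-w)) = γ t - w := by
    intro t ht
    rw [Complex.exp_add, Complex.exp_log (hne t ht), Complex.exp_log (neg_ne_zero.2 hwn)]
    field_simp
    ring
  have h0 : (0 : ℝ) ∈ Icc (0 : ℝ) 1 := by simp
  have h1 : (1 : ℝ) ∈ Icc (0 : ℝ) 1 := by simp
  have hslitseg : w ∉ segment ℝ (γ 0) (γ 1) := by
    intro hmem
    have hb : segment ℝ (γ 0) (γ 1) ⊆ closedBall 0 (max R 0) := by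
      refine (convex_closedBall _ _).segment_subset ?_ ?_
      · rw [mem_closedBall_zero_iff]; exact (hR 0 h0).trans (le_max_left _ _)
      · rw [mem_closedBall_zero_iff]; exact (hR 1 h1).trans (le_max_left _ _)
    have := hb hmem
    rw [mem_closedBall_zero_iff] at this
    linarith
  have hInd : IsInd γ w ((Complex.log (1 - γ 1 / w) + Complex.log (-w)) -
      (Complex.log (1 - γ 0 / w) + Complex.log (-w)) -
      Complex.log ((γ 1 - w) / (γ 0 - w))) := by
    refine ⟨fun t => Complex.log (1 - γ t / w) + Complex.log (-w), ?_, hexp, rfl⟩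
    refine ContinuousOn.add (ContinuousOn.clog ?_ fun t ht => Or.inl (hre t ht)) continuousOn_const
    exact (continuous_const.sub (hγ.div_const w)).continuousOn
  have hz := isInd_exp hslitseg hInd
  obtain ⟨n, hn⟩ := Complex.exp_eq_one_iff.1 hz
  have him := congrArg Complex.im hn
  have a0 := Complex.abs_arg_lt_pi_div_two_iff.2 (Or.inl (hre 0 h0))
  have a1 := Complex.abs_arg_lt_pi_div_two_iff.2 (Or.inl (hre 1 h1))
  have a2 := Complex.abs_arg_le_pi ((γ 1 - w) / (γ 0 - w))
  have a3 : ((n : ℂ) * (2 * Real.pi * Complex.I)).im = n * (2 * Real.pi) := by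
    simp
  rw [a3] at him
  simp only [Complex.sub_im, Complex.add_im, Complex.log_im] at him
  have hnlt : |(n : ℝ)| < 1 := by
    have hpi := Real.pi_pos
    have : |(n : ℝ) * (2 * Real.pi)| < 2 * Real.pi := by
      rw [← him]
      rw [abs_lt] at a0 a1
      rw [abs_le] at a2
      rw [abs_lt]
      constructor <;> linarith
    rw [abs_mul, abs_of_pos (by positivity : (0 : ℝ) < 2 * Real.pi)] at this
    by_contra hcon
    push Not at hcon
    nlinarith
  have h8 : n = 0 := Int.abs_lt_one_iff.1 (by exact_mod_cast hnlt)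
  rw [hn, h8] at hInd
  simpa using hInd

/-- The index of the points of an unbounded connected set is zero. -/
theorem isInd_unbounded {γ : ℝ → ℂ} (hγ : Continuous γ) {A : Set ℂ} (hA : IsPreconnected A)
    (hAu : ¬ Bornology.IsBounded A)
    (hw : ∀ w ∈ A, ∀ t, γ t ≠ w) (hs : ∀ w ∈ A, w ∉ segment ℝ (γ 0) (γ 1)) {w : ℂ}
    (h : w ∈ A) : IsInd γ w 0 := by
  obtain ⟨R, hR⟩ := isInd_far hγ
  obtain ⟨w', h', hw'⟩ : ∃ w' ∈ A, R < ‖w'‖ := by
    by_contra hcon
    push Not at hcon
    refine hAu ((isBounded_closedBall (x := (0 : ℂ)) (r := R)).subset fun x hx => ?_)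
    rw [mem_closedBall_zero_iff]
    exact hcon x hx
  exact isInd_connected hγ hA hw hs h' h (hR w' hw')

end Pool.Agent.MP099f24
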