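import Mathlib
import Pool.Agent.Lib.MP_099f24_an.SD.Defs
import Pool.Agent.Lib.MP_099f24_an.SC.Wind

/-!
# The two sides of an arc of a circle: the core of the separation lemma (MP_099f24_an)
-/

namespace Pool.Agent.MP099f24

open Filter Topology Set Metric

/-- the closed arc of the circle with centre `x₀` and radius `r` between the angles `α` and `β` -/
def carc (x₀ : ℂ) (r α β : ℝ) : Set ℂ := (fun θ => pc x₀ r θ) '' Icc α β

/-- the sector `{s < |z - x₀| < t, α ≤ arg ≤ β}` -/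
def csec (x₀ : ℂ) (s t α β : ℝ) : Set ℂ := (fun p : ℝ × ℝ => pc x₀ p.1 p.2) '' (Ioo s t ×ˢ Icc α β)

theorem sep_pc_cont (x₀ : ℂ) : Continuous (fun p : ℝ × ℝ => pc x₀ p.1 p.2) := by
  unfold pc er
  fun_prop

theorem sep_pc_cont1 (x₀ : ℂ) (r : ℝ) : Continuous (fun θ => pc x₀ r θ) := by
  unfold pc er
  fun_prop

theorem carc_compact (x₀ : ℂ) (r α β : ℝ) : IsCompact (carc x₀ r α β) :=
  isCompact_Icc.image (sep_pc_cont1 x₀ r)

theorem csec_preconnected (x₀ : ℂ) (s t α β : ℝ) : IsPreconnected (csec x₀ s t α β) :=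
  (isPreconnected_Ioo.prod isPreconnected_Icc).image _ (sep_pc_cont x₀).continuousOn

/-- the auxiliary function `e^{ih} (z - a) conj (z - b)`, `h = (β - α)/2` -/
noncomputable def sepN (x₀ : ℂ) (r α β : ℝ) (z : ℂ) : ℂ :=
  Complex.exp (((β - α) / 2 : ℝ) * Complex.I) * (z - pc x₀ r α) *
    (starRingEnd ℂ) (z - pc x₀ r β)

theorem sepN_eq (x₀ : ℂ) (r α β : ℝ) (z : ℂ) :
    (sepN x₀ r α β z).im = Real.sin ((β - α) / 2) * (‖z - x₀‖ ^ 2 - r ^ 2) ∧
    (sepN x₀ r α β z).re = Real.cos ((β - α) / 2) * (‖z - x₀‖ ^ 2 + r ^ 2) -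
      2 * r * ((z - x₀) * Complex.exp (-(((α + β) / 2 : ℝ) * Complex.I))).re := by
  set h : ℝ := (β - α) / 2 with hh
  set m : ℝ := (α + β) / 2 with hm
  have hα : α = m - h := by rw [hh, hm]; ring
  have hβ : β = m + h := by rw [hh, hm]; ring
  set Z : ℂ := z - x₀ with hZ
  have e1 : z - pc x₀ r α = Z - r * (Complex.exp (m * Complex.I) * Complex.exp (-(h * Complex.I))) := by
    rw [hZ, pc, er, hα, ← Complex.exp_add]
    have : ((m - h : ℝ) : ℂ) * Complex.I = m * Complex.I + -(h * Complex.I) := by push_cast; ring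
    rw [this]
    ring
  have e2 : (starRingEnd ℂ) (z - pc x₀ r β) = (starRingEnd ℂ) Z -
      r * (Complex.exp (-(m * Complex.I)) * Complex.exp (-(h * Complex.I))) := by
    have : z - pc x₀ r β = Z - r * Complex.exp ((m + h : ℝ) * Complex.I) := by
      rw [hZ, pc, er, hβ]; ring
    rw [this, map_sub, map_mul, Complex.conj_ofReal, ← Complex.exp_conj, map_mul, Complex.conj_ofReal,
      Complex.conj_I, ← Complex.exp_add]
    have h3 : ((m + h : ℝ) : ℂ) * -Complex.I = -(m * Complex.I) + -(h * Complex.I) := by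
      push_cast; ring
    rw [h3]
  have e3 : Z * (starRingEnd ℂ) Z = ((‖Z‖ ^ 2 : ℝ) : ℂ) := by
    rw [Complex.mul_conj, Complex.normSq_eq_norm_sq]
  have e4 : Complex.exp (h * Complex.I) * Complex.exp (-(h * Complex.I)) = 1 := by
    rw [← Complex.exp_add, add_neg_cancel, Complex.exp_zero]
  have e5 : Complex.exp (m * Complex.I) * Complex.exp (-(m * Complex.I)) = 1 := by
    rw [← Complex.exp_add, add_neg_cancel, Complex.exp_zero]
  have e6 : (starRingEnd ℂ) (Z * Complex.exp (-(m * Complex.I))) =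
      (starRingEnd ℂ) Z * Complex.exp (m * Complex.I) := by
    rw [map_mul, ← Complex.exp_conj, map_neg, map_mul, Complex.conj_ofReal, Complex.conj_I]
    congr 2
    ring
  have e7 : Z * Complex.exp (-(m * Complex.I)) + (starRingEnd ℂ) (Z * Complex.exp (-(m * Complex.I)))
      = ((2 * (Z * Complex.exp (-(m * Complex.I))).re : ℝ) : ℂ) := Complex.add_conj _
  have key : sepN x₀ r α β z = Complex.exp (h * Complex.I) * ((‖Z‖ ^ 2 : ℝ) : ℂ) +
      (r ^ 2 : ℝ) * Complex.exp (-(h * Complex.I)) -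
      ((2 * r * (Z * Complex.exp (-(m * Complex.I))).re : ℝ) : ℂ) := by
    have e8 : ((2 * r * (Z * Complex.exp (-(m * Complex.I))).re : ℝ) : ℂ) =
        r * (Z * Complex.exp (-(m * Complex.I)) + (starRingEnd ℂ) Z * Complex.exp (m * Complex.I)) := by
      rw [← e6, e7]
      push_cast
      ring
    rw [sepN, ← hh, e1, e2, e8, ← e3]
    push_cast
    linear_combination (-(r : ℂ) * Z * Complex.exp (-(m * Complex.I)) -
      r * (starRingEnd ℂ) Z * Complex.exp (m * Complex.I) + (r : ℂ) ^ 2 *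
      Complex.exp (m * Complex.I) * Complex.exp (-(m * Complex.I)) *
        Complex.exp (-(h * Complex.I))) * e4 + (r : ℂ) ^ 2 * Complex.exp (-(h * Complex.I)) * e5
  have e9 : Complex.exp (-(h * Complex.I)) = Real.cos h - Real.sin h * Complex.I := by
    rw [← neg_mul, ← Complex.ofReal_neg, Complex.exp_ofReal_mul_I, Complex.ofReal_cos,
      Complex.ofReal_sin]
    simp
    ring
  have e10 : Complex.exp (h * Complex.I) = Real.cos h + Real.sin h * Complex.I := by
    rw [Complex.exp_ofReal_mul_I, Complex.ofReal_cos, Complex.ofReal_sin]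
  rw [key, e9, e10]
  generalize Real.cos h = C
  generalize Real.sin h = S
  generalize ‖Z‖ ^ 2 = A
  generalize (Z * Complex.exp (-(↑m * Complex.I))).re = q
  generalize hB : r ^ 2 = B
  constructor
  · simp only [Complex.sub_im, Complex.add_im, Complex.mul_im, Complex.sub_re, Complex.add_re,
      Complex.mul_re, Complex.ofReal_re, Complex.ofReal_im, Complex.I_re, Complex.I_im]
    ring
  · simp only [Complex.sub_im, Complex.add_im, Complex.mul_im, Complex.sub_re, Complex.add_re,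
      Complex.mul_re, Complex.ofReal_re, Complex.ofReal_im, Complex.I_re, Complex.I_im]
    ring

theorem sepN_continuous (x₀ : ℂ) (r α β : ℝ) : Continuous (sepN x₀ r α β) := by
  unfold sepN
  fun_prop

theorem sepN_arc {x₀ : ℂ} {r α β θ : ℝ} (hr : 0 < r) (hβ : β < α + 2 * Real.pi)
    (hθ : θ ∈ Ioo α β) : (sepN x₀ r α β (pc x₀ r θ)).re < 0 ∧
      (sepN x₀ r α β (pc x₀ r θ)).im = 0 := by
  have h1 : pc x₀ r θ - x₀ = r * Complex.exp (θ * Complex.I) := by rw [pc, er]; ring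
  have h2 : ‖pc x₀ r θ - x₀‖ = r := by
    rw [h1, norm_mul, Complex.norm_exp_ofReal_mul_I, mul_one, Complex.norm_real, Real.norm_eq_abs,
      abs_of_pos hr]
  obtain ⟨e1, e2⟩ := sepN_eq x₀ r α β (pc x₀ r θ)
  rw [e1, e2, h2, h1]
  refine ⟨?_, by ring⟩
  have h3 : (r : ℂ) * Complex.exp (θ * Complex.I) * Complex.exp (-(((α + β) / 2 : ℝ) * Complex.I)) =
      r * Complex.exp ((θ - (α + β) / 2 : ℝ) * Complex.I) := by
    rw [mul_assoc, ← Complex.exp_add]
    congr 2
    push_cast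
    ring
  rw [h3, Complex.re_ofReal_mul, Complex.exp_ofReal_mul_I_re]
  have h4 : Real.cos ((β - α) / 2) < Real.cos (θ - (α + β) / 2) := by
    rw [← Real.cos_abs (θ - (α + β) / 2)]
    refine Real.cos_lt_cos_of_nonneg_of_le_pi (abs_nonneg _) (by linarith) ?_
    rw [abs_lt]
    constructor <;> linarith [hθ.1, hθ.2]
  nlinarith [sq_pos_of_pos hr]

theorem sepN_slit {x₀ : ℂ} {r α β : ℝ} (hr : 0 < r) (hαβ : α < β) (hβ : β < α + 2 * Real.pi) {z : ℂ}
    (hz : z ∉ carc x₀ r α β) : sepN x₀ r α β z ∈ Complex.slitPlane := by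
  obtain ⟨e1, e2⟩ := sepN_eq x₀ r α β z
  have hs : 0 < Real.sin ((β - α) / 2) :=
    Real.sin_pos_of_pos_of_lt_pi (by linarith) (by linarith)
  rw [Complex.mem_slitPlane_iff]
  by_cases hc : ‖z - x₀‖ = r
  · left
    rw [e2, hc]
    by_contra hcon
    push Not at hcon
    apply hz
    set m : ℝ := (α + β) / 2 with hm
    set Z : ℂ := (z - x₀) * Complex.exp (-((m : ℝ) * Complex.I)) with hZ
    have hZn : ‖Z‖ = r := by
      rw [hZ, norm_mul, hc, ← neg_mul, ← Complex.ofReal_neg, Complex.norm_exp_ofReal_mul_I, mul_one]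
    have hre : Z.re = r * Real.cos (Complex.arg Z) := by
      rw [← hZn, Complex.norm_mul_cos_arg]
    have h5 : Real.cos ((β - α) / 2) ≤ Real.cos |Complex.arg Z| := by
      rw [Real.cos_abs]
      have : 2 * r ^ 2 * Real.cos ((β - α) / 2) ≤ 2 * r ^ 2 * Real.cos (Complex.arg Z) := by
        rw [hre] at hcon
        nlinarith
      exact le_of_mul_le_mul_left this (by positivity)
    have h6 : |Complex.arg Z| ≤ (β - α) / 2 := by
      by_contra hlt
      push Not at hlt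
      have := Real.cos_lt_cos_of_nonneg_of_le_pi (by linarith) (Complex.abs_arg_le_pi Z) hlt
      linarith
    rw [abs_le] at h6
    refine ⟨m + Complex.arg Z, ⟨by rw [hm]; linarith, by rw [hm]; linarith⟩, ?_⟩
    have h7 : (r : ℂ) * Complex.exp (Complex.arg Z * Complex.I) = Z := by
      rw [← hZn]
      exact Complex.norm_mul_exp_arg_mul_I Z
    simp only [pc, er]
    have h8 : Complex.exp (((m + Complex.arg Z : ℝ) : ℂ) * Complex.I) =
        Complex.exp (m * Complex.I) * Complex.exp (Complex.arg Z * Complex.I) := by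
      rw [← Complex.exp_add]
      congr 1
      push_cast
      ring
    have h9 : Complex.exp (-((m : ℝ) * Complex.I)) * Complex.exp (m * Complex.I) = 1 := by
      rw [← Complex.exp_add, neg_add_cancel, Complex.exp_zero]
    rw [h8]
    calc x₀ + (r : ℂ) * (Complex.exp (m * Complex.I) * Complex.exp (Complex.arg Z * Complex.I))
        = x₀ + Complex.exp (m * Complex.I) * ((r : ℂ) * Complex.exp (Complex.arg Z * Complex.I)) := by
          ring
      _ = x₀ + (z - x₀) * (Complex.exp (-((m : ℝ) * Complex.I)) * Complex.exp (m * Complex.I)) := by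
          rw [h7, hZ]; ring
      _ = z := by rw [h9]; ring
  · right
    rw [e1]
    refine mul_ne_zero hs.ne' ?_
    intro h0
    apply hc
    have : ‖z - x₀‖ ^ 2 = r ^ 2 := by linarith
    exact (sq_eq_sq₀ (norm_nonneg _) hr.le).1 this

/-- The identity of logarithms along a path that does not meet the arc. -/
theorem sep_ident {x₀ : ℂ} {r α β : ℝ} (hr : 0 < r) (hαβ : α < β) (hβ : β < α + 2 * Real.pi)
    {γ : ℝ → ℂ} (hγ : Continuous γ) (hc : ∀ t, γ t ∉ carc x₀ r α β) {z : ℂ}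
    (ha : IsInd γ (pc x₀ r α) z) (hb : IsInd γ (pc x₀ r β) z) :
    (sepN x₀ r α β (γ 1)).arg - (sepN x₀ r α β (γ 0)).arg =
      ((γ 1 - pc x₀ r α) / (γ 0 - pc x₀ r α)).arg - ((γ 1 - pc x₀ r β) / (γ 0 - pc x₀ r β)).arg := by
  set a := pc x₀ r α with hadef
  set b := pc x₀ r β with hbdef
  have hamem : a ∈ carc x₀ r α β := ⟨α, ⟨le_rfl, hαβ.le⟩, rfl⟩
  have hbmem : b ∈ carc x₀ r α β := ⟨β, ⟨hαβ.le, le_rfl⟩, rfl⟩
  have hna : ∀ t, γ t - a ≠ 0 := fun t h0 => hc t (by rw [sub_eq_zero.1 h0]; exact hamem)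
  have hnb : ∀ t, γ t - b ≠ 0 := fun t h0 => hc t (by rw [sub_eq_zero.1 h0]; exact hbmem)
  obtain ⟨L, h1, h2, h3⟩ := ha
  obtain ⟨L', h1', h2', h3'⟩ := hb
  set c : ℂ := (((β - α) / 2 : ℝ) : ℂ) * Complex.I with hcdef
  -- the function `N / |γ - b|²`
  set G : ℝ → ℂ := fun t => (((‖γ t - b‖ ^ 2)⁻¹ : ℝ) : ℂ) * sepN x₀ r α β (γ t) with hG
  have hpos : ∀ t, 0 < (‖γ t - b‖ ^ 2)⁻¹ := fun t => by
    have := norm_pos_iff.2 (hnb t)
    positivity
  have hGslit : ∀ t, G t ∈ Complex.slitPlane := by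
    intro t
    have := sepN_slit hr hαβ hβ (hc t)
    rw [Complex.mem_slitPlane_iff] at this ⊢
    rcases this with h | h
    · left
      rw [hG]
      simp only [Complex.re_ofReal_mul]
      exact mul_pos (hpos t) h
    · right
      rw [hG]
      simp only [Complex.im_ofReal_mul]
      exact mul_ne_zero (hpos t).ne' h
  have hGeq : ∀ t, G t = Complex.exp c * ((γ t - a) / (γ t - b)) := by
    intro t
    have h4 : (γ t - b) * (starRingEnd ℂ) (γ t - b) = ((‖γ t - b‖ ^ 2 : ℝ) : ℂ) := by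
      rw [Complex.mul_conj, Complex.normSq_eq_norm_sq]
    have h5 : ((‖γ t - b‖ ^ 2 : ℝ) : ℂ) ≠ 0 := by
      rw [← h4]
      exact mul_ne_zero (hnb t) ((map_ne_zero _).2 (hnb t))
    rw [hG]
    simp only [sepN]
    rw [Complex.ofReal_inv, ← hadef, ← hbdef, ← hcdef]
    have h6 := hnb t
    rw [← h4] at h5 ⊢
    have h7 : (starRingEnd ℂ) (γ t - b) ≠ 0 := (map_ne_zero _).2 (hnb t)
    field_simp
  have hGc : Continuous G := by
    rw [hG]
    have h4 : Continuous fun t => (‖γ t - b‖ ^ 2)⁻¹ := by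
      refine Continuous.inv₀ (by fun_prop) fun t => ?_
      have := norm_pos_iff.2 (hnb t)
      positivity
    exact (Complex.continuous_ofReal.comp h4).mul ((sepN_continuous x₀ r α β).comp hγ)
  have hconst := wind_const (A := Icc (0 : ℝ) 1) isPreconnected_Icc
    (M := fun t => L t - L' t + c - Complex.log (G t))
    (((h1.sub h1').add continuousOn_const).sub
      (ContinuousOn.clog hGc.continuousOn fun t _ => hGslit t))
    (fun t ht => by
      have hGne : G t ≠ 0 := Complex.slitPlane_ne_zero (hGslit t)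
      rw [Complex.exp_sub, Complex.exp_add, Complex.exp_sub, h2 t ht, h2' t ht,
        Complex.exp_log hGne, hGeq t]
      rw [hGeq t] at hGne
      rw [mul_comm (Complex.exp c)] at hGne ⊢
      exact div_self hGne) (s := 1) (t := 0) (by simp) (by simp)
  have harg : ∀ t, (Complex.log (G t)).im = (sepN x₀ r α β (γ t)).arg := by
    intro t
    rw [Complex.log_im, hG]
    exact Complex.arg_real_mul _ (hpos t)
  have him := congrArg Complex.im hconst
  simp only [Complex.sub_im, Complex.add_im] at him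
  rw [harg, harg] at him
  have i3 := congrArg Complex.im h3
  have i3' := congrArg Complex.im h3'
  simp only [Complex.sub_im, Complex.log_im] at i3 i3'
  linarith

/-- The core of the separation lemma: no connected open set disjoint from the arc contains
points close to an interior point of the arc on both sides, if the indices of the two end points
of the arc agree. -/
theorem sep_core {x₀ : ℂ} {r α β θ₀ : ℝ} (hr : 0 < r) (hβ : β < α + 2 * Real.pi)
    (hθ : θ₀ ∈ Ioo α β) {W : Set ℂ} (hWo : IsOpen W) (hWc : IsPreconnected W)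
    (hW : Disjoint W (carc x₀ r α β)) {ε₀ : ℝ} (hε₀ : 0 < ε₀)
    (hside : ∀ ε, 0 < ε → ε < ε₀ → pc x₀ (r - ε) θ₀ ∈ W ∧ pc x₀ (r + ε) θ₀ ∈ W)
    (hind : ∀ γ : ℝ → ℂ, Continuous γ → (∀ t, γ t ∈ W) → (∃ ε, 0 < ε ∧ ε < ε₀ ∧
      γ 0 = pc x₀ (r + ε) θ₀ ∧ γ 1 = pc x₀ (r - ε) θ₀) →
      ∃ z, IsInd γ (pc x₀ r α) z ∧ IsInd γ (pc x₀ r β) z) : False := by
  have hαβ : α < β := hθ.1.trans hθ.2
  set a := pc x₀ r α with hadef
  set b := pc x₀ r β with hbdef
  have hident : ∀ ε, 0 < ε → ε < ε₀ →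
      (sepN x₀ r α β (pc x₀ (r - ε) θ₀)).arg - (sepN x₀ r α β (pc x₀ (r + ε) θ₀)).arg =
      ((pc x₀ (r - ε) θ₀ - a) / (pc x₀ (r + ε) θ₀ - a)).arg -
        ((pc x₀ (r - ε) θ₀ - b) / (pc x₀ (r + ε) θ₀ - b)).arg := by
    intro ε h1 h2
    obtain ⟨h3, h4⟩ := hside ε h1 h2
    have hconn : IsConnected W := ⟨⟨_, h3⟩, hWc⟩
    have hpath := hWo.isConnected_iff_isPathConnected.1 hconn
    have hj := hpath.joinedIn _ h4 _ h3
    obtain ⟨γ, hγ⟩ := hj
    have hmem : ∀ t : ℝ, γ.extend t ∈ W := fun t => by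
      rw [Path.extend]
      exact hγ _
    have h5 : ∀ t : ℝ, γ.extend t ∉ carc x₀ r α β := fun t ht =>
      disjoint_left.1 hW (hmem t) ht
    obtain ⟨z, hz1, hz2⟩ := hind γ.extend γ.continuous_extend hmem
      ⟨ε, h1, h2, γ.extend_zero, γ.extend_one⟩
    have := sep_ident hr hαβ hβ γ.continuous_extend h5 hz1 hz2
    rwa [γ.extend_one, γ.extend_zero] at this
  -- limits
  have hN := sepN_arc (x₀ := x₀) hr hβ hθ
  set m := pc x₀ r θ₀ with hm
  have hcm : Tendsto (fun ε : ℝ => pc x₀ (r - ε) θ₀) (𝓝[>] 0) (𝓝 m) := by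
    have : Continuous fun ε : ℝ => pc x₀ (r - ε) θ₀ := by unfold pc er; fun_prop
    have h2 := this.tendsto 0
    rw [sub_zero] at h2
    exact h2.mono_left nhdsWithin_le_nhds
  have hcp : Tendsto (fun ε : ℝ => pc x₀ (r + ε) θ₀) (𝓝[>] 0) (𝓝 m) := by
    have : Continuous fun ε : ℝ => pc x₀ (r + ε) θ₀ := by unfold pc er; fun_prop
    have h2 := this.tendsto 0
    rw [add_zero] at h2
    exact h2.mono_left nhdsWithin_le_nhds
  have hnorm : ∀ s : ℝ, 0 < s → ‖pc x₀ s θ₀ - x₀‖ = s := by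
    intro s hs
    have h1 : pc x₀ s θ₀ - x₀ = s * Complex.exp (θ₀ * Complex.I) := by rw [pc, er]; ring
    rw [h1, norm_mul, Complex.norm_exp_ofReal_mul_I, mul_one, Complex.norm_real, Real.norm_eq_abs,
      abs_of_pos hs]
  have hsin : 0 < Real.sin ((β - α) / 2) :=
    Real.sin_pos_of_pos_of_lt_pi (by linarith) (by linarith)
  have hsmall : ∀ᶠ ε : ℝ in 𝓝[>] 0, 0 < ε ∧ ε < r := by
    filter_upwards [Ioo_mem_nhdsGT hr] with ε hε
    exact hε
  have hlim1 : Tendsto (fun ε : ℝ => (sepN x₀ r α β (pc x₀ (r - ε) θ₀)).arg) (𝓝[>] 0)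
      (𝓝 (-Real.pi)) := by
    have h1 := Complex.tendsto_arg_nhdsWithin_im_neg_of_re_neg_of_im_zero hN.1 hN.2
    refine h1.comp ?_
    refine tendsto_nhdsWithin_iff.2 ⟨((sepN_continuous x₀ r α β).tendsto m).comp hcm, ?_⟩
    filter_upwards [hsmall] with ε hε
    change (sepN x₀ r α β (pc x₀ (r - ε) θ₀)).im < 0
    rw [(sepN_eq x₀ r α β _).1, hnorm _ (by linarith [hε.2])]
    have h2 : (r - ε) ^ 2 - r ^ 2 < 0 := by nlinarith [hε.1, hε.2]
    exact mul_neg_of_pos_of_neg hsin h2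
  have hlim2 : Tendsto (fun ε : ℝ => (sepN x₀ r α β (pc x₀ (r + ε) θ₀)).arg) (𝓝[>] 0)
      (𝓝 Real.pi) := by
    have h1 := Complex.continuousWithinAt_arg_of_re_neg_of_im_zero hN.1 hN.2
    have h2 : Complex.arg (sepN x₀ r α β m) = Real.pi := Complex.arg_eq_pi_iff.2 hN
    have h3 : Tendsto Complex.arg (𝓝[{z : ℂ | 0 ≤ z.im}] (sepN x₀ r α β m)) (𝓝 Real.pi) := by
      rw [← h2]
      exact h1
    refine h3.comp ?_
    refine tendsto_nhdsWithin_iff.2 ⟨((sepN_continuous x₀ r α β).tendsto m).comp hcp, ?_⟩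
    filter_upwards [hsmall] with ε hε
    change 0 ≤ (sepN x₀ r α β (pc x₀ (r + ε) θ₀)).im
    rw [(sepN_eq x₀ r α β _).1, hnorm _ (by linarith [hε.1])]
    have h2 : 0 ≤ (r + ε) ^ 2 - r ^ 2 := by nlinarith [hε.1, hε.2]
    exact mul_nonneg hsin.le h2
  have hlim3 : ∀ c : ℂ, m ≠ c → Tendsto (fun ε : ℝ =>
      ((pc x₀ (r - ε) θ₀ - c) / (pc x₀ (r + ε) θ₀ - c)).arg) (𝓝[>] 0) (𝓝 0) := by
    intro c hc
    have hmc : m - c ≠ 0 := sub_ne_zero.2 hc
    have h1 : Tendsto (fun ε : ℝ => (pc x₀ (r - ε) θ₀ - c) / (pc x₀ (r + ε) θ₀ - c)) (𝓝[>] 0)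
        (𝓝 ((m - c) / (m - c))) := (hcm.sub_const c).div (hcp.sub_const c) hmc
    rw [div_self hmc] at h1
    have h2 := (Complex.continuousAt_arg (x := 1) (by simp)).tendsto
    rw [Complex.arg_one] at h2
    exact h2.comp h1
  have hma : m ≠ a := by
    intro h0
    have h1 : sepN x₀ r α β m = 0 := by
      rw [h0, sepN, ← hadef, sub_self]
      ring
    rw [h1] at hN
    simp at hN
  have hmb : m ≠ b := by
    intro h0
    have h1 : sepN x₀ r α β m = 0 := by
      rw [h0, sepN, ← hbdef, sub_self]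
      simp
    rw [h1] at hN
    simp at hN
  have hL := hlim1.sub hlim2
  have hR := (hlim3 a hma).sub (hlim3 b hmb)
  have heq : (fun ε : ℝ => (sepN x₀ r α β (pc x₀ (r - ε) θ₀)).arg -
      (sepN x₀ r α β (pc x₀ (r + ε) θ₀)).arg) =ᶠ[𝓝[>] 0]
      (fun ε : ℝ => ((pc x₀ (r - ε) θ₀ - a) / (pc x₀ (r + ε) θ₀ - a)).arg -
        ((pc x₀ (r - ε) θ₀ - b) / (pc x₀ (r + ε) θ₀ - b)).arg) := by
    filter_upwards [Ioo_mem_nhdsGT hε₀] with ε hε
    exact hident ε hε.1 hε.2
  have := tendsto_nhds_unique (hL.congr' heq) hR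
  linarith [Real.pi_pos]

end Pool.Agent.MP099f24
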