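import Mathlib
import Pool.Agent.Lib.MP_099f24_an.SC.SepCore

/-!
# The separation lemma (MP_099f24_an)

`I₀` is an open arc of a circle, disjoint from a closed set `F`, with end points `a`, `b`.  If `a`
and `b` are in unbounded connected subsets of `F`, or in one connected subset of `F`, then the two
sides of `I₀` are in different components of the complement of `F ∪ closure I₀`.
-/

namespace Pool.Agent.MP099f24

open Filter Topology Set Metric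

theorem sep_norm_pc (x₀ : ℂ) (ρ θ : ℝ) : ‖pc x₀ ρ θ - x₀‖ = |ρ| := by
  have h1 : pc x₀ ρ θ - x₀ = ρ * Complex.exp (θ * Complex.I) := by rw [pc, er]; ring
  rw [h1, norm_mul, Complex.norm_exp_ofReal_mul_I, mul_one, Complex.norm_real, Real.norm_eq_abs]

theorem sep_pc_sub (x₀ : ℂ) (ρ r θ : ℝ) : dist (pc x₀ ρ θ) (pc x₀ r θ) = |ρ - r| := by
  have h1 : pc x₀ ρ θ - pc x₀ r θ = ((ρ - r : ℝ) : ℂ) * Complex.exp (θ * Complex.I) := by
    rw [pc, pc, er]; push_cast; ring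
  rw [dist_eq_norm, h1, norm_mul, Complex.norm_exp_ofReal_mul_I, mul_one, Complex.norm_real,
    Real.norm_eq_abs]

/-- the complement of a closed disc is connected -/
theorem sep_compl_closedBall (y : ℂ) (ρ : ℝ) : IsPreconnected (closedBall y ρ)ᶜ := by
  by_cases hρ : 0 ≤ ρ
  · have h1 : (closedBall y ρ)ᶜ = (fun p : ℝ × ℝ => pc y p.1 p.2) '' (Ioi ρ ×ˢ univ) := by
      ext z
      constructor
      · intro hz
        rw [mem_compl_iff, mem_closedBall, not_le, dist_eq_norm] at hz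
        refine ⟨(‖z - y‖, (z - y).arg), ⟨hz, trivial⟩, ?_⟩
        simp only [pc, er]
        rw [Complex.norm_mul_exp_arg_mul_I]
        ring
      · rintro ⟨⟨r, θ⟩, ⟨hr, -⟩, rfl⟩
        have hr' : ρ < r := hr
        rw [mem_compl_iff, mem_closedBall, not_le, dist_eq_norm]
        simp only
        rw [sep_norm_pc, abs_of_pos (hρ.trans_lt hr')]
        exact hr'
    rw [h1]
    exact (isPreconnected_Ioi.prod isPreconnected_univ).image _ (sep_pc_cont y).continuousOn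
  · have : closedBall y ρ = ∅ := closedBall_eq_empty.2 (not_le.1 hρ)
    rw [this, compl_empty]
    exact isPreconnected_univ

/-- a thin sector around a compact subarc does not meet `F` -/
theorem sep_thin {F : Set ℂ} (hF : IsClosed F) {x₀ : ℂ} {r α β : ℝ} (hr : 0 < r)
    (hI : ∀ θ ∈ Ioo α β, pc x₀ r θ ∉ F) {α' β' : ℝ} (h1 : α < α') (h2 : β' < β) :
    ∃ δ > 0, δ < r ∧ ∀ ρ θ, |ρ - r| < δ → θ ∈ Icc α' β' → pc x₀ ρ θ ∉ F := by
  have hc : IsCompact (carc x₀ r α' β') := carc_compact _ _ _ _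
  have hsub : carc x₀ r α' β' ⊆ Fᶜ := by
    rintro _ ⟨θ, hθ, rfl⟩
    exact hI θ ⟨h1.trans_le hθ.1, hθ.2.trans_lt h2⟩
  obtain ⟨δ, hδ, hsub'⟩ := hc.exists_thickening_subset_open hF.isOpen_compl hsub
  refine ⟨min δ (r / 2), by positivity, (min_le_right _ _).trans_lt (by linarith), ?_⟩
  intro ρ θ hρ hθ
  refine hsub' ?_
  rw [mem_thickening_iff]
  exact ⟨pc x₀ r θ, ⟨θ, hθ, rfl⟩, by
    rw [sep_pc_sub]
    exact hρ.trans_le (min_le_left _ _)⟩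

theorem sep_seg (x₀ : ℂ) {r ε θ : ℝ} (hε : 0 < ε) {z : ℂ}
    (hz : z ∈ segment ℝ (pc x₀ (r + ε) θ) (pc x₀ (r - ε) θ)) :
    ∃ ρ, |ρ - r| ≤ ε ∧ z = pc x₀ ρ θ := by
  rw [segment_eq_image] at hz
  obtain ⟨t, ht, rfl⟩ := hz
  refine ⟨r + ε - 2 * t * ε, ?_, ?_⟩
  · rw [abs_le]
    constructor <;> nlinarith [ht.1, ht.2]
  · simp only [pc, Complex.real_smul]
    push_cast
    ring

/-- The general form: the hypothesis `hind` says that the end points of the arc have the same index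
with respect to every path in the complement of `F ∪ closure I₀` that crosses the arc by a
radial segment. -/
theorem sep_general {F : Set ℂ} (hF : IsClosed F) {x₀ : ℂ} {r α β : ℝ} (hr : 0 < r)
    (hαβ : α < β) (hβ : β < α + 2 * Real.pi) (hI : ∀ θ ∈ Ioo α β, pc x₀ r θ ∉ F)
    (hind : ∀ γ : ℝ → ℂ, Continuous γ → (∀ t, γ t ∉ F ∪ carc x₀ r α β) →
      (∀ w ∈ segment ℝ (γ 0) (γ 1), w ∉ F) →
      ∃ z, IsInd γ (pc x₀ r α) z ∧ IsInd γ (pc x₀ r β) z) :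
    ∃ V V' : Set ℂ, IsOpen V ∧ IsOpen V' ∧ IsPreconnected V ∧ IsPreconnected V' ∧ Disjoint V V' ∧
      Disjoint V (F ∪ carc x₀ r α β) ∧ Disjoint V' (F ∪ carc x₀ r α β) ∧
      IsOpen ((F ∪ carc x₀ r α β)ᶜ \ V) ∧ IsOpen ((F ∪ carc x₀ r α β)ᶜ \ V') ∧
      (∀ x ∈ V, V = connectedComponentIn (F ∪ carc x₀ r α β)ᶜ x) ∧
      (∀ x ∈ V', V' = connectedComponentIn (F ∪ carc x₀ r α β)ᶜ x) ∧
      ∀ α' β', α < α' → β' < β → ∃ δ > 0, δ < r ∧ csec x₀ (r - δ) r α' β' ⊆ V ∧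
        csec x₀ r (r + δ) α' β' ⊆ V' := by
  classical
  set G : Set ℂ := (F ∪ carc x₀ r α β)ᶜ with hG
  have hGo : IsOpen G := (hF.union (carc_compact x₀ r α β).isClosed).isOpen_compl
  set θ₀ : ℝ := (α + β) / 2 with hθ₀
  have hθ₀m : θ₀ ∈ Ioo α β := ⟨by rw [hθ₀]; linarith, by rw [hθ₀]; linarith⟩
  -- sectors are in `G`
  have hcirc : ∀ ρ θ, ρ ≠ r → 0 < ρ → pc x₀ ρ θ ∉ carc x₀ r α β := by
    rintro ρ θ h1 h2 ⟨θ', -, h3⟩
    have h4 := sep_norm_pc x₀ r θ'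
    simp only at h3
    rw [h3, sep_norm_pc, abs_of_pos h2, abs_of_pos hr] at h4
    exact h1 h4
  have hsecG : ∀ α' β', α < α' → β' < β → ∃ δ > 0, δ < r ∧ csec x₀ (r - δ) r α' β' ⊆ G ∧
      csec x₀ r (r + δ) α' β' ⊆ G ∧ ∀ ρ θ, |ρ - r| < δ → θ ∈ Icc α' β' → pc x₀ ρ θ ∉ F := by
    intro α' β' h1 h2
    obtain ⟨δ, hδ, hδr, h3⟩ := sep_thin hF hr hI h1 h2
    refine ⟨δ, hδ, hδr, ?_, ?_, h3⟩
    · rintro _ ⟨⟨ρ, θ⟩, ⟨hρ, hθ⟩, rfl⟩
      simp only [mem_Ioo] at hρ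
      rintro (h | h)
      · exact h3 ρ θ (by rw [abs_lt]; constructor <;> linarith [hρ.1, hρ.2]) hθ h
      · exact hcirc ρ θ hρ.2.ne (by linarith [hρ.1]) h
    · rintro _ ⟨⟨ρ, θ⟩, ⟨hρ, hθ⟩, rfl⟩
      simp only [mem_Ioo] at hρ
      rintro (h | h)
      · exact h3 ρ θ (by rw [abs_lt]; constructor <;> linarith [hρ.1, hρ.2]) hθ h
      · exact hcirc ρ θ hρ.1.ne' (by linarith [hρ.1]) h
  obtain ⟨δ₁, hδ₁, hδ₁r, hin₁, hout₁, hnF₁⟩ := hsecG θ₀ θ₀ hθ₀m.1 hθ₀m.2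
  set p : ℂ := pc x₀ (r - δ₁ / 2) θ₀ with hp
  set q : ℂ := pc x₀ (r + δ₁ / 2) θ₀ with hq
  have hpm : p ∈ csec x₀ (r - δ₁) r θ₀ θ₀ :=
    ⟨(r - δ₁ / 2, θ₀), ⟨⟨by simp only; linarith, by simp only; linarith⟩, ⟨le_rfl, le_rfl⟩⟩, rfl⟩
  have hqm : q ∈ csec x₀ r (r + δ₁) θ₀ θ₀ :=
    ⟨(r + δ₁ / 2, θ₀), ⟨⟨by simp only; linarith, by simp only; linarith⟩, ⟨le_rfl, le_rfl⟩⟩, rfl⟩
  set V : Set ℂ := connectedComponentIn G p with hV
  set V' : Set ℂ := connectedComponentIn G q with hV'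
  have hVo : IsOpen V := hGo.connectedComponentIn
  have hVo' : IsOpen V' := hGo.connectedComponentIn
  have hVG : V ⊆ G := connectedComponentIn_subset _ _
  have hVG' : V' ⊆ G := connectedComponentIn_subset _ _
  -- the complement of a component in `G` is open
  have hcompl : ∀ c : ℂ, IsOpen (G \ connectedComponentIn G c) := by
    intro c
    rw [isOpen_iff_mem_nhds]
    rintro x ⟨hxG, hx⟩
    have h1 : connectedComponentIn G x ∈ 𝓝 x :=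
      (hGo.connectedComponentIn).mem_nhds (mem_connectedComponentIn hxG)
    filter_upwards [h1, hGo.mem_nhds hxG] with y hy hyG
    refine ⟨hyG, fun hy' => hx ?_⟩
    have h2 : connectedComponentIn G x = connectedComponentIn G y := connectedComponentIn_eq hy
    have h3 : connectedComponentIn G c = connectedComponentIn G y := connectedComponentIn_eq hy'
    rw [h3, ← h2]
    exact mem_connectedComponentIn hxG
  -- sectors in the components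
  have hin : ∀ α' β', α < α' → β' < β → α' ≤ θ₀ → θ₀ ≤ β' → ∃ δ > 0, δ < r ∧ δ ≤ δ₁ ∧
      csec x₀ (r - δ) r α' β' ⊆ V ∧ csec x₀ r (r + δ) α' β' ⊆ V' := by
    intro α' β' h1 h2 h3 h4
    obtain ⟨δ₂, hδ₂, hδ₂r, hin₂, hout₂, -⟩ := hsecG α' β' h1 h2
    set δ := min δ₁ δ₂ with hδ
    have hδpos : 0 < δ := lt_min hδ₁ hδ₂
    refine ⟨δ, hδpos, (min_le_left _ _).trans_lt hδ₁r, min_le_left _ _, ?_, ?_⟩
    · -- `csec (r - δ₁) r θ₀ θ₀ ⊆ V`
      have h5 : csec x₀ (r - δ₁) r θ₀ θ₀ ⊆ V :=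
        (csec_preconnected _ _ _ _ _).subset_connectedComponentIn hpm hin₁
      have h6 : pc x₀ (r - δ / 2) θ₀ ∈ V := h5
        ⟨(r - δ / 2, θ₀), ⟨⟨by simp only; linarith [min_le_left δ₁ δ₂], by simp only; linarith⟩,
          ⟨le_rfl, le_rfl⟩⟩, rfl⟩
      have h7 : csec x₀ (r - δ) r α' β' ⊆ G := by
        rintro _ ⟨⟨ρ, θ⟩, ⟨hρ, hθ⟩, rfl⟩
        exact hin₂ ⟨(ρ, θ), ⟨⟨by linarith [hρ.1, min_le_right δ₁ δ₂], hρ.2⟩, hθ⟩, rfl⟩
      have h8 : V = connectedComponentIn G (pc x₀ (r - δ / 2) θ₀) := connectedComponentIn_eq h6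
      rw [h8]
      exact (csec_preconnected _ _ _ _ _).subset_connectedComponentIn
        ⟨(r - δ / 2, θ₀), ⟨⟨by simp only; linarith, by simp only; linarith⟩, ⟨h3, h4⟩⟩, rfl⟩ h7
    · have h5 : csec x₀ r (r + δ₁) θ₀ θ₀ ⊆ V' :=
        (csec_preconnected _ _ _ _ _).subset_connectedComponentIn hqm hout₁
      have h6 : pc x₀ (r + δ / 2) θ₀ ∈ V' := h5
        ⟨(r + δ / 2, θ₀), ⟨⟨by simp only; linarith, by simp only; linarith [min_le_left δ₁ δ₂]⟩,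
          ⟨le_rfl, le_rfl⟩⟩, rfl⟩
      have h7 : csec x₀ r (r + δ) α' β' ⊆ G := by
        rintro _ ⟨⟨ρ, θ⟩, ⟨hρ, hθ⟩, rfl⟩
        exact hout₂ ⟨(ρ, θ), ⟨⟨hρ.1, by linarith [hρ.2, min_le_right δ₁ δ₂]⟩, hθ⟩, rfl⟩
      have h8 : V' = connectedComponentIn G (pc x₀ (r + δ / 2) θ₀) := connectedComponentIn_eq h6
      rw [h8]
      exact (csec_preconnected _ _ _ _ _).subset_connectedComponentIn
        ⟨(r + δ / 2, θ₀), ⟨⟨by simp only; linarith, by simp only; linarith⟩, ⟨h3, h4⟩⟩, rfl⟩ h7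
  have hdisj : Disjoint V V' := by
    by_contra hcon
    obtain ⟨x, hx, hx'⟩ := not_disjoint_iff.1 hcon
    have hVV : V = V' := (connectedComponentIn_eq hx).trans (connectedComponentIn_eq hx').symm
    obtain ⟨δ, hδ, hδr, hδδ, h1, h2⟩ := hin θ₀ θ₀ hθ₀m.1 hθ₀m.2 le_rfl le_rfl
    rw [← hVV] at h2
    refine sep_core (x₀ := x₀) (W := V) hr hβ hθ₀m hVo isPreconnected_connectedComponentIn ?_ hδ ?_ ?_
    · exact disjoint_left.2 fun x hx hxc => hVG hx (Or.inr hxc)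
    · intro ε hε hεδ
      exact ⟨h1 ⟨(r - ε, θ₀), ⟨⟨by simp only; linarith, by simp only; linarith⟩,
          ⟨le_rfl, le_rfl⟩⟩, rfl⟩,
        h2 ⟨(r + ε, θ₀), ⟨⟨by simp only; linarith, by simp only; linarith⟩, ⟨le_rfl, le_rfl⟩⟩, rfl⟩⟩
    · rintro γ hγ hγV ⟨ε, hε, hεδ, e0, e1⟩
      refine hind γ hγ (fun t => hVG (hγV t)) ?_
      intro w hw
      rw [e0, e1] at hw
      obtain ⟨ρ, hρ, rfl⟩ := sep_seg x₀ hε hw
      exact hnF₁ ρ θ₀ (by linarith) ⟨le_rfl, le_rfl⟩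
  refine ⟨V, V', hVo, hVo', isPreconnected_connectedComponentIn,
    isPreconnected_connectedComponentIn, hdisj, ?_, ?_, hcompl p, hcompl q,
    fun x hx => connectedComponentIn_eq hx, fun x hx => connectedComponentIn_eq hx, ?_⟩
  · exact disjoint_left.2 fun x hx hxc => hVG hx hxc
  · exact disjoint_left.2 fun x hx hxc => hVG' hx hxc
  · intro α' β' h1 h2
    obtain ⟨δ, hδ, hδr, -, h3, h4⟩ := hin (min α' θ₀) (max β' θ₀) (lt_min h1 hθ₀m.1)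
      (max_lt h2 hθ₀m.2) (min_le_right _ _) (le_max_right _ _)
    refine ⟨δ, hδ, hδr, ?_, ?_⟩
    · refine Subset.trans ?_ h3
      exact image_mono (prod_mono_right (Icc_subset_Icc (min_le_left _ _) (le_max_left _ _)))
    · refine Subset.trans ?_ h4
      exact image_mono (prod_mono_right (Icc_subset_Icc (min_le_left _ _) (le_max_left _ _)))

/-- **Separation lemma, global version**: the end points are in unbounded connected subsets. -/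
theorem sep_global {F : Set ℂ} (hF : IsClosed F) {x₀ : ℂ} {r α β : ℝ} (hr : 0 < r)
    (hαβ : α < β) (hβ : β < α + 2 * Real.pi) (hI : ∀ θ ∈ Ioo α β, pc x₀ r θ ∉ F)
    (hA : ∃ A ⊆ F, IsPreconnected A ∧ pc x₀ r α ∈ A ∧ ¬ Bornology.IsBounded A)
    (hB : ∃ B ⊆ F, IsPreconnected B ∧ pc x₀ r β ∈ B ∧ ¬ Bornology.IsBounded B) :
    ∃ V V' : Set ℂ, IsOpen V ∧ IsOpen V' ∧ IsPreconnected V ∧ IsPreconnected V' ∧ Disjoint V V' ∧
      Disjoint V (F ∪ carc x₀ r α β) ∧ Disjoint V' (F ∪ carc x₀ r α β) ∧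
      IsOpen ((F ∪ carc x₀ r α β)ᶜ \ V) ∧ IsOpen ((F ∪ carc x₀ r α β)ᶜ \ V') ∧
      (∀ x ∈ V, V = connectedComponentIn (F ∪ carc x₀ r α β)ᶜ x) ∧
      (∀ x ∈ V', V' = connectedComponentIn (F ∪ carc x₀ r α β)ᶜ x) ∧
      ∀ α' β', α < α' → β' < β → ∃ δ > 0, δ < r ∧ csec x₀ (r - δ) r α' β' ⊆ V ∧
        csec x₀ r (r + δ) α' β' ⊆ V' := by
  refine sep_general hF hr hαβ hβ hI ?_
  intro γ hγ h1 h2
  obtain ⟨A, hAF, hAc, haA, hAu⟩ := hA
  obtain ⟨B, hBF, hBc, hbB, hBu⟩ := hB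
  refine ⟨0, isInd_unbounded hγ hAc hAu ?_ ?_ haA, isInd_unbounded hγ hBc hBu ?_ ?_ hbB⟩
  · rintro w hw t rfl
    exact h1 t (Or.inl (hAF hw))
  · exact fun w hw hs => h2 w hs (hAF hw)
  · rintro w hw t rfl
    exact h1 t (Or.inl (hBF hw))
  · exact fun w hw hs => h2 w hs (hBF hw)

/-- **Separation lemma**: the end points are in one connected subset. -/
theorem sep_conn {F : Set ℂ} (hF : IsClosed F) {x₀ : ℂ} {r α β : ℝ} (hr : 0 < r)
    (hαβ : α < β) (hβ : β < α + 2 * Real.pi) (hI : ∀ θ ∈ Ioo α β, pc x₀ r θ ∉ F)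
    (hA : ∃ A ⊆ F, IsPreconnected A ∧ pc x₀ r α ∈ A ∧ pc x₀ r β ∈ A) :
    ∃ V V' : Set ℂ, IsOpen V ∧ IsOpen V' ∧ IsPreconnected V ∧ IsPreconnected V' ∧ Disjoint V V' ∧
      Disjoint V (F ∪ carc x₀ r α β) ∧ Disjoint V' (F ∪ carc x₀ r α β) ∧
      IsOpen ((F ∪ carc x₀ r α β)ᶜ \ V) ∧ IsOpen ((F ∪ carc x₀ r α β)ᶜ \ V') ∧
      (∀ x ∈ V, V = connectedComponentIn (F ∪ carc x₀ r α β)ᶜ x) ∧
      (∀ x ∈ V', V' = connectedComponentIn (F ∪ carc x₀ r α β)ᶜ x) ∧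
      ∀ α' β', α < α' → β' < β → ∃ δ > 0, δ < r ∧ csec x₀ (r - δ) r α' β' ⊆ V ∧
        csec x₀ r (r + δ) α' β' ⊆ V' := by
  refine sep_general hF hr hαβ hβ hI ?_
  intro γ hγ h1 h2
  obtain ⟨A, hAF, hAc, haA, hbA⟩ := hA
  have h3 : ∀ w ∈ A, ∀ t, γ t ≠ w := by
    rintro w hw t rfl
    exact h1 t (Or.inl (hAF hw))
  obtain ⟨z, hz⟩ := isInd_exists hγ (h3 _ haA)
  exact ⟨z, hz, isInd_connected hγ hAc h3 (fun w hw hs => h2 w hs (hAF hw)) haA hbA hz⟩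

/-- **Separation lemma, local version**: the end points are in a compact connected set `C`; one of
the two sides is in a component `V` of the complement of `C ∪ closure I₀` contained in any given
closed ball that contains `C ∪ closure I₀`. -/
theorem sep_local {C : Set ℂ} (hC : IsCompact C) (hCc : IsPreconnected C) {x₀ : ℂ} {r α β : ℝ}
    (hr : 0 < r) (hαβ : α < β) (hβ : β < α + 2 * Real.pi) (hI : ∀ θ ∈ Ioo α β, pc x₀ r θ ∉ C)
    (ha : pc x₀ r α ∈ C) (hb : pc x₀ r β ∈ C) {y : ℂ} {ρ : ℝ}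
    (hball : C ∪ carc x₀ r α β ⊆ closedBall y ρ) :
    ∃ V : Set ℂ, IsOpen V ∧ IsPreconnected V ∧ V ⊆ closedBall y ρ ∧
      Disjoint V (C ∪ carc x₀ r α β) ∧ IsOpen ((C ∪ carc x₀ r α β)ᶜ \ V) ∧
      ((∀ α' β', α < α' → β' < β → ∃ δ > 0, δ < r ∧ csec x₀ (r - δ) r α' β' ⊆ V ∧
        Disjoint (csec x₀ r (r + δ) α' β') V) ∨
       (∀ α' β', α < α' → β' < β → ∃ δ > 0, δ < r ∧ csec x₀ r (r + δ) α' β' ⊆ V ∧
        Disjoint (csec x₀ (r - δ) r α' β') V)) := by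
  obtain ⟨V, V', hV, hV', hVc, hVc', hd, h1, h1', h2, h2', h3, h3', h4⟩ :=
    sep_conn hC.isClosed hr hαβ hβ hI ⟨C, Subset.rfl, hCc, ha, hb⟩
  have hcompl : IsPreconnected (closedBall y ρ)ᶜ := sep_compl_closedBall y ρ
  have hsub : (closedBall y ρ)ᶜ ⊆ (C ∪ carc x₀ r α β)ᶜ := compl_subset_compl.2 hball
  by_cases hVb : V ⊆ closedBall y ρ
  · refine ⟨V, hV, hVc, hVb, h1, h2, Or.inl ?_⟩
    intro α' β' g1 g2
    obtain ⟨δ, hδ, hδr, g3, g4⟩ := h4 α' β' g1 g2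
    exact ⟨δ, hδ, hδr, g3, (hd.mono_right g4).symm⟩
  · obtain ⟨x, hxV, hx⟩ := not_subset.1 hVb
    have h5 : (closedBall y ρ)ᶜ ⊆ V := by
      rw [h3 x hxV]
      exact hcompl.subset_connectedComponentIn hx hsub
    have h6 : V' ⊆ closedBall y ρ := by
      intro z hz
      by_contra hcon
      exact disjoint_left.1 hd (h5 hcon) hz
    refine ⟨V', hV', hVc', h6, h1', h2', Or.inr ?_⟩
    intro α' β' g1 g2
    obtain ⟨δ, hδ, hδr, g3, g4⟩ := h4 α' β' g1 g2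
    exact ⟨δ, hδ, hδr, g4, hd.mono_left g3⟩

end Pool.Agent.MP099f24
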