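import Mathlib
import Pool.Agent.Lib.MP_099f24_an.SD.Defs
import Pool.Agent.Lib.MP_099f24_an.SC.Sep
import Pool.Agent.Lib.MP_099f24_an.Moll

/-!
# The conjugate function: definitions (MP_099f24_an)
-/

namespace Pool.Agent.MP099f24

open MeasureTheory Filter Topology Set Metric
open scoped ENNReal ContDiff

/-- the real linear form `h ↦ ⟨w, h⟩` on the plane -/
noncomputable def ilin (w : ℂ) : ℂ →L[ℝ] ℝ := innerSL ℝ w

/-- `v` is continuous on the open set `U`, vanishes on `K`, and off `K` it is differentiable with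
gradient `I g`, where `conj g` is holomorphic off `K` (so `g` is the gradient of a harmonic function
with conjugate `v`); the length of `K` and the energy of `g` are locally finite in `U`. -/
structure CJ (U K : Set ℂ) (v : ℂ → ℝ) (g : ℂ → ℂ) : Prop where
  isOpen : IsOpen U
  open_compl : IsOpen (U \ K)
  cont : ContinuousOn v U
  zero : ∀ x ∈ U ∩ K, v x = 0
  hol : DifferentiableOn ℂ (fun x => (starRingEnd ℂ) (g x)) (U \ K)
  grad : ∀ x ∈ U \ K, HasFDerivAt v (ilin (Complex.I * g x)) x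
  meas_g : Measurable g
  len : ∀ C, IsCompact C → C ⊆ U → (μH[1] : Measure ℂ) (K ∩ C) < ⊤
  fin : ∀ C, IsCompact C → C ⊆ U → IntegrableOn (fun x => ‖g x‖ ^ 2) C

/-- every closed arc of angle `κ` of the circle `|z - x| = s` meets `K` -/
def ArcsLE (K : Set ℂ) (x : ℂ) (s κ : ℝ) : Prop := ∀ θ : ℝ, ∃ θ' ∈ Icc θ (θ + κ), pc x s θ' ∈ K

/-- the mollified conjugate function (normalised to vanish at `x₀`) -/
noncomputable def cjE (g : ℂ → ℂ) (x₀ : ℂ) (ε : ℝ) (z : ℂ) : ℝ :=
  ∫ t in (0 : ℝ)..1, inner ℝ (Complex.I * ∫ y, moll y • g (x₀ + t • (z - x₀) - ε • y)) (z - x₀)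

theorem ilin_apply (w h : ℂ) : ilin w h = inner ℝ w h := rfl

end Pool.Agent.MP099f24
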