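import Mathlib
import Pool.Agent.Lib.MP_099f24_an.SC.CJDefs
import Pool.Agent.Lib.MP_099f24_an.SD.Outer
import Pool.Agent.Lib.MP_099f24_an.SD.Fvar
import Pool.Agent.Lib.MP_099f24_an.EA.Finald
import Pool.Agent.Lib.MP_099f24_an.TM.Bas

/-!
# The Caccioppoli identity for the conjugate function (MP_099f24_an)
-/

namespace Pool.Agent.MP099f24

open MeasureTheory Filter Topology Set Metric
open scoped ENNReal ContDiff

/-! ### The field `I g` is divergence free -/

theorem cacc_smooth_g {W : Set ℂ} (hW : IsOpen W) {g : ℂ → ℂ}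
    (hg : DifferentiableOn ℂ (fun x => (starRingEnd ℂ) (g x)) W) : ContDiffOn ℝ ∞ g W := by
  have h1 : ContDiffOn ℂ ∞ (fun x => (starRingEnd ℂ) (g x)) W := hg.contDiffOn hW
  have h2 : ContDiffOn ℝ ∞ (fun x => (starRingEnd ℂ) (g x)) W := h1.restrict_scalars ℝ
  have h3 : ContDiffOn ℝ ∞ (fun x => Complex.conjCLE ((starRingEnd ℂ) (g x))) W :=
    Complex.conjCLE.contDiff.comp_contDiffOn h2
  refine h3.congr fun x _ => ?_
  simp

theorem cacc_fderiv_g {W : Set ℂ} (hW : IsOpen W) {g : ℂ → ℂ}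
    (hg : DifferentiableOn ℂ (fun x => (starRingEnd ℂ) (g x)) W) {x : ℂ} (hx : x ∈ W) :
    ∃ c : ℂ, ∀ v, fderiv ℝ g x v = (starRingEnd ℂ) (c * v) := by
  have h1 : HasDerivAt (fun x => (starRingEnd ℂ) (g x))
      (deriv (fun x => (starRingEnd ℂ) (g x)) x) x :=
    ((hg x hx).differentiableAt (hW.mem_nhds hx)).hasDerivAt
  set c := deriv (fun x => (starRingEnd ℂ) (g x)) x with hcdef
  have h2 := h1.hasFDerivAt.restrictScalars ℝ
  have h3 := (Complex.conjCLE.toContinuousLinearMap.hasFDerivAt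
    (x := (starRingEnd ℂ) (g x))).comp x h2
  have h4 : (Complex.conjCLE.toContinuousLinearMap ∘ fun x => (starRingEnd ℂ) (g x)) = g := by
    funext y
    simp
  rw [h4] at h3
  refine ⟨c, fun v => ?_⟩
  rw [h3.fderiv]
  simp [mul_comm]

theorem cacc_div {W : Set ℂ} (hW : IsOpen W) {g : ℂ → ℂ}
    (hg : DifferentiableOn ℂ (fun x => (starRingEnd ℂ) (g x)) W) {η : ℂ → ℝ}
    (hη : ContDiff ℝ ∞ η) (hc : HasCompactSupport η) (hs : tsupport η ⊆ W) :
    ∫ x, fderiv ℝ η x (Complex.I * g x) = 0 := by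
  set X : ℂ → ℂ := fun x => η x • (Complex.I * g x) with hXdef
  have hgs := cacc_smooth_g hW hg
  have hX0 : ∀ x, x ∉ tsupport η → X =ᶠ[𝓝 x] fun _ => 0 := by
    intro x hx
    filter_upwards [(isClosed_tsupport η).isOpen_compl.mem_nhds hx] with y hy
    rw [hXdef]
    simp [image_eq_zero_of_notMem_tsupport hy]
  have hX : ContDiff ℝ ∞ X := by
    rw [contDiff_iff_contDiffAt]
    intro x
    by_cases hx : x ∈ tsupport η
    · have h1 : ContDiffAt ℝ ∞ g x := hgs.contDiffAt (hW.mem_nhds (hs hx))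
      exact hη.contDiffAt.smul (contDiffAt_const.mul h1)
    · exact contDiffAt_const.congr_of_eventuallyEq (hX0 x hx)
  have hXsub : tsupport X ⊆ tsupport η := by
    refine closure_mono fun x hx => ?_
    intro h0
    apply hx
    simp [hXdef, h0]
  have hXc : HasCompactSupport X := IsCompact.of_isClosed_subset hc (isClosed_tsupport _) hXsub
  have key : ∀ x, fderiv ℝ η x (Complex.I * g x) =
      (fderiv ℝ X x 1).re + (fderiv ℝ X x Complex.I).im := by
    intro x
    by_cases hx : x ∈ tsupport η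
    · obtain ⟨c, hc⟩ := cacc_fderiv_g hW hg (hs hx)
      have h1 : ContDiffAt ℝ ∞ g x := hgs.contDiffAt (hW.mem_nhds (hs hx))
      have h2 : HasFDerivAt g (fderiv ℝ g x) x := (h1.differentiableAt (by simp)).hasFDerivAt
      have h3 : HasFDerivAt η (fderiv ℝ η x) x := (hη.differentiable (by simp) x).hasFDerivAt
      have h4 := h3.smul (h2.const_mul Complex.I)
      have h5 : fderiv ℝ X x = _ := h4.fderiv
      rw [h5]
      have h6 : fderiv ℝ η x (Complex.I * g x) = (Complex.I * g x).re * fderiv ℝ η x 1 +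
          (Complex.I * g x).im * fderiv ℝ η x Complex.I := by
        have hv : Complex.I * g x = (Complex.I * g x).re • (1 : ℂ) +
            (Complex.I * g x).im • Complex.I := by
          rw [Complex.real_smul, Complex.real_smul, mul_one, Complex.re_add_im]
        conv_lhs => rw [hv]
        rw [map_add, map_smul, map_smul, smul_eq_mul, smul_eq_mul]
      rw [h6]
      simp only [add_apply, smul_apply, ContinuousLinearMap.smulRight_apply, hc]
      simp
      ring
    · have h1 : fderiv ℝ X x = 0 := by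
        rw [(hX0 x hx).fderiv_eq]
        simp
      have h2 : fderiv ℝ η x = 0 := fderiv_of_notMem_tsupport ℝ hx
      rw [h1, h2]
      simp
  have i1 : Integrable fun x => fderiv ℝ X x 1 := eafinald_int hX hXc 1
  have i2 : Integrable fun x => fderiv ℝ X x Complex.I := eafinald_int hX hXc Complex.I
  have e1 : ∫ x, (fderiv ℝ X x 1).re = 0 := by
    have := Complex.reCLM.integral_comp_comm i1
    rw [eafinald_integral_fderiv hX hXc] at this
    simpa using this
  have e2 : ∫ x, (fderiv ℝ X x Complex.I).im = 0 := by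
    have := Complex.imCLM.integral_comp_comm i2
    rw [eafinald_integral_fderiv hX hXc] at this
    simpa using this
  have j1 : Integrable fun x => (fderiv ℝ X x 1).re := Complex.reCLM.integrable_comp i1
  have j2 : Integrable fun x => (fderiv ℝ X x Complex.I).im := Complex.imCLM.integrable_comp i2
  calc ∫ x, fderiv ℝ η x (Complex.I * g x)
      = ∫ x, ((fderiv ℝ X x 1).re + (fderiv ℝ X x Complex.I).im) :=
        integral_congr_ae (Eventually.of_forall key)
    _ = 0 := by rw [integral_add j1 j2, e1, e2, add_zero]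

/-! ### Null sets -/

section Null

variable {U K : Set ℂ} {v : ℂ → ℝ} {g : ℂ → ℂ}

theorem cacc_volume_zero (h : CJ U K v g) : volume (K ∩ U) = 0 := by
  refine measure_null_of_locally_null _ fun x hx => ?_
  obtain ⟨r, hr, hrΩ⟩ := Metric.nhds_basis_closedBall.mem_iff.1 (h.isOpen.mem_nhds hx.2)
  refine ⟨(K ∩ U) ∩ closedBall x r, inter_mem self_mem_nhdsWithin
    (mem_nhdsWithin_of_mem_nhds (closedBall_mem_nhds x hr)), ?_⟩
  refine measure_mono_null ?_ (tm_volume_zero (h.len _ (isCompact_closedBall x r) hrΩ))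
  rintro y ⟨⟨h1, -⟩, h2⟩
  exact ⟨h1, h2⟩

/-- the gradient vanishes almost everywhere on the zero set -/
theorem cacc_zero_set {W : Set ℂ} (hW : IsOpen W) {v : ℂ → ℝ} {G : ℂ → ℂ}
    (hv : ∀ x ∈ W, HasFDerivAt v (ilin (G x)) x) :
    ∀ᵐ x ∂(volume : Measure ℂ), x ∈ W → v x = 0 → G x = 0 := by
  set s : Set ℂ := {x | x ∈ W ∧ v x = 0} with hsdef
  have hvc : ContinuousOn v W := fun x hx => (hv x hx).continuousAt.continuousWithinAt
  have hs : MeasurableSet s := by
    obtain ⟨u, hu, hu2⟩ := (continuousOn_iff_isClosed.1 hvc) {0} isClosed_singleton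
    have h1 : s = v ⁻¹' {0} ∩ W := by
      ext x
      simp [hsdef, and_comm]
    rw [h1, hu2]
    exact hu.measurableSet.inter hW.measurableSet
  have h2 : ApproximatesLinearOn (fun x => (v x : ℂ)) (0 : ℂ →L[ℝ] ℂ) s 0 := by
    intro x hx y hy
    simp [hx.2, hy.2]
  have h3 := h2.norm_fderiv_sub_le volume hs
    (fun x => Complex.ofRealCLM.comp (ilin (G x))) (fun x hx => by
      have h4 := (Complex.ofRealCLM.hasFDerivAt (x := v x)).comp x (hv x hx.1)
      exact h4.hasFDerivWithinAt)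
  rw [ae_restrict_iff' hs] at h3
  filter_upwards [h3] with x hx hxW hx0
  have h5 := hx ⟨hxW, hx0⟩
  rw [sub_zero] at h5
  have h6 : Complex.ofRealCLM.comp (ilin (G x)) = 0 := by
    have : ‖Complex.ofRealCLM.comp (ilin (G x))‖₊ = 0 := le_antisymm h5 bot_le
    exact nnnorm_eq_zero.1 this
  have h7 := congrArg (fun L : ℂ →L[ℝ] ℂ => L (G x)) h6
  simp [ilin_apply] at h7
  exact h7

end Null

/-! ### Truncations -/

/-- the bump function of the truncation -/
noncomputable def caccB : ContDiffBump (0 : ℝ) := ⟨1, 2, one_pos, one_lt_two⟩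

/-- smooth truncation, zero near zero -/
noncomputable def caccT (n : ℕ) (s : ℝ) : ℝ := s * (1 - caccB ((n + 1) * s))

theorem caccT_contDiff (n : ℕ) : ContDiff ℝ ∞ (caccT n) := by
  unfold caccT
  exact contDiff_id.mul (contDiff_const.sub (caccB.contDiff.comp (contDiff_const.mul contDiff_id)))

theorem caccB_mem (t : ℝ) : 0 ≤ caccB t ∧ caccB t ≤ 1 := ⟨caccB.nonneg, caccB.le_one⟩

theorem caccT_zero (n : ℕ) {s : ℝ} (hs : |s| < 1 / (n + 1)) : caccT n s = 0 := by
  have h1 : ((n : ℝ) + 1) * s ∈ closedBall (0 : ℝ) caccB.rIn := by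
    have : caccB.rIn = 1 := rfl
    rw [this, mem_closedBall, Real.dist_eq, sub_zero, abs_mul, abs_of_pos (by positivity)]
    rw [lt_div_iff₀ (by positivity)] at hs
    linarith
  unfold caccT
  rw [caccB.one_of_mem_closedBall h1, sub_self, mul_zero]

theorem caccT_abs_le (n : ℕ) (s : ℝ) : |caccT n s| ≤ |s| := by
  unfold caccT
  have h := caccB_mem ((n + 1) * s)
  rw [abs_mul, abs_of_nonneg (a := 1 - caccB ((n + 1) * s)) (by linarith [h.2])]
  exact mul_le_of_le_one_right (abs_nonneg _) (by linarith [h.1])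

theorem caccT_eq (n : ℕ) {s : ℝ} (hs : 2 < (n + 1) * |s|) : caccT n s = s := by
  unfold caccT
  have h1 : caccB (((n : ℝ) + 1) * s) = 0 := by
    apply caccB.zero_of_le_dist
    have : caccB.rOut = 2 := rfl
    rw [this, Real.dist_eq, sub_zero, abs_mul, abs_of_pos (by positivity : (0 : ℝ) < n + 1)]
    exact hs.le
  rw [h1, sub_zero, mul_one]

theorem caccT_ev (n : ℕ) {s : ℝ} (hs : 2 < (n + 1) * |s|) : caccT n =ᶠ[𝓝 s] id := by
  have h1 : IsOpen {y : ℝ | 2 < ((n : ℝ) + 1) * |y|} :=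
    isOpen_lt continuous_const (continuous_const.mul continuous_abs)
  filter_upwards [h1.mem_nhds hs] with y hy
  exact caccT_eq n hy

theorem caccT_deriv_eq (n : ℕ) {s : ℝ} (hs : 2 < (n + 1) * |s|) : deriv (caccT n) s = 1 := by
  rw [(caccT_ev n hs).deriv_eq]
  exact deriv_id s

theorem caccT_large {s : ℝ} (hs : s ≠ 0) : ∀ᶠ n : ℕ in atTop, 2 < ((n : ℝ) + 1) * |s| := by
  have h1 : Tendsto (fun n : ℕ => ((n : ℝ) + 1) * |s|) atTop atTop :=
    (tendsto_atTop_add_const_right _ _ tendsto_natCast_atTop_atTop).atTop_mul_const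
      (abs_pos.2 hs)
  exact h1.eventually_gt_atTop 2

theorem caccT_deriv_bound : ∃ C : ℝ, ∀ (n : ℕ) (s : ℝ), |deriv (caccT n) s| ≤ C := by
  have hB : ContDiff ℝ ∞ (caccB : ℝ → ℝ) := caccB.contDiff
  have h1 : Continuous fun t : ℝ => t * deriv caccB t :=
    continuous_id.mul (hB.continuous_deriv (by simp))
  have h2 : HasCompactSupport fun t : ℝ => t * deriv caccB t :=
    (caccB.hasCompactSupport.deriv).mul_left
  obtain ⟨C, hC⟩ := h2.exists_bound_of_continuous h1
  refine ⟨1 + C, fun n s => ?_⟩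
  have h3 : HasDerivAt (caccB : ℝ → ℝ) (deriv caccB ((n + 1) * s)) ((n + 1) * s) :=
    (hB.differentiable (by simp) _).hasDerivAt
  have h4 : HasDerivAt (fun s : ℝ => ((n : ℝ) + 1) * s) ((n : ℝ) + 1) s := by
    simpa using (hasDerivAt_id s).const_mul ((n : ℝ) + 1)
  have h5 := (hasDerivAt_id s).mul ((h3.comp s h4).const_sub 1)
  have h6 : deriv (caccT n) s = 1 * (1 - caccB ((n + 1) * s)) +
      s * -(deriv caccB ((n + 1) * s) * (n + 1)) := h5.deriv
  rw [h6]
  have h7 := hC ((n + 1) * s)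
  rw [Real.norm_eq_abs] at h7
  have h8 := caccB_mem ((n + 1) * s)
  have h9 : 1 * (1 - caccB ((n + 1) * s)) + s * -(deriv caccB ((n + 1) * s) * (n + 1)) =
      (1 - caccB ((n + 1) * s)) - ((n + 1) * s) * deriv caccB ((n + 1) * s) := by ring
  rw [h9]
  have h10 := abs_le.1 h7
  rw [abs_le]
  constructor <;> linarith [h10.1, h10.2, h8.1, h8.2]

/-! ### The truncated identity -/

section Ident

variable {U K : Set ℂ} {v : ℂ → ℝ} {g : ℂ → ℂ}

theorem cacc_smooth_v (h : CJ U K v g) : ContDiffOn ℝ ∞ v (U \ K) := by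
  rw [contDiffOn_infty_iff_fderiv_of_isOpen h.open_compl]
  refine ⟨fun x hx => (h.grad x hx).differentiableAt.differentiableWithinAt, ?_⟩
  have h1 : ContDiffOn ℝ ∞ (fun x => ilin (Complex.I * g x)) (U \ K) := by
    rw [contDiffOn_clm_apply]
    intro y
    have h2 : ContDiffOn ℝ ∞ (fun x => Complex.I * g x) (U \ K) :=
      contDiffOn_const.mul (cacc_smooth_g h.open_compl h.hol)
    exact h2.inner ℝ contDiffOn_const
  exact h1.congr fun x hx => (h.grad x hx).fderiv

theorem cacc_trunc (h : CJ U K v g) {φ : ℂ → ℝ} (hφ : ContDiff ℝ ∞ φ) (hc : HasCompactSupport φ)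
    (hs : tsupport φ ⊆ U) {T : ℝ → ℝ} (hT : ContDiff ℝ ∞ T) {δ : ℝ} (hδ : 0 < δ)
    (hT0 : ∀ s, |s| < δ → T s = 0) :
    ∫ x in U, (φ x * deriv T (v x) * ‖g x‖ ^ 2 +
      T (v x) * inner ℝ (Complex.I * g x) (outer_grad φ x)) = 0 := by
  set η : ℂ → ℝ := fun x => φ x * T (v x) with hηdef
  set Z : Set ℂ := tsupport φ ∩ (fun x => |v x|) ⁻¹' Ici δ with hZdef
  have hZ : IsClosed Z :=
    ((h.cont.mono hs).abs).preimage_isClosed_of_isClosed (isClosed_tsupport _) isClosed_Ici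
  have hZW : Z ⊆ U \ K := by
    rintro x ⟨h1, h2⟩
    refine ⟨hs h1, fun hK => ?_⟩
    have h3 := h.zero x ⟨hs h1, hK⟩
    simp only [mem_preimage, mem_Ici, h3, abs_zero] at h2
    linarith
  have hη0 : ∀ x, x ∉ Z → η x = 0 := by
    intro x hx
    by_cases h1 : x ∈ tsupport φ
    · have h2 : |v x| < δ := by
        by_contra h3
        exact hx ⟨h1, not_lt.1 h3⟩
      simp only [hηdef, hT0 _ h2, mul_zero]
    · simp only [hηdef, image_eq_zero_of_notMem_tsupport h1, zero_mul]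
  have hts : tsupport η ⊆ Z := by
    refine closure_minimal (fun x hx => ?_) hZ
    by_contra h1
    exact hx (hη0 x h1)
  have hηc : HasCompactSupport η :=
    IsCompact.of_isClosed_subset hc (isClosed_tsupport _) (hts.trans inter_subset_left)
  have hηev : ∀ x, x ∉ Z → η =ᶠ[𝓝 x] fun _ => 0 := by
    intro x hx
    filter_upwards [hZ.isOpen_compl.mem_nhds hx] with y hy
    exact hη0 y hy
  have hvs := cacc_smooth_v h
  have hη : ContDiff ℝ ∞ η := by
    rw [contDiff_iff_contDiffAt]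
    intro x
    by_cases hx : x ∈ Z
    · have h1 : ContDiffAt ℝ ∞ v x := hvs.contDiffAt (h.open_compl.mem_nhds (hZW hx))
      exact hφ.contDiffAt.mul (hT.contDiffAt.comp x h1)
    · exact contDiffAt_const.congr_of_eventuallyEq (hηev x hx)
  have hT00 : T 0 = 0 := hT0 0 (by simpa using hδ)
  have hT0' : deriv T 0 = 0 := by
    have h1 : T =ᶠ[𝓝 0] fun _ => 0 := by
      filter_upwards [Metric.ball_mem_nhds (0 : ℝ) hδ] with s hs
      apply hT0
      simpa [Real.dist_eq] using hs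
    rw [h1.deriv_eq]
    simp
  have key : ∀ x ∈ U, fderiv ℝ η x (Complex.I * g x) = φ x * deriv T (v x) * ‖g x‖ ^ 2 +
      T (v x) * inner ℝ (Complex.I * g x) (outer_grad φ x) := by
    intro x hx
    by_cases hxK : x ∈ K
    · have h1 := h.zero x ⟨hx, hxK⟩
      have h2 : x ∉ Z := fun h3 => (hZW h3).2 hxK
      rw [(hηev x h2).fderiv_eq, h1, hT00, hT0']
      simp
    · have h1 := h.grad x ⟨hx, hxK⟩
      have h2 : HasDerivAt T (deriv T (v x)) (v x) := (hT.differentiable (by simp) _).hasDerivAt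
      have h3 : HasFDerivAt (fun y => T (v y)) (deriv T (v x) • ilin (Complex.I * g x)) x :=
        h2.comp_hasFDerivAt x h1
      have h4 : HasFDerivAt φ (fderiv ℝ φ x) x := (hφ.differentiable (by simp) x).hasFDerivAt
      have h5 : fderiv ℝ η x = _ := (h4.mul h3).fderiv
      rw [h5]
      simp only [add_apply, smul_apply, smul_eq_mul, ilin_apply, real_inner_self_eq_norm_sq,
        norm_mul, Complex.norm_I, one_mul]
      rw [← outer_inner_grad, real_inner_comm]
      ring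
  rw [← setIntegral_congr_fun h.isOpen.measurableSet key,
    setIntegral_eq_integral_of_forall_compl_eq_zero]
  · exact cacc_div h.open_compl h.hol hη hηc (hts.trans hZW)
  · intro x hx
    have h1 : x ∉ Z := fun h2 => hx (hZW h2).1
    rw [(hηev x h1).fderiv_eq]
    simp

theorem cacc_grad_cont {φ : ℂ → ℝ} (hφ : ContDiff ℝ ∞ φ) : Continuous (outer_grad φ) := by
  unfold outer_grad
  exact (InnerProductSpace.toDual ℝ ℂ).symm.continuous.comp (hφ.continuous_fderiv (by simp))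

theorem cacc_grad_zero {φ : ℂ → ℝ} {x : ℂ} (hx : x ∉ tsupport φ) : outer_grad φ x = 0 := by
  unfold outer_grad
  rw [fderiv_of_notMem_tsupport ℝ hx]
  simp

theorem cacc_int1 (h : CJ U K v g) {φ : ℂ → ℝ} (hφ : ContDiff ℝ ∞ φ) (hc : HasCompactSupport φ)
    (hs : tsupport φ ⊆ U) : IntegrableOn (fun x => φ x * ‖g x‖ ^ 2) U := by
  obtain ⟨P, hP⟩ := hc.exists_bound_of_continuous hφ.continuous
  have h1 : IntegrableOn (fun x => φ x * ‖g x‖ ^ 2) (tsupport φ) :=
    Integrable.bdd_mul (h.fin _ hc hs) hφ.continuous.aestronglyMeasurable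
      (Eventually.of_forall hP)
  refine h1.of_forall_sdiff_eq_zero h.isOpen.measurableSet fun x hx => ?_
  rw [image_eq_zero_of_notMem_tsupport hx.2, zero_mul]

theorem cacc_int2 (h : CJ U K v g) {φ : ℂ → ℝ} (hφ : ContDiff ℝ ∞ φ) (hc : HasCompactSupport φ)
    (hs : tsupport φ ⊆ U) :
    IntegrableOn (fun x => |v x| * (‖g x‖ * ‖outer_grad φ x‖)) U := by
  have hC : IsCompact (tsupport φ) := hc
  have hvC : ContinuousOn v (tsupport φ) := h.cont.mono hs
  have hgc := (cacc_grad_cont hφ).norm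
  have h1 : IntegrableOn (fun x => |v x| * (‖g x‖ * ‖outer_grad φ x‖)) (tsupport φ) := by
    obtain ⟨A, hA⟩ := hC.exists_bound_of_continuousOn (hvC.abs.mul hgc.continuousOn)
    have h2 : IntegrableOn (fun x => A * (1 + ‖g x‖ ^ 2)) (tsupport φ) :=
      ((integrableOn_const hC.measure_lt_top.ne).add (h.fin _ hC hs)).const_mul A
    refine Integrable.mono' h2 ?_ ?_
    · exact (hvC.abs.aestronglyMeasurable (isClosed_tsupport φ).measurableSet).mul
        ((h.meas_g.norm.mul hgc.measurable).aestronglyMeasurable)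
    · refine (ae_restrict_iff' (isClosed_tsupport φ).measurableSet).2
        (Eventually.of_forall fun x hx => ?_)
      have h3 := hA x hx
      have hA0 : 0 ≤ A := (norm_nonneg _).trans h3
      have h4 : |v x| * ‖outer_grad φ x‖ ≤ A := (Real.le_norm_self _).trans h3
      rw [Real.norm_of_nonneg (by positivity : 0 ≤ |v x| * (‖g x‖ * ‖outer_grad φ x‖))]
      calc |v x| * (‖g x‖ * ‖outer_grad φ x‖) = (|v x| * ‖outer_grad φ x‖) * ‖g x‖ := by ring
        _ ≤ A * ‖g x‖ := mul_le_mul_of_nonneg_right h4 (norm_nonneg _)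
        _ ≤ A * (1 + ‖g x‖ ^ 2) := by
          refine mul_le_mul_of_nonneg_left ?_ hA0
          nlinarith [sq_nonneg (‖g x‖ - 1), norm_nonneg (g x)]
  refine h1.of_forall_sdiff_eq_zero h.isOpen.measurableSet fun x hx => ?_
  rw [cacc_grad_zero hx.2]
  simp

theorem cacc_meas (h : CJ U K v g) : AEStronglyMeasurable v (volume.restrict U) :=
  h.cont.aestronglyMeasurable h.isOpen.measurableSet

theorem cacc_int3 (h : CJ U K v g) {φ : ℂ → ℝ} (hφ : ContDiff ℝ ∞ φ) (hc : HasCompactSupport φ)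
    (hs : tsupport φ ⊆ U) :
    IntegrableOn (fun x => v x * inner ℝ (Complex.I * g x) (outer_grad φ x)) U := by
  refine Integrable.mono' (cacc_int2 h hφ hc hs) ?_ (Eventually.of_forall fun x => ?_)
  · exact (cacc_meas h).mul (((measurable_const.mul h.meas_g).inner
      (cacc_grad_cont hφ).measurable).aestronglyMeasurable)
  · rw [norm_mul, Real.norm_eq_abs]
    refine mul_le_mul_of_nonneg_left ((norm_inner_le_norm _ _).trans ?_) (abs_nonneg _)
    rw [norm_mul, Complex.norm_I, one_mul]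

/-- Caccioppoli identity -/
theorem cj_ident (h : CJ U K v g) {φ : ℂ → ℝ} (hφ : ContDiff ℝ ∞ φ) (hc : HasCompactSupport φ)
    (hs : tsupport φ ⊆ U) :
    ∫ x in U, φ x * ‖g x‖ ^ 2 = - ∫ x in U, v x * inner ℝ (Complex.I * g x) (outer_grad φ x) := by
  obtain ⟨C, hC⟩ := caccT_deriv_bound
  have hC0 : 0 ≤ C := (abs_nonneg _).trans (hC 0 0)
  have hlim : Tendsto (fun n : ℕ => ∫ x in U, (φ x * deriv (caccT n) (v x) * ‖g x‖ ^ 2 +
      caccT n (v x) * inner ℝ (Complex.I * g x) (outer_grad φ x))) atTop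
      (𝓝 (∫ x in U, (φ x * ‖g x‖ ^ 2 +
        v x * inner ℝ (Complex.I * g x) (outer_grad φ x)))) := by
    refine tendsto_integral_of_dominated_convergence
      (fun x => C * ‖φ x * ‖g x‖ ^ 2‖ + |v x| * (‖g x‖ * ‖outer_grad φ x‖)) ?_ ?_ ?_ ?_
    · intro n
      have h1 : AEStronglyMeasurable (fun x => deriv (caccT n) (v x)) (volume.restrict U) :=
        ((caccT_contDiff n).continuous_deriv (by simp)).comp_aestronglyMeasurable (cacc_meas h)
      have h2 : AEStronglyMeasurable (fun x => caccT n (v x)) (volume.restrict U) :=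
        (caccT_contDiff n).continuous.comp_aestronglyMeasurable (cacc_meas h)
      exact ((hφ.continuous.aestronglyMeasurable.mul h1).mul
        (h.meas_g.norm.pow_const 2).aestronglyMeasurable).add
        (h2.mul (((measurable_const.mul h.meas_g).inner
          (cacc_grad_cont hφ).measurable).aestronglyMeasurable))
    · exact ((cacc_int1 h hφ hc hs).norm.const_mul C).add (cacc_int2 h hφ hc hs)
    · intro n
      refine Eventually.of_forall fun x => (norm_add_le _ _).trans (add_le_add ?_ ?_)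
      · rw [mul_right_comm, norm_mul, mul_comm, Real.norm_eq_abs (deriv _ _)]
        exact mul_le_mul_of_nonneg_right (hC n _) (norm_nonneg _)
      · rw [norm_mul, Real.norm_eq_abs (caccT _ _)]
        refine mul_le_mul (caccT_abs_le n _) ((norm_inner_le_norm _ _).trans ?_) (norm_nonneg _)
          (abs_nonneg _)
        rw [norm_mul, Complex.norm_I, one_mul]
    · rw [ae_restrict_iff' h.isOpen.measurableSet]
      have h1 := cacc_zero_set h.open_compl h.grad
      have h2 : ∀ᵐ x ∂(volume : Measure ℂ), x ∉ K ∩ U :=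
        measure_eq_zero_iff_ae_notMem.1 (cacc_volume_zero h)
      filter_upwards [h1, h2] with x hx1 hx2 hxU
      have hxK : x ∉ K := fun h3 => hx2 ⟨h3, hxU⟩
      by_cases h0 : v x = 0
      · have h3 := hx1 ⟨hxU, hxK⟩ h0
        have h4 : g x = 0 := by
          rcases mul_eq_zero.1 h3 with h5 | h5
          · exact absurd h5 Complex.I_ne_zero
          · exact h5
        simp [h4]
      · refine Tendsto.congr' ?_ tendsto_const_nhds
        filter_upwards [caccT_large h0] with n hn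
        rw [caccT_deriv_eq n hn, caccT_eq n hn, mul_one]
  have hzero : ∀ n : ℕ, ∫ x in U, (φ x * deriv (caccT n) (v x) * ‖g x‖ ^ 2 +
      caccT n (v x) * inner ℝ (Complex.I * g x) (outer_grad φ x)) = 0 := fun n =>
    cacc_trunc h hφ hc hs (caccT_contDiff n) (δ := 1 / (n + 1)) (by positivity)
      fun s hs => caccT_zero n hs
  simp only [hzero] at hlim
  have h1 := tendsto_nhds_unique hlim tendsto_const_nhds
  rw [integral_add (cacc_int1 h hφ hc hs) (cacc_int3 h hφ hc hs)] at h1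
  linarith

theorem cj_cacc (h : CJ U K v g) {φ : ℂ → ℝ} (hφ : ContDiff ℝ ∞ φ) (hc : HasCompactSupport φ)
    (hs : tsupport φ ⊆ U) :
    ∫ x in U, φ x ^ 2 * ‖g x‖ ^ 2 ≤ 4 * ∫ x in U, v x ^ 2 * ‖outer_grad φ x‖ ^ 2 := by
  set ψ : ℂ → ℝ := fun x => φ x ^ 2 with hψdef
  have hψ : ContDiff ℝ ∞ ψ := hφ.pow 2
  have hsub : tsupport ψ ⊆ tsupport φ := by
    refine closure_mono fun x hx => ?_
    intro h0
    apply hx
    simp [hψdef, h0]
  have hψc : HasCompactSupport ψ := IsCompact.of_isClosed_subset hc (isClosed_tsupport _) hsub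
  have hψs : tsupport ψ ⊆ U := hsub.trans hs
  have hgrad : ∀ x, outer_grad ψ x = (2 * φ x) • outer_grad φ x := by
    intro x
    have h1 : HasFDerivAt φ (fderiv ℝ φ x) x := (hφ.differentiable (by simp) x).hasFDerivAt
    have h2 : fderiv ℝ ψ x = (2 * φ x) • fderiv ℝ φ x := by
      rw [(h1.pow 2).fderiv]
      simp
    unfold outer_grad
    rw [h2, map_smulₛₗ]
    simp
  have h1 := cj_ident h hψ hψc hψs
  have i1 : IntegrableOn (fun x => φ x ^ 2 * ‖g x‖ ^ 2) U := cacc_int1 h hψ hψc hψs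
  have i2 : IntegrableOn (fun x => v x * inner ℝ (Complex.I * g x) (outer_grad ψ x)) U :=
    cacc_int3 h hψ hψc hψs
  have i3 : IntegrableOn (fun x => v x ^ 2 * ‖outer_grad φ x‖ ^ 2) U := by
    have hC : IsCompact (tsupport φ) := hc
    have h2 : IntegrableOn (fun x => v x ^ 2 * ‖outer_grad φ x‖ ^ 2) (tsupport φ) :=
      (((h.cont.mono hs).pow 2).mul
        ((cacc_grad_cont hφ).norm.pow 2).continuousOn).integrableOn_compact hC
    refine h2.of_forall_sdiff_eq_zero h.isOpen.measurableSet fun x hx => ?_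
    rw [cacc_grad_zero hx.2]
    simp
  have h2 : - ∫ x in U, v x * inner ℝ (Complex.I * g x) (outer_grad ψ x) ≤
      ∫ x in U, (1 / 2 * (φ x ^ 2 * ‖g x‖ ^ 2) + 2 * (v x ^ 2 * ‖outer_grad φ x‖ ^ 2)) := by
    rw [← integral_neg]
    refine integral_mono i2.neg ((i1.const_mul _).add (i3.const_mul _)) fun x => ?_
    show -(v x * inner ℝ (Complex.I * g x) (outer_grad ψ x)) ≤
      1 / 2 * (φ x ^ 2 * ‖g x‖ ^ 2) + 2 * (v x ^ 2 * ‖outer_grad φ x‖ ^ 2)
    rw [hgrad, real_inner_smul_right]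
    have h3 := abs_real_inner_le_norm (Complex.I * g x) (outer_grad φ x)
    rw [norm_mul, Complex.norm_I, one_mul] at h3
    have h4 : -(v x * (2 * φ x * inner ℝ (Complex.I * g x) (outer_grad φ x))) ≤
        2 * ((|φ x| * ‖g x‖) * (|v x| * ‖outer_grad φ x‖)) := by
      refine (neg_le_abs _).trans ?_
      rw [abs_mul, abs_mul, abs_mul, abs_two]
      calc |v x| * (2 * |φ x| * |inner ℝ (Complex.I * g x) (outer_grad φ x)|)
          ≤ |v x| * (2 * |φ x| * (‖g x‖ * ‖outer_grad φ x‖)) := by gcongr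
        _ = _ := by ring
    have h5 := two_mul_le_add_sq (1 / 2 * (|φ x| * ‖g x‖)) (|v x| * ‖outer_grad φ x‖)
    have h6 : (|φ x| * ‖g x‖) ^ 2 = φ x ^ 2 * ‖g x‖ ^ 2 := by rw [mul_pow, sq_abs]
    have h7 : (|v x| * ‖outer_grad φ x‖) ^ 2 = v x ^ 2 * ‖outer_grad φ x‖ ^ 2 := by
      rw [mul_pow, sq_abs]
    nlinarith [h4, h5, h6, h7]
  rw [integral_add (i1.const_mul _) (i3.const_mul _), integral_const_mul, integral_const_mul] at h2
  have h3 : ∫ x in U, φ x ^ 2 * ‖g x‖ ^ 2 =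
      - ∫ x in U, v x * inner ℝ (Complex.I * g x) (outer_grad ψ x) := h1
  linarith

end Ident

/-! ### Convergence of the energy -/

theorem cacc_L1 {C : Set ℂ} (hCf : volume C < ⊤) {g : ℕ → ℂ → ℂ}
    {g₀ : ℂ → ℂ} (hm : ∀ n, Measurable (g n)) (hm₀ : Measurable g₀)
    (hi : ∀ n, IntegrableOn (fun x => ‖g n x‖ ^ 2) C) (hi₀ : IntegrableOn (fun x => ‖g₀ x‖ ^ 2) C)
    {M : ℝ} (hM : ∀ n, ∫ x in C, ‖g n x‖ ^ 2 ≤ M)
    (hg : ∀ᵐ x ∂(volume.restrict C), Tendsto (fun n => g n x) atTop (𝓝 (g₀ x))) :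
    Tendsto (fun n => ∫ x in C, ‖g n x - g₀ x‖) atTop (𝓝 0) := by
  set M₀ := ∫ x in C, ‖g₀ x‖ ^ 2 with hM₀
  have hM₀0 : 0 ≤ M₀ := integral_nonneg fun x => by positivity
  have hM0 : 0 ≤ M := (integral_nonneg fun x => by positivity).trans (hM 0)
  have hsq : ∀ n x, ‖g n x - g₀ x‖ ^ 2 ≤ 2 * ‖g n x‖ ^ 2 + 2 * ‖g₀ x‖ ^ 2 := by
    intro n x
    have h1 := norm_sub_le (g n x) (g₀ x)
    have h2 : ‖g n x - g₀ x‖ ^ 2 ≤ (‖g n x‖ + ‖g₀ x‖) ^ 2 := by gcongr
    nlinarith [sq_nonneg (‖g n x‖ - ‖g₀ x‖)]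
  have hisq : ∀ n, IntegrableOn (fun x => ‖g n x - g₀ x‖ ^ 2) C := by
    intro n
    refine Integrable.mono' (((hi n).const_mul 2).add (hi₀.const_mul 2))
      (((hm n).sub hm₀).norm.pow_const 2).aestronglyMeasurable (Eventually.of_forall fun x => ?_)
    rw [Real.norm_of_nonneg (by positivity)]
    exact hsq n x
  have hisq2 : ∀ n, ∫ x in C, ‖g n x - g₀ x‖ ^ 2 ≤ 2 * M + 2 * M₀ := by
    intro n
    calc ∫ x in C, ‖g n x - g₀ x‖ ^ 2 ≤ ∫ x in C, (2 * ‖g n x‖ ^ 2 + 2 * ‖g₀ x‖ ^ 2) :=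
          integral_mono (hisq n) (((hi n).const_mul 2).add (hi₀.const_mul 2)) fun x => hsq n x
      _ = 2 * (∫ x in C, ‖g n x‖ ^ 2) + 2 * M₀ := by
          rw [integral_add ((hi n).const_mul 2) (hi₀.const_mul 2), integral_const_mul,
            integral_const_mul]
      _ ≤ 2 * M + 2 * M₀ := by linarith [hM n]
  rw [Metric.tendsto_nhds]
  intro ε hε
  set A : ℝ := 2 * (2 * M + 2 * M₀ + 1) / ε with hA
  have hA0 : 0 < A := by positivity
  have himin : ∀ n, IntegrableOn (fun x => min ‖g n x - g₀ x‖ A) C := by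
    intro n
    refine Integrable.mono' (g := fun _ => A) (integrableOn_const hCf.ne)
      ((((hm n).sub hm₀).norm.min measurable_const).aestronglyMeasurable)
      (Eventually.of_forall fun x => ?_)
    rw [Real.norm_of_nonneg (le_min (norm_nonneg _) hA0.le)]
    exact min_le_right _ _
  have h1 : Tendsto (fun n => ∫ x in C, min ‖g n x - g₀ x‖ A) atTop (𝓝 (∫ x in C, (0 : ℝ))) := by
    refine tendsto_integral_of_dominated_convergence (fun _ => A) ?_
      (integrableOn_const hCf.ne) ?_ ?_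
    · exact fun n => (himin n).aestronglyMeasurable
    · intro n
      refine Eventually.of_forall fun x => ?_
      rw [Real.norm_of_nonneg (le_min (norm_nonneg _) hA0.le)]
      exact min_le_right _ _
    · filter_upwards [hg] with x hx
      have h2 : Tendsto (fun n => ‖g n x - g₀ x‖) atTop (𝓝 0) :=
        tendsto_iff_norm_sub_tendsto_zero.1 hx
      have h3 := h2.min (tendsto_const_nhds (x := A))
      rwa [min_eq_left hA0.le] at h3
  rw [integral_zero] at h1
  filter_upwards [h1.eventually (gt_mem_nhds (half_pos hε))] with n hn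
  have h2 : ∫ x in C, ‖g n x - g₀ x‖ ≤
      ∫ x in C, (min ‖g n x - g₀ x‖ A + A⁻¹ * ‖g n x - g₀ x‖ ^ 2) := by
    refine integral_mono_of_nonneg (Eventually.of_forall fun x => norm_nonneg _)
      ((himin n).add ((hisq n).const_mul _)) (Eventually.of_forall fun x => ?_)
    show ‖g n x - g₀ x‖ ≤ min ‖g n x - g₀ x‖ A + A⁻¹ * ‖g n x - g₀ x‖ ^ 2
    rcases le_total ‖g n x - g₀ x‖ A with h3 | h3
    · rw [min_eq_left h3]
      have : 0 ≤ A⁻¹ * ‖g n x - g₀ x‖ ^ 2 := by positivity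
      linarith
    · have h4 : ‖g n x - g₀ x‖ ≤ A⁻¹ * ‖g n x - g₀ x‖ ^ 2 := by
        rw [inv_mul_eq_div, le_div_iff₀ hA0, sq]
        exact mul_le_mul_of_nonneg_left h3 (norm_nonneg _)
      rw [min_eq_right h3]
      linarith
  rw [integral_add (himin n) ((hisq n).const_mul _), integral_const_mul] at h2
  have h3 : A⁻¹ * ∫ x in C, ‖g n x - g₀ x‖ ^ 2 < ε / 2 := by
    rw [inv_mul_eq_div, div_lt_iff₀ hA0]
    have h4 : ε / 2 * A = 2 * M + 2 * M₀ + 1 := by
      rw [hA]
      field_simp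
    rw [h4]
    linarith [hisq2 n]
  rw [Real.dist_eq, sub_zero, abs_of_nonneg (integral_nonneg fun x => norm_nonneg _)]
  linarith

theorem cacc_conv_phi {U : Set ℂ} {K : ℕ → Set ℂ} {v : ℕ → ℂ → ℝ} {g : ℕ → ℂ → ℂ} {K₀ : Set ℂ}
    {v₀ : ℂ → ℝ} {g₀ : ℂ → ℂ} (h : ∀ n, CJ U (K n) (v n) (g n)) (h₀ : CJ U K₀ v₀ g₀)
    (hv : TendstoLocallyUniformlyOn v v₀ atTop U)
    (hg : ∀ᵐ x ∂(volume.restrict U), Tendsto (fun n => g n x) atTop (𝓝 (g₀ x)))
    {φ : ℂ → ℝ} (hφ : ContDiff ℝ ∞ φ) (hc : HasCompactSupport φ)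
    (hs : tsupport φ ⊆ U) {M : ℝ} (hM : ∀ n, ∫ x in tsupport φ, ‖g n x‖ ^ 2 ≤ M) :
    Tendsto (fun n => ∫ x in U, φ x * ‖g n x‖ ^ 2) atTop (𝓝 (∫ x in U, φ x * ‖g₀ x‖ ^ 2)) := by
  have hU := h₀.isOpen
  have hC : IsCompact (tsupport φ) := hc
  have hCm : MeasurableSet (tsupport φ) := (isClosed_tsupport φ).measurableSet
  have hM0 : 0 ≤ M := (integral_nonneg fun x => by positivity).trans (hM 0)
  have hL := cacc_L1 hC.measure_lt_top (fun n => (h n).meas_g) h₀.meas_g
    (fun n => (h n).fin _ hC hs) (h₀.fin _ hC hs) hM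
    (ae_restrict_of_ae_restrict_of_subset hs hg)
  obtain ⟨P, hP⟩ := hC.exists_bound_of_continuousOn (cacc_grad_cont hφ).continuousOn
  obtain ⟨V, hV⟩ := hC.exists_bound_of_continuousOn (h₀.cont.mono hs)
  have hvC : TendstoUniformlyOn v v₀ atTop (tsupport φ) :=
    (tendstoLocallyUniformlyOn_iff_forall_isCompact hU).1 hv _ hs hC
  have hiC : ∀ {K : Set ℂ} {v : ℂ → ℝ} {g : ℂ → ℂ}, CJ U K v g →
      IntegrableOn (fun x => v x * inner ℝ (Complex.I * g x) (outer_grad φ x)) (tsupport φ) :=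
    fun h => (cacc_int3 h hφ hc hs).mono_set hs
  have e : ∀ {K : Set ℂ} {v : ℂ → ℝ} {g : ℂ → ℂ}, CJ U K v g → ∫ x in U, φ x * ‖g x‖ ^ 2 =
      - ∫ x in tsupport φ, v x * inner ℝ (Complex.I * g x) (outer_grad φ x) := by
    intro K v g h
    rw [cj_ident h hφ hc hs, setIntegral_eq_of_subset_of_forall_sdiff_eq_zero hU.measurableSet hs]
    intro x hx
    rw [cacc_grad_zero hx.2]
    simp
  simp only [fun n => e (h n), e h₀]
  refine Tendsto.neg ?_
  by_cases hne : (tsupport φ).Nonempty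
  swap
  · rw [not_nonempty_iff_eq_empty.1 hne]
    simp
  obtain ⟨x₀, hx₀⟩ := hne
  have hP0 : 0 ≤ P := (norm_nonneg _).trans (hP x₀ hx₀)
  have hV0 : 0 ≤ V := (norm_nonneg _).trans (hV x₀ hx₀)
  have hid : ∀ n, IntegrableOn (fun x => ‖g n x - g₀ x‖) (tsupport φ) := by
    intro n
    have h2 : IntegrableOn (fun x => 1 + (2 * ‖g n x‖ ^ 2 + 2 * ‖g₀ x‖ ^ 2)) (tsupport φ) :=
      (integrableOn_const hC.measure_lt_top.ne).add ((((h n).fin _ hC hs).const_mul 2).add
        ((h₀.fin _ hC hs).const_mul 2))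
    refine Integrable.mono' h2 (((h n).meas_g.sub h₀.meas_g).norm).aestronglyMeasurable
      (Eventually.of_forall fun x => ?_)
    rw [norm_norm]
    have h1 := norm_sub_le (g n x) (g₀ x)
    nlinarith [sq_nonneg (‖g n x‖ - ‖g₀ x‖), sq_nonneg (‖g n x‖ + ‖g₀ x‖ - 1), norm_nonneg (g n x),
      norm_nonneg (g₀ x)]
  have hi1 : ∀ n, IntegrableOn (fun x => 1 + ‖g n x‖ ^ 2) (tsupport φ) := fun n =>
    (integrableOn_const hC.measure_lt_top.ne).add ((h n).fin _ hC hs)
  have hb1 : ∀ n, ∫ x in tsupport φ, (1 + ‖g n x‖ ^ 2) ≤ volume.real (tsupport φ) + M := by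
    intro n
    have h1 : IntegrableOn (fun _ : ℂ => (1 : ℝ)) (tsupport φ) :=
      integrableOn_const hC.measure_lt_top.ne
    rw [integral_add h1 ((h n).fin _ hC hs), setIntegral_const, smul_eq_mul, mul_one]
    linarith [hM n]
  set B := volume.real (tsupport φ) + M with hB
  have hB0 : 0 ≤ B := add_nonneg measureReal_nonneg hM0
  rw [Metric.tendsto_nhds]
  intro ε hε
  set ε' := ε / (2 * (P * B + 1)) with hε'
  have hε'0 : 0 < ε' := by positivity
  have hL2 : ∀ᶠ n in atTop, V * P * ∫ x in tsupport φ, ‖g n x - g₀ x‖ < ε / 2 := by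
    have h1 := hL.const_mul (V * P)
    rw [mul_zero] at h1
    exact h1.eventually (gt_mem_nhds (half_pos hε))
  filter_upwards [hL2, Metric.tendstoUniformlyOn_iff.1 hvC ε' hε'0] with n hn1 hn2
  rw [Real.dist_eq, ← integral_sub (hiC (h n)) (hiC h₀)]
  have h1 : ‖∫ x in tsupport φ, (v n x * inner ℝ (Complex.I * g n x) (outer_grad φ x) -
      v₀ x * inner ℝ (Complex.I * g₀ x) (outer_grad φ x))‖ ≤
      ∫ x in tsupport φ, (ε' * P * (1 + ‖g n x‖ ^ 2) + V * P * ‖g n x - g₀ x‖) := by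
    refine norm_integral_le_of_norm_le (((hi1 n).const_mul _).add ((hid n).const_mul _)) ?_
    refine (ae_restrict_iff' hCm).2 (Eventually.of_forall fun x hx => ?_)
    have h2 : v n x * inner ℝ (Complex.I * g n x) (outer_grad φ x) -
        v₀ x * inner ℝ (Complex.I * g₀ x) (outer_grad φ x) =
        (v n x - v₀ x) * inner ℝ (Complex.I * g n x) (outer_grad φ x) +
        v₀ x * inner ℝ (Complex.I * (g n x - g₀ x)) (outer_grad φ x) := by
      rw [mul_sub, inner_sub_left]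
      ring
    have h3 : ∀ w : ℂ, ‖(inner ℝ (Complex.I * w) (outer_grad φ x) : ℝ)‖ ≤ ‖w‖ * P := by
      intro w
      refine (norm_inner_le_norm _ _).trans ?_
      rw [norm_mul, Complex.norm_I, one_mul]
      exact mul_le_mul_of_nonneg_left (hP x hx) (norm_nonneg _)
    have h4 : ‖v n x - v₀ x‖ ≤ ε' := by
      have h5 := hn2 x hx
      rw [dist_comm, dist_eq_norm] at h5
      exact h5.le
    rw [h2]
    refine (norm_add_le _ _).trans (add_le_add ?_ ?_)
    · rw [norm_mul]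
      calc ‖v n x - v₀ x‖ * ‖(inner ℝ (Complex.I * g n x) (outer_grad φ x) : ℝ)‖
          ≤ ε' * (‖g n x‖ * P) := mul_le_mul h4 (h3 _) (norm_nonneg _) hε'0.le
        _ = ε' * P * ‖g n x‖ := by ring
        _ ≤ ε' * P * (1 + ‖g n x‖ ^ 2) := by
          refine mul_le_mul_of_nonneg_left ?_ (mul_nonneg hε'0.le hP0)
          nlinarith [sq_nonneg (‖g n x‖ - 1), norm_nonneg (g n x)]
    · rw [norm_mul]
      calc ‖v₀ x‖ * ‖(inner ℝ (Complex.I * (g n x - g₀ x)) (outer_grad φ x) : ℝ)‖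
          ≤ V * (‖g n x - g₀ x‖ * P) := mul_le_mul (hV x hx) (h3 _) (norm_nonneg _) hV0
        _ = V * P * ‖g n x - g₀ x‖ := by ring
  rw [integral_add ((hi1 n).const_mul _) ((hid n).const_mul _), integral_const_mul,
    integral_const_mul] at h1
  rw [Real.norm_eq_abs] at h1
  have h5 : ε' * P * ∫ x in tsupport φ, (1 + ‖g n x‖ ^ 2) ≤ ε / 2 := by
    calc ε' * P * ∫ x in tsupport φ, (1 + ‖g n x‖ ^ 2) ≤ ε' * P * B :=
          mul_le_mul_of_nonneg_left (hb1 n) (mul_nonneg hε'0.le hP0)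
      _ = ε' * (P * B) := by ring
      _ ≤ ε' * (P * B + 1) := mul_le_mul_of_nonneg_left (by linarith) hε'0.le
      _ = ε / 2 := by
          rw [hε']
          have : P * B + 1 ≠ 0 := by positivity
          field_simp
  linarith

/-- `D` is continuous under convergence of `v` and `g` -/
theorem cj_conv {U : Set ℂ} {K : ℕ → Set ℂ} {v : ℕ → ℂ → ℝ} {g : ℕ → ℂ → ℂ} {K₀ : Set ℂ}
    {v₀ : ℂ → ℝ} {g₀ : ℂ → ℂ} (h : ∀ n, CJ U (K n) (v n) (g n)) (h₀ : CJ U K₀ v₀ g₀)
    (hv : TendstoLocallyUniformlyOn v v₀ atTop U)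
    (hg : ∀ᵐ x ∂(volume.restrict U), Tendsto (fun n => g n x) atTop (𝓝 (g₀ x)))
    {a : ℂ} {R : ℝ} (hR : closedBall a R ⊆ U) {M : ℝ} (hM : ∀ n, Dq (g n) a R ≤ M) {r : ℝ}
    (hr : r < R) : Tendsto (fun n => Dq (g n) a r) atTop (𝓝 (Dq g₀ a r)) := by
  have hU := h₀.isOpen
  obtain ⟨φ, hφ, hc, hs, h01, h1⟩ := cal_cutoff (isCompact_closedBall a r) isOpen_ball
    (closedBall_subset_ball hr)
  have hsU : tsupport φ ⊆ U := hs.trans (ball_subset_closedBall.trans hR)
  have hfinR : ∀ n, IntegrableOn (fun x => ‖g n x‖ ^ 2) (ball a R) := fun n =>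
    ((h n).fin _ (isCompact_closedBall a R) hR).mono_set ball_subset_closedBall
  have hMφ : ∀ n, ∫ x in tsupport φ, ‖g n x‖ ^ 2 ≤ M := fun n =>
    (setIntegral_mono_set (hfinR n) (Eventually.of_forall fun x => by positivity)
      (LE.le.eventuallyLE hs)).trans (hM n)
  have hlim := cacc_conv_phi h h₀ hv hg hφ hc hsU hMφ
  have hi : ∀ n, IntegrableOn (fun x => φ x * ‖g n x‖ ^ 2) U := fun n =>
    cacc_int1 (h n) hφ hc hsU
  have hi₀ : IntegrableOn (fun x => φ x * ‖g₀ x‖ ^ 2) U := cacc_int1 h₀ hφ hc hsU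
  have hip : ∀ n, IntegrableOn (fun x => max (φ x * ‖g₀ x‖ ^ 2 - φ x * ‖g n x‖ ^ 2) 0) U :=
    fun n => (hi₀.sub (hi n)).pos_part
  have hpos : Tendsto (fun n => ∫ x in U, max (φ x * ‖g₀ x‖ ^ 2 - φ x * ‖g n x‖ ^ 2) 0) atTop
      (𝓝 (∫ x in U, (0 : ℝ))) := by
    refine tendsto_integral_of_dominated_convergence (fun x => φ x * ‖g₀ x‖ ^ 2)
      (fun n => (hip n).aestronglyMeasurable) hi₀ ?_ ?_
    · intro n
      refine Eventually.of_forall fun x => ?_
      have h2 : 0 ≤ φ x * ‖g n x‖ ^ 2 := mul_nonneg (h01 x).1 (by positivity)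
      have h3 : 0 ≤ φ x * ‖g₀ x‖ ^ 2 := mul_nonneg (h01 x).1 (by positivity)
      rw [Real.norm_of_nonneg (le_max_right _ _)]
      exact max_le (by linarith) h3
    · filter_upwards [hg] with x hx
      have h2 : Tendsto (fun n => φ x * ‖g₀ x‖ ^ 2 - φ x * ‖g n x‖ ^ 2) atTop
          (𝓝 (φ x * ‖g₀ x‖ ^ 2 - φ x * ‖g₀ x‖ ^ 2)) :=
        tendsto_const_nhds.sub ((hx.norm.pow 2).const_mul _)
      have h3 := h2.max (tendsto_const_nhds (x := (0 : ℝ)))
      rwa [sub_self, max_self] at h3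
  rw [integral_zero] at hpos
  have habs : ∀ n, ∫ x in U, |φ x * ‖g n x‖ ^ 2 - φ x * ‖g₀ x‖ ^ 2| =
      (∫ x in U, φ x * ‖g n x‖ ^ 2) - (∫ x in U, φ x * ‖g₀ x‖ ^ 2) +
        2 * ∫ x in U, max (φ x * ‖g₀ x‖ ^ 2 - φ x * ‖g n x‖ ^ 2) 0 := by
    intro n
    have h3 : IntegrableOn (fun x => φ x * ‖g n x‖ ^ 2 - φ x * ‖g₀ x‖ ^ 2) U := (hi n).sub hi₀
    have h4 : IntegrableOn (fun x => 2 * max (φ x * ‖g₀ x‖ ^ 2 - φ x * ‖g n x‖ ^ 2) 0) U :=
      (hip n).const_mul _
    rw [← integral_sub (hi n) hi₀, ← integral_const_mul, ← integral_add h3 h4]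
    refine integral_congr_ae (Eventually.of_forall fun x => ?_)
    show |φ x * ‖g n x‖ ^ 2 - φ x * ‖g₀ x‖ ^ 2| = φ x * ‖g n x‖ ^ 2 - φ x * ‖g₀ x‖ ^ 2 +
      2 * max (φ x * ‖g₀ x‖ ^ 2 - φ x * ‖g n x‖ ^ 2) 0
    rcases le_total (φ x * ‖g₀ x‖ ^ 2) (φ x * ‖g n x‖ ^ 2) with h2 | h2
    · rw [abs_of_nonneg (by linarith), max_eq_right (by linarith)]
      ring
    · rw [abs_of_nonpos (by linarith), max_eq_left (by linarith)]
      ring
  have habslim : Tendsto (fun n => ∫ x in U, |φ x * ‖g n x‖ ^ 2 - φ x * ‖g₀ x‖ ^ 2|) atTop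
      (𝓝 0) := by
    simp only [habs]
    have h2 := (hlim.sub_const (∫ x in U, φ x * ‖g₀ x‖ ^ 2)).add (hpos.const_mul 2)
    rwa [sub_self, mul_zero, add_zero] at h2
  rw [tendsto_iff_dist_tendsto_zero]
  refine squeeze_zero (fun n => dist_nonneg) (fun n => ?_) habslim
  have hball : ball a r ⊆ U := (ball_subset_ball hr.le).trans (ball_subset_closedBall.trans hR)
  have hD : ∀ f : ℂ → ℂ, Dq f a r = ∫ x in ball a r, φ x * ‖f x‖ ^ 2 := by
    intro f
    refine setIntegral_congr_fun measurableSet_ball fun x hx => ?_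
    have h2 : φ x = 1 := (h1 x (ball_subset_closedBall hx)).self_of_nhds
    show ‖f x‖ ^ 2 = φ x * ‖f x‖ ^ 2
    rw [h2, one_mul]
  rw [Real.dist_eq, hD, hD, ← integral_sub ((hi n).mono_set hball) (hi₀.mono_set hball)]
  refine (abs_integral_le_integral_abs).trans ?_
  exact setIntegral_mono_set ((hi n).sub hi₀).abs (Eventually.of_forall fun x => abs_nonneg _)
    (LE.le.eventuallyLE hball)

end Pool.Agent.MP099f24
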