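import Pool.Agent.Lib.MP_099f24_an.SC.BonnetA
import Pool.Agent.Lib.MP_099f24_an.SC.Cacc

/-!
# MP_099f24_an, module BONNET: the flux identity and Bonnet's monotonicity, verbatim forms
-/

set_option autoImplicit false

namespace Pool.Agent.MP099f24

open MeasureTheory Filter Topology Set Metric
open scoped ENNReal ContDiff

variable {U K : Set ℂ} {v : ℂ → ℝ} {g : ℂ → ℂ}

/-- the flux identity -/
theorem cj_flux (h : CJ U K v g) {a : ℂ} {R : ℝ} (hR : ball a R ⊆ U) :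
    ∀ᵐ s ∂(volume.restrict (Ioo 0 R)), Dq g a s =
      s * ∫ θ in Ioo (-Real.pi) Real.pi, v (pc a s θ) * inner ℝ (Complex.I * g (pc a s θ)) (er θ) :=
  cj_flux_aux h.isOpen h.cont h.meas_g h.fin (fun _ hφ hc hs => cj_ident h hφ hc hs) hR

/-- Bonnet's inequality -/
theorem cj_bonnet (h : CJ U K v g) {a : ℂ} {R : ℝ} (hR : ball a R ⊆ U) :
    ∀ᵐ s ∂(volume.restrict (Ioo 0 R)), HasDerivAt (Dq g a) (Tq g a s + Vq g a s) s ∧
      ∀ κ ∈ Ioc 0 (2 * Real.pi), ArcsLE K a s κ →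
        2 * Real.pi / κ * Dq g a s ≤ s * (Tq g a s + Vq g a s) :=
  cj_bonnet_of_flux h hR (cj_flux h hR)

theorem cj_mono (h : CJ U K v g) {a : ℂ} {R κ s t : ℝ} (hR : ball a R ⊆ U) (hs : 0 < s)
    (hst : s ≤ t) (ht : t < R) (hκ : κ ∈ Ioc 0 (2 * Real.pi)) (hK : ∀ r ∈ Ioo s t, ArcsLE K a r κ) :
    Dq g a s * (t / s) ^ (2 * Real.pi / κ) ≤ Dq g a t :=
  cj_mono_of_flux h hR (cj_flux h hR) hs hst ht hκ hK

/-- Bonnet's monotonicity -/
theorem cj_mono_one (h : CJ U K v g) {a : ℂ} {R s t : ℝ} (hR : ball a R ⊆ U) (hs : 0 < s)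
    (hst : s ≤ t) (ht : t < R) (hK : ∀ r ∈ Ioo s t, (K ∩ sphere a r).Nonempty) :
    Dq g a s / s ≤ Dq g a t / t :=
  cj_mono_one_of_flux h hR (cj_flux h hR) hs hst ht hK

end Pool.Agent.MP099f24
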