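import Pool.Agent.Lib.MP_099f24_an.SC.Mollf

/-!
# The conjugate function of a divergence-free field of bounded Morrey energy (MP_099f24_an)
-/

namespace Pool.Agent.MP099f24

open MeasureTheory Filter Topology Set Metric
open scoped ENNReal ContDiff Convolution

theorem cj_lint {h : ℂ → ℂ} {S : Set ℂ} (hi : IntegrableOn (fun x => ‖h x‖ ^ 2) S) :
    ∫⁻ x in S, ‖h x‖ₑ ^ 2 = ENNReal.ofReal (∫ x in S, ‖h x‖ ^ 2) := by
  rw [ofReal_integral_eq_lintegral_ofReal hi (Eventually.of_forall fun x => by positivity)]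
  refine lintegral_congr fun x => ?_
  rw [ENNReal.ofReal_pow (norm_nonneg _), ofReal_norm]

theorem cj_fs (z : ℂ) (s : ℝ) : volume (ball z s) ≠ ⊤ := by
  rw [Complex.volume_ball]
  exact ENNReal.mul_ne_top (by finiteness) (by finiteness)

theorem cj_l1 {g : ℂ → ℂ} (hg : Measurable g) {z : ℂ} {s : ℝ}
    (hi : IntegrableOn (fun x => ‖g x‖ ^ 2) (ball z s)) : IntegrableOn g (ball z s) := by
  have h1 : IntegrableOn (fun x => 1 + ‖g x‖ ^ 2) (ball z s) :=
    (integrableOn_const (cj_fs z s)).add hi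
  refine Integrable.mono' h1 hg.aestronglyMeasurable (Eventually.of_forall fun x => ?_)
  nlinarith [norm_nonneg (g x), sq_nonneg (‖g x‖ - 1)]

/-- regularised data on a smaller ball -/
theorem cj_reg {g : ℂ → ℂ} {x₀ : ℂ} {R M : ℝ} (hgm : Measurable g)
    (hE : ∀ x s, 0 < s → closedBall x s ⊆ ball x₀ R →
      IntegrableOn (fun y => ‖g y‖ ^ 2) (ball x s) ∧ ∫ y in ball x s, ‖g y‖ ^ 2 ≤ M * s)
    (hdiv : ∀ φ : ℂ → ℝ, ContDiff ℝ ∞ φ → HasCompactSupport φ → tsupport φ ⊆ ball x₀ R →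
      ∫ x in ball x₀ R, inner ℝ (g x) (outer_grad φ x) = 0)
    {ρ : ℝ} (hρ0 : 0 < ρ) (hρ : ρ < R) :
    ∃ G : ℝ → ℂ → ℂ, ∃ ε₀ > 0,
      (∀ ε, 0 < ε → ε < ε₀ → Continuous (G ε) ∧ (∀ z ∈ ball x₀ ρ, G ε z = cjG g ε z) ∧
        (∀ z ∈ ball x₀ ρ, HasFDerivAt (cjE g x₀ ε) (ilin (Complex.I * G ε z)) z) ∧
        (∀ z r, 0 < r → ball z r ⊆ ball x₀ ρ →
          ∫ y in ball z r, ‖Complex.I * G ε y‖ ^ 2 ≤ M * r)) ∧
      ∀ η > 0, ∃ ε₁ > 0, ε₁ ≤ ε₀ ∧ ∀ ε δ, 0 < ε → ε < ε₁ → 0 < δ → δ < ε₁ →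
        ∫ z in ball x₀ ρ, ‖G ε z - G δ z‖ ≤ η := by
  obtain ⟨R₁, hR₁, hR₁'⟩ := exists_between hρ
  have hR₁0 : 0 < R₁ := hρ0.trans hR₁
  have hsub : closedBall x₀ R₁ ⊆ ball x₀ R := closedBall_subset_ball hR₁'
  obtain ⟨i1, -⟩ := hE x₀ R₁ hR₁0 hsub
  set h : ℂ → ℂ := (ball x₀ R₁).indicator g with hh
  have hm : Measurable h := hgm.indicator measurableSet_ball
  have hi : Integrable h := (integrable_indicator_iff measurableSet_ball).2 (cj_l1 hgm i1)
  -- agreement
  have hag : ∀ ε, 0 < ε → ε < R₁ - ρ → ∀ z ∈ ball x₀ ρ, cjG h ε z = cjG g ε z := by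
    intro ε hε hε' z hz
    have := mollM_prob
    rw [cjG_eq, cjG_eq]
    refine integral_congr_ae ?_
    filter_upwards [mollM_ae] with y hy
    rw [hh, indicator_of_mem]
    rw [mem_ball] at hz ⊢
    calc dist (z - ε • y) x₀ ≤ dist (z - ε • y) z + dist z x₀ := dist_triangle _ _ _
      _ < (R₁ - ρ) + ρ := by
        refine add_lt_add ?_ hz
        rw [dist_eq_norm, sub_sub_cancel_left, norm_neg, norm_smul, Real.norm_eq_abs, abs_of_pos hε]
        nlinarith [norm_nonneg y]
      _ = R₁ := by ring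
  -- divergence
  have hdv : ∀ ε, 0 < ε → ε < R₁ - ρ → ∀ z ∈ ball x₀ ρ,
      (fderiv ℝ (cjG h ε) z 1).re + (fderiv ℝ (cjG h ε) z Complex.I).im = 0 := by
    intro ε hε hε' z hz
    refine cjG_div hi hε ?_
    obtain ⟨φ, hφ⟩ : ∃ φ : ℂ → ℝ, φ = fun y => md_mε ε (z - y) := ⟨_, rfl⟩
    have hφC : ContDiff ℝ ∞ φ := by
      rw [hφ]
      exact (md_contDiff ε).comp (contDiff_const.sub contDiff_id)
    have hφs : Function.support φ ⊆ closedBall z ε := by
      intro y hy
      rw [hφ] at hy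
      have h1 : z - y ∈ Function.support (md_mε ε) := hy
      have h2 := md_support hε h1
      rw [mem_ball_zero_iff] at h2
      rw [mem_closedBall, dist_comm, dist_eq_norm]
      exact h2.le
    have hφt : tsupport φ ⊆ closedBall z ε := closure_minimal hφs isClosed_closedBall
    have hφc : HasCompactSupport φ :=
      HasCompactSupport.of_support_subset_isCompact (isCompact_closedBall z ε) hφs
    have hcl : closedBall z ε ⊆ ball x₀ R₁ := by
      intro y hy
      rw [mem_ball] at hz ⊢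
      rw [mem_closedBall] at hy
      linarith [dist_triangle y z x₀]
    have h3 := hdiv φ hφC hφc (hφt.trans (hcl.trans (ball_subset_closedBall.trans hsub)))
    rw [← hφ, ← h3, ← integral_indicator measurableSet_ball]
    refine integral_congr_ae (Eventually.of_forall fun t => ?_)
    simp only
    by_cases ht : t ∈ ball x₀ R₁
    · rw [indicator_of_mem (hsub (ball_subset_closedBall ht)), hh, indicator_of_mem ht]
    · have h4 : outer_grad φ t = 0 := by
        have h5 : fderiv ℝ φ t = 0 := by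
          have h6 : t ∉ tsupport φ := fun h' => ht (hcl (hφt h'))
          by_contra h7
          exact h6 (support_fderiv_subset ℝ h7)
        unfold outer_grad
        rw [h5, map_zero]
      rw [hh, indicator_of_notMem ht, inner_zero_left]
      by_cases ht' : t ∈ ball x₀ R
      · rw [indicator_of_mem ht', h4, inner_zero_right]
      · rw [indicator_of_notMem ht']
  refine ⟨fun ε => cjG h ε, R₁ - ρ, by linarith, ?_, ?_⟩
  · intro ε hε hε'
    have hc := (cjG_smooth hi hε).continuous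
    refine ⟨hc, hag ε hε hε', ?_, ?_⟩
    · intro z hz
      refine (cj_primitive (cjG_smooth hi hε) (hdv ε hε hε') z hz).congr_of_eventuallyEq ?_
      filter_upwards [isOpen_ball.mem_nhds hz] with y hy
      unfold cjE
      refine intervalIntegral.integral_congr fun t ht => ?_
      rw [uIcc_of_le zero_le_one] at ht
      have hseg : x₀ + t • (y - x₀) ∈ ball x₀ ρ := by
        rw [mem_ball, dist_eq_norm, add_sub_cancel_left, norm_smul, Real.norm_eq_abs,
          abs_of_nonneg ht.1]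
        rw [mem_ball, dist_eq_norm] at hy
        calc t * ‖y - x₀‖ ≤ 1 * ‖y - x₀‖ := mul_le_mul_of_nonneg_right ht.2 (norm_nonneg _)
          _ < ρ := by rwa [one_mul]
      rw [hag ε hε hε' _ hseg]
      rfl
    · intro z r hr hz
      have h1 : ∫⁻ y in ball z r, ‖cjG h ε y‖ₑ ^ 2 ≤ ENNReal.ofReal (M * r) := by
        refine cjG_energy hm hε.le ?_
        intro z' hz'
        have hcl : closedBall z' r ⊆ ball x₀ R := by
          intro y hy
          have h2 : y + (z - z') ∈ closedBall z r := by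
            rw [mem_closedBall, dist_eq_norm] at hy ⊢
            have : y + (z - z') - z = y - z' := by ring
            rwa [this]
          rw [← closure_ball z hr.ne'] at h2
          have h3 : y + (z - z') ∈ closedBall x₀ ρ := by
            have := closure_mono hz h2
            rwa [closure_ball x₀ hρ0.ne'] at this
          rw [mem_closedBall] at h3
          rw [mem_ball]
          have h4 : dist y (y + (z - z')) = dist z' z := by
            rw [dist_eq_norm, dist_comm, dist_eq_norm, sub_add_cancel_left, norm_neg]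
          linarith [dist_triangle y (y + (z - z')) x₀]
        obtain ⟨j1, j2⟩ := hE z' r hr hcl
        calc ∫⁻ x in ball z' r, ‖h x‖ₑ ^ 2 ≤ ∫⁻ x in ball z' r, ‖g x‖ₑ ^ 2 := by
              refine lintegral_mono fun x => ?_
              gcongr
              rw [hh]
              exact enorm_indicator_le_enorm_self _ _
          _ = ENNReal.ofReal (∫ x in ball z' r, ‖g x‖ ^ 2) := cj_lint j1
          _ ≤ _ := ENNReal.ofReal_le_ofReal j2
      have h2 : IntegrableOn (fun y => ‖cjG h ε y‖ ^ 2) (ball z r) :=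
        ((hc.norm.pow 2).continuousOn.integrableOn_compact (isCompact_closedBall z r)).mono_set
          ball_subset_closedBall
      rw [cj_lint h2] at h1
      simp only [norm_mul, Complex.norm_I, one_mul]
      have h3 : 0 ≤ M * r := by
        by_contra h4
        push Not at h4
        obtain ⟨j1, j2⟩ := hE z r hr (by
          rw [← closure_ball z hr.ne']
          refine (closure_mono hz).trans ?_
          rw [closure_ball x₀ hρ0.ne']
          exact closedBall_subset_ball hρ)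
        have : 0 ≤ ∫ y in ball z r, ‖g y‖ ^ 2 := integral_nonneg fun _ => by positivity
        linarith
      exact (ENNReal.ofReal_le_ofReal_iff h3).1 h1
  · intro η hη
    have h1 := ENNReal.tendsto_nhds_zero.1 (cjG_L1 hm hi) (ENNReal.ofReal (η / 2))
      (ENNReal.ofReal_pos.2 (by positivity))
    rw [eventually_nhdsWithin_iff, Metric.eventually_nhds_iff] at h1
    obtain ⟨ε₁, hε₁, h2⟩ := h1
    refine ⟨min ε₁ (R₁ - ρ), lt_min hε₁ (by linarith), min_le_right _ _, ?_⟩
    intro ε δ hε hε' hδ hδ'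
    have h3 : ∀ ε, 0 < ε → ε < min ε₁ (R₁ - ρ) →
        ∫⁻ x, ‖cjG h ε x - h x‖ₑ ≤ ENNReal.ofReal (η / 2) := by
      intro ε hε hε'
      refine h2 ?_ hε
      rw [dist_zero_right, Real.norm_eq_abs, abs_of_pos hε]
      exact hε'.trans_le (min_le_left _ _)
    have h4 : ∫⁻ z in ball x₀ ρ, ‖cjG h ε z - cjG h δ z‖ₑ ≤ ENNReal.ofReal η := by
      calc ∫⁻ z in ball x₀ ρ, ‖cjG h ε z - cjG h δ z‖ₑ ≤ ∫⁻ z, ‖cjG h ε z - cjG h δ z‖ₑ :=
            setLIntegral_le_lintegral _ _
        _ ≤ ∫⁻ z, (‖cjG h ε z - h z‖ₑ + ‖cjG h δ z - h z‖ₑ) := by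
            refine lintegral_mono fun z => ?_
            have : cjG h ε z - cjG h δ z = (cjG h ε z - h z) - (cjG h δ z - h z) := by ring
            rw [this]
            exact enorm_sub_le
        _ = (∫⁻ z, ‖cjG h ε z - h z‖ₑ) + ∫⁻ z, ‖cjG h δ z - h z‖ₑ := by
            refine lintegral_add_left ?_ _
            exact ((cjG_smooth hi hε).continuous.measurable.sub hm).enorm
        _ ≤ ENNReal.ofReal (η / 2) + ENNReal.ofReal (η / 2) :=
            add_le_add (h3 ε hε hε') (h3 δ hδ hδ')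
        _ = ENNReal.ofReal η := by
            rw [← ENNReal.ofReal_add (by positivity) (by positivity), add_halves]
    have h5 : Continuous fun z => ‖cjG h ε z - cjG h δ z‖ :=
      ((cjG_smooth hi hε).continuous.sub (cjG_smooth hi hδ).continuous).norm
    have h6 : IntegrableOn (fun z => ‖cjG h ε z - cjG h δ z‖) (ball x₀ ρ) :=
      (h5.continuousOn.integrableOn_compact (isCompact_closedBall x₀ ρ)).mono_set
        ball_subset_closedBall
    have h7 : ENNReal.ofReal (∫ z in ball x₀ ρ, ‖cjG h ε z - cjG h δ z‖) =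
        ∫⁻ z in ball x₀ ρ, ‖cjG h ε z - cjG h δ z‖ₑ := by
      rw [ofReal_integral_eq_lintegral_ofReal h6 (Eventually.of_forall fun x => norm_nonneg _)]
      refine lintegral_congr fun x => ?_
      rw [ofReal_norm]
    rw [← h7] at h4
    exact (ENNReal.ofReal_le_ofReal_iff hη.le).1 h4

theorem cjE_self (g : ℂ → ℂ) (x₀ : ℂ) (ε : ℝ) : cjE g x₀ ε x₀ = 0 := by
  unfold cjE
  simp

theorem ilin_sub (a b : ℂ) : ilin a - ilin b = ilin (a - b) := by
  unfold ilin
  rw [map_sub]

theorem cj_cauchy {g : ℂ → ℂ} {x₀ : ℂ} {R M : ℝ} (hgm : Measurable g) (hM : 0 ≤ M)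
    (hE : ∀ x s, 0 < s → closedBall x s ⊆ ball x₀ R →
      IntegrableOn (fun y => ‖g y‖ ^ 2) (ball x s) ∧ ∫ y in ball x s, ‖g y‖ ^ 2 ≤ M * s)
    (hdiv : ∀ φ : ℂ → ℝ, ContDiff ℝ ∞ φ → HasCompactSupport φ → tsupport φ ⊆ ball x₀ R →
      ∫ x in ball x₀ R, inner ℝ (g x) (outer_grad φ x) = 0)
    {z : ℂ} (hz : z ∈ ball x₀ R) :
    ∃ L, Tendsto (fun n : ℕ => cjE g x₀ (1 / (n + 1)) z) atTop (𝓝 L) := by
  obtain ⟨ρ, hρ1, hρ2⟩ := exists_between (mem_ball.1 hz)
  have hρ0 : 0 < ρ := dist_nonneg.trans_lt hρ1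
  obtain ⟨G, ε₀, hε₀, h1, h2⟩ := cj_reg hgm hE hdiv hρ0 hρ2
  have key : ∀ e > 0, ∃ ε₁ > 0, ∀ ε δ, 0 < ε → ε < ε₁ → 0 < δ → δ < ε₁ →
      |cjE g x₀ ε z - cjE g x₀ δ z| ≤ e := by
    intro e he
    have hpi := Real.pi_pos
    have t1 : Tendsto (fun s : ℝ => 4 * Real.sqrt (Real.pi * (4 * M)) * Real.sqrt s) (𝓝[>] 0)
        (𝓝 (4 * Real.sqrt (Real.pi * (4 * M)) * Real.sqrt 0)) :=
      ((Real.continuous_sqrt.tendsto 0).const_mul _).mono_left nhdsWithin_le_nhds
    rw [Real.sqrt_zero, mul_zero] at t1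
    have t2 := t1.eventually (gt_mem_nhds (show (0 : ℝ) < e * Real.pi / 2 by positivity))
    have t3 : ∀ᶠ s : ℝ in 𝓝[>] 0, s < ρ - dist z x₀ :=
      nhdsWithin_le_nhds (gt_mem_nhds (by linarith))
    obtain ⟨s, ⟨hs1, hs2⟩, hs0⟩ := ((t2.and t3).and self_mem_nhdsWithin).exists
    have hs0 : 0 < s := hs0
    obtain ⟨ε₁, hε₁, hε₁', h3⟩ := h2 (e * (Real.pi * s ^ 2) / 2 / (dist x₀ z + 1))
      (by have := dist_nonneg (x := x₀) (y := z); positivity)
    refine ⟨ε₁, hε₁, ?_⟩
    intro ε δ hε hε' hδ hδ'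
    obtain ⟨c1, -, d1, e1⟩ := h1 ε hε (hε'.trans_le hε₁')
    obtain ⟨c2, -, d2, e2⟩ := h1 δ hδ (hδ'.trans_le hε₁')
    have h4 := h3 ε δ hε hε' hδ hδ'
    have hH : Continuous fun y => Complex.I * (G ε y - G δ y) := by fun_prop
    have hw : ∀ y ∈ ball x₀ ρ, HasFDerivAt (fun y => cjE g x₀ ε y - cjE g x₀ δ y)
        (ilin (Complex.I * (G ε y - G δ y))) y := by
      intro y hy
      rw [mul_sub, ← ilin_sub]
      exact (d1 y hy).sub (d2 y hy)
    have hloc : ∀ (k : ℂ → ℝ), Continuous k → ∀ y r, IntegrableOn k (ball y r) := fun k hk y r =>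
      (hk.continuousOn.integrableOn_compact (isCompact_closedBall y r)).mono_set
        ball_subset_closedBall
    have hen : ∀ y r, 0 < r → ball y r ⊆ ball x₀ ρ →
        ∫ x in ball y r, ‖Complex.I * (G ε x - G δ x)‖ ^ 2 ≤ 4 * M * r := by
      intro y r hr hy
      have i1 : IntegrableOn (fun x => 2 * ‖Complex.I * G ε x‖ ^ 2) (ball y r) :=
        hloc _ (by fun_prop) _ _
      have i2 : IntegrableOn (fun x => 2 * ‖Complex.I * G δ x‖ ^ 2) (ball y r) :=
        hloc _ (by fun_prop) _ _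
      calc ∫ x in ball y r, ‖Complex.I * (G ε x - G δ x)‖ ^ 2
          ≤ ∫ x in ball y r, (2 * ‖Complex.I * G ε x‖ ^ 2 + 2 * ‖Complex.I * G δ x‖ ^ 2) := by
            refine setIntegral_mono (hloc _ (by fun_prop) _ _) (i1.add i2) fun x => ?_
            simp only [mul_sub]
            have h5 := norm_sub_le (Complex.I * G ε x) (Complex.I * G δ x)
            have h6 := norm_nonneg (Complex.I * G ε x - Complex.I * G δ x)
            have h7 := norm_nonneg (Complex.I * G ε x)
            have h8 := norm_nonneg (Complex.I * G δ x)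
            nlinarith [sq_nonneg (‖Complex.I * G ε x‖ - ‖Complex.I * G δ x‖)]
        _ = (2 * ∫ x in ball y r, ‖Complex.I * G ε x‖ ^ 2) +
            2 * ∫ x in ball y r, ‖Complex.I * G δ x‖ ^ 2 := by
            rw [integral_add i1 i2, integral_const_mul, integral_const_mul]
        _ ≤ 4 * M * r := by
            have := e1 y r hr hy
            have := e2 y r hr hy
            linarith
    have hp : ball x₀ s ⊆ ball x₀ ρ :=
      ball_subset_ball (by linarith [dist_nonneg (x := z) (y := x₀)])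
    have hq : ball z s ⊆ ball x₀ ρ := ball_subset_ball' (by linarith)
    have h5 := cj_two hH (by positivity : (0 : ℝ) ≤ 4 * M) hw hs0 hp hq hen
    simp only [cjE_self, sub_self, zero_sub, abs_neg, norm_mul, Complex.norm_I, one_mul] at h5
    have h6 : dist x₀ z * ∫ y in ball x₀ ρ, ‖G ε y - G δ y‖ ≤ e * (Real.pi * s ^ 2) / 2 := by
      have hd := dist_nonneg (x := x₀) (y := z)
      calc dist x₀ z * ∫ y in ball x₀ ρ, ‖G ε y - G δ y‖
          ≤ (dist x₀ z + 1) * (e * (Real.pi * s ^ 2) / 2 / (dist x₀ z + 1)) := by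
            refine mul_le_mul (by linarith) h4 (integral_nonneg fun _ => norm_nonneg _) (by positivity)
        _ = _ := by field_simp
    have h7 : 4 * Real.sqrt (Real.pi * (4 * M)) * (s ^ 2 * Real.sqrt s) ≤
        e * (Real.pi * s ^ 2) / 2 := by
      calc 4 * Real.sqrt (Real.pi * (4 * M)) * (s ^ 2 * Real.sqrt s)
          = s ^ 2 * (4 * Real.sqrt (Real.pi * (4 * M)) * Real.sqrt s) := by ring
        _ ≤ s ^ 2 * (e * Real.pi / 2) := mul_le_mul_of_nonneg_left hs1.le (by positivity)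
        _ = _ := by ring
    have h8 : |cjE g x₀ ε z - cjE g x₀ δ z| * (Real.pi * s ^ 2) ≤ e * (Real.pi * s ^ 2) := by
      linarith
    exact le_of_mul_le_mul_right h8 (by positivity)
  have hcau : CauchySeq fun n : ℕ => cjE g x₀ (1 / (n + 1)) z := by
    rw [Metric.cauchySeq_iff]
    intro e he
    obtain ⟨ε₁, hε₁, h3⟩ := key (e / 2) (by positivity)
    obtain ⟨N, hN⟩ := exists_nat_one_div_lt hε₁
    refine ⟨N, fun m hm n hn => ?_⟩
    have hlt : ∀ n ≥ N, (1 : ℝ) / ((n : ℝ) + 1) < ε₁ := by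
      intro n hn
      refine lt_of_le_of_lt ?_ hN
      have : (N : ℝ) ≤ n := by exact_mod_cast hn
      gcongr
    rw [Real.dist_eq]
    exact (h3 _ _ (by positivity) (hlt m hm) (by positivity) (hlt n hn)).trans_lt (by linarith)
  exact cauchySeq_tendsto_of_complete hcau

/-- **The conjugate function.**  A divergence-free field `g` whose energy on discs of radius `s` is at
most `M s` has a conjugate function `v`: it is Hölder continuous of exponent `1/2`, its gradient is
`I g` at the continuity points of `g`, and it is the limit of the mollified conjugate functions. -/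
theorem conj_ball {g : ℂ → ℂ} {x₀ : ℂ} {R M : ℝ} (hgm : Measurable g) (hM : 0 ≤ M)
    (hE : ∀ x s, 0 < s → closedBall x s ⊆ ball x₀ R →
      IntegrableOn (fun y => ‖g y‖ ^ 2) (ball x s) ∧ ∫ y in ball x s, ‖g y‖ ^ 2 ≤ M * s)
    (hdiv : ∀ φ : ℂ → ℝ, ContDiff ℝ ∞ φ → HasCompactSupport φ → tsupport φ ⊆ ball x₀ R →
      ∫ x in ball x₀ R, inner ℝ (g x) (outer_grad φ x) = 0) :
    ∃ v : ℂ → ℝ, ContinuousOn v (ball x₀ R) ∧
      (∀ x x', closedBall x (2 * dist x x') ⊆ ball x₀ R →
        |v x - v x'| ≤ 8 * Real.sqrt (M * dist x x')) ∧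
      (∀ x ∈ ball x₀ R, ContinuousAt g x → HasFDerivAt v (ilin (Complex.I * g x)) x) ∧
      ∀ z ∈ ball x₀ R, Tendsto (fun n : ℕ => cjE g x₀ (1 / (n + 1)) z) atTop (𝓝 (v z)) := by
  set v : ℂ → ℝ := fun z => limUnder atTop (fun n : ℕ => cjE g x₀ (1 / (n + 1)) z) with hv
  have hlim : ∀ z ∈ ball x₀ R,
      Tendsto (fun n : ℕ => cjE g x₀ (1 / (n + 1)) z) atTop (𝓝 (v z)) := fun z hz =>
    tendsto_nhds_limUnder (cj_cauchy hgm hM hE hdiv hz)
  have hsmall : ∀ ε₀ > (0 : ℝ), ∀ᶠ n : ℕ in atTop, (1 : ℝ) / ((n : ℝ) + 1) < ε₀ := fun ε₀ h =>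
    tendsto_one_div_add_atTop_nhds_zero_nat.eventually (gt_mem_nhds h)
  have hhol : ∀ x x', closedBall x (2 * dist x x') ⊆ ball x₀ R →
      |v x - v x'| ≤ 8 * Real.sqrt (M * dist x x') := by
    intro x x' hx
    rcases eq_or_ne x x' with rfl | hne
    · simp
    have hd : 0 < dist x x' := dist_pos.2 hne
    obtain ⟨ρ', hρ', hsub'⟩ := exists_lt_subset_ball isClosed_closedBall hx
    have hxR : x ∈ ball x₀ R := hx (mem_closedBall_self (by positivity))
    have hx'R : x' ∈ ball x₀ R := hx (by rw [mem_closedBall, dist_comm]; linarith)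
    have hρ'0 : 0 < ρ' := dist_nonneg.trans_lt (mem_ball.1 (hsub' (mem_closedBall_self (by positivity))))
    obtain ⟨G, ε₀, hε₀, h1, -⟩ := cj_reg hgm hE hdiv hρ'0 hρ'
    have hsub : ball x (2 * dist x x') ⊆ ball x₀ ρ' := ball_subset_closedBall.trans hsub'
    have h3 : ∀ᶠ n : ℕ in atTop, |cjE g x₀ (1 / (n + 1)) x - cjE g x₀ (1 / (n + 1)) x'| ≤
        8 * Real.sqrt (M * dist x x') := by
      filter_upwards [hsmall ε₀ hε₀] with n hn
      obtain ⟨c1, -, d1, e1⟩ := h1 _ (by positivity) hn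
      exact morrey (H := fun y => Complex.I * G (1 / ((n : ℝ) + 1)) y) (by fun_prop) hM
        (fun z hz => d1 z (hsub hz)) (fun z s hs hz => e1 z s hs (hz.trans hsub))
    exact le_of_tendsto ((hlim x hxR).sub (hlim x' hx'R)).abs h3
  refine ⟨v, ?_, hhol, ?_, hlim⟩
  · intro x hx
    refine ContinuousAt.continuousWithinAt ?_
    obtain ⟨r, hr, hrs⟩ := Metric.isOpen_iff.1 isOpen_ball x hx
    rw [ContinuousAt, tendsto_iff_dist_tendsto_zero]
    have h1 : Tendsto (fun y => 8 * Real.sqrt (M * dist x y)) (𝓝 x) (𝓝 0) := by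
      have h2 : Continuous fun y => 8 * Real.sqrt (M * dist x y) := by fun_prop
      have := h2.tendsto x
      simpa using this
    refine squeeze_zero' (Eventually.of_forall fun y => dist_nonneg) ?_ h1
    filter_upwards [ball_mem_nhds x (by positivity : (0 : ℝ) < r / 2)] with y hy
    rw [dist_comm, Real.dist_eq]
    refine hhol x y ((closedBall_subset_ball ?_).trans hrs)
    rw [mem_ball, dist_comm] at hy
    linarith
  · intro x hx hgx
    obtain ⟨ρ, hρ1, hρ2⟩ := exists_between (mem_ball.1 hx)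
    have hρ0 : 0 < ρ := dist_nonneg.trans_lt hρ1
    have hxρ : x ∈ ball x₀ ρ := hρ1
    obtain ⟨G, ε₀, hε₀, h1, -⟩ := cj_reg hgm hE hdiv hρ0 hρ2
    refine hasFDerivAt_of_tendstoUniformlyOnFilter (𝕜 := ℝ) (l := atTop)
      (f := fun (n : ℕ) y => cjE g x₀ (1 / (n + 1)) y)
      (f' := fun (n : ℕ) y => ilin (Complex.I * cjG g (1 / (n + 1)) y))
      (g' := fun y => ilin (Complex.I * g y)) ?_ ?_ ?_
    · rw [Metric.tendstoUniformlyOnFilter_iff]
      intro e he
      obtain ⟨δ, hδ, hδ'⟩ := Metric.continuousAt_iff.1 hgx (e / 4) (by positivity)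
      have h2 : ∀ᶠ y in 𝓝 x, dist y x < δ / 2 := ball_mem_nhds x (by positivity)
      filter_upwards [(hsmall (δ / 2) (by positivity)).prod_mk h2] with p hp
      have h3 := cjG_near hgm (x := x) (c := e / 4) (δ := δ / 2)
        (fun y hy => (hδ' (by linarith)).le) (ε := 1 / ((p.1 : ℝ) + 1)) (by positivity) hp.1 hp.2
      rw [dist_comm, dist_eq_norm, ilin_sub, ← mul_sub]
      unfold ilin
      rw [innerSL_apply_norm, norm_mul, Complex.norm_I, one_mul, ← dist_eq_norm]
      linarith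
    · have h2 : ∀ᶠ y in 𝓝 x, y ∈ ball x₀ ρ := isOpen_ball.mem_nhds hxρ
      filter_upwards [(hsmall ε₀ hε₀).prod_mk h2] with p hp
      obtain ⟨-, a1, d1, -⟩ := h1 _ (by positivity) hp.1
      have := d1 p.2 hp.2
      rwa [a1 p.2 hp.2] at this
    · filter_upwards [isOpen_ball.mem_nhds hx] with y hy
      exact hlim y hy

/-- The conjugate function on the whole plane. -/
theorem conj_global {g : ℂ → ℂ} {M : ℝ} (hgm : Measurable g) (hM : 0 ≤ M)
    (hE : ∀ x s, 0 < s → IntegrableOn (fun y => ‖g y‖ ^ 2) (ball x s) ∧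
      ∫ y in ball x s, ‖g y‖ ^ 2 ≤ M * s)
    (hdiv : ∀ φ : ℂ → ℝ, ContDiff ℝ ∞ φ → HasCompactSupport φ →
      ∫ x, inner ℝ (g x) (outer_grad φ x) = 0) :
    ∃ v : ℂ → ℝ, Continuous v ∧
      (∀ x x', |v x - v x'| ≤ 8 * Real.sqrt (M * dist x x')) ∧
      (∀ x, ContinuousAt g x → HasFDerivAt v (ilin (Complex.I * g x)) x) := by
  have hb : ∀ R : ℝ, ∃ v : ℂ → ℝ, ContinuousOn v (ball 0 R) ∧
      (∀ x x', closedBall x (2 * dist x x') ⊆ ball 0 R →
        |v x - v x'| ≤ 8 * Real.sqrt (M * dist x x')) ∧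
      (∀ x ∈ ball (0 : ℂ) R, ContinuousAt g x → HasFDerivAt v (ilin (Complex.I * g x)) x) ∧
      ∀ z ∈ ball (0 : ℂ) R, Tendsto (fun n : ℕ => cjE g 0 (1 / (n + 1)) z) atTop (𝓝 (v z)) := by
    intro R
    refine conj_ball hgm hM (fun x s hs _ => hE x s hs) ?_
    intro φ h1 h2 h3
    rw [setIntegral_eq_integral_of_forall_compl_eq_zero]
    · exact hdiv φ h1 h2
    · intro x hx
      have h4 : outer_grad φ x = 0 := by
        have h5 : fderiv ℝ φ x = 0 := by
          by_contra h7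
          exact hx (h3 (support_fderiv_subset ℝ h7))
        unfold outer_grad
        rw [h5, map_zero]
      rw [h4, inner_zero_right]
  choose V hV1 hV2 hV3 hV4 using hb
  set v : ℂ → ℝ := fun z => limUnder atTop (fun n : ℕ => cjE g 0 (1 / (n + 1)) z) with hv
  have hlim : ∀ z, Tendsto (fun n : ℕ => cjE g 0 (1 / (n + 1)) z) atTop (𝓝 (v z)) := fun z =>
    tendsto_nhds_limUnder ⟨_, hV4 (‖z‖ + 1) z (by rw [mem_ball_zero_iff]; linarith)⟩
  have hag : ∀ R, ∀ z ∈ ball (0 : ℂ) R, v z = V R z := fun R z hz =>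
    tendsto_nhds_unique (hlim z) (hV4 R z hz)
  have hhol : ∀ x x', |v x - v x'| ≤ 8 * Real.sqrt (M * dist x x') := by
    intro x x'
    have h0 := dist_nonneg (x := x) (y := x')
    have hsub : closedBall x (2 * dist x x') ⊆ ball 0 (2 * dist x x' + ‖x‖ + 1) := by
      refine closedBall_subset_ball' ?_
      rw [dist_zero_right]
      linarith
    rw [hag _ x (hsub (mem_closedBall_self (by positivity))),
      hag _ x' (hsub (by rw [mem_closedBall, dist_comm]; linarith))]
    exact hV2 _ x x' hsub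
  refine ⟨v, ?_, hhol, ?_⟩
  · rw [continuous_iff_continuousAt]
    intro x
    rw [ContinuousAt, tendsto_iff_dist_tendsto_zero]
    have h1 : Tendsto (fun y => 8 * Real.sqrt (M * dist x y)) (𝓝 x) (𝓝 0) := by
      have h2 : Continuous fun y => 8 * Real.sqrt (M * dist x y) := by fun_prop
      have := h2.tendsto x
      simpa using this
    refine squeeze_zero (fun y => dist_nonneg) ?_ h1
    intro y
    rw [dist_comm, Real.dist_eq]
    exact hhol x y
  · intro x hx
    have hxb : x ∈ ball (0 : ℂ) (‖x‖ + 1) := by rw [mem_ball_zero_iff]; linarith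
    refine (hV3 (‖x‖ + 1) x hxb hx).congr_of_eventuallyEq ?_
    filter_upwards [isOpen_ball.mem_nhds hxb] with y hy
    exact hag _ y hy

end Pool.Agent.MP099f24
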