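import Mathlib
import Pool.Agent.Lib.MP_099f24_an.SD.Defs
import Pool.Agent.Lib.MP_099f24_an.SD.GlueCore
import Pool.Agent.Lib.MP_099f24_an.SC.SepCore
import Pool.Agent.Lib.MP_099f24_an.FV.Eilenberg

/-!
# A continuous function which takes equal values at the ends of the gaps of all circles is constant
-/

set_option autoImplicit false

namespace Pool.Agent.MP099f24

open MeasureTheory Filter Topology Set Metric
open scoped ENNReal ContDiff ComplexConjugate

/-- the one dimensional statement -/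
theorem const_line_lt {f : ℝ → ℝ} {Z : Set ℝ} {a b : ℝ} (hf : ContinuousOn f Z)
    (hZ : IsCompact Z) (hZc : Z.Countable) (hZab : Z ⊆ Icc a b) (ha : a ∈ Z) (hb : b ∈ Z)
    (hgap : ∀ s ∈ Z, ∀ t ∈ Z, s < t → (∀ θ ∈ Ioo s t, θ ∉ Z) → f s = f t) : ¬ f a < f b := by
  intro hlt
  -- a value which is not attained
  obtain ⟨y, hy, hyf⟩ : ∃ y ∈ Ioo (f a) (f b), y ∉ f '' Z := by
    by_contra hcon
    push Not at hcon
    have h1 : (Ioo (f a) (f b)).Countable := (hZc.image f).mono hcon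
    have h2 := h1.measure_zero (volume : Measure ℝ)
    rw [Real.volume_Ioo, ENNReal.ofReal_eq_zero] at h2
    linarith
  have hne : ∀ θ ∈ Z, f θ ≠ y := fun θ hθ h => hyf ⟨θ, hθ, h⟩
  -- the last point below `y`
  have hS1 : IsCompact (Z ∩ f ⁻¹' Iic y) :=
    hZ.of_isClosed_subset (hf.preimage_isClosed_of_isClosed hZ.isClosed isClosed_Iic)
      inter_subset_left
  obtain ⟨s, hs⟩ := hS1.exists_isGreatest ⟨a, ha, hy.1.le⟩
  have hsZ : s ∈ Z := hs.1.1
  have hsy : f s < y := lt_of_le_of_ne hs.1.2 (hne s hsZ)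
  have hS2 : IsCompact ((Z ∩ f ⁻¹' Ici y) ∩ Ici s) := by
    refine hZ.of_isClosed_subset ?_ (inter_subset_left.trans inter_subset_left)
    exact (hf.preimage_isClosed_of_isClosed hZ.isClosed isClosed_Ici).inter isClosed_Ici
  have hsb : s ≤ b := (hZab hsZ).2
  obtain ⟨t, ht⟩ := hS2.exists_isLeast ⟨b, ⟨hb, hy.2.le⟩, hsb⟩
  have htZ : t ∈ Z := ht.1.1.1
  have hty : y ≤ f t := ht.1.1.2
  have hst : s < t := by
    refine lt_of_le_of_ne ht.1.2 fun h => ?_
    rw [← h] at hty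
    exact absurd hty (not_le.2 hsy)
  have hno : ∀ θ ∈ Ioo s t, θ ∉ Z := by
    intro θ hθ hθZ
    rcases le_total (f θ) y with h | h
    · exact absurd (hs.2 ⟨hθZ, h⟩) (not_le.2 hθ.1)
    · exact absurd (ht.2 ⟨⟨hθZ, h⟩, hθ.1.le⟩) (not_le.2 hθ.2)
  have := hgap s hsZ t htZ hst hno
  linarith

theorem const_line {f : ℝ → ℝ} {Z : Set ℝ} {a b : ℝ} (hf : ContinuousOn f Z)
    (hZ : IsCompact Z) (hZc : Z.Countable) (hZab : Z ⊆ Icc a b) (ha : a ∈ Z) (hb : b ∈ Z)
    (hgap : ∀ s ∈ Z, ∀ t ∈ Z, s < t → (∀ θ ∈ Ioo s t, θ ∉ Z) → f s = f t) : f a = f b := by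
  refine le_antisymm ?_ (not_lt.1 (const_line_lt hf hZ hZc hZab ha hb hgap))
  have h1 := const_line_lt (f := fun x => - f x) hf.neg hZ hZc hZab ha hb
    (fun s hs t ht hst hno => by rw [hgap s hs t ht hst hno])
  linarith [not_lt.1 h1]

/-- almost all fibres of a Lipschitz function on a set of finite length are finite -/
theorem const_eil {A : Set ℂ} (hA : MeasurableSet A) (hfin : (μH[1] : Measure ℂ) A < ⊤)
    {F : ℂ → ℝ} {C : NNReal} (hF : LipschitzOnWith C F A) :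
    ∀ᵐ t : ℝ, (A ∩ F ⁻¹' {t}).Finite := by
  obtain ⟨g, hg, hgF⟩ := hF.extend_real
  have hC : (0 : ℝ) < (C : ℝ) + 1 := by positivity
  have hp : LipschitzWith 1 (fun z => g z * ((C : ℝ) + 1)⁻¹) := by
    refine LipschitzWith.of_dist_le_mul fun x y => ?_
    rw [Real.dist_eq, ← sub_mul, abs_mul, abs_of_pos (inv_pos.2 hC), NNReal.coe_one, one_mul]
    rw [mul_inv_le_iff₀ hC]
    have h1 := hg.dist_le_mul x y
    rw [Real.dist_eq] at h1
    have h2 : 0 ≤ dist x y := dist_nonneg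
    nlinarith
  have h1 := fv_eil_finite hp hA hfin
  have h2 : ∀ᵐ t : ℝ, (A ∩ (fun z => g z * ((C : ℝ) + 1)⁻¹) ⁻¹' {t * ((C : ℝ) + 1)⁻¹}).Finite := by
    rw [ae_iff] at h1 ⊢
    have h3 := Real.volume_preimage_mul_right (a := ((C : ℝ) + 1)⁻¹) (inv_ne_zero hC.ne')
      {y | ¬ (A ∩ (fun z => g z * ((C : ℝ) + 1)⁻¹) ⁻¹' {y}).Finite}
    rw [h1, mul_zero] at h3
    exact h3
  filter_upwards [h2] with t ht
  refine ht.subset ?_
  rintro z ⟨hzA, hz⟩
  refine ⟨hzA, ?_⟩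
  have h4 : g z = t := by rw [← hgF hzA]; exact hz
  simp only [mem_preimage, h4, mem_singleton_iff]

/-- almost all circles through `p` and `q` meet `K` in a countable set -/
theorem const_fiber {K : Set ℂ} (hK : IsClosed K)
    (hlen : ∀ C, IsCompact C → (μH[1] : Measure ℂ) (K ∩ C) < ⊤) {m e : ℂ} (he : ‖e‖ = 1)
    {l : ℝ} (_hl : 0 ≤ l) :
    ∀ᵐ t : ℝ, (K ∩ sphere (m + t * (Complex.I * e)) (Real.sqrt (t ^ 2 + l ^ 2))).Countable := by
  obtain ⟨y, hy⟩ : ∃ y : ℂ → ℝ, y = fun z => ((z - m) * conj e).im := ⟨_, rfl⟩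
  obtain ⟨F, hFd⟩ : ∃ F : ℂ → ℝ, F = fun z => (‖z - m‖ ^ 2 - l ^ 2) / (2 * y z) := ⟨_, rfl⟩
  have hconj : ‖conj e‖ = 1 := by rw [Complex.norm_conj, he]
  have hyl : ∀ z z', |y z - y z'| ≤ dist z z' := by
    intro z z'
    rw [hy]
    simp only
    rw [← Complex.sub_im, ← sub_mul, sub_sub_sub_cancel_right]
    refine (Complex.abs_im_le_norm _).trans ?_
    rw [norm_mul, hconj, mul_one, dist_eq_norm]
  have hyc : Continuous y := by
    rw [hy]
    fun_prop
  obtain ⟨A, hAd⟩ : ∃ A : ℕ → Set ℂ, A = fun n : ℕ => K ∩ (closedBall m n ∩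
      {z | 1 / ((n : ℝ) + 1) ≤ |y z|}) := ⟨_, rfl⟩
  have hAm : ∀ n, MeasurableSet (A n) := by
    intro n
    rw [hAd]
    refine hK.measurableSet.inter (measurableSet_closedBall.inter ?_)
    exact (isClosed_le continuous_const hyc.abs).measurableSet
  have hAf : ∀ n, (μH[1] : Measure ℂ) (A n) < ⊤ := by
    intro n
    refine (measure_mono ?_).trans_lt (hlen _ (isCompact_closedBall m n))
    rw [hAd]
    exact inter_subset_inter_right _ inter_subset_left
  have hFl : ∀ n, ∃ C : NNReal, LipschitzOnWith C F (A n) := by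
    intro n
    have hn : (0 : ℝ) ≤ n := Nat.cast_nonneg n
    refine ⟨Real.toNNReal (n * (n + 1) + (n ^ 2 + l ^ 2) * (n + 1) ^ 2 / 2), ?_⟩
    refine LipschitzOnWith.of_dist_le_mul fun z hz z' hz' => ?_
    rw [Real.coe_toNNReal _ (by positivity)]
    rw [hAd] at hz hz'
    obtain ⟨-, hz1, hz2⟩ := hz
    obtain ⟨-, hz1', hz2'⟩ := hz'
    rw [mem_closedBall, dist_eq_norm] at hz1 hz1'
    have hz3 : 1 / ((n : ℝ) + 1) ≤ |y z| := hz2
    have hz3' : 1 / ((n : ℝ) + 1) ≤ |y z'| := hz2'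
    have hn1 : (0 : ℝ) < 1 / ((n : ℝ) + 1) := by positivity
    have hyz : 0 < |y z| := hn1.trans_le hz3
    have hyz' : 0 < |y z'| := hn1.trans_le hz3'
    have hyz0 : y z ≠ 0 := abs_pos.1 hyz
    have hyz0' : y z' ≠ 0 := abs_pos.1 hyz'
    have hi : |y z|⁻¹ ≤ n + 1 := by
      rw [inv_le_comm₀ hyz (by positivity)]
      simpa using hz3
    have hi' : |y z'|⁻¹ ≤ n + 1 := by
      rw [inv_le_comm₀ hyz' (by positivity)]
      simpa using hz3'
    have hd : 0 ≤ dist z z' := dist_nonneg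
    have e1 : F z - F z' = ((‖z - m‖ ^ 2 - ‖z' - m‖ ^ 2) / 2) * (y z)⁻¹ +
        ((‖z' - m‖ ^ 2 - l ^ 2) / 2) * (y z' - y z) * ((y z)⁻¹ * (y z')⁻¹) := by
      rw [hFd]
      simp only
      field_simp
      ring
    have h1 : |(‖z - m‖ ^ 2 - ‖z' - m‖ ^ 2) / 2| ≤ n * dist z z' := by
      have h2 : |‖z - m‖ - ‖z' - m‖| ≤ dist z z' := by
        refine (abs_norm_sub_norm_le _ _).trans ?_
        rw [dist_eq_norm, sub_sub_sub_cancel_right]
      have h3 : ‖z - m‖ ^ 2 - ‖z' - m‖ ^ 2 = (‖z - m‖ - ‖z' - m‖) * (‖z - m‖ + ‖z' - m‖) := by ring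
      rw [h3, abs_div, abs_mul, abs_of_nonneg (by positivity : 0 ≤ ‖z - m‖ + ‖z' - m‖), abs_two]
      have h4 : |‖z - m‖ - ‖z' - m‖| * (‖z - m‖ + ‖z' - m‖) ≤ dist z z' * (n + n) :=
        mul_le_mul h2 (add_le_add hz1 hz1') (by positivity) hd
      linarith
    have h5 : |(‖z' - m‖ ^ 2 - l ^ 2) / 2| ≤ (n ^ 2 + l ^ 2) / 2 := by
      rw [abs_div, abs_two]
      have h6 : ‖z' - m‖ ^ 2 ≤ n ^ 2 := pow_le_pow_left₀ (norm_nonneg _) hz1' 2
      have h7 : |‖z' - m‖ ^ 2 - l ^ 2| ≤ n ^ 2 + l ^ 2 := by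
        rw [abs_le]
        constructor <;> nlinarith [sq_nonneg ‖z' - m‖, sq_nonneg l]
      linarith
    rw [Real.dist_eq, e1]
    refine (abs_add_le _ _).trans ?_
    rw [abs_mul, abs_mul, abs_mul, abs_mul, abs_inv, abs_inv]
    have h8 : |(‖z - m‖ ^ 2 - ‖z' - m‖ ^ 2) / 2| * |y z|⁻¹ ≤ (n * dist z z') * (n + 1) :=
      mul_le_mul h1 hi (by positivity) (by positivity)
    have h9 : |(‖z' - m‖ ^ 2 - l ^ 2) / 2| * |y z' - y z| * (|y z|⁻¹ * |y z'|⁻¹) ≤
        ((n ^ 2 + l ^ 2) / 2 * dist z z') * ((n + 1) * (n + 1)) := by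
      refine mul_le_mul (mul_le_mul h5 ?_ (abs_nonneg _) (by positivity)) ?_ (by positivity)
        (by positivity)
      · rw [abs_sub_comm]
        exact hyl z z'
      · exact mul_le_mul hi hi' (by positivity) (by positivity)
    linarith
  have h1 : ∀ᵐ t : ℝ, ∀ n, (A n ∩ F ⁻¹' {t}).Finite := by
    rw [ae_all_iff]
    intro n
    obtain ⟨C, hC⟩ := hFl n
    exact const_eil (hAm n) (hAf n) hC
  filter_upwards [h1] with t ht
  have h2 : K ∩ sphere (m + t * (Complex.I * e)) (Real.sqrt (t ^ 2 + l ^ 2)) ⊆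
      {m + l * e, m - l * e} ∪ ⋃ n, (A n ∩ F ⁻¹' {t}) := by
    rintro z ⟨hzK, hz⟩
    rw [mem_sphere, dist_eq_norm] at hz
    -- the coordinates of `z - m`
    obtain ⟨w, hw⟩ : ∃ w, w = (z - m) * conj e := ⟨_, rfl⟩
    have hee : e * conj e = 1 := by
      rw [Complex.mul_conj, Complex.normSq_eq_norm_sq, he]
      norm_num
    have hzw : z - m = w * e := by
      rw [hw]
      linear_combination -(z - m) * hee
    have hnw : ‖z - m‖ = ‖w‖ := by rw [hzw, norm_mul, he, mul_one]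
    have hyw : y z = w.im := by rw [hy, hw]
    have h3 : ‖w - t * Complex.I‖ ^ 2 = t ^ 2 + l ^ 2 := by
      have h4 : z - (m + t * (Complex.I * e)) = (w - t * Complex.I) * e := by
        linear_combination hzw
      rw [h4, norm_mul, he, mul_one] at hz
      rw [hz, Real.sq_sqrt (by positivity)]
    have h5 : ‖w‖ ^ 2 - l ^ 2 = 2 * t * w.im := by
      rw [← Complex.normSq_eq_norm_sq, Complex.normSq_apply] at h3 ⊢
      simp only [Complex.sub_re, Complex.sub_im, Complex.mul_re, Complex.mul_im,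
        Complex.ofReal_re, Complex.ofReal_im, Complex.I_re, Complex.I_im] at h3
      linarith
    rcases eq_or_ne w.im 0 with h0 | h0
    · left
      rw [h0, mul_zero, sub_eq_zero] at h5
      have h6 : w.re ^ 2 = l ^ 2 := by
        rw [← h5, ← Complex.normSq_eq_norm_sq, Complex.normSq_apply, h0]
        ring
      have h7 : w = (w.re : ℂ) := by
        apply Complex.ext
        · simp
        · simp [h0]
      rcases sq_eq_sq_iff_eq_or_eq_neg.1 h6 with h8 | h8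
      · left
        rw [h7, h8] at hzw
        linear_combination hzw
      · right
        rw [h7, h8] at hzw
        rw [mem_singleton_iff]
        push_cast at hzw
        linear_combination hzw
    · right
      obtain ⟨n, hn⟩ := exists_nat_ge (max ‖z - m‖ |w.im|⁻¹)
      have hn1 : ‖z - m‖ ≤ n := (le_max_left _ _).trans hn
      have hn2 : |w.im|⁻¹ ≤ n := (le_max_right _ _).trans hn
      have hpos : 0 < |w.im| := abs_pos.2 h0
      refine mem_iUnion.2 ⟨n, ?_, ?_⟩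
      · rw [hAd]
        refine ⟨hzK, ?_, ?_⟩
        · rw [mem_closedBall, dist_eq_norm]
          exact hn1
        · change 1 / ((n : ℝ) + 1) ≤ |y z|
          rw [hyw, one_div]
          have h9 : |w.im|⁻¹ ≤ (n : ℝ) + 1 := hn2.trans (by linarith)
          have h10 := inv_anti₀ (inv_pos.2 hpos) h9
          rwa [inv_inv] at h10
      · change F z = t
        rw [hFd]
        simp only
        rw [hyw, hnw, h5]
        field_simp
  refine Countable.mono h2 (Countable.union ?_ (countable_iUnion fun n => (ht n).countable))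
  exact (Set.toFinite _).countable

theorem const_pc_inj {c : ℂ} {r x y : ℝ} (hr : 0 < r) (h : pc c r x = pc c r y)
    (hxy : |x - y| < 2 * Real.pi) : x = y := by
  have h1 : er x = er y := by
    have h2 : c + (r : ℂ) * er x = c + (r : ℂ) * er y := h
    exact mul_left_cancel₀ (Complex.ofReal_ne_zero.2 hr.ne') (add_left_cancel h2)
  rw [er, er, Complex.exp_eq_exp_iff_exists_int] at h1
  obtain ⟨n, hn⟩ := h1
  have h4 : x = y + n * (2 * Real.pi) := by
    have h5 := congrArg Complex.im hn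
    simpa using h5
  have hpi := Real.pi_pos
  have h5 : |(n : ℝ)| * (2 * Real.pi) < 1 * (2 * Real.pi) := by
    rw [h4, add_sub_cancel_left, abs_mul, abs_of_pos (by positivity : 0 < 2 * Real.pi)] at hxy
    linarith
  have h6 : |(n : ℝ)| < 1 := lt_of_mul_lt_mul_right h5 (by positivity)
  have h7 : |n| < 1 := by exact_mod_cast h6
  have h8 : n = 0 := Int.abs_lt_one_iff.1 h7
  rw [h4, h8]
  simp

theorem const_pc_per (c : ℂ) (r θ : ℝ) (n : ℤ) : pc c r (θ + n * (2 * Real.pi)) = pc c r θ := by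
  unfold pc er
  congr 2
  rw [Complex.exp_eq_exp_iff_exists_int]
  exact ⟨n, by push_cast; ring⟩

/-- **Local version.** `K` is relatively closed in `U`, and the values of `v` at the two ends of
every gap of `K` on a circle (the closed arc being in `U`) agree; then `v p = v q` for all `p`, `q`
in `K` such that the disc `closedBall ((p + q) / 2) |p - q|` is in `U`. -/
theorem ts_const_loc {U K : Set ℂ} (hK : IsOpen (U \ K))
    (hlen : ∀ C, IsCompact C → C ⊆ U → (μH[1] : Measure ℂ) (K ∩ C) < ⊤) {v : ℂ → ℝ}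
    (hv : ContinuousOn v U)
    (hgap : ∀ (x₀ : ℂ) (r α β : ℝ), 0 < r → α < β → β < α + 2 * Real.pi → carc x₀ r α β ⊆ U →
      pc x₀ r α ∈ K → pc x₀ r β ∈ K → (∀ θ ∈ Ioo α β, pc x₀ r θ ∉ K) →
      v (pc x₀ r α) = v (pc x₀ r β)) {p q : ℂ} (hp : p ∈ K) (hq : q ∈ K)
    (hpq : closedBall ((p + q) / 2) (dist p q) ⊆ U) : v p = v q := by
  rcases eq_or_ne p q with h | hne
  · rw [h]
  obtain ⟨B, hB⟩ : ∃ B, B = closedBall ((p + q) / 2) (dist p q) := ⟨_, rfl⟩
  rw [← hB] at hpq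
  have hBc : IsCompact B := by rw [hB]; exact isCompact_closedBall _ _
  -- the part of `K` in the disc
  have hKB : IsClosed (K ∩ B) := by
    have h1 : K ∩ B = B \ (U \ K) := by
      ext x
      constructor
      · rintro ⟨h1, h2⟩
        exact ⟨h2, fun h => h.2 h1⟩
      · rintro ⟨h1, h2⟩
        refine ⟨?_, h1⟩
        by_contra h3
        exact h2 ⟨hpq h1, h3⟩
    rw [h1]
    exact hBc.isClosed.sdiff hK
  have hlen' : ∀ C, IsCompact C → (μH[1] : Measure ℂ) (K ∩ B ∩ C) < ⊤ := by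
    intro C _
    refine (measure_mono inter_subset_left).trans_lt (hlen B hBc hpq)
  -- the circles
  have hd : 0 < ‖q - p‖ := norm_pos_iff.2 (sub_ne_zero.2 hne.symm)
  obtain ⟨m, hm⟩ : ∃ m, m = (p + q) / 2 := ⟨_, rfl⟩
  obtain ⟨l, hl⟩ : ∃ l, l = ‖q - p‖ / 2 := ⟨_, rfl⟩
  obtain ⟨e, he⟩ : ∃ e : ℂ, e = (q - p) / ‖q - p‖ := ⟨_, rfl⟩
  have hl0 : 0 < l := by rw [hl]; positivity
  have hdc : (‖q - p‖ : ℂ) ≠ 0 := by exact_mod_cast hd.ne'
  have he1 : ‖e‖ = 1 := by
    rw [he, norm_div, Complex.norm_real, norm_norm, div_self hd.ne']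
  have hqe : q = m + l * e := by
    rw [hm, hl, he]; push_cast; field_simp; ring
  have hpe : p = m - l * e := by
    rw [hm, hl, he]; push_cast; field_simp; ring
  have hdist : dist p q = 2 * l := by
    rw [dist_comm, dist_eq_norm, hl]; ring
  have hae := const_fiber hKB hlen' (m := m) he1 hl0.le
  obtain ⟨t, ht, hcount⟩ : ∃ t ∈ Ioo 0 (l / 2), (K ∩ B ∩ sphere (m + t * (Complex.I * e))
      (Real.sqrt (t ^ 2 + l ^ 2))).Countable := by
    by_contra hcon
    push Not at hcon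
    rw [ae_iff] at hae
    have h3 := measure_mono_null (fun t ht => hcon t ht : Ioo 0 (l / 2) ⊆ _) hae
    rw [Real.volume_Ioo, ENNReal.ofReal_eq_zero] at h3
    linarith
  obtain ⟨c, hc⟩ : ∃ c, c = m + t * (Complex.I * e) := ⟨_, rfl⟩
  obtain ⟨r, hr⟩ : ∃ r, r = Real.sqrt (t ^ 2 + l ^ 2) := ⟨_, rfl⟩
  rw [← hc, ← hr] at hcount
  have hr0 : 0 < r := by rw [hr]; exact Real.sqrt_pos.2 (by positivity)
  have hr2 : r ^ 2 = t ^ 2 + l ^ 2 := by rw [hr]; exact Real.sq_sqrt (by positivity)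
  have hsB : ∀ θ, pc c r θ ∈ B := by
    intro θ
    rw [hB, ← hm, mem_closedBall, hdist]
    have h1 : dist (pc c r θ) c = r := glue_dist_pc c hr0 θ
    have h2 : dist c m = t := by
      rw [hc, dist_eq_norm, add_sub_cancel_left, norm_mul, norm_mul, Complex.norm_I, he1,
        Complex.norm_real, Real.norm_of_nonneg ht.1.le]
      ring
    have h3 : r ≤ 3 / 2 * l := by
      have h4 : r ^ 2 ≤ (3 / 2 * l) ^ 2 := by
        rw [hr2]
        nlinarith [ht.1, ht.2]
      exact (sq_le_sq₀ hr0.le (by positivity)).1 h4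
    calc dist (pc c r θ) m ≤ dist (pc c r θ) c + dist c m := dist_triangle _ _ _
      _ ≤ 2 * l := by rw [h1, h2]; linarith [ht.2]
  have hIe : ∀ s : ℝ, ‖(s : ℂ) * e - t * (Complex.I * e)‖ ^ 2 = t ^ 2 + s ^ 2 := by
    intro s
    have h1 : (s : ℂ) * e - t * (Complex.I * e) = (s - t * Complex.I) * e := by ring
    rw [h1, norm_mul, he1, mul_one, ← Complex.normSq_eq_norm_sq, Complex.normSq_apply]
    simp
    ring
  have hps : p ∈ sphere c r := by
    rw [mem_sphere, dist_eq_norm, hpe, hc]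
    have h1 : m - l * e - (m + t * (Complex.I * e)) = ((-l : ℝ) : ℂ) * e - t * (Complex.I * e) := by
      push_cast; ring
    rw [h1]
    have h2 := hIe (-l)
    have h3 : ‖((-l : ℝ) : ℂ) * e - t * (Complex.I * e)‖ ^ 2 = r ^ 2 := by
      rw [h2, hr2]; ring
    exact (sq_eq_sq₀ (norm_nonneg _) hr0.le).1 h3
  have hqs : q ∈ sphere c r := by
    rw [mem_sphere, dist_eq_norm, hqe, hc]
    have h1 : m + l * e - (m + t * (Complex.I * e)) = (l : ℂ) * e - t * (Complex.I * e) := by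
      ring
    rw [h1]
    have h3 : ‖(l : ℂ) * e - t * (Complex.I * e)‖ ^ 2 = r ^ 2 := by
      rw [hIe l, hr2]
    exact (sq_eq_sq₀ (norm_nonneg _) hr0.le).1 h3
  obtain ⟨θp, -, hθp⟩ := glue_exists_pc c hps
  obtain ⟨θ', -, hθ'⟩ := glue_exists_pc c hqs
  -- the angle of `q` in `(θp, θp + 2π)`
  have hpi := Real.two_pi_pos
  obtain ⟨θq, hθq, hq1, hq2⟩ : ∃ θq, pc c r θq = q ∧ θp < θq ∧ θq < θp + 2 * Real.pi := by
    have h1 := toIocMod_mem_Ioc hpi θp θ'
    have h2 : pc c r (toIocMod hpi θp θ') = q := by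
      have h3 : toIocMod hpi θp θ' = θ' + ((-(toIocDiv hpi θp θ') : ℤ) : ℝ) * (2 * Real.pi) := by
        rw [toIocMod, zsmul_eq_mul]
        push_cast
        ring
      rw [h3, const_pc_per, hθ']
    refine ⟨_, h2, h1.1, lt_of_le_of_ne h1.2 fun h => hne ?_⟩
    rw [h] at h2
    have h4 := const_pc_per c r θp 1
    rw [Int.cast_one, one_mul, h2, hθp] at h4
    exact h4.symm
  -- the line
  have hcont : Continuous (fun θ => pc c r θ) := sep_pc_cont1 c r
  have hfc : ContinuousOn (fun θ => v (pc c r θ)) univ :=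
    hv.comp hcont.continuousOn fun θ _ => hpq (hsB θ)
  obtain ⟨Z, hZ⟩ : ∃ Z, Z = Icc θp θq ∩ (fun θ => pc c r θ) ⁻¹' (K ∩ B) := ⟨_, rfl⟩
  have hZcomp : IsCompact Z := by
    rw [hZ]
    exact isCompact_Icc.inter_right (hKB.preimage hcont)
  have hZcount : Z.Countable := by
    have h1 : MapsTo (fun θ => pc c r θ) Z (K ∩ B ∩ sphere c r) := by
      intro θ hθ
      rw [hZ] at hθ
      exact ⟨hθ.2, glue_dist_pc c hr0 θ⟩
    refine h1.countable_of_injOn ?_ hcount
    intro x hx y hy hxy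
    rw [hZ] at hx hy
    refine const_pc_inj hr0 hxy ?_
    rw [abs_lt]
    constructor <;> linarith [hx.1.1, hx.1.2, hy.1.1, hy.1.2]
  have hpB : p ∈ B := by rw [← hθp]; exact hsB θp
  have hqB : q ∈ B := by rw [← hθq]; exact hsB θq
  have hres := const_line (f := fun θ => v (pc c r θ)) (Z := Z) (a := θp) (b := θq)
    (hfc.mono (subset_univ _)) hZcomp hZcount (by rw [hZ]; exact inter_subset_left)
    (by
      rw [hZ]
      refine ⟨⟨le_rfl, hq1.le⟩, ?_⟩
      change pc c r θp ∈ K ∩ B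
      rw [hθp]
      exact ⟨hp, hpB⟩)
    (by
      rw [hZ]
      refine ⟨⟨hq1.le, le_rfl⟩, ?_⟩
      change pc c r θq ∈ K ∩ B
      rw [hθq]
      exact ⟨hq, hqB⟩)
    (by
      intro s hs t' ht' hst hno
      rw [hZ] at hs ht'
      refine hgap c r s t' hr0 hst (by linarith [hs.1.1, ht'.1.2]) ?_ hs.2.1 ht'.2.1 ?_
      · rintro _ ⟨θ, _, rfl⟩
        exact hpq (hsB θ)
      · intro θ hθ hθK
        refine hno θ hθ ?_
        rw [hZ]
        exact ⟨⟨hs.1.1.trans hθ.1.le, hθ.2.le.trans ht'.1.2⟩, hθK, hsB θ⟩)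
  simp only [hθp, hθq] at hres
  exact hres

/-- **Global version.** -/
theorem ts_const {K : Set ℂ} (hK : IsClosed K)
    (hlen : ∀ C, IsCompact C → (μH[1] : Measure ℂ) (K ∩ C) < ⊤) {v : ℂ → ℝ} (hv : Continuous v)
    (hgap : ∀ (x₀ : ℂ) (r α β : ℝ), 0 < r → α < β → β < α + 2 * Real.pi → pc x₀ r α ∈ K →
      pc x₀ r β ∈ K → (∀ θ ∈ Ioo α β, pc x₀ r θ ∉ K) → v (pc x₀ r α) = v (pc x₀ r β)) :
    ∀ p ∈ K, ∀ q ∈ K, v p = v q := by
  intro p hp q hq
  refine ts_const_loc (U := univ) (K := K) ?_ (fun C hC _ => hlen C hC) hv.continuousOn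
    (fun x₀ r α β hr hαβ hβ _ => hgap x₀ r α β hr hαβ hβ) hp hq (subset_univ _)
  rw [← compl_eq_univ_sdiff]
  exact hK.isOpen_compl

end Pool.Agent.MP099f24
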