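import Pool.Agent.Lib.MP_099f24_an.SC.Gap
import Pool.Agent.Lib.MP_099f24_an.SC.Conj
import Pool.Agent.Lib.MP_099f24_an.SC.Const
import Pool.Agent.Lib.MP_099f24_an.E2.Defs
import Pool.Agent.Lib.MP_099f24_an.EA.Comp
import Pool.Agent.Lib.MP_099f24_an.TM.Earn

/-!
# MP_099f24_an: the conjugate function of a topological minimizer in the plane
-/

set_option autoImplicit false

namespace Pool.Agent.MP099f24

open MeasureTheory Filter Topology Set Metric
open scoped ENNReal ContDiff

/-- **The conjugate function of a topological minimizer in the plane.** It vanishes on `K`. -/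
theorem tmin_cj {u : ℂ → ℝ} {l : ℂ → Set ℂ} {K : Set ℂ} (h : TMin univ u l K) (hne : K.Nonempty) :
    ∃ v : ℂ → ℝ, CJ univ K v (tgr u K) ∧
      ∀ x x', |v x - v x'| ≤ 8 * Real.sqrt (2 * Real.pi * dist x x') := by
  have hpi := Real.pi_pos
  have hKo : IsOpen Kᶜ := h.toTConf.isOpen_compl_of_univ
  have hKc : IsClosed K := ⟨hKo⟩
  have hub : ∀ x ∈ K, ¬ Bornology.IsBounded (connectedComponentIn K x) := fun x hx =>
    ea_comp hKc h.noPiece hx
  obtain ⟨x₀, hx₀⟩ := hne
  obtain ⟨v₀, hv1, hv2, hv3⟩ := conj_global (g := cgr u) (M := 2 * Real.pi)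
    (measurable_cgr u) (by positivity) (fun x s hs => h.energy_le hs (subset_univ _))
    (fun φ h1 h2 => by
      have := h.neumann (φ := φ) (h1.of_le (by simp)) h2 (subset_univ _)
      rwa [Measure.restrict_univ] at this)
  -- the gradient is continuous off `K`
  have hgc : ∀ x, x ∉ K → ContinuousAt (cgr u) x := by
    intro x hx
    have h1 : ContinuousAt (fun x => (starRingEnd ℂ) (cgr u x)) x :=
      h.hol.continuousOn.continuousAt (h.isOpen_off.mem_nhds ⟨mem_univ x, hx⟩)
    have h2 := Complex.continuous_conj.continuousAt.comp h1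
    refine h2.congr (Eventually.of_forall fun y => ?_)
    simp
  have hgrad : ∀ x, x ∉ K → HasFDerivAt v₀ (ilin (Complex.I * cgr u x)) x :=
    fun x hx => hv3 x (hgc x hx)
  have hlen : ∀ C, IsCompact C → (μH[1] : Measure ℂ) (K ∩ C) < ⊤ := fun C hC =>
    (self_le_add_left _ _).trans_lt (h.fin C hC (subset_univ _))
  have hconst : ∀ p ∈ K, ∀ q ∈ K, v₀ p = v₀ q :=
    ts_const hKc hlen hv1 fun x₀ r α β hr hαβ hβ ha hb hI =>
      ts_gap h hub hv1 hgrad hr hαβ hβ ha hb hI
  have hUK : (univ : Set ℂ) \ K = Kᶜ := by rw [← compl_eq_univ_sdiff]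
  refine ⟨fun x => v₀ x - v₀ x₀, ?_, ?_⟩
  · refine ⟨isOpen_univ, h.isOpen_off, (hv1.sub continuous_const).continuousOn, ?_, ?_, ?_,
      measurable_tgr u hKc.measurableSet, fun C hC _ => hlen C hC, ?_⟩
    · intro x hx
      rw [hconst x hx.2 x₀ hx₀, sub_self]
    · refine h.hol.congr fun x hx => ?_
      rw [tgr_of_notMem hx.2]
    · intro x hx
      rw [tgr_of_notMem hx.2]
      exact (hgrad x hx.2).sub_const _
    · intro C hC _
      have h1 := h.toTConf.intOn hC (subset_univ _)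
      refine h1.mono' ((measurable_tgr u hKc.measurableSet).norm.pow_const 2).aestronglyMeasurable
        (Eventually.of_forall fun x => ?_)
      rw [norm_pow, norm_norm]
      refine pow_le_pow_left₀ (norm_nonneg _) ?_ 2
      unfold tgr
      exact norm_indicator_le_norm_self _ _
  · intro x x'
    have h3 : v₀ x - v₀ x₀ - (v₀ x' - v₀ x₀) = v₀ x - v₀ x' := by ring
    rw [h3]
    exact hv2 x x'

/-- The conjugate function of a global element; the Hölder constant is universal. -/
theorem tglob_cj : ∃ C₀ : ℝ, 0 < C₀ ∧ ∀ (u : ℂ → ℝ) (K : Set ℂ), TGlob u K → K.Nonempty →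
    ∃ v : ℂ → ℝ, CJ univ K v (tgr u K) ∧ ∀ x x', |v x - v x'| ≤ C₀ * Real.sqrt (dist x x') := by
  have hpi := Real.pi_pos
  refine ⟨8 * Real.sqrt (2 * Real.pi), by positivity, fun u K h hne => ?_⟩
  obtain ⟨v, h1, h2⟩ := tmin_cj h hne
  refine ⟨v, h1, fun x x' => (h2 x x').trans (le_of_eq ?_)⟩
  rw [Real.sqrt_mul (by positivity : (0 : ℝ) ≤ 2 * Real.pi)]
  ring

end Pool.Agent.MP099f24
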