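import Mathlib
import Pool.Agent.Lib.MP_099f24_an.SD.Polar
import Pool.Agent.Lib.MP_099f24_an.SC.CJDefs

/-!
# Flux through an arc: auxiliary results (MP_099f24_an)
-/

namespace Pool.Agent.MP099f24

open MeasureTheory Filter Topology Set Metric
open scoped ENNReal ContDiff

theorem sc_er_norm (θ : ℝ) : ‖er θ‖ = 1 := Complex.norm_exp_ofReal_mul_I θ

theorem sc_pc_hasDerivAt (x₀ : ℂ) (ρ θ : ℝ) :
    HasDerivAt (fun θ : ℝ => pc x₀ ρ θ) (ρ * (Complex.I * er θ)) θ := by
  have h1 : HasDerivAt (fun θ : ℝ => Complex.exp ((θ : ℂ) * Complex.I))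
      (Complex.exp ((θ : ℂ) * Complex.I) * Complex.I) θ := by
    have h2 : HasDerivAt (fun θ : ℝ => (θ : ℂ) * Complex.I) (1 * Complex.I) θ :=
      (Complex.ofRealCLM.hasDerivAt).mul_const Complex.I
    rw [one_mul] at h2
    exact h2.cexp
  have h3 := (h1.const_mul (ρ : ℂ)).const_add x₀
  unfold pc er
  convert! h3 using 1
  ring

/-- the tangential derivative of `v` is the normal component of `g` -/
theorem sc_circ_deriv {v : ℂ → ℝ} {g : ℂ → ℂ} {x₀ : ℂ} {ρ θ : ℝ}
    (hv : HasFDerivAt v (ilin (Complex.I * g (pc x₀ ρ θ))) (pc x₀ ρ θ)) :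
    HasDerivAt (fun θ : ℝ => v (pc x₀ ρ θ)) (ρ * inner ℝ (g (pc x₀ ρ θ)) (er θ)) θ := by
  have h1 := hv.comp_hasDerivAt θ (sc_pc_hasDerivAt x₀ ρ θ)
  convert! h1 using 1
  rw [ilin_apply]
  generalize g (pc x₀ ρ θ) = w
  generalize er θ = e
  simp only [Complex.inner, map_mul, Complex.conj_I, Complex.mul_re, Complex.mul_im,
    Complex.conj_re, Complex.conj_im, Complex.ofReal_re, Complex.ofReal_im, Complex.I_re,
    Complex.I_im, Complex.neg_re, Complex.neg_im]
  ring

/-- `v(β) - v(α) = ` flux through the arc -/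
theorem cj_arc {v : ℂ → ℝ} {g : ℂ → ℂ} {W : Set ℂ}
    (hg : ContinuousOn g W) (hv : ∀ x ∈ W, HasFDerivAt v (ilin (Complex.I * g x)) x)
    {x₀ : ℂ} {r α β : ℝ} (hαβ : α ≤ β) (hI : ∀ θ ∈ Icc α β, pc x₀ r θ ∈ W) :
    v (pc x₀ r β) - v (pc x₀ r α) = r * ∫ θ in α..β, inner ℝ (g (pc x₀ r θ)) (er θ) := by
  have h1 : ∀ θ ∈ uIcc α β, HasDerivAt (fun θ : ℝ => v (pc x₀ r θ))
      (r * inner ℝ (g (pc x₀ r θ)) (er θ)) θ := by
    intro θ hθ
    rw [uIcc_of_le hαβ] at hθ
    exact sc_circ_deriv (hv _ (hI θ hθ))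
  have hc : ContinuousOn (fun θ : ℝ => r * inner ℝ (g (pc x₀ r θ)) (er θ)) (uIcc α β) := by
    rw [uIcc_of_le hαβ]
    refine continuousOn_const.mul (ContinuousOn.inner ?_ ?_)
    · exact hg.comp (sep_pc_cont1 x₀ r).continuousOn hI
    · have : Continuous er := by unfold er; fun_prop
      exact this.continuousOn
  rw [← intervalIntegral.integral_const_mul,
    intervalIntegral.integral_eq_sub_of_hasDerivAt h1 hc.intervalIntegrable]

/-- one-dimensional estimate at the ends -/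
theorem ends_1d {p y y' : ℝ → ℝ} {α' m β' ya yb ε κ Lp : ℝ} (h1 : α' ≤ m) (h2 : m ≤ β')
    (hp : ContDiff ℝ 1 p) (hy : ∀ θ ∈ Icc α' β', HasDerivAt y (y' θ) θ)
    (hyc : ContinuousOn y' (Icc α' β')) (hp0 : p α' = 0) (hp1 : p β' = 0) (hpm : p m = 1)
    (hε : 0 ≤ ε) (hκ : 0 ≤ κ)
    (hL : ∀ θ ∈ Icc α' β', |deriv p θ| ≤ Lp)
    (ha : ∀ θ ∈ Icc α' m, deriv p θ ≠ 0 → |y θ - ya| ≤ ε ∧ θ ≤ α' + κ)
    (hb : ∀ θ ∈ Icc m β', deriv p θ ≠ 0 → |y θ - yb| ≤ ε ∧ β' - κ ≤ θ) :
    |(∫ θ in α'..β', p θ * y' θ) - (yb - ya)| ≤ 2 * ε * κ * Lp := by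
  have hαβ : α' ≤ β' := h1.trans h2
  have hLp : 0 ≤ Lp := (abs_nonneg _).trans (hL α' ⟨le_rfl, hαβ⟩)
  have hpd : ∀ θ, HasDerivAt p (deriv p θ) θ := fun θ =>
    (hp.differentiable (by norm_num) θ).hasDerivAt
  have hpc : Continuous (deriv p) := hp.continuous_deriv (by norm_num)
  have hycont : ContinuousOn y (Icc α' β') := fun θ hθ =>
    (hy θ hθ).continuousAt.continuousWithinAt
  -- integration by parts
  have hparts : ∫ θ in α'..β', p θ * y' θ = - ∫ θ in α'..β', deriv p θ * y θ := by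
    have := intervalIntegral.integral_mul_deriv_eq_deriv_mul (u := p) (v := y) (u' := deriv p)
      (v' := y') (a := α') (b := β') (fun θ _ => hpd θ)
      (fun θ hθ => hy θ (by rwa [uIcc_of_le hαβ] at hθ)) (hpc.intervalIntegrable _ _)
      ((by rw [uIcc_of_le hαβ]; exact hyc : ContinuousOn y' (uIcc α' β')).intervalIntegrable)
    rw [this, hp0, hp1]
    ring
  -- the two halves
  have half : ∀ c d z : ℝ, c ≤ d → α' ≤ c → d ≤ β' → ∫ θ in c..d, deriv p θ * y θ =
      z * (p d - p c) + ∫ θ in c..d, deriv p θ * (y θ - z) := by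
    intro c d z hcd hc hd
    have hyc' : ContinuousOn y (uIcc c d) := by
      rw [uIcc_of_le hcd]
      exact hycont.mono (Icc_subset_Icc hc hd)
    have e1 : ∫ θ in c..d, deriv p θ = p d - p c :=
      intervalIntegral.integral_eq_sub_of_hasDerivAt (fun θ _ => hpd θ) (hpc.intervalIntegrable _ _)
    have i1 : IntervalIntegrable (fun θ => z * deriv p θ) volume c d :=
      (hpc.intervalIntegrable _ _).const_mul z
    have i2 : IntervalIntegrable (fun θ => deriv p θ * (y θ - z)) volume c d :=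
      (hpc.continuousOn.mul (hyc'.sub continuousOn_const)).intervalIntegrable
    rw [← e1, ← intervalIntegral.integral_const_mul, ← intervalIntegral.integral_add i1 i2]
    congr 1
    funext θ
    ring
  have hcont : ∀ z : ℝ, ContinuousOn (fun θ => deriv p θ * (y θ - z)) (Icc α' β') := fun z =>
    hpc.continuousOn.mul (hycont.sub continuousOn_const)
  have bound : ∀ c d z : ℝ, c ≤ d → α' ≤ c → d ≤ β' → ∀ E : Set ℝ, MeasurableSet E →
      (volume (E ∩ Icc c d)) ≤ ENNReal.ofReal κ →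
      (∀ θ ∈ Icc c d, deriv p θ ≠ 0 → |y θ - z| ≤ ε ∧ θ ∈ E) →
      |∫ θ in c..d, deriv p θ * (y θ - z)| ≤ ε * κ * Lp := by
    intro c d z hcd hc hd E hE hEκ hEz
    have e1 : ∀ θ ∈ Icc c d, ‖deriv p θ * (y θ - z)‖ ≤ E.indicator (fun _ => ε * Lp) θ := by
      intro θ hθ
      by_cases h0 : deriv p θ = 0
      · rw [h0, zero_mul, norm_zero]
        exact indicator_nonneg (fun _ _ => mul_nonneg hε hLp) _
      · obtain ⟨h3, h4⟩ := hEz θ hθ h0
        rw [indicator_of_mem h4, norm_mul, Real.norm_eq_abs, Real.norm_eq_abs, mul_comm ε]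
        exact mul_le_mul (hL θ ⟨hc.trans hθ.1, hθ.2.trans hd⟩) h3 (abs_nonneg _) hLp
    have e2 : IntegrableOn (E.indicator (fun _ => ε * Lp)) (Icc c d) := by
      rw [integrableOn_indicator_iff hE]
      refine integrableOn_const ?_
      exact ((measure_mono inter_subset_right).trans_lt (isCompact_Icc (a := c) (b := d)).measure_lt_top).ne
    have e2' : IntervalIntegrable (E.indicator (fun _ => ε * Lp)) volume c d := by
      rw [intervalIntegrable_iff_integrableOn_Icc_of_le hcd]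
      exact e2
    calc |∫ θ in c..d, deriv p θ * (y θ - z)|
        ≤ ∫ θ in c..d, ‖deriv p θ * (y θ - z)‖ := by
          rw [← Real.norm_eq_abs]
          exact intervalIntegral.norm_integral_le_integral_norm hcd
      _ ≤ ∫ θ in c..d, E.indicator (fun _ => ε * Lp) θ := by
          refine intervalIntegral.integral_mono_on hcd ?_ e2' e1
          refine ContinuousOn.intervalIntegrable ?_
          rw [uIcc_of_le hcd]
          exact ((hcont z).mono (Icc_subset_Icc hc hd)).norm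
      _ = ∫ θ in Icc c d, E.indicator (fun _ => ε * Lp) θ := by
          rw [intervalIntegral.integral_of_le hcd, ← integral_Icc_eq_integral_Ioc]
      _ = (volume (E ∩ Icc c d)).toReal * (ε * Lp) := by
          rw [setIntegral_indicator hE, setIntegral_const, measureReal_def, smul_eq_mul, inter_comm]
      _ ≤ κ * (ε * Lp) := by
          refine mul_le_mul_of_nonneg_right ?_ (mul_nonneg hε hLp)
          exact ENNReal.toReal_le_of_le_ofReal hκ hEκ
      _ = ε * κ * Lp := by ring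
  have hint : ∀ c d : ℝ, c ≤ d → α' ≤ c → d ≤ β' →
      IntervalIntegrable (fun θ => deriv p θ * y θ) volume c d := by
    intro c d hcd hc hd
    refine ContinuousOn.intervalIntegrable ?_
    rw [uIcc_of_le hcd]
    exact hpc.continuousOn.mul (hycont.mono (Icc_subset_Icc hc hd))
  have hsplit : ∫ θ in α'..β', deriv p θ * y θ =
      (∫ θ in α'..m, deriv p θ * y θ) + ∫ θ in m..β', deriv p θ * y θ :=
    (intervalIntegral.integral_add_adjacent_intervals (hint α' m h1 le_rfl h2)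
      (hint m β' h2 h1 le_rfl)).symm
  have b1 := bound α' m ya h1 le_rfl h2 (Iic (α' + κ)) measurableSet_Iic (by
    refine (measure_mono (t := Icc α' (α' + κ)) fun θ hθ => ⟨hθ.2.1, hθ.1⟩).trans ?_
    rw [Real.volume_Icc, add_sub_cancel_left]) ha
  have b2 := bound m β' yb h2 h1 le_rfl (Ici (β' - κ)) measurableSet_Ici (by
    refine (measure_mono (t := Icc (β' - κ) β') fun θ hθ => ⟨hθ.1, hθ.2.2⟩).trans ?_
    rw [Real.volume_Icc, sub_sub_cancel]) hb
  rw [hparts, hsplit, half α' m ya h1 le_rfl h2, half m β' yb h2 h1 le_rfl, hp0, hp1, hpm]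
  rw [abs_le] at b1 b2 ⊢
  constructor <;> linarith [b1.1, b1.2, b2.1, b2.2]

/-- the rotation about `a` by the angle `m` -/
theorem sc_rot_mp (a : ℂ) (m : ℝ) :
    ∃ e : ℂ ≃ᵐ ℂ, MeasurePreserving e volume volume ∧
      ∀ x, e x = a + er m * (x - a) := by
  set c : Circle := Circle.exp m with hc
  have hmp : MeasurePreserving (rotation c : ℂ ≃ₗᵢ[ℝ] ℂ) volume volume :=
    (rotation c).measurePreserving
  refine ⟨((MeasurableEquiv.subRight a).trans (rotation c).toHomeomorph.toMeasurableEquiv).trans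
    (MeasurableEquiv.addLeft a), ?_, ?_⟩
  · exact (measurePreserving_add_left volume a).comp (hmp.comp (measurePreserving_sub_right volume a))
  · intro x
    have h1 : (rotation c : ℂ ≃ₗᵢ[ℝ] ℂ) (x - a) = (c : ℂ) * (x - a) := rotation_apply c (x - a)
    have h2 : (c : ℂ) = er m := by
      rw [hc, Circle.coe_exp, er]
    change a + (rotation c : ℂ ≃ₗᵢ[ℝ] ℂ) (x - a) = _
    rw [h1, h2]

theorem sc_rot_pc (a : ℂ) (m ρ θ : ℝ) : a + er m * (pc a ρ θ - a) = pc a ρ (m + θ) := by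
  have : er (m + θ) = er m * er θ := by
    unfold er
    rw [← Complex.exp_add]
    congr 1
    push_cast
    ring
  rw [pc, pc, this]
  ring

theorem polar_rot {E : Type*} [NormedAddCommGroup E] [NormedSpace ℝ E] (a : ℂ) (m : ℝ) {P : Set ℝ}
    (hP : MeasurableSet P) (hP0 : P ⊆ Ioi 0) (h : ℂ → E) :
    ∫ x in {x | dist x a ∈ P}, h x =
      ∫ p in P ×ˢ Ioo (-Real.pi) Real.pi, p.1 • h (pc a p.1 (m + p.2)) := by
  obtain ⟨e, he, hx⟩ := sc_rot_mp a m
  have h1 : e ⁻¹' {x | dist x a ∈ P} = {x | dist x a ∈ P} := by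
    ext x
    have : dist (e x) a = dist x a := by
      rw [hx, dist_eq_norm, add_sub_cancel_left, norm_mul, sc_er_norm, one_mul, dist_eq_norm]
    change dist (e x) a ∈ P ↔ dist x a ∈ P
    rw [this]
  have h2 := he.setIntegral_preimage_emb e.measurableEmbedding h {x | dist x a ∈ P}
  rw [h1] at h2
  rw [← h2, polar_integral a hP hP0]
  simp only [hx, sc_rot_pc]

theorem polar_rot_integrable {E : Type*} [NormedAddCommGroup E] [NormedSpace ℝ E] (a : ℂ) (m : ℝ)
    {P : Set ℝ} (hP : MeasurableSet P) (hP0 : P ⊆ Ioi 0) (h : ℂ → E) :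
    IntegrableOn h {x | dist x a ∈ P} ↔
      IntegrableOn (fun p : ℝ × ℝ => p.1 • h (pc a p.1 (m + p.2)))
        (P ×ˢ Ioo (-Real.pi) Real.pi) := by
  obtain ⟨e, he, hx⟩ := sc_rot_mp a m
  have h1 : e ⁻¹' {x | dist x a ∈ P} = {x | dist x a ∈ P} := by
    ext x
    have : dist (e x) a = dist x a := by
      rw [hx, dist_eq_norm, add_sub_cancel_left, norm_mul, sc_er_norm, one_mul, dist_eq_norm]
    change dist (e x) a ∈ P ↔ dist x a ∈ P
    rw [this]
  have h2 := he.integrableOn_comp_preimage e.measurableEmbedding (f := h) (s := {x | dist x a ∈ P})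
  rw [h1] at h2
  rw [← h2, polar_integrable a hP hP0]
  simp only [Function.comp, hx, sc_rot_pc]

end Pool.Agent.MP099f24
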