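import Pool.Agent.Lib.MP_099f24_an.SC.CJDefs
import Pool.Agent.Lib.MP_099f24_an.SD.Flux

/-!
# MP_099f24_an, module FLUXV: the flux identity for the conjugate function
-/

namespace Pool.Agent.MP099f24

open MeasureTheory Filter Topology Set Metric
open scoped ENNReal ContDiff

/-- almost every circle: slices and the derivative of the energy -/
theorem cj_slice {U K : Set ℂ} {v : ℂ → ℝ} {g : ℂ → ℂ} (h : CJ U K v g) {a : ℂ} {R : ℝ}
    (hR : ball a R ⊆ U) :
    (∀ᵐ s ∂(volume.restrict (Ioo 0 R)), HasDerivAt (Dq g a) (Tq g a s + Vq g a s) s ∧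
      IntegrableOn (fun θ => ‖g (pc a s θ)‖ ^ 2) (Ioo (-Real.pi) Real.pi)) ∧
    MonotoneOn (Dq g a) (Ioo 0 R) ∧ ContinuousOn (Dq g a) (Ioo 0 R) :=
  Dq_deriv h.meas_g fun s hs =>
    (h.fin _ (isCompact_closedBall a s) ((closedBall_subset_ball hs).trans hR)).mono_set
      ball_subset_closedBall

/-- the flux identity, from the Caccioppoli identity -/
theorem cj_flux_aux {U : Set ℂ} {v : ℂ → ℝ} {g : ℂ → ℂ} (hU : IsOpen U)
    (hvc : ContinuousOn v U) (hgm : Measurable g)
    (hfin : ∀ C, IsCompact C → C ⊆ U → IntegrableOn (fun x => ‖g x‖ ^ 2) C)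
    (hid : ∀ φ : ℂ → ℝ, ContDiff ℝ ∞ φ → HasCompactSupport φ → tsupport φ ⊆ U →
      ∫ x in U, φ x * ‖g x‖ ^ 2 = - ∫ x in U, v x * inner ℝ (Complex.I * g x) (outer_grad φ x))
    {a : ℂ} {R : ℝ} (hR : ball a R ⊆ U) :
    ∀ᵐ s ∂(volume.restrict (Ioo 0 R)), Dq g a s =
      s * ∫ θ in Ioo (-Real.pi) Real.pi, v (pc a s θ) *
        inner ℝ (Complex.I * g (pc a s θ)) (er θ) := by
  set F : ℂ → ℝ := fun x => ‖g x‖ ^ 2 with hF
  set B₀ : ℂ → ℝ := fun x => inner ℝ (x - a) (Complex.I * g x) / ‖x - a‖ with hB₀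
  set B : ℂ → ℝ := fun x => v x * B₀ x with hB
  have hmB : Measurable B₀ :=
    ((measurable_id.sub_const a).inner (hgm.const_mul Complex.I)).div ((measurable_id.sub_const a).norm)
  have hcU : ∀ s < R, closedBall a s ⊆ U := fun s hs => (closedBall_subset_ball hs).trans hR
  have hFi : ∀ s < R, IntegrableOn F (ball a s) := fun s hs =>
    (hfin _ (isCompact_closedBall a s) (hcU s hs)).mono_set ball_subset_closedBall
  have hgi : ∀ s < R, IntegrableOn g (ball a s) := by
    intro s hs
    have h1 : IntegrableOn (fun x => 1 + ‖g x‖ ^ 2) (ball a s) := by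
      refine (integrableOn_const ?_).add (hFi s hs)
      rw [Complex.volume_ball]
      exact ENNReal.mul_ne_top (by finiteness) (by finiteness)
    refine Integrable.mono' h1 hgm.aestronglyMeasurable (Eventually.of_forall fun x => ?_)
    nlinarith [norm_nonneg (g x), sq_nonneg (‖g x‖ - 1)]
  have hB₀i : ∀ s < R, IntegrableOn B₀ (ball a s) := by
    intro s hs
    refine (hgi s hs).norm.mono' hmB.aestronglyMeasurable (Eventually.of_forall fun x => ?_)
    rw [hB₀, norm_div, norm_norm]
    rcases eq_or_ne (x - a) 0 with h0 | h0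
    · rw [h0]; simp
    · rw [div_le_iff₀ (norm_pos_iff.2 h0)]
      refine (norm_inner_le_norm _ _).trans ?_
      rw [norm_mul, Complex.norm_I, one_mul, mul_comm]
  have hBi : ∀ s < R, IntegrableOn B (ball a s) := by
    intro s hs
    have hc : ContinuousOn v (closedBall a s) := hvc.mono (hcU s hs)
    obtain ⟨C, hC⟩ := (isCompact_closedBall a s).exists_bound_of_continuousOn hc
    refine (hB₀i s hs).bdd_mul (c := C)
      ((hc.mono ball_subset_closedBall).aestronglyMeasurable measurableSet_ball) ?_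
    filter_upwards [ae_restrict_mem measurableSet_ball] with x hx
    exact hC x (ball_subset_closedBall hx)
  set Φ : ℝ → ℝ := fun t => ∫ θ in Ioo (-Real.pi) Real.pi, t * F (pc a t θ) with hΦ
  set Bt : ℝ → ℝ := fun t => ∫ θ in Ioo (-Real.pi) Real.pi, t * B (pc a t θ) with hBt
  set A : ℝ → ℝ := fun r => ∫ t in Ioo 0 r, Φ t with hA
  have hΦi : ∀ s < R, IntegrableOn Φ (Ioo 0 s) := fun s hs => (flux_ball_integral (hFi s hs)).1
  have hBti : ∀ s < R, IntegrableOn Bt (Ioo 0 s) := fun s hs => (flux_ball_integral (hBi s hs)).1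
  -- the integral identity
  have key : ∀ ζ : ℝ → ℝ, ContDiff ℝ ∞ ζ → HasCompactSupport ζ → tsupport ζ ⊆ Ioo 0 R →
      ∫ r, ζ r • (A r - Bt r) = 0 := by
    intro ζ hζ hζc hζs
    by_cases hemp : tsupport ζ = ∅
    · have : ζ = 0 := by
        rw [tsupport_eq_empty_iff] at hemp
        exact hemp
      simp [this]
    -- bounds of the support
    obtain ⟨δ, hδ0, R', hR'0, hR'R, hsub⟩ : ∃ δ > 0, ∃ R' > 0, R' < R ∧
        tsupport ζ ⊆ Icc δ R' := by
      have hne : (tsupport ζ).Nonempty := nonempty_iff_ne_empty.2 hemp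
      obtain ⟨x₁, hx₁, hx₁'⟩ := hζc.exists_isMinOn hne continuousOn_id
      obtain ⟨x₂, hx₂, hx₂'⟩ := hζc.exists_isMaxOn hne continuousOn_id
      exact ⟨x₁, (hζs hx₁).1, x₂, (hζs hx₂).1, (hζs hx₂).2, fun y hy => ⟨hx₁' hy, hx₂' hy⟩⟩
    have hz : ∀ r, r ∉ Icc δ R' → ζ r = 0 := fun r hr =>
      image_eq_zero_of_notMem_tsupport fun hr' => hr (hsub hr')
    have hz0 : ∀ r, r ≤ δ / 2 → ζ r = 0 := fun r hr => hz r fun hr' => by
      linarith [hr'.1]
    have hz1 : ∀ r, (R' + R) / 2 ≤ r → ζ r = 0 := fun r hr => hz r fun hr' => by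
      linarith [hr'.2]
    set R₁ := (R' + R) / 2 with hR₁
    have hR₁R : R₁ < R := by rw [hR₁]; linarith
    have hR₁0 : 0 < R₁ := by rw [hR₁]; linarith
    set ψ : ℂ → ℝ := fun x => flux_chi ζ R₁ ‖x - a‖ with hψ
    have hψd := fun x => flux_psi_fderiv hζ (R := R₁) (half_pos hδ0) hz0 a x
    have hψs : ContDiff ℝ ∞ ψ := contDiff_iff_contDiffAt.2 fun x => (hψd x).1
    have hψ0 : ∀ x, R₁ ≤ ‖x - a‖ → ψ x = 0 := fun x hx =>
      flux_chi_zero hz1 hx le_rfl
    have hts : tsupport ψ ⊆ closedBall a R₁ := by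
      refine closure_minimal (fun x hx => ?_) isClosed_closedBall
      by_contra hx'
      rw [mem_closedBall, dist_eq_norm, not_le] at hx'
      exact hx (hψ0 x hx'.le)
    have hψc : HasCompactSupport ψ :=
      (isCompact_closedBall a R₁).of_isClosed_subset (isClosed_tsupport ψ) hts
    have hout := hid ψ hψs hψc (hts.trans ((closedBall_subset_ball hR₁R).trans hR))
    have hsubΩ : ball a R₁ ⊆ U := (ball_subset_ball hR₁R.le).trans hR
    have hH1 : ∀ x, v x * inner ℝ (Complex.I * g x) (outer_grad ψ x) = - (ζ ‖x - a‖ * B x) := by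
      intro x
      rw [real_inner_comm, outer_inner_grad, hψ, (hψd x).2, hB, hB₀]
      simp only
      ring
    simp only [hH1] at hout
    rw [integral_neg, neg_neg] at hout
    rw [setIntegral_eq_of_subset_of_forall_sdiff_eq_zero hU.measurableSet hsubΩ
      (fun x hx => by
        have : R₁ ≤ ‖x - a‖ := by
          have h2 := hx.2
          rwa [mem_ball, dist_eq_norm, not_lt] at h2
        rw [hψ0 x this, zero_mul]),
      setIntegral_eq_of_subset_of_forall_sdiff_eq_zero hU.measurableSet hsubΩ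
      (fun x hx => by
        have : R₁ ≤ ‖x - a‖ := by
          have h2 := hx.2
          rwa [mem_ball, dist_eq_norm, not_lt] at h2
        rw [hz1 _ this, zero_mul])] at hout
    have hψF : IntegrableOn (fun x => ψ x * F x) (ball a R₁) := by
      obtain ⟨C, hC⟩ := hψs.continuous.bounded_above_of_compact_support hψc
      exact (hFi R₁ hR₁R).bdd_mul hψs.continuous.aestronglyMeasurable
        (Eventually.of_forall hC)
    have hζB : IntegrableOn (fun x => ζ ‖x - a‖ * B x) (ball a R₁) := by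
      obtain ⟨C, hC⟩ := hζ.continuous.bounded_above_of_compact_support hζc
      have hc : Continuous fun x : ℂ => ζ ‖x - a‖ := hζ.continuous.comp (by fun_prop)
      exact (hBi R₁ hR₁R).bdd_mul hc.aestronglyMeasurable (Eventually.of_forall fun x => hC _)
    change ∫ x in ball a R₁, ψ x * F x = ∫ x in ball a R₁, ζ ‖x - a‖ * B x at hout
    rw [(flux_ball_integral hψF).2, (flux_ball_integral hζB).2] at hout
    have e1 : ∫ t in Ioo 0 R₁, ∫ θ in Ioo (-Real.pi) Real.pi, t * (ψ (pc a t θ) * F (pc a t θ)) =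
        ∫ t in Ioo 0 R₁, flux_chi ζ R₁ t * Φ t := by
      refine setIntegral_congr_fun measurableSet_Ioo fun t ht => ?_
      simp only [hΦ]
      rw [← integral_const_mul]
      refine setIntegral_congr_fun measurableSet_Ioo fun θ _ => ?_
      simp only [hψ]
      rw [flux_norm_pc a ht.1.le]
      ring
    have e2 : ∫ t in Ioo 0 R₁, ∫ θ in Ioo (-Real.pi) Real.pi,
        t * (ζ ‖pc a t θ - a‖ * B (pc a t θ)) = ∫ t in Ioo 0 R₁, ζ t * Bt t := by
      refine setIntegral_congr_fun measurableSet_Ioo fun t ht => ?_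
      simp only [hBt]
      rw [← integral_const_mul]
      refine setIntegral_congr_fun measurableSet_Ioo fun θ _ => ?_
      rw [flux_norm_pc a ht.1.le]
      ring
    rw [e1, e2, flux_fub (hΦi R₁ hR₁R) hζ.continuous] at hout
    have hb : ∃ C, ∀ r, ‖ζ r‖ ≤ C := hζ.continuous.bounded_above_of_compact_support hζc
    obtain ⟨C, hC⟩ := hb
    have hAi : IntegrableOn A (Ioo 0 R₁) := by
      have h1 : ContinuousOn (fun r => ∫ t in (0:ℝ)..r, Φ t) (uIcc 0 R₁) := by
        apply intervalIntegral.continuousOn_primitive_interval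
        rw [uIcc_of_le hR₁0.le, integrableOn_Icc_iff_integrableOn_Ioo]
        exact hΦi R₁ hR₁R
      rw [uIcc_of_le hR₁0.le] at h1
      have h2 : IntegrableOn (fun r => ∫ t in (0:ℝ)..r, Φ t) (Ioo 0 R₁) :=
        (h1.integrableOn_Icc).mono_set Ioo_subset_Icc_self
      refine h2.congr_fun (fun r hr => ?_) measurableSet_Ioo
      simp only [hA]
      rw [intervalIntegral.integral_of_le hr.1.le, integral_Ioc_eq_integral_Ioo]
    have i1 : IntegrableOn (fun r => ζ r * A r) (Ioo 0 R₁) :=
      hAi.bdd_mul hζ.continuous.aestronglyMeasurable (Eventually.of_forall hC)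
    have i2 : IntegrableOn (fun r => ζ r * Bt r) (Ioo 0 R₁) :=
      (hBti R₁ hR₁R).bdd_mul hζ.continuous.aestronglyMeasurable (Eventually.of_forall hC)
    rw [← sub_eq_zero] at hout
    rw [← integral_sub i1 i2] at hout
    have e3 : ∫ r, ζ r • (A r - Bt r) = ∫ r in Ioo 0 R₁, (ζ r * A r - ζ r * Bt r) := by
      rw [← setIntegral_eq_integral_of_forall_compl_eq_zero (s := Ioo 0 R₁)]
      · refine setIntegral_congr_fun measurableSet_Ioo fun r _ => ?_
        simp only [smul_eq_mul]
        ring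
      · intro r hr
        have : ζ r = 0 := by
          rw [mem_Ioo, not_and_or, not_lt, not_lt] at hr
          rcases hr with hr | hr
          · exact hz0 r (by linarith)
          · exact hz1 r hr
        rw [this, zero_smul]
    rw [e3]
    exact hout
  have hloc : LocallyIntegrableOn (fun r => A r - Bt r) (Ioo 0 R) := by
    intro x hx
    obtain ⟨s, hxs, hsR⟩ := exists_between hx.2
    refine ⟨Ioo 0 s, mem_nhdsWithin_of_mem_nhds (Ioo_mem_nhds hx.1 hxs), ?_⟩
    have hs0 : 0 < s := hx.1.trans hxs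
    have h1 : ContinuousOn (fun r => ∫ t in (0:ℝ)..r, Φ t) (uIcc 0 s) := by
      apply intervalIntegral.continuousOn_primitive_interval
      rw [uIcc_of_le hs0.le, integrableOn_Icc_iff_integrableOn_Ioo]
      exact hΦi s hsR
    rw [uIcc_of_le hs0.le] at h1
    have h2 : IntegrableOn (fun r => ∫ t in (0:ℝ)..r, Φ t) (Ioo 0 s) :=
      (h1.integrableOn_Icc).mono_set Ioo_subset_Icc_self
    have h3 : IntegrableOn A (Ioo 0 s) := by
      refine h2.congr_fun (fun r hr => ?_) measurableSet_Ioo
      simp only [hA]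
      rw [intervalIntegral.integral_of_le hr.1.le, integral_Ioc_eq_integral_Ioo]
    exact h3.sub (hBti s hsR)
  have hae := isOpen_Ioo.ae_eq_zero_of_integral_contDiff_smul_eq_zero hloc key
  rw [ae_restrict_iff' measurableSet_Ioo]
  filter_upwards [hae] with s hs hsR
  have h1 := hs hsR
  rw [sub_eq_zero] at h1
  have h2 : ∫ x in ball a s, F x = A s := (flux_ball_integral (hFi s hsR.2)).2
  change ∫ x in ball a s, F x = _
  rw [h2, h1, hBt]
  simp only
  rw [← integral_const_mul]
  refine setIntegral_congr_fun measurableSet_Ioo fun θ _ => ?_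
  simp only [hB, hB₀]
  rw [flux_norm_pc a hsR.1.le, flux_pc_sub, real_inner_smul_left, real_inner_comm]
  have := hsR.1.ne'
  field_simp

end Pool.Agent.MP099f24
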