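import Mathlib
import Pool.Agent.Lib.MP_099f24_an.SC.CJDefs
import Pool.Agent.Lib.MP_099f24_an.SC.EndsA
import Pool.Agent.Lib.MP_099f24_an.SC.FluxV
import Pool.Agent.Lib.MP_099f24_an.TR.Wird
import Pool.Agent.Lib.MP_099f24_an.FV.Eilenberg
import Pool.Agent.Lib.MP_099f24_an.SD.Ode

/-!
# MP_099f24_an, module BONNET: Bonnet's inequality for the conjugate function
-/

set_option autoImplicit false

namespace Pool.Agent.MP099f24

open MeasureTheory Filter Topology Set Metric
open scoped ENNReal ContDiff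

variable {U K : Set ℂ} {v : ℂ → ℝ} {g : ℂ → ℂ}

theorem cj_closed (h : CJ U K v g) {C : Set ℂ} (hC : IsClosed C) (hCU : C ⊆ U) :
    IsClosed (K ∩ C) := by
  have : K ∩ C = C \ (U \ K) := by
    ext x
    constructor
    · rintro ⟨h1, h2⟩
      exact ⟨h2, fun h3 => h3.2 h1⟩
    · rintro ⟨h1, h2⟩
      refine ⟨?_, h1⟩
      by_contra h3
      exact h2 ⟨hCU h1, h3⟩
  rw [this]
  exact hC.sdiff h.open_compl

/-- almost every circle meets `K` in a finite set -/
theorem cj_finite (h : CJ U K v g) {a : ℂ} {R : ℝ} (hR : ball a R ⊆ U) :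
    ∀ᵐ s ∂(volume.restrict (Ioo 0 R)), (K ∩ sphere a s).Finite := by
  have hlip : LipschitzWith 1 (fun x : ℂ => dist x a) := LipschitzWith.dist_left a
  have h1 : ∀ n : ℕ, ∀ᵐ s : ℝ, s < R - 1 / ((n : ℝ) + 1) → (K ∩ sphere a s).Finite := by
    intro n
    set ρ := R - 1 / ((n : ℝ) + 1) with hρ
    have hρR : ρ < R := by
      have : (0 : ℝ) < 1 / ((n : ℝ) + 1) := by positivity
      linarith
    have hsub : closedBall a ρ ⊆ U := (closedBall_subset_ball hρR).trans hR
    have hcl := cj_closed h isClosed_closedBall hsub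
    have hfin := h.len _ (isCompact_closedBall a ρ) hsub
    filter_upwards [fv_eil_finite hlip hcl.measurableSet hfin] with s hs hsρ
    refine hs.subset ?_
    rintro x ⟨h2, h3⟩
    refine ⟨⟨h2, ?_⟩, h3⟩
    rw [mem_closedBall, mem_sphere.1 h3]
    exact hsρ.le
  rw [← ae_all_iff] at h1
  filter_upwards [ae_restrict_of_ae h1, ae_restrict_mem measurableSet_Ioo] with s hs hsR
  obtain ⟨n, hn⟩ := exists_nat_one_div_lt (sub_pos.2 hsR.2)
  exact hs n (by linarith)

/-- the Wirtinger inequality for a function vanishing at finitely many points -/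
theorem bonnet_wirtinger {F G : ℝ → ℝ} {Z : Set ℝ} {κ : ℝ} (hF : Continuous F)
    (hFZ : ∀ x ∈ Z, F x = 0) (hFG : ∀ x, x ∉ Z → HasDerivAt F (G x) x)
    (hZ : ∀ θ : ℝ, ∃ θ' ∈ Icc θ (θ + κ), θ' ∈ Z)
    (hG : ∀ p q : ℝ, MemLp G 2 (volume.restrict (Ioc p q))) (n : ℕ) :
    ∀ p q : ℝ, p ≤ q → p ∈ Z → q ∈ Z → (Z ∩ Ioo p q).Finite → (Z ∩ Ioo p q).ncard ≤ n →
      ∫ x in p..q, F x ^ 2 ≤ (κ / Real.pi) ^ 2 * ∫ x in p..q, G x ^ 2 := by
  have hpi := Real.pi_pos
  induction n with
  | zero =>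
    intro p q hpq hp hq hfin hcard
    have hempty : Z ∩ Ioo p q = ∅ := by
      rw [← Set.ncard_eq_zero hfin]
      omega
    rcases hpq.eq_or_lt with rfl | hlt
    · simp
    have hL : 0 < q - p := sub_pos.2 hlt
    have hLκ : q - p ≤ κ := by
      by_contra hcon
      push Not at hcon
      obtain ⟨θ', h1, h2⟩ := hZ ((p + q - κ) / 2)
      have : θ' ∈ Z ∩ Ioo p q := ⟨h2, by constructor <;> linarith [h1.1, h1.2]⟩
      rw [hempty] at this
      exact this
    have hGi : IntervalIntegrable G volume p q := by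
      rw [intervalIntegrable_iff_integrableOn_Ioc_of_le hpq]
      exact (hG p q).integrable (by norm_num)
    have hFI : ∀ x ∈ Icc p q, F x = ∫ t in p..x, G t := by
      intro x hx
      have h1 : ∫ t in p..x, G t = F x - F p := by
        refine intervalIntegral.integral_eq_sub_of_hasDerivAt_of_le hx.1 hF.continuousOn ?_ ?_
        · intro y hy
          apply hFG
          intro hyZ
          have : y ∈ Z ∩ Ioo p q := ⟨hyZ, hy.1, hy.2.trans_le hx.2⟩
          rw [hempty] at this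
          exact this
        · exact hGi.mono_set (by
            rw [uIcc_of_le hx.1, uIcc_of_le hpq]
            exact Icc_subset_Icc le_rfl hx.2)
      rw [h1, hFZ p hp, sub_zero]
    have hpq' : p + (q - p) = q := by ring
    have h0 : ∫ t in p..(p + (q - p)), G t = 0 := by
      rw [hpq', ← hFI q ⟨hpq, le_rfl⟩, hFZ q hq]
    have hw := wirtinger_dirichlet (p := p) (L := q - p) (G := G) hL
      (by rw [hpq']; exact hG p q) h0
    rw [hpq'] at hw
    have h2 : ∫ x in p..q, F x ^ 2 = ∫ x in p..q, (∫ t in p..x, G t) ^ 2 := by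
      refine intervalIntegral.integral_congr fun x hx => ?_
      rw [uIcc_of_le hpq] at hx
      rw [hFI x hx]
    have h3 : 0 ≤ ∫ x in p..q, G x ^ 2 :=
      intervalIntegral.integral_nonneg hpq fun x _ => sq_nonneg _
    rw [h2]
    refine hw.trans ?_
    gcongr
  | succ n ih =>
    intro p q hpq hp hq hfin hcard
    rcases (Z ∩ Ioo p q).eq_empty_or_nonempty with hempty | ⟨z, hzZ, hz⟩
    · exact ih p q hpq hp hq hfin (by rw [hempty, Set.ncard_empty]; omega)
    have hs1 : Z ∩ Ioo p z ⊂ Z ∩ Ioo p q := by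
      refine ⟨inter_subset_inter_right _ (Ioo_subset_Ioo le_rfl hz.2.le), fun hcon => ?_⟩
      exact lt_irrefl _ (hcon ⟨hzZ, hz⟩).2.2
    have hs2 : Z ∩ Ioo z q ⊂ Z ∩ Ioo p q := by
      refine ⟨inter_subset_inter_right _ (Ioo_subset_Ioo hz.1.le le_rfl), fun hcon => ?_⟩
      exact lt_irrefl _ (hcon ⟨hzZ, hz⟩).2.1
    have hc1 := Set.ncard_lt_ncard hs1 hfin
    have hc2 := Set.ncard_lt_ncard hs2 hfin
    have e1 := ih p z hz.1.le hp hzZ (hfin.subset hs1.1) (by omega)
    have e2 := ih z q hz.2.le hzZ hq (hfin.subset hs2.1) (by omega)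
    have iF : ∀ c d : ℝ, IntervalIntegrable (fun x => F x ^ 2) volume c d := fun c d =>
      (hF.pow 2).intervalIntegrable c d
    have iG : ∀ c d : ℝ, IntervalIntegrable (fun x => G x ^ 2) volume c d := fun c d => by
      rcases le_total c d with hcd | hcd
      · rw [intervalIntegrable_iff_integrableOn_Ioc_of_le hcd]
        exact (hG c d).integrable_sq
      · refine IntervalIntegrable.symm ?_
        rw [intervalIntegrable_iff_integrableOn_Ioc_of_le hcd]
        exact (hG d c).integrable_sq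
    rw [← intervalIntegral.integral_add_adjacent_intervals (iF p z) (iF z q),
      ← intervalIntegral.integral_add_adjacent_intervals (iG p z) (iG z q), mul_add]
    exact add_le_add e1 e2

theorem bonnet_pc_periodic (a : ℂ) (s θ : ℝ) : pc a s (θ + 2 * Real.pi) = pc a s θ := by
  unfold pc er
  congr 2
  push_cast
  rw [add_mul, Complex.exp_add, Complex.exp_two_pi_mul_I, mul_one]

theorem bonnet_er_periodic (θ : ℝ) : er (θ + 2 * Real.pi) = er θ := by
  unfold er
  push_cast
  rw [add_mul, Complex.exp_add, Complex.exp_two_pi_mul_I, mul_one]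

theorem bonnet_exists_angle {a x : ℂ} {s : ℝ} (hx : x ∈ sphere a s) : ∃ p, x = pc a s p := by
  refine ⟨(x - a).arg, ?_⟩
  have h1 : ‖x - a‖ = s := by rwa [mem_sphere, dist_eq_norm] at hx
  have h2 := Complex.norm_mul_exp_arg_mul_I (x - a)
  rw [h1] at h2
  rw [pc, er, h2]
  ring

theorem bonnet_pc_inj {a : ℂ} {s p θ : ℝ} (hs : 0 < s) (hθ : θ ∈ Ioo p (p + 2 * Real.pi)) :
    pc a s θ ≠ pc a s p := by
  intro h
  rw [pc, pc] at h
  have h1 : (s : ℂ) * er θ = s * er p := add_left_cancel h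
  have h2 : er θ = er p := mul_left_cancel₀ (by exact_mod_cast hs.ne') h1
  rw [er, er, Complex.exp_eq_exp_iff_exists_int] at h2
  obtain ⟨n, hn⟩ := h2
  have h3 : (θ : ℂ) = p + n * (2 * Real.pi) := by
    have hI : (Complex.I : ℂ) ≠ 0 := Complex.I_ne_zero
    apply mul_right_cancel₀ hI
    linear_combination hn
  have h4 : θ = p + n * (2 * Real.pi) := by exact_mod_cast h3
  have hpi := Real.pi_pos
  have h5 : (0 : ℝ) < n := by
    by_contra hcon
    push Not at hcon
    nlinarith [hθ.1]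
  have h6 : (n : ℝ) < 1 := by
    by_contra hcon
    push Not at hcon
    nlinarith [hθ.2]
  have h7 : (0 : ℤ) < n := by exact_mod_cast h5
  have h8 : n < (1 : ℤ) := by exact_mod_cast h6
  omega

theorem bonnet_rot (w e : ℂ) : inner ℝ (Complex.I * w) e ^ 2 = inner ℝ w (Complex.I * e) ^ 2 := by
  simp only [Complex.inner, map_mul, Complex.conj_I, Complex.mul_re, Complex.mul_im,
    Complex.conj_re, Complex.conj_im, Complex.I_re, Complex.I_im, Complex.neg_re, Complex.neg_im]
  ring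

/-- the estimate on a good circle -/
theorem bonnet_circle (h : CJ U K v g) {a : ℂ} {R s : ℝ} (hR : ball a R ⊆ U) (hs : s ∈ Ioo 0 R)
    (hfin : (K ∩ sphere a s).Finite)
    (hint : IntegrableOn (fun θ => ‖g (pc a s θ)‖ ^ 2) (Ioo (-Real.pi) Real.pi))
    (hflux : Dq g a s = s * ∫ θ in Ioo (-Real.pi) Real.pi, v (pc a s θ) *
      inner ℝ (Complex.I * g (pc a s θ)) (er θ)) {κ : ℝ} (hκ : 0 < κ) (harc : ArcsLE K a s κ) :
    2 * Real.pi / κ * Dq g a s ≤ s * (Tq g a s + Vq g a s) := by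
  have hpi := Real.pi_pos
  have hs0 := hs.1
  have hpi2 : (0 : ℝ) < 2 * Real.pi := by positivity
  have hpcU : ∀ θ, pc a s θ ∈ U := fun θ => hR (by
    rw [mem_ball, dist_eq_norm, sep_norm_pc, abs_of_pos hs0]
    exact hs.2)
  set F : ℝ → ℝ := fun θ => v (pc a s θ) with hFdef
  set G : ℝ → ℝ := fun θ => s * inner ℝ (g (pc a s θ)) (er θ) with hGdef
  set Z : Set ℝ := {θ | pc a s θ ∈ K} with hZdef
  have hpcc : Continuous (fun θ => pc a s θ) := sep_pc_cont1 a s
  have herc : Continuous er := by unfold er; fun_prop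
  have hF : Continuous F := h.cont.comp_continuous hpcc hpcU
  have hgm : Measurable (fun θ => g (pc a s θ)) := h.meas_g.comp hpcc.measurable
  have hGm : Measurable G := (hgm.inner herc.measurable).const_mul s
  -- integrability on all intervals
  have hper : Function.Periodic (fun θ => ‖g (pc a s θ)‖ ^ 2) (2 * Real.pi) := fun θ => by
    simp only [bonnet_pc_periodic]
  have hint' : ∀ p q : ℝ, IntervalIntegrable (fun θ => ‖g (pc a s θ)‖ ^ 2) volume p q := by
    intro p q
    refine hper.intervalIntegrable hpi2.ne' (t := -Real.pi) ?_ p q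
    have e : -Real.pi + 2 * Real.pi = Real.pi := by ring
    rw [e, intervalIntegrable_iff_integrableOn_Ioo_of_le (by linarith)]
    exact hint
  have hG2 : ∀ p q : ℝ, MemLp G 2 (volume.restrict (Ioc p q)) := by
    intro p q
    rw [memLp_two_iff_integrable_sq hGm.aestronglyMeasurable]
    rcases le_total p q with hpq | hpq
    · have h1 := (intervalIntegrable_iff_integrableOn_Ioc_of_le hpq).1 (hint' p q)
      refine Integrable.mono' (h1.const_mul (s ^ 2)) (hGm.pow_const 2).aestronglyMeasurable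
        (Eventually.of_forall fun θ => ?_)
      rw [Real.norm_eq_abs, abs_of_nonneg (sq_nonneg _), hGdef]
      simp only
      rw [mul_pow]
      have h2 : |inner ℝ (g (pc a s θ)) (er θ)| ≤ ‖g (pc a s θ)‖ := by
        refine (abs_real_inner_le_norm _ _).trans ?_
        rw [sc_er_norm, mul_one]
      have h3 : inner ℝ (g (pc a s θ)) (er θ) ^ 2 ≤ ‖g (pc a s θ)‖ ^ 2 := by
        rw [← sq_abs]
        exact pow_le_pow_left₀ (abs_nonneg _) h2 2
      gcongr
    · rw [Ioc_eq_empty (by linarith)]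
      simp
  obtain ⟨p, -, hpZ⟩ := harc 0
  have hqZ : p + 2 * Real.pi ∈ Z := by
    rw [hZdef, mem_ofPred_eq, bonnet_pc_periodic]
    exact hpZ
  have hZfin : (Z ∩ Ioo p (p + 2 * Real.pi)).Finite := by
    refine Set.Finite.of_finite_image (f := fun θ => pc a s θ) (hfin.subset ?_) ?_
    · rintro _ ⟨θ, hθ, rfl⟩
      refine ⟨hθ.1, ?_⟩
      rw [mem_sphere, dist_eq_norm, sep_norm_pc, abs_of_pos hs0]
    · intro x hx y hy hxy
      simp only at hxy
      by_contra hne
      rcases lt_or_gt_of_ne hne with hlt | hlt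
      · exact bonnet_pc_inj hs0 (p := x) (θ := y) ⟨hlt, by linarith [hx.2.1, hy.2.2]⟩ hxy.symm
      · exact bonnet_pc_inj hs0 (p := y) (θ := x) ⟨hlt, by linarith [hy.2.1, hx.2.2]⟩ hxy
  have hW := bonnet_wirtinger (F := F) (G := G) (Z := Z) hF (fun x hx => h.zero _ ⟨hpcU x, hx⟩)
    (fun x hx => sc_circ_deriv (h.grad _ ⟨hpcU x, hx⟩)) harc hG2
    (Z ∩ Ioo p (p + 2 * Real.pi)).ncard p (p + 2 * Real.pi) (by linarith) hpZ hqZ hZfin le_rfl
  -- back to the standard period
  have hFp : Function.Periodic (fun θ => F θ ^ 2) (2 * Real.pi) := fun θ => by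
    simp only [hFdef, bonnet_pc_periodic]
  have hGp : Function.Periodic (fun θ => G θ ^ 2) (2 * Real.pi) := fun θ => by
    simp only [hGdef, bonnet_pc_periodic, bonnet_er_periodic]
  have e0 : -Real.pi + 2 * Real.pi = Real.pi := by ring
  rw [hFp.intervalIntegral_add_eq p (-Real.pi), hGp.intervalIntegral_add_eq p (-Real.pi), e0,
    intervalIntegral.integral_of_le (by linarith), intervalIntegral.integral_of_le (by linarith),
    integral_Ioc_eq_integral_Ioo, integral_Ioc_eq_integral_Ioo] at hW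
  set A := ∫ θ in Ioo (-Real.pi) Real.pi, (inner ℝ (g (pc a s θ)) (er θ)) ^ 2 with hA
  set B := ∫ θ in Ioo (-Real.pi) Real.pi, (inner ℝ (g (pc a s θ)) (et θ)) ^ 2 with hB
  have hGA : ∫ θ in Ioo (-Real.pi) Real.pi, G θ ^ 2 = s ^ 2 * A := by
    rw [hA, ← integral_const_mul]
    refine integral_congr_ae (Eventually.of_forall fun θ => ?_)
    simp only [hGdef]
    ring
  rw [hGA] at hW
  set b : ℝ → ℝ := fun θ => inner ℝ (Complex.I * g (pc a s θ)) (er θ) with hbdef
  have hb2 : ∀ θ, b θ ^ 2 = inner ℝ (g (pc a s θ)) (et θ) ^ 2 := fun θ => by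
    rw [hbdef]
    simp only
    rw [bonnet_rot, et, er]
  have hbm : Measurable b := (hgm.const_mul Complex.I).inner herc.measurable
  have hbB : ∫ θ in Ioo (-Real.pi) Real.pi, b θ ^ 2 = B := by
    rw [hB]
    refine integral_congr_ae (Eventually.of_forall fun θ => ?_)
    simp only
    rw [hb2]
  have ib : IntegrableOn (fun θ => b θ ^ 2) (Ioo (-Real.pi) Real.pi) := by
    refine Integrable.mono' hint (hbm.pow_const 2).aestronglyMeasurable
      (Eventually.of_forall fun θ => ?_)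
    rw [Real.norm_eq_abs, abs_of_nonneg (sq_nonneg _)]
    have h2 : |b θ| ≤ ‖g (pc a s θ)‖ := by
      refine (abs_real_inner_le_norm _ _).trans ?_
      rw [sc_er_norm, mul_one, norm_mul, Complex.norm_I, one_mul]
    rw [← sq_abs]
    exact pow_le_pow_left₀ (abs_nonneg _) h2 2
  have iF : IntegrableOn (fun θ => F θ ^ 2) (Ioo (-Real.pi) Real.pi) :=
    ((hF.pow 2).integrableOn_Icc (a := -Real.pi) (b := Real.pi)).mono_set Ioo_subset_Icc_self
  set lam : ℝ := Real.pi / (κ * s) with hlam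
  have hlam0 : 0 < lam := by positivity
  have hpt : ∀ θ, F θ * b θ ≤ lam / 2 * F θ ^ 2 + 1 / (2 * lam) * b θ ^ 2 := by
    intro θ
    have h1 : 0 ≤ (lam * F θ - b θ) ^ 2 / (2 * lam) := by positivity
    have h2 : (lam * F θ - b θ) ^ 2 / (2 * lam) =
        lam / 2 * F θ ^ 2 + 1 / (2 * lam) * b θ ^ 2 - F θ * b θ := by
      field_simp
      ring
    linarith
  have iFb : IntegrableOn (fun θ => F θ * b θ) (Ioo (-Real.pi) Real.pi) := by
    refine Integrable.mono' (iF.add ib) (hF.measurable.mul hbm).aestronglyMeasurable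
      (Eventually.of_forall fun θ => ?_)
    rw [Real.norm_eq_abs, abs_mul]
    simp only [Pi.add_apply]
    rw [← sq_abs (F θ), ← sq_abs (b θ)]
    nlinarith [sq_nonneg (|F θ| - |b θ|), sq_nonneg (|F θ|), sq_nonneg (|b θ|)]
  have h1 : ∫ θ in Ioo (-Real.pi) Real.pi, F θ * b θ ≤
      lam / 2 * (∫ θ in Ioo (-Real.pi) Real.pi, F θ ^ 2) + 1 / (2 * lam) * B := by
    rw [← hbB, ← integral_const_mul, ← integral_const_mul,
      ← integral_add (iF.const_mul _) (ib.const_mul _)]
    exact integral_mono iFb ((iF.const_mul _).add (ib.const_mul _)) hpt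
  have h2 : ∫ θ in Ioo (-Real.pi) Real.pi, F θ * b θ ≤ κ * s / (2 * Real.pi) * (A + B) := by
    refine h1.trans ?_
    have h3 : lam / 2 * (∫ θ in Ioo (-Real.pi) Real.pi, F θ ^ 2) ≤
        lam / 2 * ((κ / Real.pi) ^ 2 * (s ^ 2 * A)) := by gcongr
    have h4 : lam / 2 * ((κ / Real.pi) ^ 2 * (s ^ 2 * A)) = κ * s / (2 * Real.pi) * A := by
      rw [hlam]
      field_simp
    have h5 : 1 / (2 * lam) * B = κ * s / (2 * Real.pi) * B := by
      rw [hlam]
      field_simp
    rw [h5, mul_add]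
    linarith
  have hT : Tq g a s = s * B := rfl
  have hV : Vq g a s = s * A := rfl
  rw [hflux, hT, hV]
  have h6 : s * (∫ θ in Ioo (-Real.pi) Real.pi, v (pc a s θ) *
      inner ℝ (Complex.I * g (pc a s θ)) (er θ)) ≤ s * (κ * s / (2 * Real.pi) * (A + B)) := by
    gcongr
  calc 2 * Real.pi / κ * (s * ∫ θ in Ioo (-Real.pi) Real.pi, v (pc a s θ) *
      inner ℝ (Complex.I * g (pc a s θ)) (er θ)) ≤
        2 * Real.pi / κ * (s * (κ * s / (2 * Real.pi) * (A + B))) := by gcongr
    _ = s * (s * B + s * A) := by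
      field_simp
      ring

/-- the flux identity on almost every circle -/
def FluxId (v : ℂ → ℝ) (g : ℂ → ℂ) (a : ℂ) (R : ℝ) : Prop :=
  ∀ᵐ s ∂(volume.restrict (Ioo 0 R)), Dq g a s =
    s * ∫ θ in Ioo (-Real.pi) Real.pi, v (pc a s θ) * inner ℝ (Complex.I * g (pc a s θ)) (er θ)

/-- Bonnet's inequality -/
theorem cj_bonnet_of_flux (h : CJ U K v g) {a : ℂ} {R : ℝ} (hR : ball a R ⊆ U)
    (hflux : FluxId v g a R) :
    ∀ᵐ s ∂(volume.restrict (Ioo 0 R)), HasDerivAt (Dq g a) (Tq g a s + Vq g a s) s ∧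
      ∀ κ ∈ Ioc 0 (2 * Real.pi), ArcsLE K a s κ →
        2 * Real.pi / κ * Dq g a s ≤ s * (Tq g a s + Vq g a s) := by
  filter_upwards [cj_finite h hR, (cj_slice h hR).1, hflux,
    ae_restrict_mem measurableSet_Ioo] with s h1 h2 h3 h4
  exact ⟨h2.1, fun κ hκ harc => bonnet_circle h hR h4 h1 h2.2 h3 hκ.1 harc⟩

theorem cj_mono_of_flux (h : CJ U K v g) {a : ℂ} {R κ s t : ℝ} (hR : ball a R ⊆ U)
    (hflux : FluxId v g a R) (hs : 0 < s) (hst : s ≤ t) (ht : t < R)
    (hκ : κ ∈ Ioc 0 (2 * Real.pi)) (hK : ∀ r ∈ Ioo s t, ArcsLE K a r κ) :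
    Dq g a s * (t / s) ^ (2 * Real.pi / κ) ≤ Dq g a t := by
  have hpi := Real.pi_pos
  have hsub : Icc s t ⊆ Ioo 0 R := fun x hx => ⟨hs.trans_le hx.1, hx.2.trans_lt ht⟩
  refine ode_power hs hst (div_nonneg (by positivity) hκ.1.le)
    ((cj_slice h hR).2.1.mono hsub) (integral_nonneg fun _ => by positivity) ?_
  have h1 := ae_restrict_of_ae_restrict_of_subset hsub (cj_bonnet_of_flux h hR hflux)
  have h2 : ∀ᵐ r ∂(volume.restrict (Icc s t)), r ∈ Ioo s t := by
    rw [← restrict_Ioo_eq_restrict_Icc]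
    exact ae_restrict_mem measurableSet_Ioo
  filter_upwards [h1, h2] with r hr hrm
  have hr0 : 0 < r := hs.trans hrm.1
  rw [hr.1.deriv, div_le_iff₀ hr0, mul_comm _ r]
  exact hr.2 κ hκ (hK r hrm)

/-- Bonnet's monotonicity -/
theorem cj_mono_one_of_flux (h : CJ U K v g) {a : ℂ} {R s t : ℝ} (hR : ball a R ⊆ U)
    (hflux : FluxId v g a R) (hs : 0 < s) (hst : s ≤ t) (ht : t < R)
    (hK : ∀ r ∈ Ioo s t, (K ∩ sphere a r).Nonempty) :
    Dq g a s / s ≤ Dq g a t / t := by
  have hpi := Real.pi_pos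
  have hpi2 : (0 : ℝ) < 2 * Real.pi := by positivity
  have ht0 : 0 < t := hs.trans_le hst
  have h1 := cj_mono_of_flux h hR hflux hs hst ht (κ := 2 * Real.pi) ⟨hpi2, le_rfl⟩ (by
    intro r hr θ
    obtain ⟨x, hxK, hxs⟩ := hK r hr
    obtain ⟨p, rfl⟩ := bonnet_exists_angle hxs
    have hper : Function.Periodic (fun θ => pc a r θ) (2 * Real.pi) := fun θ =>
      bonnet_pc_periodic a r θ
    obtain ⟨y, hy, hpy⟩ := hper.exists_mem_Ico hpi2 p θ
    refine ⟨y, Ico_subset_Icc_self hy, ?_⟩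
    rw [← hpy]
    exact hxK)
  rw [div_self hpi2.ne', Real.rpow_one] at h1
  rw [div_le_div_iff₀ hs ht0]
  have h2 : Dq g a s * (t / s) * s = Dq g a s * t := by
    field_simp
  nlinarith

end Pool.Agent.MP099f24
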