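import Mathlib
import Pool.Agent.Lib.MP_099f24_an.SD.Trace
import Pool.Agent.Lib.MP_099f24_an.SC.EndsA

/-!
# Flux through an arc: cutoff functions (MP_099f24_an)
-/

namespace Pool.Agent.MP099f24

open MeasureTheory Filter Topology Set Metric
open scoped ENNReal ContDiff

/-- a smooth decreasing function, `1` for `s ≤ 1/4`, `0` for `1 ≤ s` -/
noncomputable def scf (s : ℝ) : ℝ := Real.smoothTransition ((1 - s) * (4 / 3))

theorem scf_smooth : ContDiff ℝ ∞ scf := by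
  unfold scf
  exact trace_smooth.comp (by fun_prop)

theorem scf_one {s : ℝ} (hs : s ≤ 1 / 4) : scf s = 1 :=
  Real.smoothTransition.one_of_one_le (by linarith)

theorem scf_zero {s : ℝ} (hs : 1 ≤ s) : scf s = 0 :=
  Real.smoothTransition.zero_of_nonpos (by linarith)

theorem scf_nonneg (s : ℝ) : 0 ≤ scf s := Real.smoothTransition.nonneg _

theorem scf_le_one (s : ℝ) : scf s ≤ 1 := Real.smoothTransition.le_one _

theorem scf_deriv (s : ℝ) :
    deriv scf s = deriv Real.smoothTransition ((1 - s) * (4 / 3)) * (-(4 / 3)) := by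
  have h1 : HasDerivAt (fun s : ℝ => (1 - s) * (4 / 3)) (-1 * (4 / 3)) s :=
    ((hasDerivAt_id s).const_sub 1).mul_const _
  have h2 : HasDerivAt Real.smoothTransition
      (deriv Real.smoothTransition ((1 - s) * (4 / 3))) ((1 - s) * (4 / 3)) :=
    (trace_smooth.differentiable (by simp) _).hasDerivAt
  have h3 := h2.comp s h1
  have h4 : deriv scf s = deriv Real.smoothTransition ((1 - s) * (4 / 3)) * (-1 * (4 / 3)) :=
    h3.deriv
  rw [h4]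
  ring

theorem scf_deriv_zero {s : ℝ} (hs : s ≤ 1 / 4 ∨ 1 ≤ s) : deriv scf s = 0 := by
  rw [scf_deriv, trace_beta_zero, zero_mul]
  rcases hs with hs | hs
  · right; linarith
  · left; linarith

theorem scf_deriv_nonpos (s : ℝ) : deriv scf s ≤ 0 := by
  rw [scf_deriv]
  have : 0 ≤ deriv Real.smoothTransition ((1 - s) * (4 / 3)) :=
    Real.smoothTransition.monotone.deriv_nonneg
  nlinarith

theorem scf_bound : ∃ C : ℝ, 0 < C ∧ ∀ s, |deriv scf s| ≤ C := by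
  obtain ⟨M, hM, h⟩ := trace_beta_bound
  refine ⟨M * (4 / 3) + 1, by positivity, fun s => ?_⟩
  rw [scf_deriv, abs_mul, abs_neg, abs_of_pos (by norm_num : (0 : ℝ) < 4 / 3)]
  nlinarith [h ((1 - s) * (4 / 3))]

/-! ### the disc cutoff -/

/-- `1` on the disc of radius `η / 2`, `0` outside the disc of radius `η` -/
noncomputable def scA (c : ℂ) (η : ℝ) (x : ℂ) : ℝ := scf (‖x - c‖ ^ 2 / η ^ 2)

theorem scA_smooth (c : ℂ) (η : ℝ) : ContDiff ℝ ∞ (scA c η) := by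
  unfold scA
  refine scf_smooth.comp ?_
  exact ((contDiff_id.sub contDiff_const).norm_sq ℝ).div_const _

theorem sc_normsq_fderiv (c x : ℂ) :
    HasFDerivAt (fun x : ℂ => ‖x - c‖ ^ 2) ((2 : ℝ) • ilin (x - c)) x := by
  have h := (hasFDerivAt_sub_const (𝕜 := ℝ) c (x := x)).norm_sq
  refine h.congr_fderiv ?_
  ext v
  · simp [ilin]

theorem scA_fderiv (c : ℂ) (η : ℝ) (x w : ℂ) : fderiv ℝ (scA c η) x w =
    deriv scf (‖x - c‖ ^ 2 / η ^ 2) * (2 * inner ℝ (x - c) w / η ^ 2) := by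
  have h1 : HasFDerivAt (fun x : ℂ => ‖x - c‖ ^ 2 / η ^ 2) ((η ^ 2)⁻¹ • ((2 : ℝ) • ilin (x - c))) x := by
    have := (sc_normsq_fderiv c x).const_mul (η ^ 2)⁻¹
    refine this.congr_of_eventuallyEq (Eventually.of_forall fun y => ?_)
    simp only [div_eq_mul_inv]
    ring
  have h2 : HasDerivAt scf (deriv scf (‖x - c‖ ^ 2 / η ^ 2)) (‖x - c‖ ^ 2 / η ^ 2) :=
    (scf_smooth.differentiable (by simp) _).hasDerivAt
  have h3 := h2.comp_hasFDerivAt x h1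
  have h4 : fderiv ℝ (scA c η) x =
      deriv scf (‖x - c‖ ^ 2 / η ^ 2) • ((η ^ 2)⁻¹ • ((2 : ℝ) • ilin (x - c))) := h3.fderiv
  rw [h4]
  simp only [smul_apply, ilin_apply, smul_eq_mul]
  ring

theorem scA_one {c : ℂ} {η : ℝ} (hη : 0 < η) {x : ℂ} (h : dist x c ≤ η / 2) : scA c η x = 1 := by
  refine scf_one ?_
  rw [dist_eq_norm] at h
  rw [div_le_iff₀ (by positivity)]
  nlinarith [norm_nonneg (x - c)]

theorem scA_zero {c : ℂ} {η : ℝ} (hη : 0 < η) {x : ℂ} (h : η ≤ dist x c) : scA c η x = 0 := by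
  refine scf_zero ?_
  rw [dist_eq_norm] at h
  rw [le_div_iff₀ (by positivity)]
  nlinarith [norm_nonneg (x - c)]

theorem scA_fderiv_zero {c : ℂ} {η : ℝ} (hη : 0 < η) {x : ℂ} (h : dist x c ≤ η / 2 ∨ η ≤ dist x c)
    (w : ℂ) : fderiv ℝ (scA c η) x w = 0 := by
  rw [scA_fderiv, scf_deriv_zero, zero_mul]
  rcases h with h | h
  · left
    rw [dist_eq_norm] at h
    rw [div_le_iff₀ (by positivity)]
    nlinarith [norm_nonneg (x - c)]
  · right
    rw [dist_eq_norm] at h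
    rw [le_div_iff₀ (by positivity)]
    nlinarith [norm_nonneg (x - c)]

theorem scA_bound {C : ℝ} (hC : ∀ s, |deriv scf s| ≤ C) {c : ℂ} {η : ℝ} (hη : 0 < η) (x w : ℂ) :
    |fderiv ℝ (scA c η) x w| ≤ 2 * C / η * ‖w‖ := by
  have hC0 : 0 ≤ C := (abs_nonneg _).trans (hC 0)
  by_cases h : η ≤ dist x c
  · rw [scA_fderiv_zero hη (Or.inr h), abs_zero]
    positivity
  push Not at h
  rw [scA_fderiv, abs_mul, abs_div, abs_mul, abs_of_pos (by norm_num : (0 : ℝ) < 2),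
    abs_of_pos (by positivity : (0 : ℝ) < η ^ 2)]
  rw [dist_eq_norm] at h
  have h1 : |inner ℝ (x - c) w| ≤ η * ‖w‖ :=
    (abs_real_inner_le_norm _ _).trans (mul_le_mul_of_nonneg_right h.le (norm_nonneg _))
  calc |deriv scf (‖x - c‖ ^ 2 / η ^ 2)| * (2 * |inner ℝ (x - c) w| / η ^ 2)
      ≤ C * (2 * (η * ‖w‖) / η ^ 2) := by
        refine mul_le_mul (hC _) ?_ (by positivity) hC0
        gcongr
    _ = 2 * C / η * ‖w‖ := by
        field_simp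

/-! ### the circle cutoff -/

/-- a cutoff near the circle `|x - x₀| = r` -/
noncomputable def scZ (x₀ : ℂ) (r δ : ℝ) (x : ℂ) : ℝ := scf (((‖x - x₀‖ ^ 2 - r ^ 2) / δ) ^ 2)

theorem scZ_smooth (x₀ : ℂ) (r δ : ℝ) : ContDiff ℝ ∞ (scZ x₀ r δ) := by
  unfold scZ
  refine scf_smooth.comp ?_
  exact ((((contDiff_id.sub contDiff_const).norm_sq ℝ).sub contDiff_const).div_const _).pow 2

/-- the radial derivative of the circle cutoff -/
noncomputable def scK (r δ ρ : ℝ) : ℝ :=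
  deriv scf (((ρ ^ 2 - r ^ 2) / δ) ^ 2) * (2 * ((ρ ^ 2 - r ^ 2) / δ)) * (2 * ρ / δ)

theorem scK_hasDerivAt (r δ ρ : ℝ) :
    HasDerivAt (fun ρ : ℝ => scf (((ρ ^ 2 - r ^ 2) / δ) ^ 2)) (scK r δ ρ) ρ := by
  have h1 : HasDerivAt (fun ρ : ℝ => (ρ ^ 2 - r ^ 2) / δ) (2 * ρ / δ) ρ := by
    have := (((hasDerivAt_id' ρ).fun_pow 2).sub_const (r ^ 2)).div_const δ
    simpa using this
  have h2 : HasDerivAt (fun ρ : ℝ => ((ρ ^ 2 - r ^ 2) / δ) ^ 2)
      (2 * ((ρ ^ 2 - r ^ 2) / δ) * (2 * ρ / δ)) ρ := by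
    have := h1.fun_pow 2
    simpa using this
  have h3 : HasDerivAt scf (deriv scf (((ρ ^ 2 - r ^ 2) / δ) ^ 2)) (((ρ ^ 2 - r ^ 2) / δ) ^ 2) :=
    (scf_smooth.differentiable (by simp) _).hasDerivAt
  have h4 := h3.comp ρ h2
  refine h4.congr_deriv ?_
  unfold scK
  ring

theorem scK_continuous (r δ : ℝ) : Continuous (scK r δ) := by
  have : Continuous (deriv scf) := scf_smooth.continuous_deriv (by simp)
  unfold scK
  fun_prop

theorem scZ_fderiv (x₀ : ℂ) (r δ : ℝ) (x w : ℂ) : fderiv ℝ (scZ x₀ r δ) x w =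
    deriv scf (((‖x - x₀‖ ^ 2 - r ^ 2) / δ) ^ 2) * (2 * ((‖x - x₀‖ ^ 2 - r ^ 2) / δ)) *
      (2 * inner ℝ (x - x₀) w / δ) := by
  have h1 : HasFDerivAt (fun x : ℂ => (‖x - x₀‖ ^ 2 - r ^ 2) / δ)
      (δ⁻¹ • ((2 : ℝ) • ilin (x - x₀))) x := by
    have := ((sc_normsq_fderiv x₀ x).sub_const (r ^ 2)).const_mul δ⁻¹
    refine this.congr_of_eventuallyEq (Eventually.of_forall fun y => ?_)
    simp only [div_eq_mul_inv]
    ring
  have h2 : HasDerivAt (fun q : ℝ => scf (q ^ 2))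
      (deriv scf (((‖x - x₀‖ ^ 2 - r ^ 2) / δ) ^ 2) * (2 * ((‖x - x₀‖ ^ 2 - r ^ 2) / δ)))
      ((‖x - x₀‖ ^ 2 - r ^ 2) / δ) := by
    set q := (‖x - x₀‖ ^ 2 - r ^ 2) / δ
    have h3 : HasDerivAt scf (deriv scf (q ^ 2)) (q ^ 2) :=
      (scf_smooth.differentiable (by simp) _).hasDerivAt
    have h4 : HasDerivAt (fun q : ℝ => q ^ 2) (2 * q) q := by
      simpa using (hasDerivAt_id' q).fun_pow 2
    exact HasDerivAt.comp (h₂ := scf) (h := fun q : ℝ => q ^ 2) q h3 h4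
  have h3 := h2.comp_hasFDerivAt x h1
  have h4 : fderiv ℝ (scZ x₀ r δ) x =
      (deriv scf (((‖x - x₀‖ ^ 2 - r ^ 2) / δ) ^ 2) * (2 * ((‖x - x₀‖ ^ 2 - r ^ 2) / δ))) •
        (δ⁻¹ • ((2 : ℝ) • ilin (x - x₀))) := h3.fderiv
  rw [h4]
  simp only [smul_apply, ilin_apply, smul_eq_mul]
  ring

theorem scZ_fderiv_pc (x₀ : ℂ) (r δ ρ θ : ℝ) (w : ℂ) : fderiv ℝ (scZ x₀ r δ) (pc x₀ ρ θ) w =
    scK r δ ρ * inner ℝ w (er θ) := by
  rw [scZ_fderiv, sep_norm_pc, sq_abs, scK]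
  have : pc x₀ ρ θ - x₀ = ρ • er θ := by
    rw [pc, Complex.real_smul]
    ring
  rw [this, real_inner_smul_left, real_inner_comm]
  ring

theorem scZ_zero {x₀ : ℂ} {r δ : ℝ} (hδ : 0 < δ) {x : ℂ} (h : δ ≤ |‖x - x₀‖ ^ 2 - r ^ 2|) :
    scZ x₀ r δ x = 0 ∧ ∀ w, fderiv ℝ (scZ x₀ r δ) x w = 0 := by
  have h1 : 1 ≤ ((‖x - x₀‖ ^ 2 - r ^ 2) / δ) ^ 2 := by
    rw [← sq_abs, abs_div, abs_of_pos hδ]
    have : 1 ≤ |‖x - x₀‖ ^ 2 - r ^ 2| / δ := by rwa [one_le_div hδ]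
    nlinarith
  refine ⟨scf_zero h1, fun w => ?_⟩
  rw [scZ_fderiv, scf_deriv_zero (Or.inr h1)]
  ring

theorem scZ_one {x₀ : ℂ} {r δ : ℝ} (hδ : 0 < δ) {x : ℂ} (h : |‖x - x₀‖ ^ 2 - r ^ 2| ≤ δ / 2) :
    scZ x₀ r δ x = 1 := by
  refine scf_one ?_
  rw [← sq_abs, abs_div, abs_of_pos hδ]
  have : |‖x - x₀‖ ^ 2 - r ^ 2| / δ ≤ 1 / 2 := by
    rw [div_le_iff₀ hδ]
    linarith
  have h0 : 0 ≤ |‖x - x₀‖ ^ 2 - r ^ 2| / δ := by positivity
  nlinarith

/-! ### the sector cutoff -/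

/-- `1` where `Re N ≤ -τ`, `0` where `Re N ≥ -τ/2` -/
noncomputable def scW (x₀ : ℂ) (r α β τ : ℝ) (x : ℂ) : ℝ :=
  Real.smoothTransition (-(2 * (sepN x₀ r α β x).re / τ) - 1)

theorem sc_sepN_re_smooth (x₀ : ℂ) (r α β : ℝ) :
    ContDiff ℝ ∞ (fun x => (sepN x₀ r α β x).re) := by
  have h1 : ContDiff ℝ ∞ (sepN x₀ r α β) := by
    unfold sepN
    refine (contDiff_const.mul (contDiff_id.sub contDiff_const)).mul ?_
    exact Complex.conjCLE.contDiff.comp (contDiff_id.sub contDiff_const)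
  exact Complex.reCLM.contDiff.comp h1

theorem scW_smooth (x₀ : ℂ) (r α β τ : ℝ) : ContDiff ℝ ∞ (scW x₀ r α β τ) := by
  unfold scW
  refine trace_smooth.comp ?_
  exact (((contDiff_const.mul (sc_sepN_re_smooth x₀ r α β)).div_const τ).neg).sub contDiff_const

theorem scW_fderiv_zero {x₀ : ℂ} {r α β τ : ℝ} {x : ℂ}
    (h : deriv Real.smoothTransition (-(2 * (sepN x₀ r α β x).re / τ) - 1) = 0) (w : ℂ) :
    fderiv ℝ (scW x₀ r α β τ) x w = 0 := by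
  have h1 : DifferentiableAt ℝ (fun x => -(2 * (sepN x₀ r α β x).re / τ) - 1) x := by
    have : ContDiff ℝ ∞ (fun x => -(2 * (sepN x₀ r α β x).re / τ) - 1) :=
      (((contDiff_const.mul (sc_sepN_re_smooth x₀ r α β)).div_const τ).neg).sub contDiff_const
    exact this.differentiable (by simp) x
  have h2 : HasDerivAt Real.smoothTransition
      (deriv Real.smoothTransition (-(2 * (sepN x₀ r α β x).re / τ) - 1))
      (-(2 * (sepN x₀ r α β x).re / τ) - 1) :=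
    (trace_smooth.differentiable (by simp) _).hasDerivAt
  have h3 := h2.comp_hasFDerivAt x h1.hasFDerivAt
  have h4 : fderiv ℝ (scW x₀ r α β τ) x =
      deriv Real.smoothTransition (-(2 * (sepN x₀ r α β x).re / τ) - 1) •
        fderiv ℝ (fun x => -(2 * (sepN x₀ r α β x).re / τ) - 1) x := h3.fderiv
  rw [h4, h, zero_smul]
  rfl

theorem scW_one {x₀ : ℂ} {r α β τ : ℝ} (hτ : 0 < τ) {x : ℂ} (h : (sepN x₀ r α β x).re ≤ -τ) :
    scW x₀ r α β τ x = 1 ∧ ∀ w, fderiv ℝ (scW x₀ r α β τ) x w = 0 := by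
  have h1 : 1 ≤ -(2 * (sepN x₀ r α β x).re / τ) - 1 := by
    have : 2 * (sepN x₀ r α β x).re / τ ≤ -2 := by
      rw [div_le_iff₀ hτ]
      linarith
    linarith
  exact ⟨Real.smoothTransition.one_of_one_le h1, scW_fderiv_zero (trace_beta_zero (Or.inr h1))⟩

theorem scW_zero {x₀ : ℂ} {r α β τ : ℝ} (hτ : 0 < τ) {x : ℂ} (h : -(τ / 2) ≤ (sepN x₀ r α β x).re) :
    scW x₀ r α β τ x = 0 ∧ ∀ w, fderiv ℝ (scW x₀ r α β τ) x w = 0 := by
  have h1 : -(2 * (sepN x₀ r α β x).re / τ) - 1 ≤ 0 := by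
    have : -1 ≤ 2 * (sepN x₀ r α β x).re / τ := by
      rw [le_div_iff₀ hτ]
      linarith
    linarith
  exact ⟨Real.smoothTransition.zero_of_nonpos h1, scW_fderiv_zero (trace_beta_zero (Or.inl h1))⟩

theorem scW_mem (x₀ : ℂ) (r α β τ : ℝ) (x : ℂ) : 0 ≤ scW x₀ r α β τ x ∧ scW x₀ r α β τ x ≤ 1 :=
  ⟨Real.smoothTransition.nonneg _, Real.smoothTransition.le_one _⟩

/-- `Re N` in polar coordinates -/
theorem sepN_re_pc (x₀ : ℂ) (r α β ρ θ : ℝ) : (sepN x₀ r α β (pc x₀ ρ ((α + β) / 2 + θ))).re =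
    Real.cos ((β - α) / 2) * (ρ ^ 2 + r ^ 2) - 2 * r * ρ * Real.cos θ := by
  rw [(sepN_eq x₀ r α β _).2, sep_norm_pc, sq_abs]
  have h3 : (pc x₀ ρ ((α + β) / 2 + θ) - x₀) * Complex.exp (-(((α + β) / 2 : ℝ) * Complex.I)) =
      ρ * Complex.exp ((θ : ℝ) * Complex.I) := by
    have : pc x₀ ρ ((α + β) / 2 + θ) - x₀ =
        ρ * Complex.exp (((α + β) / 2 + θ : ℝ) * Complex.I) := by rw [pc, er]; ring
    rw [this, mul_assoc, ← Complex.exp_add]
    congr 2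
    push_cast
    ring
  rw [h3, Complex.re_ofReal_mul, Complex.exp_ofReal_mul_I_re]
  ring

/-- distances on a circle -/
theorem sc_dist_pc (x₀ : ℂ) (ρ θ θ' : ℝ) :
    dist (pc x₀ ρ θ) (pc x₀ ρ θ') = 2 * |ρ| * |Real.sin ((θ - θ') / 2)| := by
  have h1 : pc x₀ ρ θ - pc x₀ ρ θ' =
      ρ * (er θ' * (Complex.exp (Complex.I * (θ - θ' : ℝ)) - 1)) := by
    have : er θ = er θ' * Complex.exp (Complex.I * (θ - θ' : ℝ)) := by
      unfold er
      rw [← Complex.exp_add]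
      congr 1
      push_cast
      ring
    rw [pc, pc, this]
    ring
  rw [dist_eq_norm, h1, norm_mul, norm_mul, sc_er_norm, Complex.norm_exp_I_mul_ofReal_sub_one,
    Complex.norm_real, Real.norm_eq_abs, Real.norm_eq_abs, abs_mul,
    abs_of_pos (by norm_num : (0 : ℝ) < 2)]
  ring

/-- polar coordinates with a rotated angle -/
theorem sc_exists_pc {x x₀ : ℂ} (hx : x ≠ x₀) (m : ℝ) :
    ∃ θ ∈ Ioc (-Real.pi) Real.pi, x = pc x₀ ‖x - x₀‖ (m + θ) := by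
  have h0 : x - x₀ ≠ 0 := sub_ne_zero.2 hx
  set z : ℂ := (x - x₀) * er (-m) with hz
  refine ⟨z.arg, ⟨Complex.neg_pi_lt_arg z, Complex.arg_le_pi z⟩, ?_⟩
  have h1 : ‖z‖ = ‖x - x₀‖ := by rw [hz, norm_mul, sc_er_norm, mul_one]
  have h2 : (‖z‖ : ℂ) * er z.arg = z := Complex.norm_mul_exp_arg_mul_I z
  have h3 : er (m + z.arg) = er m * er z.arg := by
    unfold er
    rw [← Complex.exp_add]
    congr 1
    push_cast
    ring
  have h4 : er (-m) * er m = 1 := by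
    unfold er
    rw [← Complex.exp_add]
    simp
  rw [pc, h3, ← h1]
  calc x = x₀ + (x - x₀) * (er (-m) * er m) := by rw [h4]; ring
    _ = x₀ + (‖z‖ : ℂ) * er z.arg * er m := by rw [h2, hz]; ring
    _ = _ := by ring

end Pool.Agent.MP099f24
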