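import Mathlib
import Pool.Agent.Lib.MP_099f24_an.SC.EndsB

/-!
# Flux through an arc: geometry (MP_099f24_an)
-/

namespace Pool.Agent.MP099f24

open MeasureTheory Filter Topology Set Metric
open scoped ENNReal ContDiff

/-- the product of the two disc cutoffs: `0` near `a` and `b` -/
noncomputable def scP (a b : ℂ) (η : ℝ) (x : ℂ) : ℝ := (1 - scA a η x) * (1 - scA b η x)

/-- cutoff near the arc -/
noncomputable def scZf (x₀ : ℂ) (r α β τ δ : ℝ) (x : ℂ) : ℝ :=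
  scW x₀ r α β τ x * scZ x₀ r (r * δ) x

theorem scP_smooth (a b : ℂ) (η : ℝ) : ContDiff ℝ ∞ (scP a b η) :=
  (contDiff_const.sub (scA_smooth a η)).mul (contDiff_const.sub (scA_smooth b η))

theorem scZf_smooth (x₀ : ℂ) (r α β τ δ : ℝ) : ContDiff ℝ ∞ (scZf x₀ r α β τ δ) :=
  (scW_smooth x₀ r α β τ).mul (scZ_smooth x₀ r (r * δ))

theorem scA_mem (c : ℂ) (η : ℝ) (x : ℂ) : 0 ≤ scA c η x ∧ scA c η x ≤ 1 :=
  ⟨scf_nonneg _, scf_le_one _⟩

theorem scP_mem (a b : ℂ) (η : ℝ) (x : ℂ) : 0 ≤ scP a b η x ∧ scP a b η x ≤ 1 := by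
  obtain ⟨h1, h2⟩ := scA_mem a η x
  obtain ⟨h3, h4⟩ := scA_mem b η x
  unfold scP
  constructor
  · exact mul_nonneg (by linarith) (by linarith)
  · nlinarith

theorem scP_fderiv (a b : ℂ) (η : ℝ) (x w : ℂ) : fderiv ℝ (scP a b η) x w =
    -(1 - scA b η x) * fderiv ℝ (scA a η) x w - (1 - scA a η x) * fderiv ℝ (scA b η) x w := by
  have ha : DifferentiableAt ℝ (scA a η) x := (scA_smooth a η).differentiable (by simp) x
  have hb : DifferentiableAt ℝ (scA b η) x := (scA_smooth b η).differentiable (by simp) x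
  have h1 := (ha.hasFDerivAt.const_sub 1).mul (hb.hasFDerivAt.const_sub 1)
  have h2 : fderiv ℝ (scP a b η) x = (1 - scA a η x) • -fderiv ℝ (scA b η) x +
      (1 - scA b η x) • -fderiv ℝ (scA a η) x := h1.fderiv
  rw [h2]
  simp only [add_apply, smul_apply, neg_apply, smul_eq_mul]
  ring

theorem scP_fderiv_bound {C : ℝ} (hC : ∀ s, |deriv scf s| ≤ C) (a b : ℂ) {η : ℝ} (hη : 0 < η)
    (x w : ℂ) : |fderiv ℝ (scP a b η) x w| ≤ 4 * C / η * ‖w‖ := by
  obtain ⟨h1, h2⟩ := scA_mem a η x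
  obtain ⟨h3, h4⟩ := scA_mem b η x
  have b1 := scA_bound hC (c := a) hη x w
  have b2 := scA_bound hC (c := b) hη x w
  rw [scP_fderiv]
  have e1 : |-(1 - scA b η x) * fderiv ℝ (scA a η) x w| ≤ 2 * C / η * ‖w‖ := by
    rw [abs_mul, abs_neg, abs_of_nonneg (by linarith : 0 ≤ 1 - scA b η x)]
    calc (1 - scA b η x) * |fderiv ℝ (scA a η) x w| ≤ 1 * |fderiv ℝ (scA a η) x w| :=
          mul_le_mul_of_nonneg_right (by linarith) (abs_nonneg _)
      _ ≤ _ := by rw [one_mul]; exact b1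
  have e2 : |(1 - scA a η x) * fderiv ℝ (scA b η) x w| ≤ 2 * C / η * ‖w‖ := by
    rw [abs_mul, abs_of_nonneg (by linarith : 0 ≤ 1 - scA a η x)]
    calc (1 - scA a η x) * |fderiv ℝ (scA b η) x w| ≤ 1 * |fderiv ℝ (scA b η) x w| :=
          mul_le_mul_of_nonneg_right (by linarith) (abs_nonneg _)
      _ ≤ _ := by rw [one_mul]; exact b2
  calc _ ≤ |-(1 - scA b η x) * fderiv ℝ (scA a η) x w| +
        |(1 - scA a η x) * fderiv ℝ (scA b η) x w| := abs_sub _ _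
    _ ≤ 2 * C / η * ‖w‖ + 2 * C / η * ‖w‖ := add_le_add e1 e2
    _ = _ := by ring

theorem scP_fderiv_zero {a b : ℂ} {η : ℝ} (hη : 0 < η) {x : ℂ} (ha : η ≤ dist x a)
    (hb : η ≤ dist x b) (w : ℂ) : fderiv ℝ (scP a b η) x w = 0 := by
  rw [scP_fderiv, scA_fderiv_zero hη (Or.inr ha), scA_fderiv_zero hη (Or.inr hb)]
  ring

theorem scP_zero {a b : ℂ} {η : ℝ} (hη : 0 < η) {x : ℂ} (h : dist x a ≤ η / 2 ∨ dist x b ≤ η / 2) :
    scP a b η x = 0 := by
  unfold scP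
  rcases h with h | h
  · rw [scA_one hη h]; ring
  · rw [scA_one hη h]; ring

theorem scP_one {a b : ℂ} {η : ℝ} (hη : 0 < η) {x : ℂ} (ha : η ≤ dist x a) (hb : η ≤ dist x b) :
    scP a b η x = 1 := by
  unfold scP
  rw [scA_zero hη ha, scA_zero hη hb]
  ring

theorem scZf_fderiv (x₀ : ℂ) (r α β τ δ : ℝ) (x w : ℂ) : fderiv ℝ (scZf x₀ r α β τ δ) x w =
    scW x₀ r α β τ x * fderiv ℝ (scZ x₀ r (r * δ)) x w +
      scZ x₀ r (r * δ) x * fderiv ℝ (scW x₀ r α β τ) x w := by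
  have ha : DifferentiableAt ℝ (scW x₀ r α β τ) x := (scW_smooth x₀ r α β τ).differentiable (by simp) x
  have hb : DifferentiableAt ℝ (scZ x₀ r (r * δ)) x :=
    (scZ_smooth x₀ r (r * δ)).differentiable (by simp) x
  have h1 := ha.hasFDerivAt.mul hb.hasFDerivAt
  have h2 : fderiv ℝ (scZf x₀ r α β τ δ) x = scW x₀ r α β τ x • fderiv ℝ (scZ x₀ r (r * δ)) x +
      scZ x₀ r (r * δ) x • fderiv ℝ (scW x₀ r α β τ) x := h1.fderiv
  rw [h2]
  simp only [add_apply, smul_apply, smul_eq_mul]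

/-- the parameters of the construction -/
structure EndsPar (x₀ : ℂ) (r α β h m s η τ δ : ℝ) : Prop where
  hr : 0 < r
  hh : h = (β - α) / 2
  hm : m = (α + β) / 2
  h0 : 0 < h
  hpi : h < Real.pi
  hs0 : 0 < s
  hsh : s < h
  hη : 0 < η
  hsη : r * s < η / 4
  hτ : τ = r ^ 2 * (Real.cos (h - s) - Real.cos h) / 2
  hδ0 : 0 < δ
  hδη : δ < η / 4
  hδr : δ < r / 2
  hδτ : δ ^ 2 < τ / 2
  hησ : 2 * η ≤ r * min (Real.sin (h / 2)) (Real.sin h)

section

variable {x₀ : ℂ} {r α β h m s η τ δ : ℝ}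

theorem EndsPar.tau_pos (H : EndsPar x₀ r α β h m s η τ δ) : 0 < τ := by
  have := H.hδτ
  nlinarith [sq_nonneg δ, H.hδ0]

theorem EndsPar.alpha (H : EndsPar x₀ r α β h m s η τ δ) : α = m - h := by
  rw [H.hm, H.hh]; ring

theorem EndsPar.beta (H : EndsPar x₀ r α β h m s η τ δ) : β = m + h := by
  rw [H.hm, H.hh]; ring

/-- inside the sector -/
theorem EndsPar.inside (H : EndsPar x₀ r α β h m s η τ δ) {ρ θ : ℝ} (hρ : |ρ - r| < δ)
    (hθ : |θ| ≤ h - s) : (sepN x₀ r α β (pc x₀ ρ (m + θ))).re ≤ -τ := by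
  rw [H.hm, sepN_re_pc, ← H.hh]
  have hc : Real.cos (h - s) ≤ Real.cos θ := by
    rw [← Real.cos_abs θ]
    exact Real.cos_le_cos_of_nonneg_of_le_pi (abs_nonneg _) (by linarith [H.hs0, H.hpi]) hθ
  have hD : 0 < Real.cos (h - s) - Real.cos h := by
    have := Real.cos_lt_cos_of_nonneg_of_le_pi (by linarith [H.hsh] : 0 ≤ h - s) H.hpi.le
      (by linarith [H.hs0])
    linarith
  have hρ' := abs_lt.1 hρ
  have hr := H.hr
  have hρr : r / 2 < ρ := by linarith [H.hδr]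
  have h1 : (ρ - r) ^ 2 < τ / 2 := by
    have := sq_abs (ρ - r)
    have h2 : |ρ - r| ^ 2 < δ ^ 2 := by
      have := abs_nonneg (ρ - r)
      nlinarith
    linarith [H.hδτ]
  have h2 : Real.cos h * (ρ - r) ^ 2 ≤ (ρ - r) ^ 2 := by
    nlinarith [Real.cos_le_one h, sq_nonneg (ρ - r)]
  have h3 : r ^ 2 * (Real.cos (h - s) - Real.cos h) ≤ 2 * r * ρ * (Real.cos (h - s) - Real.cos h) := by
    refine mul_le_mul_of_nonneg_right ?_ hD.le
    nlinarith
  have h4 : 2 * r * ρ * Real.cos (h - s) ≤ 2 * r * ρ * Real.cos θ := by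
    refine mul_le_mul_of_nonneg_left hc ?_
    nlinarith
  have h5 := H.hτ
  nlinarith

/-- outside the sector -/
theorem EndsPar.outside (H : EndsPar x₀ r α β h m s η τ δ) {ρ θ : ℝ} (hρ : |ρ - r| < δ)
    (hθ : h ≤ |θ|) (hθ' : |θ| ≤ Real.pi) : -(τ / 2) ≤ (sepN x₀ r α β (pc x₀ ρ (m + θ))).re := by
  rw [H.hm, sepN_re_pc, ← H.hh]
  have hc : Real.cos θ ≤ Real.cos h := by
    rw [← Real.cos_abs θ]
    exact Real.cos_le_cos_of_nonneg_of_le_pi H.h0.le hθ' hθ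
  have hρ' := abs_lt.1 hρ
  have hr := H.hr
  have hρr : r / 2 < ρ := by linarith [H.hδr]
  have h1 : (ρ - r) ^ 2 < τ / 2 := by
    have := sq_abs (ρ - r)
    have h2 : |ρ - r| ^ 2 < δ ^ 2 := by
      have := abs_nonneg (ρ - r)
      nlinarith
    linarith [H.hδτ]
  have h2 : -(ρ - r) ^ 2 ≤ Real.cos h * (ρ - r) ^ 2 := by
    nlinarith [Real.neg_one_le_cos h, sq_nonneg (ρ - r)]
  have h4 : 2 * r * ρ * Real.cos θ ≤ 2 * r * ρ * Real.cos h := by
    refine mul_le_mul_of_nonneg_left hc ?_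
    nlinarith
  nlinarith

theorem sc_sin_le (x : ℝ) : 2 * |Real.sin (x / 2)| ≤ |x| := by
  have := Real.abs_sin_le_abs (x := x / 2)
  rw [abs_div, abs_of_pos (by norm_num : (0 : ℝ) < 2)] at this
  linarith

/-- near the ends -/
theorem EndsPar.ends (H : EndsPar x₀ r α β h m s η τ δ) {ρ θ : ℝ} (hρ : |ρ - r| < δ)
    (hθ : h - s ≤ |θ|) (hθ' : |θ| ≤ h) :
    dist (pc x₀ ρ (m + θ)) (pc x₀ r α) ≤ η / 2 ∨ dist (pc x₀ ρ (m + θ)) (pc x₀ r β) ≤ η / 2 := by
  have hr := H.hr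
  rcases le_total 0 θ with h0 | h0
  · right
    rw [abs_of_nonneg h0] at hθ hθ'
    have h1 : dist (pc x₀ r (m + θ)) (pc x₀ r β) ≤ r * s := by
      rw [sc_dist_pc, abs_of_pos hr, H.beta]
      have := sc_sin_le (m + θ - (m + h))
      have h2 : |m + θ - (m + h)| ≤ s := by rw [abs_le]; constructor <;> linarith
      nlinarith [abs_nonneg (Real.sin ((m + θ - (m + h)) / 2))]
    calc dist (pc x₀ ρ (m + θ)) (pc x₀ r β) ≤ dist (pc x₀ ρ (m + θ)) (pc x₀ r (m + θ)) +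
          dist (pc x₀ r (m + θ)) (pc x₀ r β) := dist_triangle _ _ _
      _ ≤ δ + r * s := by rw [sep_pc_sub]; exact add_le_add hρ.le h1
      _ ≤ η / 2 := by linarith [H.hδη, H.hsη]
  · left
    rw [abs_of_nonpos h0] at hθ hθ'
    have h1 : dist (pc x₀ r (m + θ)) (pc x₀ r α) ≤ r * s := by
      rw [sc_dist_pc, abs_of_pos hr, H.alpha]
      have := sc_sin_le (m + θ - (m - h))
      have h2 : |m + θ - (m - h)| ≤ s := by rw [abs_le]; constructor <;> linarith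
      nlinarith [abs_nonneg (Real.sin ((m + θ - (m - h)) / 2))]
    calc dist (pc x₀ ρ (m + θ)) (pc x₀ r α) ≤ dist (pc x₀ ρ (m + θ)) (pc x₀ r (m + θ)) +
          dist (pc x₀ r (m + θ)) (pc x₀ r α) := dist_triangle _ _ _
      _ ≤ δ + r * s := by rw [sep_pc_sub]; exact add_le_add hρ.le h1
      _ ≤ η / 2 := by linarith [H.hδη, H.hsη]

theorem sc_sin_min {h x : ℝ} (h0 : 0 < h) (hpi : h < Real.pi) (hx : h / 2 ≤ x) (hx' : x ≤ h) :
    min (Real.sin (h / 2)) (Real.sin h) ≤ Real.sin x := by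
  rcases le_total x (Real.pi / 2) with h1 | h1
  · refine (min_le_left _ _).trans ?_
    exact Real.sin_le_sin_of_le_of_le_pi_div_two (by linarith) h1 hx
  · refine (min_le_right _ _).trans ?_
    rw [← Real.sin_pi_sub h, ← Real.sin_pi_sub x]
    exact Real.sin_le_sin_of_le_of_le_pi_div_two (by linarith) (by linarith) (by linarith)

/-- in the first half the end point `b` is far -/
theorem EndsPar.far_b (H : EndsPar x₀ r α β h m s η τ δ) {ρ θ : ℝ} (hρ : |ρ - r| < δ)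
    (hθ : -h ≤ θ) (hθ' : θ ≤ 0) : η < dist (pc x₀ ρ (m + θ)) (pc x₀ r β) := by
  have hr := H.hr
  have hρ' := abs_lt.1 hρ
  have hρr : r / 2 < ρ := by linarith [H.hδr]
  have h1 : dist (pc x₀ ρ (m + θ)) (pc x₀ ρ β) =
      2 * ρ * Real.sin ((h - θ) / 2) := by
    rw [dist_comm, sc_dist_pc, abs_of_pos (by linarith), H.beta]
    have : (m + h - (m + θ)) / 2 = (h - θ) / 2 := by ring
    rw [this, abs_of_nonneg]
    exact Real.sin_nonneg_of_nonneg_of_le_pi (by linarith [H.h0]) (by linarith [H.hpi])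
  have h2 := sc_sin_min H.h0 H.hpi (x := (h - θ) / 2) (by linarith) (by linarith)
  set σ := min (Real.sin (h / 2)) (Real.sin h) with hσ
  have hσ0 : 0 < σ := by
    have := H.hησ
    have h3 := H.hη
    by_contra hcon
    push Not at hcon
    nlinarith
  have h3 : dist (pc x₀ ρ β) (pc x₀ r β) < η / 4 := by
    rw [sep_pc_sub]
    exact hρ.trans H.hδη
  have h4 := dist_triangle (pc x₀ ρ (m + θ)) (pc x₀ r β) (pc x₀ ρ β)
  rw [dist_comm (pc x₀ r β)] at h4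
  have h5 : r * σ ≤ 2 * ρ * Real.sin ((h - θ) / 2) := by
    calc r * σ ≤ (2 * ρ) * σ := mul_le_mul_of_nonneg_right (by linarith) hσ0.le
      _ ≤ _ := mul_le_mul_of_nonneg_left h2 (by linarith)
  linarith [H.hησ, H.hη]

/-- in the second half the end point `a` is far -/
theorem EndsPar.far_a (H : EndsPar x₀ r α β h m s η τ δ) {ρ θ : ℝ} (hρ : |ρ - r| < δ)
    (hθ : 0 ≤ θ) (hθ' : θ ≤ h) : η < dist (pc x₀ ρ (m + θ)) (pc x₀ r α) := by
  have hr := H.hr
  have hρ' := abs_lt.1 hρ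
  have hρr : r / 2 < ρ := by linarith [H.hδr]
  have h1 : dist (pc x₀ ρ (m + θ)) (pc x₀ ρ α) =
      2 * ρ * Real.sin ((h + θ) / 2) := by
    rw [sc_dist_pc, abs_of_pos (by linarith), H.alpha]
    have : (m + θ - (m - h)) / 2 = (h + θ) / 2 := by ring
    rw [this, abs_of_nonneg]
    exact Real.sin_nonneg_of_nonneg_of_le_pi (by linarith [H.h0]) (by linarith [H.hpi])
  have h2 := sc_sin_min H.h0 H.hpi (x := (h + θ) / 2) (by linarith) (by linarith)
  set σ := min (Real.sin (h / 2)) (Real.sin h) with hσ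
  have hσ0 : 0 < σ := by
    have := H.hησ
    have h3 := H.hη
    by_contra hcon
    push Not at hcon
    nlinarith
  have h3 : dist (pc x₀ ρ α) (pc x₀ r α) < η / 4 := by
    rw [sep_pc_sub]
    exact hρ.trans H.hδη
  have h4 := dist_triangle (pc x₀ ρ (m + θ)) (pc x₀ r α) (pc x₀ ρ α)
  rw [dist_comm (pc x₀ r α)] at h4
  have h5 : r * σ ≤ 2 * ρ * Real.sin ((h + θ) / 2) := by
    calc r * σ ≤ (2 * ρ) * σ := mul_le_mul_of_nonneg_right (by linarith) hσ0.le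
      _ ≤ _ := mul_le_mul_of_nonneg_left h2 (by linarith)
  linarith [H.hησ, H.hη]

/-- angular size of the disc around `a` -/
theorem EndsPar.ang_a (H : EndsPar x₀ r α β h m s η τ δ) {ρ θ : ℝ} (hρ : |ρ - r| < δ)
    (hθ : -h ≤ θ) (hθ' : θ ≤ 0) (hd : dist (pc x₀ ρ (m + θ)) (pc x₀ r α) ≤ η) :
    θ ≤ -h + 2 * Real.pi * η / r := by
  have hr := H.hr
  have hρ' := abs_lt.1 hρ
  have hρr : r / 2 < ρ := by linarith [H.hδr]
  have h1 : dist (pc x₀ ρ (m + θ)) (pc x₀ ρ α) = 2 * ρ * Real.sin ((h + θ) / 2) := by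
    rw [sc_dist_pc, abs_of_pos (by linarith), H.alpha]
    have : (m + θ - (m - h)) / 2 = (h + θ) / 2 := by ring
    rw [this, abs_of_nonneg]
    exact Real.sin_nonneg_of_nonneg_of_le_pi (by linarith [H.h0]) (by linarith [H.hpi])
  have h2 := Real.mul_le_sin (x := (h + θ) / 2) (by linarith) (by linarith [H.hpi])
  have h3 : dist (pc x₀ r α) (pc x₀ ρ α) < η / 4 := by
    rw [dist_comm, sep_pc_sub]
    exact hρ.trans H.hδη
  have h4 := dist_triangle (pc x₀ ρ (m + θ)) (pc x₀ r α) (pc x₀ ρ α)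
  have hpi := Real.pi_pos
  have h5 : 2 / Real.pi * ((h + θ) / 2) = (h + θ) / Real.pi := by ring
  rw [h5] at h2
  have h6 : r * ((h + θ) / Real.pi) ≤ 2 * η := by
    have h7 : 0 ≤ (h + θ) / Real.pi := div_nonneg (by linarith) hpi.le
    have h8 : r * ((h + θ) / Real.pi) ≤ 2 * ρ * ((h + θ) / Real.pi) :=
      mul_le_mul_of_nonneg_right (by linarith) h7
    have h9 : 2 * ρ * ((h + θ) / Real.pi) ≤ 2 * ρ * Real.sin ((h + θ) / 2) :=
      mul_le_mul_of_nonneg_left h2 (by linarith)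
    linarith [H.hη]
  have h7 : h + θ ≤ 2 * Real.pi * η / r := by
    rw [le_div_iff₀ hr]
    have h8 : r * ((h + θ) / Real.pi) * Real.pi ≤ 2 * η * Real.pi :=
      mul_le_mul_of_nonneg_right h6 hpi.le
    have h9 : r * ((h + θ) / Real.pi) * Real.pi = (h + θ) * r := by field_simp
    linarith
  linarith

/-- angular size of the disc around `b` -/
theorem EndsPar.ang_b (H : EndsPar x₀ r α β h m s η τ δ) {ρ θ : ℝ} (hρ : |ρ - r| < δ)
    (hθ : 0 ≤ θ) (hθ' : θ ≤ h) (hd : dist (pc x₀ ρ (m + θ)) (pc x₀ r β) ≤ η) :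
    h - 2 * Real.pi * η / r ≤ θ := by
  have hr := H.hr
  have hρ' := abs_lt.1 hρ
  have hρr : r / 2 < ρ := by linarith [H.hδr]
  have h1 : dist (pc x₀ ρ (m + θ)) (pc x₀ ρ β) = 2 * ρ * Real.sin ((h - θ) / 2) := by
    rw [dist_comm, sc_dist_pc, abs_of_pos (by linarith), H.beta]
    have : (m + h - (m + θ)) / 2 = (h - θ) / 2 := by ring
    rw [this, abs_of_nonneg]
    exact Real.sin_nonneg_of_nonneg_of_le_pi (by linarith [H.h0]) (by linarith [H.hpi])
  have h2 := Real.mul_le_sin (x := (h - θ) / 2) (by linarith) (by linarith [H.hpi])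
  have h3 : dist (pc x₀ r β) (pc x₀ ρ β) < η / 4 := by
    rw [dist_comm, sep_pc_sub]
    exact hρ.trans H.hδη
  have h4 := dist_triangle (pc x₀ ρ (m + θ)) (pc x₀ r β) (pc x₀ ρ β)
  have hpi := Real.pi_pos
  have h5 : 2 / Real.pi * ((h - θ) / 2) = (h - θ) / Real.pi := by ring
  rw [h5] at h2
  have h6 : r * ((h - θ) / Real.pi) ≤ 2 * η := by
    have h7 : 0 ≤ (h - θ) / Real.pi := div_nonneg (by linarith) hpi.le
    have h8 : r * ((h - θ) / Real.pi) ≤ 2 * ρ * ((h - θ) / Real.pi) :=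
      mul_le_mul_of_nonneg_right (by linarith) h7
    have h9 : 2 * ρ * ((h - θ) / Real.pi) ≤ 2 * ρ * Real.sin ((h - θ) / 2) :=
      mul_le_mul_of_nonneg_left h2 (by linarith)
    linarith [H.hη]
  have h7 : h - θ ≤ 2 * Real.pi * η / r := by
    rw [le_div_iff₀ hr]
    have h8 : r * ((h - θ) / Real.pi) * Real.pi ≤ 2 * η * Real.pi :=
      mul_le_mul_of_nonneg_right h6 hpi.le
    have h9 : r * ((h - θ) / Real.pi) * Real.pi = (h - θ) * r := by field_simp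
    linarith
  linarith

/-- off the thin annulus the circle cutoff vanishes -/
theorem EndsPar.thin (H : EndsPar x₀ r α β h m s η τ δ) {ρ : ℝ} (hρ0 : 0 ≤ ρ) (hρ : δ ≤ |ρ - r|)
    (θ : ℝ) : scZ x₀ r (r * δ) (pc x₀ ρ θ) = 0 ∧
      ∀ w, fderiv ℝ (scZ x₀ r (r * δ)) (pc x₀ ρ θ) w = 0 := by
  have hr := H.hr
  refine scZ_zero (mul_pos hr H.hδ0) ?_
  rw [sep_norm_pc, sq_abs]
  have : ρ ^ 2 - r ^ 2 = (ρ - r) * (ρ + r) := by ring
  rw [this, abs_mul, abs_of_pos (by linarith : 0 < ρ + r), mul_comm r δ]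
  exact mul_le_mul hρ (by linarith) hr.le (abs_nonneg _)

/-- the key formula: `P ∇(ω Z)` in polar coordinates -/
theorem EndsPar.key (H : EndsPar x₀ r α β h m s η τ δ) {ρ θ : ℝ} (hρ0 : 0 < ρ)
    (hθ : |θ| ≤ Real.pi) (w : ℂ) :
    scP (pc x₀ r α) (pc x₀ r β) η (pc x₀ ρ (m + θ)) *
        fderiv ℝ (scZf x₀ r α β τ δ) (pc x₀ ρ (m + θ)) w =
      if |ρ - r| < δ ∧ |θ| ≤ h - s then
        scP (pc x₀ r α) (pc x₀ r β) η (pc x₀ ρ (m + θ)) *
          (scK r (r * δ) ρ * inner ℝ w (er (m + θ))) else 0 := by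
  have hτ := H.tau_pos
  rw [scZf_fderiv]
  by_cases h1 : |ρ - r| < δ
  · by_cases h2 : |θ| ≤ h - s
    · rw [if_pos ⟨h1, h2⟩]
      obtain ⟨e1, e2⟩ := scW_one hτ (H.inside h1 h2)
      rw [e1, e2, scZ_fderiv_pc]
      ring
    · rw [if_neg (fun h => h2 h.2)]
      push Not at h2
      rcases le_total |θ| h with h3 | h3
      · rw [scP_zero H.hη (H.ends h1 h2.le h3)]
        ring
      · obtain ⟨e1, e2⟩ := scW_zero hτ (H.outside h1 h3 hθ)
        rw [e1, e2]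
        ring
  · rw [if_neg (fun h => h1 h.1)]
    push Not at h1
    obtain ⟨e1, e2⟩ := H.thin hρ0.le h1 (m + θ)
    rw [e1, e2]
    ring

end

end Pool.Agent.MP099f24
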