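import Mathlib
import Pool.Agent.Lib.MP_099f24_an.SC.CJDefs

/-!
# Morrey's estimate for smooth functions in the plane (MP_099f24_an)
-/

namespace Pool.Agent.MP099f24

open MeasureTheory Filter Topology Set Metric
open scoped ENNReal ContDiff

theorem sc_cs {α : Type*} [MeasurableSpace α] {μ : Measure α} {f k : α → ℝ}
    (hf : Integrable (fun x => f x ^ 2) μ)
    (hk : Integrable (fun x => k x ^ 2) μ) (hfk : Integrable (fun x => f x * k x) μ) :
    (∫ x, f x * k x ∂μ) ^ 2 ≤ (∫ x, f x ^ 2 ∂μ) * ∫ x, k x ^ 2 ∂μ := by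
  have h1 : ∀ t : ℝ, 0 ≤ (∫ x, k x ^ 2 ∂μ) * (t * t) + (-2 * ∫ x, f x * k x ∂μ) * t +
      ∫ x, f x ^ 2 ∂μ := by
    intro t
    have h2 : 0 ≤ ∫ x, (f x - t * k x) ^ 2 ∂μ := integral_nonneg fun x => sq_nonneg _
    have h3 : ∫ x, (f x - t * k x) ^ 2 ∂μ =
        ∫ x, (f x ^ 2 - 2 * t * (f x * k x) + t ^ 2 * k x ^ 2) ∂μ := by
      congr 1; funext x; ring
    have i1 : Integrable (fun x => 2 * t * (f x * k x)) μ := hfk.const_mul _
    have i2 : Integrable (fun x => f x ^ 2 - 2 * t * (f x * k x)) μ := hf.sub i1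
    have i3 : Integrable (fun x => t ^ 2 * k x ^ 2) μ := hk.const_mul _
    rw [h3, integral_add i2 i3, integral_sub hf i1, integral_const_mul, integral_const_mul] at h2
    linarith
  have h4 := discrim_le_zero h1
  unfold discrim at h4
  linarith

theorem sc_vol (x : ℂ) {d : ℝ} (hd : 0 ≤ d) : (volume (ball x d)).toReal = Real.pi * d ^ 2 := by
  rw [Complex.volume_ball, ENNReal.toReal_mul, ENNReal.toReal_pow, ENNReal.toReal_ofReal hd,
    ENNReal.coe_toReal, NNReal.coe_real_pi]
  ring

theorem morrey_scale {H : ℂ → ℂ} (hH : Continuous H) {x : ℂ} {d t M : ℝ} (hd : 0 < d)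
    (ht : 0 < t) (hM : 0 ≤ M) (hE : ∫ y in ball x (t * d), ‖H y‖ ^ 2 ≤ M * (t * d)) :
    ∫ z in ball x d, ‖H (x + t • (z - x))‖ ≤
      Real.sqrt (Real.pi * M) * (d * Real.sqrt d) * (Real.sqrt t)⁻¹ := by
  have htd : 0 < t * d := mul_pos ht hd
  have h1 : ∫ z in ball x d, ‖H (x + t • (z - x))‖ = (t ^ 2)⁻¹ * ∫ y in ball x (t * d), ‖H y‖ := by
    have e1 : ∫ z in ball x d, ‖H (x + t • (z - x))‖ = ∫ z in ball 0 d, ‖H (x + t • z)‖ := by
      rw [← integral_indicator measurableSet_ball, ← integral_indicator measurableSet_ball,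
        ← integral_add_left_eq_self _ x]
      congr 1
      funext z
      by_cases hz : z ∈ ball (0 : ℂ) d
      · have hz' : x + z ∈ ball x d := by
          rw [mem_ball, dist_eq_norm, add_sub_cancel_left]
          rwa [mem_ball_zero_iff] at hz
        rw [indicator_of_mem hz, indicator_of_mem hz', add_sub_cancel_left]
      · have hz' : x + z ∉ ball x d := by
          rw [mem_ball, dist_eq_norm, add_sub_cancel_left]
          rwa [mem_ball_zero_iff] at hz
        rw [indicator_of_notMem hz, indicator_of_notMem hz']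
    have e2 := Measure.setIntegral_comp_smul_of_pos (volume : Measure ℂ) (fun z => ‖H (x + z)‖)
      (ball 0 d) ht
    rw [Complex.finrank_real_complex, smul_eq_mul, _root_.smul_ball ht.ne', smul_zero, Real.norm_eq_abs,
      abs_of_pos ht] at e2
    rw [e1, e2]
    congr 1
    rw [← integral_indicator measurableSet_ball, ← integral_indicator measurableSet_ball,
      ← integral_add_left_eq_self (fun z => (ball x (t * d)).indicator (fun y => ‖H y‖) z) x]
    congr 1
    funext z
    by_cases hz : z ∈ ball (0 : ℂ) (t * d)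
    · have hz' : x + z ∈ ball x (t * d) := by
        rw [mem_ball, dist_eq_norm, add_sub_cancel_left]
        rwa [mem_ball_zero_iff] at hz
      rw [indicator_of_mem hz, indicator_of_mem hz']
    · have hz' : x + z ∉ ball x (t * d) := by
        rw [mem_ball, dist_eq_norm, add_sub_cancel_left]
        rwa [mem_ball_zero_iff] at hz
      rw [indicator_of_notMem hz, indicator_of_notMem hz']
  have hint : ∀ k : ℂ → ℝ, Continuous k → IntegrableOn k (ball x (t * d)) := fun k hk =>
    (hk.continuousOn.integrableOn_compact (isCompact_closedBall x (t * d))).mono_set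
      ball_subset_closedBall
  have h2 : (∫ y in ball x (t * d), ‖H y‖) ^ 2 ≤ (M * (t * d)) * (Real.pi * (t * d) ^ 2) := by
    have h3 := sc_cs (μ := volume.restrict (ball x (t * d))) (f := fun y => ‖H y‖)
      (k := fun _ => 1) (hint _ (hH.norm.pow 2)) (hint _ continuous_const)
      (by simp only [mul_one]; exact hint _ hH.norm)
    simp only [mul_one, one_pow] at h3
    rw [integral_const] at h3
    have h4 : (volume.restrict (ball x (t * d))).real univ = Real.pi * (t * d) ^ 2 := by
      rw [measureReal_def, Measure.restrict_apply_univ, sc_vol x htd.le]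
    rw [h4, smul_eq_mul, mul_one] at h3
    exact h3.trans (mul_le_mul_of_nonneg_right hE (by positivity))
  have h5 : ∫ y in ball x (t * d), ‖H y‖ ≤
      Real.sqrt (Real.pi * M) * ((t * d) * Real.sqrt (t * d)) := by
    refine abs_le_of_sq_le_sq' ?_ (by positivity) |>.2
    rw [mul_pow, mul_pow, Real.sq_sqrt (by positivity), Real.sq_sqrt htd.le]
    refine h2.trans (le_of_eq ?_)
    ring
  rw [h1]
  calc (t ^ 2)⁻¹ * ∫ y in ball x (t * d), ‖H y‖
      ≤ (t ^ 2)⁻¹ * (Real.sqrt (Real.pi * M) * ((t * d) * Real.sqrt (t * d))) :=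
        mul_le_mul_of_nonneg_left h5 (by positivity)
    _ = _ := by
        rw [Real.sqrt_mul ht.le]
        have h6 : Real.sqrt t ≠ 0 := (Real.sqrt_pos.2 ht).ne'
        have h7 : t = Real.sqrt t ^ 2 := (Real.sq_sqrt ht.le).symm
        field_simp
        rw [Real.sq_sqrt ht.le]
        ring

theorem morrey_avg {w : ℂ → ℝ} {H : ℂ → ℂ} (hH : Continuous H) {x : ℂ} {d M : ℝ} (hd : 0 < d)
    (hM : 0 ≤ M) (hw : ∀ z ∈ ball x d, HasFDerivAt w (ilin (H z)) z)
    (hE : ∀ s, 0 < s → s ≤ d → ∫ y in ball x s, ‖H y‖ ^ 2 ≤ M * s) :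
    IntegrableOn (fun z => |w x - w z|) (ball x d) ∧
    ∫ z in ball x d, |w x - w z| ≤ 2 * Real.sqrt (Real.pi * M) * (d ^ 2 * Real.sqrt d) := by
  set f : ℂ → ℝ → ℝ := fun z t => ‖H (x + t • (z - x))‖ with hf
  have hfc : Continuous (Function.uncurry f) := by
    have : Continuous fun p : ℂ × ℝ => ‖H (x + p.2 • (p.1 - x))‖ := by fun_prop
    exact this
  -- the pointwise bound
  have hpt : ∀ z ∈ ball x d, |w x - w z| ≤ d * ∫ t in (0 : ℝ)..1, f z t := by
    intro z hz
    have hseg : ∀ t ∈ uIcc (0 : ℝ) 1, x + t • (z - x) ∈ ball x d := by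
      intro t ht
      rw [uIcc_of_le zero_le_one] at ht
      rw [mem_ball, dist_eq_norm, add_sub_cancel_left, norm_smul, Real.norm_eq_abs,
        abs_of_nonneg ht.1]
      rw [mem_ball, dist_eq_norm] at hz
      calc t * ‖z - x‖ ≤ 1 * ‖z - x‖ := mul_le_mul_of_nonneg_right ht.2 (norm_nonneg _)
        _ < d := by rwa [one_mul]
    have hder : ∀ t ∈ uIcc (0 : ℝ) 1, HasDerivAt (fun t : ℝ => w (x + t • (z - x)))
        (inner ℝ (H (x + t • (z - x))) (z - x)) t := by
      intro t ht
      have h1 := hw _ (hseg t ht)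
      have h2 : HasDerivAt (fun t : ℝ => x + t • (z - x)) (z - x) t := by
        have := ((hasDerivAt_id t).smul_const (z - x)).const_add x
        simpa using this
      exact h1.comp_hasDerivAt t h2
    have hci : Continuous fun t : ℝ => inner ℝ (H (x + t • (z - x))) (z - x) := by fun_prop
    have hftc := intervalIntegral.integral_eq_sub_of_hasDerivAt hder (hci.intervalIntegrable _ _)
    simp only [one_smul, add_sub_cancel, zero_smul, add_zero] at hftc
    have h3 : |w x - w z| = ‖∫ t in (0 : ℝ)..1, inner ℝ (H (x + t • (z - x))) (z - x)‖ := by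
      rw [hftc, Real.norm_eq_abs, abs_sub_comm]
    rw [h3, ← intervalIntegral.integral_const_mul]
    refine (intervalIntegral.norm_integral_le_integral_norm zero_le_one).trans ?_
    refine intervalIntegral.integral_mono_on zero_le_one (hci.norm.intervalIntegrable _ _)
      ((Continuous.intervalIntegrable (by fun_prop) _ _)) ?_
    intro t _
    refine (norm_inner_le_norm _ _).trans ?_
    rw [mul_comm]
    refine mul_le_mul_of_nonneg_right ?_ (norm_nonneg _)
    rw [mem_ball, dist_eq_norm] at hz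
    exact hz.le
  -- integrability
  have hI : Integrable (Function.uncurry f)
      ((volume.restrict (ball x d)).prod (volume.restrict (uIoc (0 : ℝ) 1))) := by
    rw [Measure.prod_restrict]
    have h1 : IntegrableOn (Function.uncurry f) (closedBall x d ×ˢ Icc (0 : ℝ) 1)
        ((volume : Measure ℂ).prod (volume : Measure ℝ)) :=
      hfc.continuousOn.integrableOn_compact ((isCompact_closedBall x d).prod isCompact_Icc)
    refine h1.mono_set (prod_mono ball_subset_closedBall ?_)
    rw [uIoc_of_le zero_le_one]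
    exact Ioc_subset_Icc_self
  have hI1 : Integrable (fun z => ∫ t in (0 : ℝ)..1, f z t) (volume.restrict (ball x d)) := by
    have := hI.integral_prod_left
    simpa only [Function.uncurry, intervalIntegral.integral_of_le zero_le_one,
      uIoc_of_le (zero_le_one : (0 : ℝ) ≤ 1)] using this
  have hwc : ContinuousOn (fun z => |w x - w z|) (ball x d) := by
    refine ContinuousOn.abs (continuousOn_const.sub ?_)
    exact fun z hz => (hw z hz).continuousAt.continuousWithinAt
  have hint : IntegrableOn (fun z => |w x - w z|) (ball x d) := by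
    refine Integrable.mono' (hI1.const_mul d) (hwc.aestronglyMeasurable measurableSet_ball) ?_
    filter_upwards [ae_restrict_mem measurableSet_ball] with z hz
    rw [Real.norm_eq_abs, abs_abs]
    exact hpt z hz
  refine ⟨hint, ?_⟩
  have h1 : ∫ z in ball x d, |w x - w z| ≤ d * ∫ z in ball x d, ∫ t in (0 : ℝ)..1, f z t := by
    rw [← integral_const_mul]
    exact setIntegral_mono_on hint (hI1.const_mul d) measurableSet_ball hpt
  have h2 : ∫ z in ball x d, ∫ t in (0 : ℝ)..1, f z t =
      ∫ t in (0 : ℝ)..1, ∫ z in ball x d, f z t := by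
    simp only [intervalIntegral.integral_of_le (zero_le_one : (0 : ℝ) ≤ 1)]
    rw [uIoc_of_le (zero_le_one : (0 : ℝ) ≤ 1)] at hI
    exact integral_integral_swap hI
  have h3 : ∫ t in (0 : ℝ)..1, ∫ z in ball x d, f z t ≤
      ∫ t in (0 : ℝ)..1, Real.sqrt (Real.pi * M) * (d * Real.sqrt d) * t ^ (-(1 / 2) : ℝ) := by
    have hL : IntervalIntegrable (fun t => ∫ z in ball x d, f z t) volume 0 1 := by
      rw [intervalIntegrable_iff]
      exact hI.integral_prod_right
    have hR : IntervalIntegrable (fun t : ℝ => Real.sqrt (Real.pi * M) * (d * Real.sqrt d) *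
        t ^ (-(1 / 2) : ℝ)) volume 0 1 :=
      (intervalIntegral.intervalIntegrable_rpow' (by norm_num)).const_mul _
    refine intervalIntegral.integral_mono_ae_restrict zero_le_one hL hR ?_
    have : ∀ᵐ t ∂(volume.restrict (Icc (0 : ℝ) 1)), t ∈ Ioc (0 : ℝ) 1 := by
      rw [← restrict_Ioc_eq_restrict_Icc]
      exact ae_restrict_mem measurableSet_Ioc
    filter_upwards [this] with t ht
    have h4 := morrey_scale hH (x := x) hd ht.1 hM (hE (t * d) (mul_pos ht.1 hd)
      (by nlinarith [ht.2]))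
    rw [Real.sqrt_eq_rpow t, ← Real.rpow_neg ht.1.le] at h4
    exact h4
  have h5 : ∫ t in (0 : ℝ)..1, Real.sqrt (Real.pi * M) * (d * Real.sqrt d) * t ^ (-(1 / 2) : ℝ) =
      Real.sqrt (Real.pi * M) * (d * Real.sqrt d) * 2 := by
    rw [intervalIntegral.integral_const_mul, integral_rpow (Or.inl (by norm_num))]
    norm_num
  calc ∫ z in ball x d, |w x - w z| ≤ d * (Real.sqrt (Real.pi * M) * (d * Real.sqrt d) * 2) := by
        refine h1.trans (mul_le_mul_of_nonneg_left ?_ hd.le)
        rw [h2, ← h5]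
        exact h3
    _ = _ := by ring

/-- Morrey's estimate. -/
theorem morrey {w : ℂ → ℝ} {H : ℂ → ℂ} (hH : Continuous H) {x x' : ℂ} {M : ℝ}
    (hM : 0 ≤ M) (hw : ∀ z ∈ ball x (2 * dist x x'), HasFDerivAt w (ilin (H z)) z)
    (hE : ∀ z s, 0 < s → ball z s ⊆ ball x (2 * dist x x') → ∫ y in ball z s, ‖H y‖ ^ 2 ≤ M * s) :
    |w x - w x'| ≤ 8 * Real.sqrt (M * dist x x') := by
  rcases eq_or_ne x x' with rfl | hne
  · simp
  set d := dist x x' with hd
  have hd0 : 0 < d := dist_pos.2 hne
  have hsub : ball x' d ⊆ ball x (2 * d) := by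
    refine ball_subset_ball' ?_
    rw [dist_comm, ← hd]
    linarith
  obtain ⟨i1, h1⟩ := morrey_avg hH (x := x) (d := 2 * d) (by positivity) hM hw
    (fun s hs hs' => hE x s hs (ball_subset_ball hs'))
  obtain ⟨i2, h2⟩ := morrey_avg hH (x := x') (d := d) hd0 hM (fun z hz => hw z (hsub hz))
    (fun s hs hs' => hE x' s hs ((ball_subset_ball hs').trans hsub))
  have h3 : ∫ z in ball x' d, |w x - w z| ≤ ∫ z in ball x (2 * d), |w x - w z| :=
    setIntegral_mono_set i1 (ae_of_all _ fun _ => abs_nonneg _) hsub.eventuallyLE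
  have h4 : |w x - w x'| * (Real.pi * d ^ 2) ≤
      ∫ z in ball x' d, (|w x - w z| + |w x' - w z|) := by
    have h5 : ∫ z in ball x' d, |w x - w x'| = |w x - w x'| * (Real.pi * d ^ 2) := by
      rw [setIntegral_const, measureReal_def, sc_vol x' hd0.le, smul_eq_mul, mul_comm]
    rw [← h5]
    refine setIntegral_mono_on (integrableOn_const (by
      rw [Complex.volume_ball]; exact ENNReal.mul_ne_top (by finiteness) (by finiteness)))
      ((i1.mono_set hsub).add i2) measurableSet_ball ?_
    intro z _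
    have := abs_sub_le (w x) (w z) (w x')
    rw [abs_sub_comm (w z) (w x')] at this
    exact this
  rw [integral_add (i1.mono_set hsub) i2] at h4
  have h6 : |w x - w x'| * (Real.pi * d ^ 2) ≤
      2 * Real.sqrt (Real.pi * M) * ((2 * d) ^ 2 * Real.sqrt (2 * d)) +
      2 * Real.sqrt (Real.pi * M) * (d ^ 2 * Real.sqrt d) := by linarith
  rw [Real.sqrt_mul (by norm_num : (0 : ℝ) ≤ 2), Real.sqrt_mul Real.pi_pos.le] at h6
  have hpi := Real.pi_pos
  have h7 : |w x - w x'| * Real.pi ≤
      Real.sqrt Real.pi * (Real.sqrt M * Real.sqrt d) * (8 * Real.sqrt 2 + 2) := by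
    have h8 : (|w x - w x'| * Real.pi) * d ^ 2 ≤
        (Real.sqrt Real.pi * (Real.sqrt M * Real.sqrt d) * (8 * Real.sqrt 2 + 2)) * d ^ 2 := by
      linarith
    exact le_of_mul_le_mul_right h8 (by positivity)
  have h9 : Real.sqrt 2 ≤ 1.415 := by
    rw [Real.sqrt_le_left (by norm_num)]
    norm_num
  have h10 : (8 * Real.sqrt 2 + 2) ≤ 8 * Real.sqrt Real.pi := by
    have h11 : (1.772 : ℝ) ≤ Real.sqrt Real.pi := by
      refine Real.le_sqrt_of_sq_le ?_
      have := Real.pi_gt_d4
      norm_num at this ⊢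
      linarith
    linarith
  have h12 : Real.sqrt Real.pi * (Real.sqrt M * Real.sqrt d) * (8 * Real.sqrt 2 + 2) ≤
      (8 * (Real.sqrt M * Real.sqrt d)) * Real.pi := by
    have h13 : Real.sqrt Real.pi * Real.sqrt Real.pi = Real.pi := Real.mul_self_sqrt hpi.le
    calc _ ≤ Real.sqrt Real.pi * (Real.sqrt M * Real.sqrt d) * (8 * Real.sqrt Real.pi) :=
          mul_le_mul_of_nonneg_left h10 (by positivity)
      _ = 8 * (Real.sqrt M * Real.sqrt d) * (Real.sqrt Real.pi * Real.sqrt Real.pi) := by ring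
      _ = _ := by rw [h13]
  rw [Real.sqrt_mul hM]
  exact le_of_mul_le_mul_right (h7.trans h12) hpi

end Pool.Agent.MP099f24
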