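import Mathlib
import Pool.Agent.Lib.MP_099f24_an.SD.Outer
import Pool.Agent.Lib.MP_099f24_an.SC.EndsC
import Pool.Agent.Lib.MP_099f24_an.SC.Morrey

/-!
# Flux through an arc: the estimate (MP_099f24_an)
-/

namespace Pool.Agent.MP099f24

open MeasureTheory Filter Topology Set Metric
open scoped ENNReal ContDiff

section

variable {x₀ : ℂ} {r α β h m s η τ δ : ℝ}

theorem sc_pc_smooth (x₀ : ℂ) (ρ m : ℝ) : ContDiff ℝ ∞ (fun θ : ℝ => pc x₀ ρ (m + θ)) := by
  unfold pc er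
  refine contDiff_const.add (contDiff_const.mul ?_)
  refine Complex.contDiff_exp.comp ?_
  refine ContDiff.mul ?_ contDiff_const
  exact Complex.ofRealCLM.contDiff.comp (contDiff_const.add contDiff_id)

/-- the angular integral on a circle close to the circle of radius `r` -/
theorem EndsPar.ang_int (H : EndsPar x₀ r α β h m s η τ δ) {v : ℂ → ℝ} {g : ℂ → ℂ} {W : Set ℂ}
    {ε C : ℝ} (hε : 0 ≤ ε) (hC : ∀ s, |deriv scf s| ≤ C)
    (hg : ContinuousOn g W) (hv : ∀ x ∈ W, HasFDerivAt v (ilin (Complex.I * g x)) x)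
    (hW : ∀ ρ θ, |ρ - r| < δ → |θ| ≤ h - s → pc x₀ ρ (m + θ) ∈ W)
    (ha : ∀ x, dist x (pc x₀ r α) ≤ η → |v x - v (pc x₀ r α)| ≤ ε)
    (hb : ∀ x, dist x (pc x₀ r β) ≤ η → |v x - v (pc x₀ r β)| ≤ ε) {ρ : ℝ} (hρ : |ρ - r| < δ) :
    |(∫ θ in (-(h - s))..(h - s), scP (pc x₀ r α) (pc x₀ r β) η (pc x₀ ρ (m + θ)) *
        (ρ * inner ℝ (g (pc x₀ ρ (m + θ))) (er (m + θ)))) - (v (pc x₀ r β) - v (pc x₀ r α))| ≤
      32 * Real.pi * C * ε := by
  have hr := H.hr
  have hη := H.hη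
  have hρ' := abs_lt.1 hρ
  have hρr : r / 2 < ρ := by linarith [H.hδr]
  have hρ0 : 0 < ρ := by linarith
  have hsh := H.hsh
  have hs0 := H.hs0
  have hC0 : 0 ≤ C := (abs_nonneg _).trans (hC 0)
  set a := pc x₀ r α with hadef
  set b := pc x₀ r β with hbdef
  set p : ℝ → ℝ := fun θ => scP a b η (pc x₀ ρ (m + θ)) with hp
  have hpd : ∀ θ, HasDerivAt p (fderiv ℝ (scP a b η) (pc x₀ ρ (m + θ))
      (ρ * (Complex.I * er (m + θ)))) θ := by
    intro θ
    have h1 : HasFDerivAt (scP a b η) (fderiv ℝ (scP a b η) (pc x₀ ρ (m + θ))) (pc x₀ ρ (m + θ)) :=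
      ((scP_smooth a b η).differentiable (by simp) _).hasFDerivAt
    have h2 : HasDerivAt (fun θ : ℝ => pc x₀ ρ (m + θ)) (ρ * (Complex.I * er (m + θ))) θ := by
      have := (sc_pc_hasDerivAt x₀ ρ (m + θ)).comp_const_add m θ
      exact this
    exact h1.comp_hasDerivAt θ h2
  have hderiv : ∀ θ, deriv p θ = fderiv ℝ (scP a b η) (pc x₀ ρ (m + θ))
      (ρ * (Complex.I * er (m + θ))) := fun θ => (hpd θ).deriv
  have hnorm : ∀ θ : ℝ, ‖(ρ : ℂ) * (Complex.I * er (m + θ))‖ = ρ := by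
    intro θ
    rw [norm_mul, norm_mul, sc_er_norm, Complex.norm_I, Complex.norm_real, Real.norm_eq_abs,
      abs_of_pos hρ0]
    ring
  have key := ends_1d (p := p) (y := fun θ => v (pc x₀ ρ (m + θ)))
    (y' := fun θ => ρ * inner ℝ (g (pc x₀ ρ (m + θ))) (er (m + θ)))
    (α' := -(h - s)) (m := 0) (β' := h - s) (ya := v a) (yb := v b) (ε := ε)
    (κ := 2 * Real.pi * η / r) (Lp := 4 * C / η * (2 * r))
    (by linarith) (by linarith)
    (((scP_smooth a b η).comp (sc_pc_smooth x₀ ρ m)).of_le (by exact_mod_cast le_top)) ?_ ?_ ?_ ?_ ?_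
    hε (by positivity) ?_ ?_ ?_
  · refine key.trans (le_of_eq ?_)
    field_simp
    ring
  · intro θ hθ
    have h1 := sc_circ_deriv (θ := m + θ) (hv _ (hW ρ θ hρ (abs_le.2 hθ)))
    exact h1.comp_const_add m θ
  · refine continuousOn_const.mul (ContinuousOn.inner ?_ ?_)
    · refine hg.comp (sc_pc_smooth x₀ ρ m).continuous.continuousOn fun θ hθ => ?_
      exact hW ρ θ hρ (abs_le.2 hθ)
    · have : Continuous er := by unfold er; fun_prop
      exact (this.comp (continuous_const.add continuous_id)).continuousOn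
  · refine scP_zero hη (H.ends hρ ?_ ?_)
    · rw [abs_neg, abs_of_nonneg (by linarith)]
    · rw [abs_neg, abs_of_nonneg (by linarith)]
      linarith
  · refine scP_zero hη (H.ends hρ ?_ ?_)
    · rw [abs_of_nonneg (by linarith)]
    · rw [abs_of_nonneg (by linarith)]
      linarith
  · refine scP_one hη ?_ ?_
    · exact (H.far_a hρ le_rfl (by linarith)).le
    · exact (H.far_b hρ (by linarith) le_rfl).le
  · intro θ _
    rw [hderiv]
    refine (scP_fderiv_bound hC a b hη _ _).trans ?_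
    rw [hnorm]
    refine mul_le_mul_of_nonneg_left (by linarith [H.hδr]) (by positivity)
  · intro θ hθ hne
    rw [hderiv] at hne
    have hb' := H.far_b hρ (θ := θ) (by linarith [hθ.1]) hθ.2
    have hd : dist (pc x₀ ρ (m + θ)) a ≤ η := by
      by_contra hcon
      push Not at hcon
      exact hne (scP_fderiv_zero hη hcon.le hb'.le _)
    refine ⟨ha _ hd, ?_⟩
    have := H.ang_a hρ (θ := θ) (by linarith [hθ.1]) hθ.2 hd
    linarith
  · intro θ hθ hne
    rw [hderiv] at hne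
    have ha' := H.far_a hρ (θ := θ) hθ.1 (by linarith [hθ.2])
    have hd : dist (pc x₀ ρ (m + θ)) b ≤ η := by
      by_contra hcon
      push Not at hcon
      exact hne (scP_fderiv_zero hη ha'.le hcon.le _)
    refine ⟨hb _ hd, ?_⟩
    have := H.ang_b hρ (θ := θ) hθ.1 (by linarith [hθ.2]) hd
    linarith

/-- the radial integral of the circle cutoff -/
theorem sc_K_int (r δ : ℝ) (c d : ℝ) : ∫ ρ in c..d, scK r δ ρ =
    scf (((d ^ 2 - r ^ 2) / δ) ^ 2) - scf (((c ^ 2 - r ^ 2) / δ) ^ 2) :=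
  intervalIntegral.integral_eq_sub_of_hasDerivAt (fun ρ _ => scK_hasDerivAt r δ ρ)
    ((scK_continuous r δ).intervalIntegrable _ _)

/-- A weighted average of numbers close to `Δ`. -/
theorem sc_avg {k I : ℝ → ℝ} {c d Δ E σ : ℝ} (hcd : c ≤ d) (hk : ContinuousOn k (Icc c d))
    (hkI : IntegrableOn (fun ρ => k ρ * I ρ) (Ioo c d)) (hσ : |σ| = 1) (hk0 : ∀ ρ ∈ Ioo c d, 0 ≤ σ * k ρ)
    (hk1 : ∫ ρ in c..d, k ρ = σ) (hI : ∀ ρ ∈ Ioo c d, |I ρ - Δ| ≤ E) :
    |Δ| ≤ |∫ ρ in Ioo c d, k ρ * I ρ| + E := by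
  have hki : IntegrableOn k (Ioo c d) :=
    (hk.integrableOn_compact isCompact_Icc).mono_set Ioo_subset_Icc_self
  have hk1' : ∫ ρ in Ioo c d, k ρ = σ := by
    rw [← hk1, intervalIntegral.integral_of_le hcd, integral_Ioc_eq_integral_Ioo]
  have e1 : ∫ ρ in Ioo c d, k ρ * (I ρ - Δ) = (∫ ρ in Ioo c d, k ρ * I ρ) - σ * Δ := by
    have : ∀ ρ, k ρ * (I ρ - Δ) = k ρ * I ρ - k ρ * Δ := fun ρ => by ring
    simp only [this]
    rw [integral_sub hkI (hki.mul_const Δ), integral_mul_const, hk1']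
  have e2 : |∫ ρ in Ioo c d, k ρ * (I ρ - Δ)| ≤ E := by
    have h1 : |∫ ρ in Ioo c d, k ρ * (I ρ - Δ)| ≤ ∫ ρ in Ioo c d, σ * k ρ * E := by
      rw [← Real.norm_eq_abs]
      refine norm_integral_le_of_norm_le ((hki.const_mul σ).mul_const E) ?_
      filter_upwards [ae_restrict_mem measurableSet_Ioo] with ρ hρ
      rw [Real.norm_eq_abs, abs_mul]
      have h2 : |k ρ| = σ * k ρ := by
        have h3 : |σ * k ρ| = σ * k ρ := abs_of_nonneg (hk0 ρ hρ)
        rw [abs_mul, hσ, one_mul] at h3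
        exact h3
      rw [h2]
      exact mul_le_mul_of_nonneg_left (hI ρ hρ) (hk0 ρ hρ)
    have h4 : ∫ ρ in Ioo c d, σ * k ρ * E = E := by
      rw [integral_mul_const, integral_const_mul, hk1']
      have : σ * σ = 1 := by
        rw [← abs_mul_abs_self, hσ]; norm_num
      rw [this, one_mul]
    rw [h4] at h1
    exact h1
  rw [e1] at e2
  have h5 : |σ * Δ| = |Δ| := by rw [abs_mul, hσ, one_mul]
  rw [← h5]
  have h6 := abs_sub_abs_le_abs_sub (σ * Δ) (∫ ρ in Ioo c d, k ρ * I ρ)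
  rw [abs_sub_comm] at h6
  linarith

/-- one side: the polar integral -/
theorem EndsPar.side (H : EndsPar x₀ r α β h m s η τ δ) {v : ℂ → ℝ} {g : ℂ → ℂ} {W V : Set ℂ}
    {ε C : ℝ} (hε : 0 ≤ ε) (hC : ∀ s, |deriv scf s| ≤ C)
    (hg : ContinuousOn g W) (hv : ∀ x ∈ W, HasFDerivAt v (ilin (Complex.I * g x)) x)
    (hW : ∀ ρ θ, |ρ - r| < δ → |θ| ≤ h - s → pc x₀ ρ (m + θ) ∈ W)
    (ha : ∀ x, dist x (pc x₀ r α) ≤ η → |v x - v (pc x₀ r α)| ≤ ε)
    (hb : ∀ x, dist x (pc x₀ r β) ≤ η → |v x - v (pc x₀ r β)| ≤ ε)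
    (hV : (∀ ρ θ, |ρ - r| < δ → |θ| ≤ h - s → ρ ≠ r → (pc x₀ ρ (m + θ) ∈ V ↔ ρ < r)) ∨
      (∀ ρ θ, |ρ - r| < δ → |θ| ≤ h - s → ρ ≠ r → (pc x₀ ρ (m + θ) ∈ V ↔ r < ρ)))
    {G : ℂ → ℝ} (hGV : G = V.indicator fun x => scP (pc x₀ r α) (pc x₀ r β) η x *
      fderiv ℝ (scZf x₀ r α β τ δ) x (g x)) (hGi : Integrable G) :
    |v (pc x₀ r β) - v (pc x₀ r α)| ≤ |∫ x, G x| + 32 * Real.pi * C * ε := by
  classical
  have hr := H.hr
  have hδ0 := H.hδ0
  have hδr := H.hδr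
  have hpi := Real.pi_pos
  have hsh := H.hsh
  have hs0 := H.hs0
  have hhpi := H.hpi
  set a := pc x₀ r α with hadef
  set b := pc x₀ r β with hbdef
  set Δ := v b - v a with hΔ
  set E := 32 * Real.pi * C * ε with hE
  -- the angular integral
  set I : ℝ → ℝ := fun ρ => ∫ θ in (-(h - s))..(h - s), scP a b η (pc x₀ ρ (m + θ)) *
    (ρ * inner ℝ (g (pc x₀ ρ (m + θ))) (er (m + θ))) with hI
  have hIb : ∀ ρ, |ρ - r| < δ → |I ρ - Δ| ≤ E := fun ρ hρ =>
    H.ang_int hε hC hg hv hW ha hb hρ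
  -- polar coordinates
  set J : Set ℝ := Ioo (r - δ) (r + δ) with hJ
  have hJ0 : J ⊆ Ioi 0 := fun ρ hρ => by
    have : r - δ < ρ := hρ.1
    exact lt_trans (by linarith) this
  have hGpc : ∀ ρ θ, 0 < ρ → |θ| ≤ Real.pi → G (pc x₀ ρ (m + θ)) =
      if |ρ - r| < δ ∧ |θ| ≤ h - s ∧ pc x₀ ρ (m + θ) ∈ V then
        scP a b η (pc x₀ ρ (m + θ)) *
          (scK r (r * δ) ρ * inner ℝ (g (pc x₀ ρ (m + θ))) (er (m + θ))) else 0 := by
    intro ρ θ hρ hθ
    rw [hGV]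
    by_cases h1 : pc x₀ ρ (m + θ) ∈ V
    · rw [indicator_of_mem h1, H.key hρ hθ]
      by_cases h2 : |ρ - r| < δ ∧ |θ| ≤ h - s
      · rw [if_pos h2, if_pos ⟨h2.1, h2.2, h1⟩]
      · rw [if_neg h2, if_neg fun h3 => h2 ⟨h3.1, h3.2.1⟩]
    · rw [indicator_of_notMem h1, if_neg fun h3 => h1 h3.2.2]
  have hsupp : ∫ x, G x = ∫ x in {x | dist x x₀ ∈ J}, G x := by
    symm
    refine setIntegral_eq_integral_of_forall_compl_eq_zero fun x hx => ?_
    by_cases hx0 : x = x₀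
    · -- near the centre
      have h1 : x = pc x₀ 0 (m + 0) := by rw [hx0, pc]; simp
      rw [hGV]
      by_cases h2 : x ∈ V
      · rw [indicator_of_mem h2, h1, scZf_fderiv]
        obtain ⟨e1, e2⟩ := H.thin le_rfl (ρ := 0) (by
          rw [zero_sub, abs_neg, abs_of_pos hr]; linarith) (m + 0)
        rw [e1, e2]
        ring
      · rw [indicator_of_notMem h2]
    · obtain ⟨θ, hθ, h1⟩ := sc_exists_pc hx0 m
      have h2 : 0 < ‖x - x₀‖ := norm_pos_iff.2 (sub_ne_zero.2 hx0)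
      rw [h1, hGpc _ _ h2 (abs_le.2 ⟨hθ.1.le, hθ.2⟩), if_neg]
      rintro ⟨h3, -⟩
      apply hx
      change dist x x₀ ∈ J
      rw [dist_eq_norm]
      rw [abs_lt] at h3
      exact ⟨by linarith [h3.1], by linarith [h3.2]⟩
  have hpolar : ∫ x, G x = ∫ ρ in J, ∫ θ in Ioo (-Real.pi) Real.pi, ρ * G (pc x₀ ρ (m + θ)) := by
    rw [hsupp, polar_rot x₀ m measurableSet_Ioo hJ0 G]
    simp only [smul_eq_mul]
    have h1 : IntegrableOn (fun p : ℝ × ℝ => p.1 * G (pc x₀ p.1 (m + p.2)))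
        (J ×ˢ Ioo (-Real.pi) Real.pi) (volume.prod volume) := by
      have := (polar_rot_integrable x₀ m measurableSet_Ioo hJ0 G).1 hGi.integrableOn
      simp only [smul_eq_mul] at this
      exact this
    exact setIntegral_prod _ h1
  have hint2 : IntegrableOn (fun ρ => ∫ θ in Ioo (-Real.pi) Real.pi, ρ * G (pc x₀ ρ (m + θ))) J := by
    have h1 : IntegrableOn (fun p : ℝ × ℝ => p.1 * G (pc x₀ p.1 (m + p.2)))
        (J ×ˢ Ioo (-Real.pi) Real.pi) (volume.prod volume) := by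
      have := (polar_rot_integrable x₀ m measurableSet_Ioo hJ0 G).1 hGi.integrableOn
      simp only [smul_eq_mul] at this
      exact this
    rw [IntegrableOn, ← Measure.prod_restrict] at h1
    exact h1.integral_prod_left
  -- the inner integral
  have hinner : ∀ ρ ∈ J, (∀ θ, |θ| ≤ h - s → pc x₀ ρ (m + θ) ∈ V) →
      ∫ θ in Ioo (-Real.pi) Real.pi, ρ * G (pc x₀ ρ (m + θ)) = scK r (r * δ) ρ * I ρ := by
    intro ρ hρ hin
    have hρ0 : 0 < ρ := hJ0 hρ
    have hρd : |ρ - r| < δ := by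
      rw [abs_lt]; constructor <;> linarith [hρ.1, hρ.2]
    have e1 : ∀ θ ∈ Ioo (-Real.pi) Real.pi, ρ * G (pc x₀ ρ (m + θ)) =
        (Icc (-(h - s)) (h - s)).indicator (fun θ => scK r (r * δ) ρ *
          (scP a b η (pc x₀ ρ (m + θ)) *
            (ρ * inner ℝ (g (pc x₀ ρ (m + θ))) (er (m + θ))))) θ := by
      intro θ hθ
      rw [hGpc ρ θ hρ0 (abs_le.2 ⟨hθ.1.le, hθ.2.le⟩)]
      by_cases h1 : θ ∈ Icc (-(h - s)) (h - s)
      · rw [indicator_of_mem h1, if_pos ⟨hρd, abs_le.2 h1, hin θ (abs_le.2 h1)⟩]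
        ring
      · rw [indicator_of_notMem h1, if_neg fun h2 => h1 (abs_le.1 h2.2.1), mul_zero]
    rw [setIntegral_congr_fun measurableSet_Ioo e1, setIntegral_indicator measurableSet_Icc,
      inter_eq_right.2 (show Icc (-(h - s)) (h - s) ⊆ Ioo (-Real.pi) Real.pi from
        fun θ hθ => ⟨by linarith [hθ.1], by linarith [hθ.2]⟩),
      integral_const_mul, hI]
    simp only
    rw [intervalIntegral.integral_of_le (by linarith), ← integral_Icc_eq_integral_Ioc]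
  have hinner0 : ∀ ρ ∈ J, (∀ θ, |θ| ≤ h - s → pc x₀ ρ (m + θ) ∉ V) →
      ∫ θ in Ioo (-Real.pi) Real.pi, ρ * G (pc x₀ ρ (m + θ)) = 0 := by
    intro ρ hρ hin
    have hρ0 : 0 < ρ := hJ0 hρ
    have e1 : ∀ θ ∈ Ioo (-Real.pi) Real.pi, ρ * G (pc x₀ ρ (m + θ)) = 0 := by
      intro θ hθ
      rw [hGpc ρ θ hρ0 (abs_le.2 ⟨hθ.1.le, hθ.2.le⟩), if_neg, mul_zero]
      rintro ⟨h1, h2, h3⟩
      exact hin θ h2 h3
    rw [setIntegral_congr_fun measurableSet_Ioo e1]
    simp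
  -- splitting
  have hKl : ∫ ρ in (r - δ)..r, scK r (r * δ) ρ = 1 := by
    rw [sc_K_int, scf_one (by rw [sub_self]; norm_num), scf_zero, sub_zero]
    have h1 : ((r - δ) ^ 2 - r ^ 2) / (r * δ) = -((2 * r - δ) / r) := by
      field_simp
      ring
    rw [h1, neg_sq]
    have h2 : 1 ≤ (2 * r - δ) / r := by
      rw [le_div_iff₀ hr]; linarith
    nlinarith
  have hKr : ∫ ρ in r..(r + δ), scK r (r * δ) ρ = -1 := by
    rw [sc_K_int, scf_one (s := ((r ^ 2 - r ^ 2) / (r * δ)) ^ 2) (by rw [sub_self]; norm_num),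
      scf_zero, zero_sub]
    have h1 : ((r + δ) ^ 2 - r ^ 2) / (r * δ) = (2 * r + δ) / r := by
      field_simp
      ring
    rw [h1]
    have h2 : 1 ≤ (2 * r + δ) / r := by
      rw [le_div_iff₀ hr]; linarith
    nlinarith
  have hKsign : ∀ ρ, 0 < ρ → (ρ ≤ r → 0 ≤ scK r (r * δ) ρ) ∧ (r ≤ ρ → scK r (r * δ) ρ ≤ 0) := by
    intro ρ hρ
    have h1 := scf_deriv_nonpos (((ρ ^ 2 - r ^ 2) / (r * δ)) ^ 2)
    have h2 : 0 < 2 * ρ / (r * δ) := by positivity
    unfold scK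
    constructor
    · intro h3
      have h4 : (ρ ^ 2 - r ^ 2) / (r * δ) ≤ 0 :=
        div_nonpos_of_nonpos_of_nonneg (by nlinarith) (by positivity)
      exact mul_nonneg (mul_nonneg_of_nonpos_of_nonpos h1 (by linarith)) h2.le
    · intro h3
      have h4 : 0 ≤ (ρ ^ 2 - r ^ 2) / (r * δ) := div_nonneg (by nlinarith) (by positivity)
      exact mul_nonpos_of_nonpos_of_nonneg (mul_nonpos_of_nonpos_of_nonneg h1 (by linarith)) h2.le
  have hl : Ioo (r - δ) r ⊆ J := Ioo_subset_Ioo_right (by linarith)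
  have hr' : Ioo r (r + δ) ⊆ J := Ioo_subset_Ioo_left (by linarith)
  have hsplit : ∀ F : ℝ → ℝ, IntegrableOn F J → ∫ ρ in J, F ρ =
      (∫ ρ in Ioo (r - δ) r, F ρ) + ∫ ρ in Ioo r (r + δ), F ρ := by
    intro F hF
    rw [← integral_Ioc_eq_integral_Ioo (x := r - δ) (y := r), hJ,
      ← setIntegral_union (disjoint_left.2 fun x hx hx' => absurd hx.2 (not_le.2 hx'.1))
        measurableSet_Ioo
        (hF.mono_set fun ρ (hρ : ρ ∈ Ioc (r - δ) r) => ⟨hρ.1, by linarith [hρ.2]⟩)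
        (hF.mono_set hr'),
      Ioc_union_Ioo_eq_Ioo (by linarith) (by linarith)]
  rcases hV with hV | hV
  · -- inner side
    have hfin : ∫ x, G x = ∫ ρ in Ioo (r - δ) r, scK r (r * δ) ρ * I ρ := by
      rw [hpolar, hsplit _ hint2]
      have e1 : ∫ ρ in Ioo r (r + δ), ∫ θ in Ioo (-Real.pi) Real.pi, ρ * G (pc x₀ ρ (m + θ)) = 0 := by
        rw [setIntegral_congr_fun measurableSet_Ioo (g := fun _ => 0)]
        · simp
        · intro ρ hρ
          refine hinner0 ρ (hr' hρ) fun θ hθ hmem => ?_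
          have := (hV ρ θ (by rw [abs_lt]; constructor <;> linarith [hρ.1, hρ.2]) hθ
            hρ.1.ne').1 hmem
          linarith [hρ.1]
      rw [e1, add_zero]
      refine setIntegral_congr_fun measurableSet_Ioo fun ρ hρ => ?_
      refine hinner ρ (hl hρ) fun θ hθ => ?_
      exact (hV ρ θ (by rw [abs_lt]; constructor <;> linarith [hρ.1, hρ.2]) hθ hρ.2.ne).2 hρ.2
    have hkI : IntegrableOn (fun ρ => scK r (r * δ) ρ * I ρ) (Ioo (r - δ) r) := by
      refine (hint2.mono_set hl).congr_fun (fun ρ hρ => ?_) measurableSet_Ioo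
      refine hinner ρ (hl hρ) fun θ hθ => ?_
      exact (hV ρ θ (by rw [abs_lt]; constructor <;> linarith [hρ.1, hρ.2]) hθ hρ.2.ne).2 hρ.2
    rw [hfin]
    refine sc_avg (σ := 1) (by linarith) (scK_continuous r (r * δ)).continuousOn hkI (by simp)
      ?_ hKl ?_
    · intro ρ hρ
      rw [one_mul]
      exact (hKsign ρ (by linarith [hρ.1])).1 hρ.2.le
    · intro ρ hρ
      exact hIb ρ (by rw [abs_lt]; constructor <;> linarith [hρ.1, hρ.2])
  · -- outer side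
    have hfin : ∫ x, G x = ∫ ρ in Ioo r (r + δ), scK r (r * δ) ρ * I ρ := by
      rw [hpolar, hsplit _ hint2]
      have e1 : ∫ ρ in Ioo (r - δ) r, ∫ θ in Ioo (-Real.pi) Real.pi, ρ * G (pc x₀ ρ (m + θ)) = 0 := by
        rw [setIntegral_congr_fun measurableSet_Ioo (g := fun _ => 0)]
        · simp
        · intro ρ hρ
          refine hinner0 ρ (hl hρ) fun θ hθ hmem => ?_
          have := (hV ρ θ (by rw [abs_lt]; constructor <;> linarith [hρ.1, hρ.2]) hθ
            hρ.2.ne).1 hmem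
          linarith [hρ.2]
      rw [e1, zero_add]
      refine setIntegral_congr_fun measurableSet_Ioo fun ρ hρ => ?_
      refine hinner ρ (hr' hρ) fun θ hθ => ?_
      exact (hV ρ θ (by rw [abs_lt]; constructor <;> linarith [hρ.1, hρ.2]) hθ hρ.1.ne').2 hρ.1
    have hkI : IntegrableOn (fun ρ => scK r (r * δ) ρ * I ρ) (Ioo r (r + δ)) := by
      refine (hint2.mono_set hr').congr_fun (fun ρ hρ => ?_) measurableSet_Ioo
      refine hinner ρ (hr' hρ) fun θ hθ => ?_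
      exact (hV ρ θ (by rw [abs_lt]; constructor <;> linarith [hρ.1, hρ.2]) hθ hρ.1.ne').2 hρ.1
    rw [hfin]
    refine sc_avg (σ := -1) (by linarith) (scK_continuous r (r * δ)).continuousOn hkI (by simp)
      ?_ hKr ?_
    · intro ρ hρ
      have := (hKsign ρ (by linarith [hρ.1])).2 hρ.1.le
      linarith
    · intro ρ hρ
      exact hIb ρ (by rw [abs_lt]; constructor <;> linarith [hρ.1, hρ.2])

end

end Pool.Agent.MP099f24
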