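import Mathlib
import Pool.Agent.Lib.MP_099f24_an.SC.EndsD

/-!
# Zero flux through an arc gives `v(a) = v(b)` (MP_099f24_an)
-/

namespace Pool.Agent.MP099f24

open MeasureTheory Filter Topology Set Metric
open scoped ENNReal ContDiff

/-- the energy in small discs is small -/
theorem sc_small {g : ℂ → ℂ} {c : ℂ} {R : ℝ} (hR : 0 < R)
    (hi : IntegrableOn (fun x => ‖g x‖ ^ 2) (closedBall c R)) {ε : ℝ} (hε : 0 < ε) :
    ∀ᶠ η in 𝓝[>] (0 : ℝ), ∫ x in closedBall c η, ‖g x‖ ^ 2 ≤ ε := by
  have h1 : Tendsto (fun n : ℕ => ∫ x in closedBall c (R / (n + 1)), ‖g x‖ ^ 2) atTop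
      (𝓝 (∫ x in ⋂ n : ℕ, closedBall c (R / (n + 1)), ‖g x‖ ^ 2)) := by
    refine tendsto_setIntegral_of_antitone (fun n => measurableSet_closedBall) ?_ ⟨0, ?_⟩
    · intro n m hnm
      refine closedBall_subset_closedBall ?_
      have : (n : ℝ) ≤ m := by exact_mod_cast hnm
      gcongr
    · simpa using hi
  have h2 : (⋂ n : ℕ, closedBall c (R / (n + 1))) = {c} := by
    ext x
    simp only [mem_iInter, mem_closedBall, mem_singleton_iff]
    constructor
    · intro h
      have h3 : Tendsto (fun n : ℕ => R / ((n : ℝ) + 1)) atTop (𝓝 0) :=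
        tendsto_const_nhds.div_atTop (tendsto_natCast_atTop_atTop.atTop_add tendsto_const_nhds)
      have h4 : dist x c ≤ 0 := ge_of_tendsto' h3 h
      exact dist_le_zero.1 h4
    · rintro rfl n
      rw [dist_self]
      positivity
  rw [h2] at h1
  simp only [Measure.restrict_singleton, measure_singleton, zero_smul, integral_zero_measure] at h1
  obtain ⟨n, hn⟩ := ((h1.eventually (ge_mem_nhds hε))).exists
  have hpos : 0 < R / ((n : ℝ) + 1) := by positivity
  filter_upwards [Ioo_mem_nhdsGT hpos] with η hη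
  refine le_trans ?_ hn
  refine setIntegral_mono_set (hi.mono_set ?_) (ae_of_all _ fun _ => by positivity) ?_
  · refine closedBall_subset_closedBall ?_
    rw [div_le_iff₀ (by positivity)]
    have : (0 : ℝ) ≤ n := by positivity
    nlinarith
  · exact (closedBall_subset_closedBall hη.2.le).eventuallyLE

theorem sc_l1 {g : ℂ → ℂ} (hg : Measurable g) {c : ℂ} {η A : ℝ} (hη : 0 < η) (hA : 0 ≤ A)
    (hi : IntegrableOn (fun x => ‖g x‖ ^ 2) (closedBall c η))
    (h : ∫ x in closedBall c η, ‖g x‖ ^ 2 ≤ A ^ 2) :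
    IntegrableOn (fun x => ‖g x‖) (closedBall c η) ∧
    ∫ x in closedBall c η, ‖g x‖ ≤ 2 * (A * η) := by
  have hfin : volume (closedBall c η) ≠ ⊤ := (isCompact_closedBall c η).measure_lt_top.ne
  have h1 : IntegrableOn (fun x => ‖g x‖) (closedBall c η) := by
    refine Integrable.mono' (hi.add (integrableOn_const hfin (C := (1 : ℝ))))
      hg.norm.aestronglyMeasurable (Eventually.of_forall fun x => ?_)
    rw [norm_norm]
    simp only [Pi.add_apply]
    nlinarith [norm_nonneg (g x), sq_nonneg (‖g x‖ - 1)]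
  refine ⟨h1, ?_⟩
  have h3 := sc_cs (μ := volume.restrict (closedBall c η)) (f := fun y => ‖g y‖)
    (k := fun _ => 1) hi (by simp only [one_pow]; exact integrableOn_const hfin)
    (by simp only [mul_one]; exact h1)
  simp only [mul_one, one_pow] at h3
  rw [integral_const] at h3
  have h4 : (volume.restrict (closedBall c η)).real univ = Real.pi * η ^ 2 := by
    rw [measureReal_def, Measure.restrict_apply_univ, Complex.volume_closedBall, ENNReal.toReal_mul,
      ENNReal.toReal_pow, ENNReal.toReal_ofReal hη.le, ENNReal.coe_toReal, NNReal.coe_real_pi]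
    ring
  rw [h4, smul_eq_mul, mul_one] at h3
  have hpi := Real.pi_lt_four
  have h5 : (∫ x in closedBall c η, ‖g x‖) ^ 2 ≤ (2 * (A * η)) ^ 2 := by
    have hi0 : 0 ≤ ∫ x in closedBall c η, ‖g x‖ ^ 2 := integral_nonneg fun _ => by positivity
    have hp := Real.pi_pos
    calc _ ≤ (∫ x in closedBall c η, ‖g x‖ ^ 2) * (Real.pi * η ^ 2) := h3
      _ ≤ A ^ 2 * (Real.pi * η ^ 2) := mul_le_mul_of_nonneg_right h (by positivity)
      _ ≤ A ^ 2 * (4 * η ^ 2) := by gcongr
      _ = _ := by ring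
  exact abs_le_of_sq_le_sq' h5 (by positivity) |>.2

/-- **Zero flux through an arc gives equal values of the conjugate function at its end points.** -/
theorem cj_ends {U V W : Set ℂ} (hU : IsOpen U) (hV : MeasurableSet V) (hW : IsOpen W)
    {v : ℂ → ℝ} {g : ℂ → ℂ} (hgm : Measurable g)
    (hfin : ∀ C, IsCompact C → C ⊆ U → IntegrableOn (fun x => ‖g x‖ ^ 2) C)
    (hvc : ContinuousOn v U) (hg : ContinuousOn g W)
    (hv : ∀ x ∈ W, HasFDerivAt v (ilin (Complex.I * g x)) x)
    {x₀ : ℂ} {r α β : ℝ} (hr : 0 < r) (hαβ : α < β) (hβ : β < α + 2 * Real.pi)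
    (hcU : carc x₀ r α β ⊆ U) (hI : ∀ θ ∈ Ioo α β, pc x₀ r θ ∈ W)
    (hside : (∀ α' β', α < α' → β' < β → ∃ δ > 0, δ < r ∧ csec x₀ (r - δ) r α' β' ⊆ V ∧
        Disjoint (csec x₀ r (r + δ) α' β') V) ∨
       (∀ α' β', α < α' → β' < β → ∃ δ > 0, δ < r ∧ csec x₀ r (r + δ) α' β' ⊆ V ∧
        Disjoint (csec x₀ (r - δ) r α' β') V))
    (hflux : ∀ φ : ℂ → ℝ, ContDiff ℝ ∞ φ → HasCompactSupport φ → tsupport φ ⊆ U →
      (∀ᶠ x in 𝓝ˢ (carc x₀ r α β), φ x = 1) →
      ∫ x in V, inner ℝ (g x) (outer_grad φ x) = 0) :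
    v (pc x₀ r α) = v (pc x₀ r β) := by
  obtain ⟨C, hC0, hC⟩ := scf_bound
  have hpi := Real.pi_pos
  set a := pc x₀ r α with hadef
  set b := pc x₀ r β with hbdef
  set h : ℝ := (β - α) / 2 with hh
  set m : ℝ := (α + β) / 2 with hm
  have h0 : 0 < h := by rw [hh]; linarith
  have hhpi : h < Real.pi := by rw [hh]; linarith
  have haU : a ∈ U := hcU ⟨α, ⟨le_rfl, hαβ.le⟩, rfl⟩
  have hbU : b ∈ U := hcU ⟨β, ⟨hαβ.le, le_rfl⟩, rfl⟩
  -- it is enough to prove an estimate
  suffices hmain : ∀ ε : ℝ, 0 < ε → |v b - v a| ≤ (32 * Real.pi * C + 16 * C) * ε by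
    have h1 : |v b - v a| ≤ 0 := by
      refine le_of_forall_pos_le_add fun ε hε => ?_
      have hK : 0 < 32 * Real.pi * C + 16 * C := by positivity
      have := hmain (ε / (32 * Real.pi * C + 16 * C)) (div_pos hε hK)
      rw [mul_div_cancel₀ _ hK.ne'] at this
      linarith
    have h2 := abs_nonpos_iff.1 h1
    linarith
  intro ε hε
  -- choice of `η`
  obtain ⟨Ra, hRa, hRaU⟩ := Metric.nhds_basis_closedBall.mem_iff.1 (hU.mem_nhds haU)
  obtain ⟨Rb, hRb, hRbU⟩ := Metric.nhds_basis_closedBall.mem_iff.1 (hU.mem_nhds hbU)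
  have hva : ∀ᶠ η in 𝓝[>] (0 : ℝ), ∀ x, dist x a ≤ η → |v x - v a| ≤ ε := by
    have h1 : ∀ᶠ x in 𝓝 a, |v x - v a| ≤ ε := by
      have := (hvc.continuousAt (hU.mem_nhds haU)) (closedBall_mem_nhds _ hε)
      filter_upwards [this] with x hx
      rwa [mem_preimage, mem_closedBall, Real.dist_eq] at hx
    obtain ⟨δ, hδ, h2⟩ := Metric.eventually_nhds_iff.1 h1
    filter_upwards [Ioo_mem_nhdsGT hδ] with η hη x hx
    exact h2 (hx.trans_lt hη.2)
  have hvb : ∀ᶠ η in 𝓝[>] (0 : ℝ), ∀ x, dist x b ≤ η → |v x - v b| ≤ ε := by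
    have h1 : ∀ᶠ x in 𝓝 b, |v x - v b| ≤ ε := by
      have := (hvc.continuousAt (hU.mem_nhds hbU)) (closedBall_mem_nhds _ hε)
      filter_upwards [this] with x hx
      rwa [mem_preimage, mem_closedBall, Real.dist_eq] at hx
    obtain ⟨δ, hδ, h2⟩ := Metric.eventually_nhds_iff.1 h1
    filter_upwards [Ioo_mem_nhdsGT hδ] with η hη x hx
    exact h2 (hx.trans_lt hη.2)
  have hea := sc_small (g := g) hRa (hfin _ (isCompact_closedBall a Ra) hRaU) (pow_pos hε 2)
  have heb := sc_small (g := g) hRb (hfin _ (isCompact_closedBall b Rb) hRbU) (pow_pos hε 2)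
  set σ := min (Real.sin (h / 2)) (Real.sin h) with hσ
  have hσ0 : 0 < σ := lt_min (Real.sin_pos_of_pos_of_lt_pi (by linarith) (by linarith))
    (Real.sin_pos_of_pos_of_lt_pi h0 hhpi)
  have hsm : ∀ᶠ η in 𝓝[>] (0 : ℝ), 0 < η ∧ η < Ra ∧ η < Rb ∧ 2 * η ≤ r * σ := by
    have hp : 0 < min (min Ra Rb) (r * σ / 2) := by positivity
    filter_upwards [Ioo_mem_nhdsGT hp] with η hη
    have h1 := hη.2.trans_le (min_le_left _ _)
    have h2 := hη.2.trans_le (min_le_right _ _)
    exact ⟨hη.1, h1.trans_le (min_le_left _ _), h1.trans_le (min_le_right _ _), by linarith⟩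
  obtain ⟨η, hva, hvb, hea, heb, hη, hηa, hηb, hησ⟩ :=
    (hva.and (hvb.and (hea.and (heb.and hsm)))).exists
  -- choice of `s`
  obtain ⟨s, hs0, hsh, hsη⟩ : ∃ s, 0 < s ∧ s < h ∧ r * s < η / 4 := by
    refine ⟨min (h / 2) (η / (8 * r)), by positivity, (min_le_left _ _).trans_lt (by linarith), ?_⟩
    calc r * min (h / 2) (η / (8 * r)) ≤ r * (η / (8 * r)) :=
          mul_le_mul_of_nonneg_left (min_le_right _ _) hr.le
      _ = η / 8 := by field_simp
      _ < η / 4 := by linarith
  set τ : ℝ := r ^ 2 * (Real.cos (h - s) - Real.cos h) / 2 with hτ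
  have hτ0 : 0 < τ := by
    have := Real.cos_lt_cos_of_nonneg_of_le_pi (by linarith : 0 ≤ h - s) hhpi.le (by linarith)
    have h2 : 0 < Real.cos (h - s) - Real.cos h := by linarith
    positivity
  -- choice of `δ`
  obtain ⟨δ₁, hδ₁, hδ₁r, hside'⟩ : ∃ δ₁ > 0, δ₁ < r ∧
      ((∀ ρ θ, |ρ - r| < δ₁ → |θ| ≤ h - s → ρ ≠ r → (pc x₀ ρ (m + θ) ∈ V ↔ ρ < r)) ∨
      (∀ ρ θ, |ρ - r| < δ₁ → |θ| ≤ h - s → ρ ≠ r → (pc x₀ ρ (m + θ) ∈ V ↔ r < ρ))) := by
    have e1 : α < m - (h - s) := by rw [hm, hh]; linarith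
    have e2 : m + (h - s) < β := by rw [hm, hh]; linarith
    have hmem : ∀ θ, |θ| ≤ h - s → m + θ ∈ Icc (m - (h - s)) (m + (h - s)) := by
      intro θ hθ
      rw [abs_le] at hθ
      constructor <;> linarith [hθ.1, hθ.2]
    rcases hside with hside | hside
    · obtain ⟨δ₁, h1, h2, h3, h4⟩ := hside _ _ e1 e2
      refine ⟨δ₁, h1, h2, Or.inl fun ρ θ hρ hθ hne => ?_⟩
      rw [abs_lt] at hρ
      constructor
      · intro hmemV
        by_contra hcon
        push Not at hcon
        have h5 : pc x₀ ρ (m + θ) ∈ csec x₀ r (r + δ₁) (m - (h - s)) (m + (h - s)) :=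
          ⟨(ρ, m + θ), ⟨⟨lt_of_le_of_ne hcon hne.symm, by simp only; linarith [hρ.2]⟩,
            hmem θ hθ⟩, rfl⟩
        exact disjoint_left.1 h4 h5 hmemV
      · intro hlt
        exact h3 ⟨(ρ, m + θ), ⟨⟨by simp only; linarith [hρ.1], hlt⟩, hmem θ hθ⟩, rfl⟩
    · obtain ⟨δ₁, h1, h2, h3, h4⟩ := hside _ _ e1 e2
      refine ⟨δ₁, h1, h2, Or.inr fun ρ θ hρ hθ hne => ?_⟩
      rw [abs_lt] at hρ
      constructor
      · intro hmemV
        by_contra hcon
        push Not at hcon
        have h5 : pc x₀ ρ (m + θ) ∈ csec x₀ (r - δ₁) r (m - (h - s)) (m + (h - s)) :=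
          ⟨(ρ, m + θ), ⟨⟨by simp only; linarith [hρ.1], lt_of_le_of_ne hcon hne⟩,
            hmem θ hθ⟩, rfl⟩
        exact disjoint_left.1 h4 h5 hmemV
      · intro hlt
        exact h3 ⟨(ρ, m + θ), ⟨⟨hlt, by simp only; linarith [hρ.2]⟩, hmem θ hθ⟩, rfl⟩
  obtain ⟨δ₂, hδ₂, -, hW2⟩ := sep_thin (F := Wᶜ) hW.isClosed_compl (x₀ := x₀) hr
    (α := α) (β := β) (fun θ hθ hc => hc (hI θ hθ)) (α' := m - (h - s)) (β' := m + (h - s))
    (by rw [hm, hh]; linarith) (by rw [hm, hh]; linarith)
  obtain ⟨δ₃, hδ₃, hU3⟩ := (carc_compact x₀ r α β).exists_cthickening_subset_open hU hcU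
  obtain ⟨δ, hδ0, hδ1, hδ2, hδ3, hδη, hδr, hδτ⟩ : ∃ δ, 0 < δ ∧ δ < δ₁ ∧ δ < δ₂ ∧ δ < δ₃ ∧
      δ < η / 4 ∧ δ < r / 2 ∧ δ ^ 2 < τ / 2 := by
    have hp : 0 < min (min (min δ₁ δ₂) (min δ₃ (η / 4))) (min (r / 2) (min (τ / 2) 1)) := by
      positivity
    obtain ⟨δ, hδ, hδ'⟩ := exists_between hp
    have a1 := hδ'.trans_le (min_le_left _ _)
    have a2 := hδ'.trans_le (min_le_right _ _)
    have b1 := a1.trans_le (min_le_left _ _)
    have b2 := a1.trans_le (min_le_right _ _)
    have c1 := a2.trans_le (min_le_left _ _)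
    have c2 := a2.trans_le (min_le_right _ _)
    have d1 := c2.trans_le (min_le_left _ _)
    have d2 := c2.trans_le (min_le_right _ _)
    exact ⟨δ, hδ, b1.trans_le (min_le_left _ _), b1.trans_le (min_le_right _ _),
      b2.trans_le (min_le_left _ _), b2.trans_le (min_le_right _ _), c1, by nlinarith⟩
  have H : EndsPar x₀ r α β h m s η τ δ :=
    ⟨hr, hh, hm, h0, hhpi, hs0, hsh, hη, hsη, hτ, hδ0, hδη, hδr, hδτ, hησ⟩
  have hαe : α = m - h := H.alpha
  have hβe : β = m + h := H.beta
  -- the test function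
  set Zf := scZf x₀ r α β τ δ with hZf
  set Q := scP a b η with hQ
  set φ : ℂ → ℝ := fun x => 1 - Q x * (1 - Zf x) with hφ
  have hφs : ContDiff ℝ ∞ φ := contDiff_const.sub
    ((scP_smooth a b η).mul (contDiff_const.sub (scZf_smooth x₀ r α β τ δ)))
  have hφd : ∀ x w, fderiv ℝ φ x w = Q x * fderiv ℝ Zf x w - (1 - Zf x) * fderiv ℝ Q x w := by
    intro x w
    have hq : DifferentiableAt ℝ Q x := (scP_smooth a b η).differentiable (by simp) x
    have hz : DifferentiableAt ℝ Zf x := (scZf_smooth x₀ r α β τ δ).differentiable (by simp) x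
    have h1 := (hq.hasFDerivAt.mul (hz.hasFDerivAt.const_sub 1)).const_sub 1
    have h2 : fderiv ℝ φ x = -(Q x • -fderiv ℝ Zf x + (1 - Zf x) • fderiv ℝ Q x) := h1.fderiv
    rw [h2]
    simp only [add_apply, smul_apply, neg_apply, smul_eq_mul]
    ring
  -- the compact set containing the support
  set T : Set ℂ := (fun p : ℝ × ℝ => pc x₀ p.1 p.2) '' (Icc (r - δ) (r + δ) ×ˢ Icc α β) with hT
  have hTc : IsCompact T := (isCompact_Icc.prod isCompact_Icc).image (sep_pc_cont x₀)
  have hTU : T ⊆ U := by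
    rintro _ ⟨⟨ρ, θ⟩, ⟨hρ, hθ⟩, rfl⟩
    refine hU3 ?_
    simp only
    refine mem_cthickening_of_dist_le _ (pc x₀ r θ) δ₃ _ ⟨θ, hθ, rfl⟩ ?_
    rw [sep_pc_sub]
    refine le_trans ?_ hδ3.le
    rw [abs_le]
    constructor <;> linarith [hρ.1, hρ.2]
  have hZT : ∀ x, Zf x ≠ 0 → x ∈ T := by
    intro x hx
    have hx0 : x ≠ x₀ := by
      rintro rfl
      apply hx
      have h1 : x = pc x 0 0 := by rw [pc]; simp
      have := (H.thin le_rfl (ρ := 0) (by rw [zero_sub, abs_neg, abs_of_pos hr]; linarith) 0).1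
      rw [← h1] at this
      rw [hZf, scZf, this, mul_zero]
    obtain ⟨θ, hθ, h1⟩ := sc_exists_pc hx0 m
    set ρ := ‖x - x₀‖ with hρdef
    have hρ0 : 0 < ρ := norm_pos_iff.2 (sub_ne_zero.2 hx0)
    have hρd : |ρ - r| < δ := by
      by_contra hcon
      push Not at hcon
      apply hx
      rw [h1, hZf, scZf, (H.thin hρ0.le hcon (m + θ)).1, mul_zero]
    have hθh : |θ| ≤ h := by
      by_contra hcon
      push Not at hcon
      apply hx
      rw [h1, hZf, scZf, (scW_zero hτ0 (H.outside hρd hcon.le (abs_le.2 ⟨hθ.1.le, hθ.2⟩))).1,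
        zero_mul]
    rw [abs_lt] at hρd
    rw [abs_le] at hθh
    exact ⟨(ρ, m + θ), ⟨⟨by simp only; linarith [hρd.1], by simp only; linarith [hρd.2]⟩,
      ⟨by simp only; rw [hαe]; linarith [hθh.1], by simp only; rw [hβe]; linarith [hθh.2]⟩⟩, h1.symm⟩
  set S : Set ℂ := (closedBall a η ∪ closedBall b η) ∪ T with hS
  have hSc : IsCompact S := ((isCompact_closedBall a η).union (isCompact_closedBall b η)).union hTc
  have hSU : S ⊆ U := union_subset (union_subset
    ((closedBall_subset_closedBall hηa.le).trans hRaU)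
    ((closedBall_subset_closedBall hηb.le).trans hRbU)) hTU
  have hsupp : Function.support φ ⊆ S := by
    intro x hx
    by_contra hcon
    rw [hS, mem_union, mem_union, not_or, not_or, mem_closedBall, mem_closedBall, not_le,
      not_le] at hcon
    apply hx
    have h1 : Zf x = 0 := by
      by_contra h2
      exact hcon.2 (hZT x h2)
    have h2 : Q x = 1 := scP_one hη hcon.1.1.le hcon.1.2.le
    simp only [hφ, h1, h2]
    ring
  have hφc : HasCompactSupport φ := HasCompactSupport.of_support_subset_isCompact hSc hsupp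
  have hφU : tsupport φ ⊆ U := (closure_minimal hsupp hSc.isClosed).trans hSU
  have hφ1 : ∀ᶠ x in 𝓝ˢ (carc x₀ r α β), φ x = 1 := by
    rw [eventually_nhdsSet_iff_forall]
    rintro _ ⟨θ, hθ, rfl⟩
    set θ' := θ - m with hθ'
    have hθm : θ = m + θ' := by rw [hθ']; ring
    have hθh : |θ'| ≤ h := by
      rw [abs_le]
      constructor <;> linarith [hθ.1, hθ.2]
    have hρd : |r - r| < δ := by rw [sub_self, abs_zero]; exact hδ0
    simp only
    rcases lt_or_ge |θ'| (h - s) with h1 | h1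
    · -- the middle part
      have e1 : ∀ᶠ x in 𝓝 (pc x₀ r θ), scW x₀ r α β τ x = 1 := by
        have h2 : (sepN x₀ r α β (pc x₀ r θ)).re < -τ := by
          rw [hθm, hm, sepN_re_pc]
          have hc : Real.cos (h - s) ≤ Real.cos θ' := by
            rw [← Real.cos_abs θ']
            exact Real.cos_le_cos_of_nonneg_of_le_pi (abs_nonneg _) (by linarith) h1.le
          have h3 : Real.cos ((β - α) / 2) * (r ^ 2 + r ^ 2) - 2 * r * r * Real.cos θ' ≤
              -(2 * τ) := by
            rw [hτ, ← hh]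
            nlinarith [mul_le_mul_of_nonneg_left hc (by positivity : 0 ≤ r ^ 2)]
          linarith
        have h3 : Continuous fun x => (sepN x₀ r α β x).re :=
          Complex.continuous_re.comp (sepN_continuous x₀ r α β)
        filter_upwards [h3.continuousAt.eventually_lt continuousAt_const h2] with x hx
        exact (scW_one hτ0 hx.le).1
      have e2 : ∀ᶠ x in 𝓝 (pc x₀ r θ), scZ x₀ r (r * δ) x = 1 := by
        have h3 : Continuous fun x : ℂ => |‖x - x₀‖ ^ 2 - r ^ 2| := by fun_prop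
        have h4 : |‖pc x₀ r θ - x₀‖ ^ 2 - r ^ 2| < r * δ / 2 := by
          rw [sep_norm_pc, sq_abs, sub_self, abs_zero]
          positivity
        filter_upwards [h3.continuousAt.eventually_lt continuousAt_const h4] with x hx
        exact scZ_one (mul_pos hr hδ0) hx.le
      filter_upwards [e1, e2] with x h2 h3
      simp only [hφ, hZf, scZf, h2, h3]
      ring
    · -- near the ends
      have e1 : dist (pc x₀ r θ) a < η / 2 ∨ dist (pc x₀ r θ) b < η / 2 := by
        rcases le_total 0 θ' with h2 | h2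
        · right
          rw [abs_of_nonneg h2] at h1 hθh
          rw [hbdef, sc_dist_pc, abs_of_pos hr]
          have := sc_sin_le (θ - β)
          have h3 : |θ - β| ≤ s := by
            rw [hβe, hθm, abs_le]; constructor <;> linarith
          nlinarith [abs_nonneg (Real.sin ((θ - β) / 2))]
        · left
          rw [abs_of_nonpos h2] at h1 hθh
          rw [hadef, sc_dist_pc, abs_of_pos hr]
          have := sc_sin_le (θ - α)
          have h3 : |θ - α| ≤ s := by
            rw [hαe, hθm, abs_le]; constructor <;> linarith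
          nlinarith [abs_nonneg (Real.sin ((θ - α) / 2))]
      have e2 : ∀ᶠ x in 𝓝 (pc x₀ r θ), dist x a ≤ η / 2 ∨ dist x b ≤ η / 2 := by
        rcases e1 with e1 | e1
        · have : Continuous fun x : ℂ => dist x a := by fun_prop
          filter_upwards [this.continuousAt.eventually_lt continuousAt_const e1] with x hx
          exact Or.inl hx.le
        · have : Continuous fun x : ℂ => dist x b := by fun_prop
          filter_upwards [this.continuousAt.eventually_lt continuousAt_const e1] with x hx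
          exact Or.inr hx.le
      filter_upwards [e2] with x hx
      simp only [hφ, hQ, scP_zero hη hx]
      ring
  have hzero := hflux φ hφs hφc hφU hφ1
  have hinner : ∀ x, inner ℝ (g x) (outer_grad φ x) =
      Q x * fderiv ℝ Zf x (g x) - (1 - Zf x) * fderiv ℝ Q x (g x) := by
    intro x
    rw [real_inner_comm, outer_inner_grad, hφd]
  simp only [hinner] at hzero
  -- integrability
  have hgi : ∀ K, IsCompact K → K ⊆ U → IntegrableOn (fun x => ‖g x‖) K := by
    intro K hK hKU
    refine Integrable.mono' ((hfin K hK hKU).add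
      (integrableOn_const hK.measure_lt_top.ne (C := (1 : ℝ))))
      hgm.norm.aestronglyMeasurable (Eventually.of_forall fun x => ?_)
    rw [norm_norm]
    simp only [Pi.add_apply]
    nlinarith [norm_nonneg (g x), sq_nonneg (‖g x‖ - 1)]
  have hfdm : ∀ f : ℂ → ℝ, ContDiff ℝ ∞ f → Measurable fun x => fderiv ℝ f x (g x) := by
    intro f hf
    have h1 : Measurable fun x => inner ℝ (outer_grad f x) (g x) := by
      refine Measurable.inner ?_ hgm
      unfold outer_grad
      exact ((InnerProductSpace.toDual ℝ ℂ).symm.continuous.comp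
        (hf.continuous_fderiv (by simp))).measurable
    simpa only [outer_inner_grad] using h1
  have hi1 : Integrable fun x => Q x * fderiv ℝ Zf x (g x) := by
    have hT' : ∀ x, x ∉ T → Q x * fderiv ℝ Zf x (g x) = 0 := by
      intro x hx
      have h1 : x ∉ Function.support (fderiv ℝ Zf) := by
        intro h2
        have h3 := support_fderiv_subset ℝ h2
        exact hx (closure_minimal (fun y hy => hZT y hy) hTc.isClosed h3)
      rw [Function.notMem_support] at h1
      rw [h1]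
      simp
    obtain ⟨B, hB⟩ := hTc.exists_bound_of_continuousOn
      (((scZf_smooth x₀ r α β τ δ).continuous_fderiv (by simp)).continuousOn (s := T))
    have h2 : IntegrableOn (fun x => Q x * fderiv ℝ Zf x (g x)) T := by
      refine Integrable.mono' ((hgi T hTc hTU).const_mul B)
        (((scP_smooth a b η).continuous.measurable.mul (hfdm _ (scZf_smooth x₀ r α β τ
          δ))).aestronglyMeasurable) ?_
      filter_upwards [ae_restrict_mem hTc.isClosed.measurableSet] with x hx
      obtain ⟨q0, q1⟩ := scP_mem a b η x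
      rw [norm_mul, Real.norm_of_nonneg q0]
      calc Q x * ‖fderiv ℝ Zf x (g x)‖ ≤ 1 * (‖fderiv ℝ Zf x‖ * ‖g x‖) :=
            mul_le_mul q1 (ContinuousLinearMap.le_opNorm _ _) (norm_nonneg _) zero_le_one
        _ ≤ B * ‖g x‖ := by
            rw [one_mul]
            exact mul_le_mul_of_nonneg_right (hB x hx) (norm_nonneg _)
    exact (integrableOn_iff_integrable_of_support_subset (fun x hx => by
      by_contra hcon
      exact hx (hT' x hcon))).1 h2
  set N : Set ℂ := closedBall a η ∪ closedBall b η with hN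
  have hNc : IsCompact N := (isCompact_closedBall a η).union (isCompact_closedBall b η)
  have hNU : N ⊆ U := subset_union_left.trans hSU
  have hZmem : ∀ x, 0 ≤ Zf x ∧ Zf x ≤ 1 := by
    intro x
    obtain ⟨w0, w1⟩ := scW_mem x₀ r α β τ x
    have z0 : 0 ≤ scZ x₀ r (r * δ) x := scf_nonneg _
    have z1 : scZ x₀ r (r * δ) x ≤ 1 := scf_le_one _
    refine ⟨mul_nonneg w0 z0, ?_⟩
    rw [hZf, scZf]
    nlinarith
  have hbd : ∀ x, ‖(1 - Zf x) * fderiv ℝ Q x (g x)‖ ≤ 4 * C / η * ‖g x‖ := by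
    intro x
    obtain ⟨z0, z1⟩ := hZmem x
    rw [norm_mul, Real.norm_of_nonneg (by linarith : 0 ≤ 1 - Zf x), Real.norm_eq_abs]
    calc (1 - Zf x) * |fderiv ℝ Q x (g x)| ≤ 1 * |fderiv ℝ Q x (g x)| :=
          mul_le_mul_of_nonneg_right (by linarith) (abs_nonneg _)
      _ ≤ _ := by rw [one_mul]; exact scP_fderiv_bound hC a b hη _ _
  have hN' : ∀ x, x ∉ N → (1 - Zf x) * fderiv ℝ Q x (g x) = 0 := by
    intro x hx
    rw [hN, mem_union, not_or, mem_closedBall, mem_closedBall, not_le, not_le] at hx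
    rw [hQ, scP_fderiv_zero hη hx.1.le hx.2.le, mul_zero]
  have hi2' : IntegrableOn (fun x => (1 - Zf x) * fderiv ℝ Q x (g x)) N := by
    refine Integrable.mono' ((hgi N hNc hNU).const_mul (4 * C / η))
      (((contDiff_const.sub (scZf_smooth x₀ r α β τ δ)).continuous.measurable.mul
        (hfdm _ (scP_smooth a b η))).aestronglyMeasurable) (Eventually.of_forall hbd)
  have hi2 : Integrable fun x => (1 - Zf x) * fderiv ℝ Q x (g x) :=
    (integrableOn_iff_integrable_of_support_subset (fun x hx => by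
      by_contra hcon
      exact hx (hN' x hcon))).1 hi2'
  rw [integral_sub hi1.integrableOn hi2.integrableOn] at hzero
  -- the error term
  have herr : |∫ x in V, (1 - Zf x) * fderiv ℝ Q x (g x)| ≤ 16 * C * ε := by
    have e1 : |∫ x in V, (1 - Zf x) * fderiv ℝ Q x (g x)| ≤
        ∫ x, ‖(1 - Zf x) * fderiv ℝ Q x (g x)‖ := by
      rw [← Real.norm_eq_abs]
      refine (norm_integral_le_integral_norm _).trans ?_
      exact setIntegral_le_integral hi2.norm (ae_of_all _ fun _ => norm_nonneg _)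
    have e2 : ∫ x, ‖(1 - Zf x) * fderiv ℝ Q x (g x)‖ =
        ∫ x in N, ‖(1 - Zf x) * fderiv ℝ Q x (g x)‖ := by
      symm
      refine setIntegral_eq_integral_of_forall_compl_eq_zero fun x hx => ?_
      rw [hN' x hx, norm_zero]
    have e3 : ∫ x in N, ‖(1 - Zf x) * fderiv ℝ Q x (g x)‖ ≤ ∫ x in N, 4 * C / η * ‖g x‖ :=
      integral_mono hi2'.norm ((hgi N hNc hNU).const_mul _) hbd
    obtain ⟨ia, ja⟩ := sc_l1 hgm hη hε.le
      ((hfin _ (isCompact_closedBall a Ra) hRaU).mono_set (closedBall_subset_closedBall hηa.le)) hea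
    obtain ⟨ib, jb⟩ := sc_l1 hgm hη hε.le
      ((hfin _ (isCompact_closedBall b Rb) hRbU).mono_set (closedBall_subset_closedBall hηb.le)) heb
    have e4 : ∫ x in N, ‖g x‖ ≤ 4 * (ε * η) := by
      have h5 : ∫ x in N, ‖g x‖ ≤ (∫ x in closedBall a η, ‖g x‖) + ∫ x in closedBall b η, ‖g x‖ := by
        have h6 : volume.restrict N ≤ volume.restrict (closedBall a η) +
            volume.restrict (closedBall b η) := Measure.restrict_union_le _ _
        have h7 := integral_mono_measure (f := fun x => ‖g x‖) h6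
          (ae_of_all _ fun _ => norm_nonneg _) (integrable_add_measure.2 ⟨ia, ib⟩)
        rwa [integral_add_measure ia ib] at h7
      linarith
    calc _ ≤ ∫ x in N, 4 * C / η * ‖g x‖ := by rw [e2] at e1; exact e1.trans e3
      _ = 4 * C / η * ∫ x in N, ‖g x‖ := integral_const_mul _ _
      _ ≤ 4 * C / η * (4 * (ε * η)) := mul_le_mul_of_nonneg_left e4 (by positivity)
      _ = 16 * C * ε := by field_simp; ring
  -- the main term
  have hGi : Integrable (V.indicator fun x => Q x * fderiv ℝ Zf x (g x)) := hi1.indicator hV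
  have hmain := H.side (v := v) (g := g) (W := W) (V := V) hε.le hC hg hv
    (fun ρ θ hρ hθ => by
      have h1 := hW2 ρ (m + θ) (hρ.trans hδ2) (by
        rw [abs_le] at hθ
        constructor <;> linarith [hθ.1, hθ.2])
      exact not_not.1 h1)
    hva hvb (by
      rcases hside' with h1 | h1
      · exact Or.inl fun ρ θ hρ => h1 ρ θ (hρ.trans hδ1)
      · exact Or.inr fun ρ θ hρ => h1 ρ θ (hρ.trans hδ1)) rfl hGi
  rw [integral_indicator hV] at hmain
  have h1 : ∫ x in V, Q x * fderiv ℝ Zf x (g x) = ∫ x in V, (1 - Zf x) * fderiv ℝ Q x (g x) := by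
    linarith
  rw [h1] at hmain
  linarith

end Pool.Agent.MP099f24
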