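import Mathlib
import Pool.Agent.Lib.MP_099f24_an.SC.Ends
import Pool.Agent.Lib.MP_099f24_an.TM.Cor
import Pool.Agent.Lib.MP_099f24_an.TM.Upp
import Pool.Agent.Lib.MP_099f24_an.TM.Neumann
import Pool.Agent.Lib.MP_099f24_an.EA.Comp

/-!
# The conjugate function takes equal values at the ends of a gap (MP_099f24_an)
-/

set_option autoImplicit false

namespace Pool.Agent.MP099f24

open MeasureTheory Filter Topology Set Metric
open scoped ENNReal ContDiff

variable {Ω : Set ℂ} {u w : ℂ → ℝ} {l : ℂ → Set ℂ} {K : Set ℂ}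

theorem sg_meas (w : ℂ → ℝ) : Measurable (cgr w) := by
  unfold cgr
  exact (Complex.measurable_ofReal.comp (measurable_fderiv_apply_const ℝ w 1)).add
    ((Complex.measurable_ofReal.comp (measurable_fderiv_apply_const ℝ w Complex.I)).mul_const _)

/-- the length of a closed arc is finite -/
theorem sg_carc (x₀ : ℂ) {r α β : ℝ} (hr : 0 < r) : (μH[1] : Measure ℂ) (carc x₀ r α β) < ⊤ := by
  refine (measure_mono (?_ : carc x₀ r α β ⊆ sphere x₀ r)).trans_lt
    ((upp_sphere x₀ hr.le).trans_lt ENNReal.ofReal_lt_top)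
  rintro _ ⟨θ, -, rfl⟩
  rw [mem_sphere, dist_eq_norm, sep_norm_pc, abs_of_pos hr]

theorem TConf.isOpen_compl_of_univ (h : TConf univ u l K) : IsOpen Kᶜ := by
  have := h.isOpen_off
  rwa [← compl_eq_univ_sdiff] at this

/-- local square integrability of the gradient -/
theorem TConf.intOn (h : TConf Ω u l K) {C : Set ℂ} (hC : IsCompact C) (hCΩ : C ⊆ Ω) :
    IntegrableOn (fun x => ‖cgr u x‖ ^ 2) C := by
  have hK := h.volume_eq_zero
  have h1 := h.fin C hC hCΩ
  have h2 : ∫⁻ x in C \ K, ‖cgr u x‖ₑ ^ 2 < ⊤ := (self_le_add_right _ _).trans_lt h1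
  have h3 : ∫⁻ x in C, ‖cgr u x‖ₑ ^ 2 < ⊤ := by
    rwa [← setLIntegral_congr (sdiff_null_ae_eq_self (s := C) hK)]
  refine ⟨((sg_meas u).norm.pow_const 2).aestronglyMeasurable, ?_⟩
  rw [HasFiniteIntegral]
  refine lt_of_eq_of_lt (lintegral_congr fun x => ?_) h3
  rw [enorm_pow, enorm_norm]

/-- the energy bound -/
theorem TMin.energy_le (h : TMin Ω u l K) {x : ℂ} {s : ℝ} (hs : 0 < s) (hb : closedBall x s ⊆ Ω) :
    IntegrableOn (fun y => ‖cgr u y‖ ^ 2) (ball x s) ∧
      ∫ y in ball x s, ‖cgr u y‖ ^ 2 ≤ 2 * Real.pi * s := by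
  have hpi := Real.pi_pos
  have h0 := h.toTConf.intOn (isCompact_closedBall x s) hb
  refine ⟨h0.mono_set ball_subset_closedBall, ?_⟩
  have hK := h.toTConf.volume_eq_zero
  have h1 := h.upper hs.le hb
  have h2 : ∫⁻ y in closedBall x s \ K, ‖cgr u y‖ₑ ^ 2 ≤ ENNReal.ofReal (2 * Real.pi * s) :=
    (self_le_add_right _ _).trans h1
  rw [setLIntegral_congr (sdiff_null_ae_eq_self (s := closedBall x s) hK)] at h2
  have h3 : ∫ y in closedBall x s, ‖cgr u y‖ ^ 2 ≤ 2 * Real.pi * s := by
    rw [integral_eq_lintegral_of_nonneg_ae (ae_of_all _ fun y => by positivity)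
      h0.aestronglyMeasurable]
    refine ENNReal.toReal_le_of_le_ofReal (by positivity) ?_
    refine le_trans (le_of_eq (lintegral_congr fun y => ?_)) h2
    rw [ENNReal.ofReal_pow (norm_nonneg _), ofReal_norm]
  exact (setIntegral_mono_set h0 (ae_of_all _ fun _ => by positivity)
    ball_subset_closedBall.eventuallyLE).trans h3

/-- **The conjugate function takes equal values at the ends of a gap** (global version) -/
theorem ts_gap (h : TMin univ u l K)
    (hub : ∀ x ∈ K, ¬ Bornology.IsBounded (connectedComponentIn K x))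
    {v : ℂ → ℝ} (hvc : Continuous v)
    (hv : ∀ x ∉ K, HasFDerivAt v (ilin (Complex.I * cgr u x)) x)
    {x₀ : ℂ} {r α β : ℝ} (hr : 0 < r) (hαβ : α < β) (hβ : β < α + 2 * Real.pi)
    (ha : pc x₀ r α ∈ K) (hb : pc x₀ r β ∈ K) (hI : ∀ θ ∈ Ioo α β, pc x₀ r θ ∉ K) :
    v (pc x₀ r α) = v (pc x₀ r β) := by
  have hKo : IsOpen Kᶜ := h.toTConf.isOpen_compl_of_univ
  have hKc : IsClosed K := ⟨hKo⟩
  obtain ⟨V, V', hV, hV', -, -, hd, h1, -, h2, -, -, -, h4⟩ := sep_global hKc hr hαβ hβ hI
    ⟨_, connectedComponentIn_subset K _, isPreconnected_connectedComponentIn,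
      mem_connectedComponentIn ha, hub _ ha⟩
    ⟨_, connectedComponentIn_subset K _, isPreconnected_connectedComponentIn,
      mem_connectedComponentIn hb, hub _ hb⟩
  refine cj_ends (U := univ) (V := V) (W := Kᶜ) isOpen_univ hV.measurableSet hKo (sg_meas u)
    (fun C hC _ => h.toTConf.intOn hC (subset_univ _)) hvc.continuousOn ?_ hv hr hαβ hβ
    (subset_univ _) hI (Or.inl ?_) ?_
  · have h5 : ContinuousOn (fun x => (starRingEnd ℂ) (cgr u x)) Kᶜ := by
      have := h.hol.continuousOn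
      rwa [← compl_eq_univ_sdiff] at this
    have h6 := Complex.continuous_conj.comp_continuousOn h5
    refine h6.congr fun x _ => ?_
    simp
  · intro α' β' g1 g2
    obtain ⟨δ, d1, d2, d3, d4⟩ := h4 α' β' g1 g2
    exact ⟨δ, d1, d2, d3, (hd.symm).mono_left d4⟩
  · intro φ hφ hc _ h1'
    exact ts_flux h (carc_compact x₀ r α β) (sg_carc x₀ hr) hV h1 h2 hφ hc h1'

/-- **The conjugate function takes equal values at the ends of a gap** (local version): the end
points of the gap are joined by a continuum `C` in `K`, and `C` and the gap are contained in a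
closed disc in `Ω`. -/
theorem ts_gap_local (h : TMin Ω u l K) {v : ℂ → ℝ} {U : Set ℂ} (hU : IsOpen U) (hUΩ : U ⊆ Ω)
    (hvc : ContinuousOn v U)
    (hv : ∀ x ∈ U \ K, HasFDerivAt v (ilin (Complex.I * cgr u x)) x)
    {x₀ : ℂ} {r α β : ℝ} (hr : 0 < r) (hαβ : α < β) (hβ : β < α + 2 * Real.pi)
    (hcU : carc x₀ r α β ⊆ U)
    {C : Set ℂ} (hC : IsCompact C) (hCc : IsPreconnected C) (hCK : C ⊆ K)
    (ha : pc x₀ r α ∈ C) (hb : pc x₀ r β ∈ C) (hI : ∀ θ ∈ Ioo α β, pc x₀ r θ ∉ K)
    {y : ℂ} {ρ : ℝ} (hball : C ∪ carc x₀ r α β ⊆ closedBall y ρ) (hρ : closedBall y ρ ⊆ Ω) :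
    v (pc x₀ r α) = v (pc x₀ r β) := by
  have hUK : IsOpen (U \ K) := by
    have : U \ K = U ∩ (Ω \ K) := by
      ext x
      exact ⟨fun hx => ⟨hx.1, hUΩ hx.1, hx.2⟩, fun hx => ⟨hx.1, hx.2.2⟩⟩
    rw [this]
    exact hU.inter h.isOpen_off
  obtain ⟨V, hV, -, hVb, hVd, hV', hside⟩ := sep_local hC hCc hr hαβ hβ
    (fun θ hθ hc => hI θ hθ (hCK hc)) ha hb hball
  refine cj_ends (U := U) (V := V) (W := U \ K) hU hV.measurableSet hUK (sg_meas u)
    (fun C hC hCU => h.toTConf.intOn hC (hCU.trans hUΩ)) hvc ?_ hv hr hαβ hβ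
    hcU (fun θ hθ => ⟨hcU ⟨θ, Ioo_subset_Icc_self hθ, rfl⟩, hI θ hθ⟩) hside ?_
  · have h5 : ContinuousOn (fun x => (starRingEnd ℂ) (cgr u x)) (U \ K) :=
      h.hol.continuousOn.mono fun x hx => ⟨hUΩ hx.1, hx.2⟩
    have h6 := Complex.continuous_conj.comp_continuousOn h5
    refine h6.congr fun x _ => ?_
    simp
  · intro φ hφ hc hs h1
    -- the test function
    set ψ : ℂ → ℝ := V.indicator fun x => φ x - 1 with hψ
    have hψ1 : ∀ x ∈ Ω \ K, (x ∈ V ∧ ψ =ᶠ[𝓝 x] fun x => φ x - 1) ∨
        (ψ =ᶠ[𝓝 x] fun _ => 0) ∧ (x ∉ V ∨ fderiv ℝ φ x = 0) := by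
      intro x hx
      by_cases hxc : x ∈ carc x₀ r α β
      · right
        have h2 : ∀ᶠ y in 𝓝 x, φ y = 1 := (eventually_nhdsSet_iff_forall.1 h1) x hxc
        refine ⟨?_, Or.inr ?_⟩
        · filter_upwards [h2] with y hy
          by_cases hyV : y ∈ V
          · rw [hψ, indicator_of_mem hyV, hy, sub_self]
          · rw [hψ, indicator_of_notMem hyV]
        · have h3 : φ =ᶠ[𝓝 x] fun _ => 1 := h2
          rw [h3.fderiv_eq]
          simp
      · by_cases hxV : x ∈ V
        · left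
          refine ⟨hxV, ?_⟩
          filter_upwards [hV.mem_nhds hxV] with y hy
          rw [hψ, indicator_of_mem hy]
        · right
          have hxm : x ∈ (C ∪ carc x₀ r α β)ᶜ \ V :=
            ⟨fun h3 => h3.elim (fun h4 => hx.2 (hCK h4)) hxc, hxV⟩
          refine ⟨?_, Or.inl hxV⟩
          filter_upwards [hV'.mem_nhds hxm] with y hy
          rw [hψ, indicator_of_notMem hy.2]
    have hcgr : ∀ x ∈ Ω \ K, cgr ψ x = V.indicator (cgr φ) x := by
      intro x hx
      rcases hψ1 x hx with ⟨hxV, h2⟩ | ⟨h2, h3⟩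
      · rw [indicator_of_mem hxV, cgr_congr h2, cgr, cgr, fderiv_sub_const]
      · rw [cgr_congr h2, cgr_const]
        rcases h3 with h3 | h3
        · rw [indicator_of_notMem h3]
        · by_cases hxV : x ∈ V
          · rw [indicator_of_mem hxV, cgr, h3]
            simp
          · rw [indicator_of_notMem hxV]
    have hKm : MeasurableSet K := h.toTConf.measurableSet
    have hT : TTest Ω K (closedBall y ρ) ψ := by
      refine ⟨isCompact_closedBall y ρ, hρ, ?_, ?_, ?_⟩
      · intro x hx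
        rcases hψ1 x hx with ⟨-, h2⟩ | ⟨h2, -⟩
        · exact (((hφ.of_le (by simp)).sub contDiff_const).contDiffAt.congr_of_eventuallyEq
            h2).contDiffWithinAt
        · exact (contDiffAt_const.congr_of_eventuallyEq h2).contDiffWithinAt
      · intro x hx
        rw [hψ, indicator_of_notMem fun h2 => hx (hVb h2)]
      · obtain ⟨B, hB⟩ := (hc.fderiv (𝕜 := ℝ)).exists_bound_of_continuous
          (hφ.continuous_fderiv (by simp))
        have hB0 : 0 ≤ B := (norm_nonneg _).trans (hB 0)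
        calc ∫⁻ x in closedBall y ρ \ K, ‖cgr ψ x‖ₑ ^ 2
            ≤ ∫⁻ _ in closedBall y ρ \ K, ENNReal.ofReal (B ^ 2) := by
              refine setLIntegral_mono measurable_const fun x hx => ?_
              rw [hcgr x ⟨hρ hx.1, hx.2⟩, ENNReal.ofReal_pow hB0]
              gcongr
              rw [← ofReal_norm]
              refine ENNReal.ofReal_le_ofReal ?_
              refine (norm_indicator_le_norm_self _ _).trans ?_
              rw [cgr_norm]
              exact hB x
          _ < ⊤ := by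
              rw [setLIntegral_const]
              refine ENNReal.mul_lt_top ENNReal.ofReal_lt_top ?_
              exact (measure_mono sdiff_subset).trans_lt
                (isCompact_closedBall y ρ).measure_lt_top
    obtain ⟨-, h2⟩ := h.outer hT
    have hK0 := h.toTConf.volume_eq_zero
    have h3 : ∫ x in closedBall y ρ \ K, inner ℝ (cgr u x) (cgr ψ x) =
        ∫ x in closedBall y ρ \ K, V.indicator (fun x => inner ℝ (cgr u x) (cgr φ x)) x := by
      refine setIntegral_congr_fun (measurableSet_closedBall.diff hKm) fun x hx => ?_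
      rw [hcgr x ⟨hρ hx.1, hx.2⟩]
      by_cases hxV : x ∈ V
      · rw [indicator_of_mem hxV, indicator_of_mem hxV]
      · rw [indicator_of_notMem hxV, indicator_of_notMem hxV, inner_zero_right]
    rw [h3, setIntegral_congr_set (sdiff_null_ae_eq_self hK0), setIntegral_indicator
      hV.measurableSet, inter_eq_right.2 hVb] at h2
    rw [← h2]
    refine integral_congr_ae (ae_of_all _ fun x => ?_)
    simp only
    rw [cgr_eq_outer φ x]

end Pool.Agent.MP099f24
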