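import Pool.Agent.Lib.MP_099f24_an.SC.Morrey
import Pool.Agent.Lib.MP_099f24_an.MolDeriv
import Pool.Agent.Lib.MP_099f24_an.Blowup
import Pool.Agent.Lib.MP_099f24_an.SD.Outer

/-!
# The conjugate function of a divergence-free field of bounded Morrey energy (MP_099f24_an)
-/

namespace Pool.Agent.MP099f24

open MeasureTheory Filter Topology Set Metric
open scoped ENNReal ContDiff Convolution

/-- the mollified field -/
noncomputable def cjG (h : ℂ → ℂ) (ε : ℝ) (x : ℂ) : ℂ := ∫ y, moll y • h (x - ε • y)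

/-- the probability measure with density `moll` -/
noncomputable def mollM : Measure ℂ := volume.withDensity (fun y => ENNReal.ofReal (moll y))

theorem cj_moll_int : Integrable moll := moll_continuous.integrable_of_hasCompactSupport moll_hasCompactSupport

theorem mollM_prob : IsProbabilityMeasure mollM := ⟨by
  rw [mollM, withDensity_apply _ MeasurableSet.univ, Measure.restrict_univ,
    ← ofReal_integral_eq_lintegral_ofReal cj_moll_int (Eventually.of_forall moll_nonneg),
    moll_integral, ENNReal.ofReal_one]⟩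

theorem mollM_ae : ∀ᵐ y ∂mollM, ‖y‖ < 1 := by
  rw [mollM, ae_withDensity_iff moll_continuous.measurable.ennreal_ofReal]
  refine Eventually.of_forall fun y hy => ?_
  have h1 : y ∈ Function.support moll := by
    intro h
    rw [h, ENNReal.ofReal_zero] at hy
    exact hy rfl
  rw [moll_support, mem_ball_zero_iff] at h1
  exact h1

theorem integral_mollM {E : Type*} [NormedAddCommGroup E] [NormedSpace ℝ E] (f : ℂ → E) :
    ∫ y, f y ∂mollM = ∫ y, moll y • f y := by
  rw [mollM, integral_withDensity_eq_integral_toReal_smul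
    moll_continuous.measurable.ennreal_ofReal (Eventually.of_forall fun _ => ENNReal.ofReal_lt_top)]
  refine integral_congr_ae (Eventually.of_forall fun y => ?_)
  simp only
  rw [ENNReal.toReal_ofReal (moll_nonneg y)]

theorem cjG_eq (h : ℂ → ℂ) (ε : ℝ) (x : ℂ) : cjG h ε x = ∫ y, h (x - ε • y) ∂mollM :=
  (integral_mollM _).symm

/-- Jensen -/
theorem cjG_sq (h : ℂ → ℂ) (hm : Measurable h) (ε : ℝ) (x : ℂ) :
    ‖cjG h ε x‖ₑ ^ 2 ≤ ∫⁻ y, ‖h (x - ε • y)‖ₑ ^ 2 ∂mollM := by
  have := mollM_prob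
  have hm' : Measurable fun y => h (x - ε • y) := hm.comp (by fun_prop)
  have h1 : ‖cjG h ε x‖ₑ ≤ eLpNorm (fun y => h (x - ε • y)) 1 mollM := by
    rw [cjG_eq, eLpNorm_one_eq_lintegral_enorm]
    exact enorm_integral_le_lintegral_enorm _
  have h2 : eLpNorm (fun y => h (x - ε • y)) 1 mollM ≤ eLpNorm (fun y => h (x - ε • y)) 2 mollM :=
    eLpNorm_le_eLpNorm_of_exponent_le (by norm_num) hm'.aestronglyMeasurable
  have h3 : eLpNorm (fun y => h (x - ε • y)) 2 mollM ^ 2 = ∫⁻ y, ‖h (x - ε • y)‖ₑ ^ 2 ∂mollM := by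
    rw [eLpNorm_eq_lintegral_rpow_enorm_toReal (by norm_num) (by norm_num)]
    rw [← ENNReal.rpow_natCast, ← ENNReal.rpow_mul]
    norm_num
  calc ‖cjG h ε x‖ₑ ^ 2 ≤ eLpNorm (fun y => h (x - ε • y)) 2 mollM ^ 2 := by
        gcongr
        exact h1.trans h2
    _ = _ := h3

theorem cj_shift {F : ℂ → ℝ≥0∞} (z a : ℂ) (s : ℝ) :
    ∫⁻ x in ball z s, F (x - a) = ∫⁻ x in ball (z - a) s, F x := by
  rw [← lintegral_indicator measurableSet_ball, ← lintegral_indicator measurableSet_ball,
    ← lintegral_sub_right_eq_self (fun x => (ball (z - a) s).indicator F x) a]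
  congr 1
  funext x
  by_cases hx : x ∈ ball z s
  · have hx' : x - a ∈ ball (z - a) s := by
      rw [mem_ball, dist_eq_norm] at hx ⊢
      rwa [sub_sub_sub_cancel_right]
    rw [indicator_of_mem hx, indicator_of_mem hx']
  · have hx' : x - a ∉ ball (z - a) s := by
      rw [mem_ball, dist_eq_norm] at hx ⊢
      rwa [sub_sub_sub_cancel_right]
    rw [indicator_of_notMem hx, indicator_of_notMem hx']

/-- energy of the mollified field -/
theorem cjG_energy {h : ℂ → ℂ} (hm : Measurable h) {ε s : ℝ} (hε : 0 ≤ ε) {z : ℂ} {A : ℝ≥0∞}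
    (hE : ∀ z', dist z' z ≤ ε → ∫⁻ x in ball z' s, ‖h x‖ₑ ^ 2 ≤ A) :
    ∫⁻ x in ball z s, ‖cjG h ε x‖ₑ ^ 2 ≤ A := by
  have := mollM_prob
  have hm2 : Measurable fun p : ℂ × ℂ => ‖h (p.1 - ε • p.2)‖ₑ ^ 2 := by
    refine Measurable.pow_const ?_ 2
    exact (hm.comp (by fun_prop)).enorm
  calc ∫⁻ x in ball z s, ‖cjG h ε x‖ₑ ^ 2
      ≤ ∫⁻ x in ball z s, ∫⁻ y, ‖h (x - ε • y)‖ₑ ^ 2 ∂mollM :=
        lintegral_mono fun x => cjG_sq h hm ε x
    _ = ∫⁻ y, (∫⁻ x in ball z s, ‖h (x - ε • y)‖ₑ ^ 2) ∂mollM :=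
        lintegral_lintegral_swap hm2.aemeasurable
    _ ≤ ∫⁻ y, A ∂mollM := by
        refine lintegral_mono_ae ?_
        filter_upwards [mollM_ae] with y hy
        rw [cj_shift (F := fun x => ‖h x‖ₑ ^ 2)]
        refine hE _ ?_
        rw [dist_eq_norm, sub_sub_cancel_left, norm_neg, norm_smul, Real.norm_eq_abs, abs_of_nonneg hε]
        nlinarith [norm_nonneg y]
    _ = A := by rw [lintegral_const, measure_univ, mul_one]

theorem cj_transl {h : ℂ → ℂ} (hi : Integrable h) :
    Tendsto (fun a : ℂ => ∫⁻ x, ‖h (x - a) - h x‖ₑ) (𝓝 0) (𝓝 0) := by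
  have hL : MemLp h 1 volume := memLp_one_iff_integrable.2 hi
  let gm : ℂ → C(ℂ, ℂ) := fun a => ⟨fun x => x - a, by fun_prop⟩
  have hg : Continuous gm := by
    have h1 : Continuous fun p : ℂ × ℂ => p.2 - p.1 := by fun_prop
    exact (ContinuousMap.curry ⟨fun p : ℂ × ℂ => p.2 - p.1, h1⟩).continuous
  have hgm : ∀ a, MeasurePreserving (gm a) volume volume := fun a => measurePreserving_sub_right volume a
  have h1 := (Continuous.compMeasurePreservingLp (f := fun _ : ℂ => hL.toLp h) continuous_const hg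
    hgm (by norm_num)).tendsto 0
  rw [tendsto_iff_edist_tendsto_0] at h1
  refine h1.congr fun a => ?_
  rw [Lp.toLp_compMeasurePreserving, Lp.toLp_compMeasurePreserving, Lp.edist_toLp_toLp,
    eLpNorm_one_eq_lintegral_enorm]
  refine lintegral_congr fun x => ?_
  change ‖h (x - a) - h (x - 0)‖ₑ = _
  rw [sub_zero]

theorem cj_int_M {h : ℂ → ℂ} (hi : Integrable h) {ε : ℝ} (hε : 0 < ε) (x : ℂ) :
    Integrable (fun y => h (x - ε • y)) mollM := by
  have h1 : Integrable (fun y => h (x - ε • y)) := by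
    have h2 : Integrable (fun y => h (x - y)) := hi.comp_sub_left x
    exact h2.comp_smul hε.ne'
  obtain ⟨M, hM0, hM⟩ := bl_moll_bound
  have h3 : Integrable (fun y => moll y • h (x - ε • y)) := by
    refine h1.bdd_smul M moll_continuous.aestronglyMeasurable (Eventually.of_forall fun y => ?_)
    rw [Real.norm_eq_abs, abs_of_nonneg (moll_nonneg y)]
    exact hM y
  rw [mollM, integrable_withDensity_iff_integrable_smul' moll_continuous.measurable.ennreal_ofReal
    (Eventually.of_forall fun _ => ENNReal.ofReal_lt_top)]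
  refine h3.congr (Eventually.of_forall fun y => ?_)
  simp only
  rw [ENNReal.toReal_ofReal (moll_nonneg y)]

theorem cjG_sub {h : ℂ → ℂ} (hi : Integrable h) {ε : ℝ} (hε : 0 < ε) (x : ℂ) :
    cjG h ε x - h x = ∫ y, (h (x - ε • y) - h x) ∂mollM := by
  have := mollM_prob
  rw [integral_sub (cj_int_M hi hε x) (integrable_const _), integral_const, probReal_univ, one_smul,
    cjG_eq]

theorem cjG_L1 {h : ℂ → ℂ} (hm : Measurable h) (hi : Integrable h) :
    Tendsto (fun ε : ℝ => ∫⁻ x, ‖cjG h ε x - h x‖ₑ) (𝓝[>] 0) (𝓝 0) := by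
  have := mollM_prob
  rw [ENNReal.tendsto_nhds_zero]
  intro η hη
  have h1 := (ENNReal.tendsto_nhds_zero.1 (cj_transl hi)) η hη
  obtain ⟨δ, hδ, h2⟩ := Metric.eventually_nhds_iff.1 h1
  filter_upwards [Ioo_mem_nhdsGT hδ] with ε hε
  have hm2 : Measurable fun p : ℂ × ℂ => ‖h (p.1 - ε • p.2) - h p.1‖ₑ :=
    ((hm.comp (by fun_prop)).sub (hm.comp measurable_fst)).enorm
  calc ∫⁻ x, ‖cjG h ε x - h x‖ₑ
      ≤ ∫⁻ x, ∫⁻ y, ‖h (x - ε • y) - h x‖ₑ ∂mollM := by
        refine lintegral_mono fun x => ?_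
        rw [cjG_sub hi hε.1]
        exact enorm_integral_le_lintegral_enorm _
    _ = ∫⁻ y, (∫⁻ x, ‖h (x - ε • y) - h x‖ₑ) ∂mollM :=
        lintegral_lintegral_swap hm2.aemeasurable
    _ ≤ ∫⁻ y, η ∂mollM := by
        refine lintegral_mono_ae ?_
        filter_upwards [mollM_ae] with y hy
        refine h2 ?_
        rw [dist_zero_right, norm_smul, Real.norm_eq_abs, abs_of_pos hε.1]
        nlinarith [norm_nonneg y, hε.1, hε.2]
    _ = η := by rw [lintegral_const, measure_univ, mul_one]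

/-- convergence at continuity points, uniformly nearby -/
theorem cjG_near {g : ℂ → ℂ} (hm : Measurable g) {x : ℂ} {c δ : ℝ}
    (hc : ∀ y, dist y x < 2 * δ → dist (g y) (g x) ≤ c) {ε : ℝ} (hε : 0 < ε) (hεδ : ε < δ) {y : ℂ}
    (hy : dist y x < δ) : dist (cjG g ε y) (g y) ≤ 2 * c := by
  have := mollM_prob
  have h1 : ∀ᵐ z ∂mollM, dist (g (y - ε • z)) (g y) ≤ 2 * c := by
    filter_upwards [mollM_ae] with z hz
    have h2 : dist (y - ε • z) x < 2 * δ := by
      calc dist (y - ε • z) x ≤ dist (y - ε • z) y + dist y x := dist_triangle _ _ _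
        _ < δ + δ := by
          refine add_lt_add ?_ hy
          rw [dist_eq_norm, sub_sub_cancel_left, norm_neg, norm_smul, Real.norm_eq_abs, abs_of_pos hε]
          nlinarith [norm_nonneg z]
        _ = 2 * δ := by ring
    have h3 := hc _ h2
    have h4 := hc y (by linarith [dist_nonneg (x := y) (y := x)])
    calc dist (g (y - ε • z)) (g y) ≤ dist (g (y - ε • z)) (g x) + dist (g x) (g y) :=
          dist_triangle _ _ _
      _ ≤ c + c := by
          rw [dist_comm (g x)]
          exact add_le_add h3 h4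
      _ = 2 * c := by ring
  have hi : Integrable (fun z => g (y - ε • z)) mollM := by
    refine Integrable.of_bound ((hm.comp (by fun_prop)).aestronglyMeasurable) (2 * c + ‖g y‖) ?_
    filter_upwards [h1] with z hz
    rw [dist_eq_norm] at hz
    calc ‖g (y - ε • z)‖ = ‖(g (y - ε • z) - g y) + g y‖ := by rw [sub_add_cancel]
      _ ≤ ‖g (y - ε • z) - g y‖ + ‖g y‖ := norm_add_le _ _
      _ ≤ _ := by linarith
  have h5 : cjG g ε y - g y = ∫ z, (g (y - ε • z) - g y) ∂mollM := by
    rw [integral_sub hi (integrable_const _), integral_const, probReal_univ, one_smul, cjG_eq]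
  rw [dist_eq_norm, h5]
  refine (norm_integral_le_of_norm_le_const (C := 2 * c) ?_).trans ?_
  · filter_upwards [h1] with z hz
    rwa [dist_eq_norm] at hz
  · rw [probReal_univ, mul_one]

/-- the map `(z, s) ↦ s z` -/
noncomputable def cj_L : ℂ →L[ℝ] ℝ →L[ℝ] ℂ := (ContinuousLinearMap.lsmul ℝ ℝ).flip

theorem cjG_conv (h : ℂ → ℂ) {ε : ℝ} (hε : 0 < ε) : cjG h ε = (h ⋆[cj_L, volume] md_mε ε) := by
  funext x
  rw [convolution_def]
  have h1 : (∫ t, cj_L (h t) (md_mε ε (x - t))) = ∫ y, md_mε ε y • h (x - y) := by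
    rw [← integral_sub_left_eq_self (fun y => md_mε ε y • h (x - y)) volume x]
    refine integral_congr_ae (Eventually.of_forall fun t => ?_)
    simp only [sub_sub_cancel]
    rfl
  rw [h1]
  have h2 := Measure.integral_comp_smul (volume : Measure ℂ) (fun y => md_mε ε y • h (x - y)) ε
  rw [Complex.finrank_real_complex] at h2
  have h3 : ∀ z : ℂ, md_mε ε (ε • z) • h (x - ε • z) = ε⁻¹ ^ 2 • (moll z • h (x - ε • z)) := by
    intro z
    unfold md_mε
    rw [smul_smul ε⁻¹ ε z, inv_mul_cancel₀ hε.ne', one_smul, mul_smul]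
  simp only [h3] at h2
  rw [integral_smul, abs_of_pos (by positivity), ← inv_pow] at h2
  have h4 : ε⁻¹ ^ 2 ≠ 0 := by positivity
  exact smul_right_injective ℂ h4 h2

theorem cjG_smooth {h : ℂ → ℂ} (hi : Integrable h) {ε : ℝ} (hε : 0 < ε) :
    ContDiff ℝ ∞ (cjG h ε) := by
  rw [cjG_conv h hε]
  exact (md_hasCompactSupport hε).contDiff_convolution_right _ hi.locallyIntegrable (md_contDiff ε)

theorem cjG_fderiv {h : ℂ → ℂ} (hi : Integrable h) {ε : ℝ} (hε : 0 < ε) (x v : ℂ) :
    fderiv ℝ (cjG h ε) x v = ∫ t, (fderiv ℝ (md_mε ε) (x - t) v) • h t := by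
  have hC1 : ContDiff ℝ 1 (md_mε ε) := (md_contDiff ε).of_le (by simp)
  have h1 := (md_hasCompactSupport hε).hasFDerivAt_convolution_right cj_L hi.locallyIntegrable
    hC1 x (μ := volume)
  rw [← cjG_conv h hε] at h1
  rw [h1.fderiv, convolution_precompR_apply _ hi.locallyIntegrable
    ((md_hasCompactSupport hε).fderiv ℝ) (hC1.continuous_fderiv (by norm_num)) x v]
  rfl

theorem cj_fd (φ : ℂ → ℝ) (x z : ℂ) :
    fderiv ℝ φ x z = z.re * fderiv ℝ φ x 1 + z.im * fderiv ℝ φ x Complex.I := by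
  have h1 : z = z.re • (1 : ℂ) + z.im • Complex.I := by
    apply Complex.ext <;> simp
  conv_lhs => rw [h1, map_add, map_smul, map_smul]
  simp

theorem cjG_div {h : ℂ → ℂ} (hi : Integrable h) {ε : ℝ} (hε : 0 < ε) {x : ℂ}
    (h0 : ∫ t, inner ℝ (h t) (outer_grad (fun y => md_mε ε (x - y)) t) = 0) :
    (fderiv ℝ (cjG h ε) x 1).re + (fderiv ℝ (cjG h ε) x Complex.I).im = 0 := by
  have hC1 : ContDiff ℝ 1 (md_mε ε) := (md_contDiff ε).of_le (by simp)
  have hcont : ∀ v : ℂ, Continuous fun t => fderiv ℝ (md_mε ε) (x - t) v := fun v =>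
    ((hC1.continuous_fderiv (by norm_num)).comp (by fun_prop)).clm_apply continuous_const
  have hsupp : ∀ v : ℂ, HasCompactSupport fun t => fderiv ℝ (md_mε ε) (x - t) v := by
    intro v
    have h1 : HasCompactSupport fun t => fderiv ℝ (md_mε ε) t v :=
      (md_hasCompactSupport hε).fderiv_apply (𝕜 := ℝ) v
    exact h1.comp_homeomorph (Homeomorph.subLeft x)
  have hint : ∀ v : ℂ, Integrable fun t => (fderiv ℝ (md_mε ε) (x - t) v) • h t := by
    intro v
    obtain ⟨C, hC⟩ := (hsupp v).exists_bound_of_continuous (hcont v)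
    exact hi.bdd_smul C (hcont v).aestronglyMeasurable (Eventually.of_forall hC)
  have e1 : (fderiv ℝ (cjG h ε) x 1).re =
      ∫ t, ((fderiv ℝ (md_mε ε) (x - t) 1) • h t).re := by
    rw [cjG_fderiv hi hε]
    exact (Complex.reCLM.integral_comp_comm (hint 1)).symm
  have e2 : (fderiv ℝ (cjG h ε) x Complex.I).im =
      ∫ t, ((fderiv ℝ (md_mε ε) (x - t) Complex.I) • h t).im := by
    rw [cjG_fderiv hi hε]
    exact (Complex.imCLM.integral_comp_comm (hint Complex.I)).symm
  have i1 : Integrable fun t => ((fderiv ℝ (md_mε ε) (x - t) 1) • h t).re :=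
    Complex.reCLM.integrable_comp (hint 1)
  have i2 : Integrable fun t => ((fderiv ℝ (md_mε ε) (x - t) Complex.I) • h t).im :=
    Complex.imCLM.integrable_comp (hint Complex.I)
  rw [e1, e2, ← integral_add i1 i2, ← neg_eq_zero, ← integral_neg, ← h0]
  refine integral_congr_ae (Eventually.of_forall fun t => ?_)
  simp only
  rw [real_inner_comm, outer_inner_grad]
  have hφd : ∀ v, fderiv ℝ (fun y => md_mε ε (x - y)) t v = - fderiv ℝ (md_mε ε) (x - t) v := by
    intro v
    have h1 : HasFDerivAt (md_mε ε) (fderiv ℝ (md_mε ε) (x - t)) (x - t) :=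
      (hC1.differentiable (by norm_num) _).hasFDerivAt
    have h2 : HasFDerivAt (fun y : ℂ => x - y) (-ContinuousLinearMap.id ℝ ℂ) t :=
      (hasFDerivAt_id t).const_sub x
    have h3 := h1.comp t h2
    have h4 : fderiv ℝ (fun y => md_mε ε (x - y)) t =
        (fderiv ℝ (md_mε ε) (x - t)).comp (-ContinuousLinearMap.id ℝ ℂ) := h3.fderiv
    rw [h4]
    simp
  rw [hφd, cj_fd _ _ (h t), Complex.smul_re, Complex.smul_im]
  simp only [smul_eq_mul]
  ring

theorem cj_primitive {G : ℂ → ℂ} (hG : ContDiff ℝ ∞ G) {x₀ : ℂ} {ρ : ℝ}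
    (hd : ∀ x ∈ ball x₀ ρ, (fderiv ℝ G x 1).re + (fderiv ℝ G x Complex.I).im = 0) :
    ∀ z ∈ ball x₀ ρ, HasFDerivAt (fun z => ∫ t in (0 : ℝ)..1,
      inner ℝ (Complex.I * G (x₀ + t • (z - x₀))) (z - x₀)) (ilin (Complex.I * G z)) z := by
  set om : ℂ → ℂ →L[ℝ] ℝ := fun x => ilin (Complex.I * G x) with hom
  have hGd : Differentiable ℝ G := hG.differentiable (by simp)
  have homd : ∀ a, HasFDerivAt om ((innerSL ℝ : ℂ →L[ℝ] ℂ →L[ℝ] ℝ).comp
      ((ContinuousLinearMap.mul ℝ ℂ Complex.I).comp (fderiv ℝ G a))) a := by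
    intro a
    exact (innerSL ℝ : ℂ →L[ℝ] ℂ →L[ℝ] ℝ).hasFDerivAt.comp a
      ((ContinuousLinearMap.mul ℝ ℂ Complex.I).hasFDerivAt.comp a (hGd a).hasFDerivAt)
  have hdo : DifferentiableOn ℝ om (ball x₀ ρ) :=
    fun a _ => (homd a).differentiableAt.differentiableWithinAt
  obtain ⟨f, hf⟩ := (convex_ball x₀ ρ).exists_forall_hasFDerivAt_of_fderiv_symmetric isOpen_ball
    hdo (by
      intro a ha x y
      rw [(homd a).fderiv]
      change inner ℝ (Complex.I * fderiv ℝ G a x) y = inner ℝ (Complex.I * fderiv ℝ G a y) x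
      have e : ∀ v : ℂ, fderiv ℝ G a v = v.re • fderiv ℝ G a 1 + v.im • fderiv ℝ G a Complex.I := by
        intro v
        have h1 : v = v.re • (1 : ℂ) + v.im • Complex.I := by
          apply Complex.ext <;> simp
        conv_lhs => rw [h1, map_add, map_smul, map_smul]
      rw [e x, e y]
      have h2 := hd a ha
      generalize fderiv ℝ G a 1 = P at h2
      generalize fderiv ℝ G a Complex.I = Q at h2
      simp only [Complex.inner, Complex.mul_re, Complex.conj_re, Complex.conj_im, Complex.mul_im,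
        Complex.I_re, Complex.I_im, Complex.add_re, Complex.add_im, Complex.smul_re,
        Complex.smul_im, smul_eq_mul]
      linear_combination (x.re * y.im - x.im * y.re) * h2)
  have homc : Continuous om := by
    rw [continuous_iff_continuousAt]
    exact fun a => (homd a).continuousAt
  have hF : ∀ z ∈ ball x₀ ρ, (∫ t in (0 : ℝ)..1,
      inner ℝ (Complex.I * G (x₀ + t • (z - x₀))) (z - x₀)) = f z - f x₀ := by
    intro z hz
    have hseg : ∀ t ∈ uIcc (0 : ℝ) 1, x₀ + t • (z - x₀) ∈ ball x₀ ρ := by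
      intro t ht
      rw [uIcc_of_le zero_le_one] at ht
      rw [mem_ball, dist_eq_norm, add_sub_cancel_left, norm_smul, Real.norm_eq_abs,
        abs_of_nonneg ht.1]
      rw [mem_ball, dist_eq_norm] at hz
      calc t * ‖z - x₀‖ ≤ 1 * ‖z - x₀‖ := mul_le_mul_of_nonneg_right ht.2 (norm_nonneg _)
        _ < ρ := by rwa [one_mul]
    have hder : ∀ t ∈ uIcc (0 : ℝ) 1, HasDerivAt (fun t : ℝ => f (x₀ + t • (z - x₀)))
        (inner ℝ (Complex.I * G (x₀ + t • (z - x₀))) (z - x₀)) t := by
      intro t ht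
      have h1 := hf _ (hseg t ht)
      have h2 : HasDerivAt (fun t : ℝ => x₀ + t • (z - x₀)) (z - x₀) t := by
        have := ((hasDerivAt_id t).smul_const (z - x₀)).const_add x₀
        simpa using this
      exact h1.comp_hasDerivAt t h2
    have hci : Continuous fun t : ℝ => inner ℝ (Complex.I * G (x₀ + t • (z - x₀))) (z - x₀) := by
      have := hG.continuous
      fun_prop
    have hftc := intervalIntegral.integral_eq_sub_of_hasDerivAt hder (hci.intervalIntegrable _ _)
    simp only [one_smul, add_sub_cancel, zero_smul, add_zero] at hftc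
    exact hftc
  intro z hz
  refine ((hf z hz).sub_const (f x₀)).congr_of_eventuallyEq ?_
  filter_upwards [isOpen_ball.mem_nhds hz] with y hy
  exact hF y hy

theorem cj_tr_pre (q : ℂ) (s : ℝ) : (fun y => q + y) ⁻¹' ball q s = ball 0 s := by
  ext y
  rw [mem_preimage, mem_ball, mem_ball, dist_eq_norm, add_sub_cancel_left, dist_zero_right]

theorem cj_tr (f : ℂ → ℝ) (q : ℂ) (s : ℝ) : ∫ y in ball 0 s, f (q + y) = ∫ z in ball q s, f z := by
  have h := (measurePreserving_add_left volume q).setIntegral_preimage_emb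
    (measurableEmbedding_addLeft q) f (ball q s)
  rwa [cj_tr_pre] at h

theorem cj_tr_int {f : ℂ → ℝ} {q : ℂ} {s : ℝ} (h : IntegrableOn f (ball q s)) :
    IntegrableOn (fun y => f (q + y)) (ball 0 s) := by
  have h1 := ((measurePreserving_add_left volume q).integrableOn_comp_preimage
    (measurableEmbedding_addLeft q) (f := f) (s := ball q s)).2 h
  rw [cj_tr_pre] at h1
  exact h1

/-- difference of the averages -/
theorem cj_avg_diff {w : ℂ → ℝ} {H : ℂ → ℂ} (hH : Continuous H) {x₀ : ℂ} {ρ : ℝ}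
    (hw : ∀ z ∈ ball x₀ ρ, HasFDerivAt w (ilin (H z)) z) {p q : ℂ} {s : ℝ}
    (hp : ball p s ⊆ ball x₀ ρ) (hq : ball q s ⊆ ball x₀ ρ) :
    ∫ y in ball 0 s, |w (q + y) - w (p + y)| ≤ dist p q * ∫ z in ball x₀ ρ, ‖H z‖ := by
  set f : ℂ → ℝ → ℝ := fun y t => ‖H (p + t • (q - p) + y)‖ with hf
  have hfc : Continuous (Function.uncurry f) := by
    have : Continuous fun z : ℂ × ℝ => ‖H (p + z.2 • (q - p) + z.1)‖ := by fun_prop
    exact this
  have hmem : ∀ y ∈ ball (0 : ℂ) s, ∀ t ∈ Icc (0 : ℝ) 1, p + t • (q - p) + y ∈ ball x₀ ρ := by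
    intro y hy t ht
    have h1 : p + y ∈ ball x₀ ρ := hp (by
      rw [mem_ball, dist_eq_norm, add_sub_cancel_left]; rwa [mem_ball_zero_iff] at hy)
    have h2 : q + y ∈ ball x₀ ρ := hq (by
      rw [mem_ball, dist_eq_norm, add_sub_cancel_left]; rwa [mem_ball_zero_iff] at hy)
    have h3 := (convex_ball x₀ ρ) h1 h2 (a := 1 - t) (b := t) (by linarith [ht.2]) ht.1 (by ring)
    have h4 : (1 - t) • (p + y) + t • (q + y) = p + t • (q - p) + y := by
      simp only [Complex.real_smul]
      push_cast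
      ring
    rwa [h4] at h3
  have hpt : ∀ y ∈ ball (0 : ℂ) s, |w (q + y) - w (p + y)| ≤
      dist p q * ∫ t in (0 : ℝ)..1, f y t := by
    intro y hy
    have hder : ∀ t ∈ uIcc (0 : ℝ) 1, HasDerivAt (fun t : ℝ => w (p + t • (q - p) + y))
        (inner ℝ (H (p + t • (q - p) + y)) (q - p)) t := by
      intro t ht
      rw [uIcc_of_le zero_le_one] at ht
      have h1 := hw _ (hmem y hy t ht)
      have h2 : HasDerivAt (fun t : ℝ => p + t • (q - p) + y) (q - p) t := by
        have := (((hasDerivAt_id t).smul_const (q - p)).const_add p).add_const y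
        simpa using this
      exact h1.comp_hasDerivAt t h2
    have hci : Continuous fun t : ℝ => inner ℝ (H (p + t • (q - p) + y)) (q - p) := by fun_prop
    have hftc := intervalIntegral.integral_eq_sub_of_hasDerivAt hder (hci.intervalIntegrable _ _)
    simp only [one_smul, add_sub_cancel, zero_smul, add_zero] at hftc
    have h3 : |w (q + y) - w (p + y)| =
        ‖∫ t in (0 : ℝ)..1, inner ℝ (H (p + t • (q - p) + y)) (q - p)‖ := by
      rw [hftc, Real.norm_eq_abs]
    rw [h3, ← intervalIntegral.integral_const_mul]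
    refine (intervalIntegral.norm_integral_le_integral_norm zero_le_one).trans ?_
    refine intervalIntegral.integral_mono_on zero_le_one (hci.norm.intervalIntegrable _ _)
      ((Continuous.intervalIntegrable (by fun_prop) _ _)) ?_
    intro t _
    refine (norm_inner_le_norm _ _).trans ?_
    rw [mul_comm, dist_comm, dist_eq_norm]
  have hI : Integrable (Function.uncurry f)
      ((volume.restrict (ball 0 s)).prod (volume.restrict (uIoc (0 : ℝ) 1))) := by
    rw [Measure.prod_restrict]
    have h1 : IntegrableOn (Function.uncurry f) (closedBall 0 s ×ˢ Icc (0 : ℝ) 1)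
        ((volume : Measure ℂ).prod (volume : Measure ℝ)) :=
      hfc.continuousOn.integrableOn_compact ((isCompact_closedBall 0 s).prod isCompact_Icc)
    refine h1.mono_set (prod_mono ball_subset_closedBall ?_)
    rw [uIoc_of_le zero_le_one]
    exact Ioc_subset_Icc_self
  have hI1 : Integrable (fun y => ∫ t in (0 : ℝ)..1, f y t) (volume.restrict (ball 0 s)) := by
    have := hI.integral_prod_left
    simpa only [Function.uncurry, intervalIntegral.integral_of_le zero_le_one,
      uIoc_of_le (zero_le_one : (0 : ℝ) ≤ 1)] using this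
  have hwc : ContinuousOn (fun y => |w (q + y) - w (p + y)|) (ball 0 s) := by
    refine ContinuousOn.abs (ContinuousOn.sub ?_ ?_)
    · intro y hy
      have h2 : q + y ∈ ball x₀ ρ := hq (by
        rw [mem_ball, dist_eq_norm, add_sub_cancel_left]; rwa [mem_ball_zero_iff] at hy)
      exact ((hw _ h2).continuousAt.comp (by fun_prop : ContinuousAt (fun y => q + y) y)).continuousWithinAt
    · intro y hy
      have h2 : p + y ∈ ball x₀ ρ := hp (by
        rw [mem_ball, dist_eq_norm, add_sub_cancel_left]; rwa [mem_ball_zero_iff] at hy)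
      exact ((hw _ h2).continuousAt.comp (by fun_prop : ContinuousAt (fun y => p + y) y)).continuousWithinAt
  have hint : IntegrableOn (fun y => |w (q + y) - w (p + y)|) (ball 0 s) := by
    refine Integrable.mono' (hI1.const_mul (dist p q)) (hwc.aestronglyMeasurable measurableSet_ball) ?_
    filter_upwards [ae_restrict_mem measurableSet_ball] with y hy
    rw [Real.norm_eq_abs, abs_abs]
    exact hpt y hy
  have h1 : ∫ y in ball 0 s, |w (q + y) - w (p + y)| ≤
      dist p q * ∫ y in ball 0 s, ∫ t in (0 : ℝ)..1, f y t := by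
    rw [← integral_const_mul]
    exact setIntegral_mono_on hint (hI1.const_mul _) measurableSet_ball hpt
  have h2 : ∫ y in ball 0 s, ∫ t in (0 : ℝ)..1, f y t =
      ∫ t in (0 : ℝ)..1, ∫ y in ball 0 s, f y t := by
    simp only [intervalIntegral.integral_of_le (zero_le_one : (0 : ℝ) ≤ 1)]
    rw [uIoc_of_le (zero_le_one : (0 : ℝ) ≤ 1)] at hI
    exact integral_integral_swap hI
  have hHi : IntegrableOn (fun z => ‖H z‖) (ball x₀ ρ) :=
    (hH.norm.continuousOn.integrableOn_compact (isCompact_closedBall x₀ ρ)).mono_set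
      ball_subset_closedBall
  have h3 : ∫ t in (0 : ℝ)..1, ∫ y in ball 0 s, f y t ≤ ∫ t in (0 : ℝ)..1, ∫ z in ball x₀ ρ, ‖H z‖ := by
    have hL : IntervalIntegrable (fun t => ∫ y in ball 0 s, f y t) volume 0 1 := by
      rw [intervalIntegrable_iff]
      exact hI.integral_prod_right
    refine intervalIntegral.integral_mono_on zero_le_one hL (intervalIntegrable_const) ?_
    intro t ht
    simp only [hf]
    rw [cj_tr (fun z => ‖H z‖) (p + t • (q - p)) s]
    have hsub : ball (p + t • (q - p)) s ⊆ ball x₀ ρ := by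
      intro z hz
      have := hmem (z - (p + t • (q - p))) (by
        rw [mem_ball_zero_iff, ← dist_eq_norm]; exact hz) t ht
      rw [add_sub_cancel] at this
      exact this
    exact setIntegral_mono_set hHi (ae_of_all _ fun _ => norm_nonneg _) hsub.eventuallyLE
  rw [intervalIntegral.integral_const, sub_zero, one_smul] at h3
  refine h1.trans (mul_le_mul_of_nonneg_left ?_ dist_nonneg)
  rw [h2]
  exact h3

theorem cj_two {w : ℂ → ℝ} {H : ℂ → ℂ} (hH : Continuous H) {x₀ : ℂ} {ρ M : ℝ} (hM : 0 ≤ M)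
    (hw : ∀ z ∈ ball x₀ ρ, HasFDerivAt w (ilin (H z)) z) {p q : ℂ} {s : ℝ} (hs : 0 < s)
    (hp : ball p s ⊆ ball x₀ ρ) (hq : ball q s ⊆ ball x₀ ρ)
    (hE : ∀ z r, 0 < r → ball z r ⊆ ball x₀ ρ → ∫ y in ball z r, ‖H y‖ ^ 2 ≤ M * r) :
    |w p - w q| * (Real.pi * s ^ 2) ≤
      4 * Real.sqrt (Real.pi * M) * (s ^ 2 * Real.sqrt s) + dist p q * ∫ z in ball x₀ ρ, ‖H z‖ := by
  obtain ⟨i1, h1⟩ := morrey_avg hH (x := p) (d := s) hs hM (fun z hz => hw z (hp hz))
    (fun r hr hr' => hE p r hr ((ball_subset_ball hr').trans hp))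
  obtain ⟨i2, h2⟩ := morrey_avg hH (x := q) (d := s) hs hM (fun z hz => hw z (hq hz))
    (fun r hr hr' => hE q r hr ((ball_subset_ball hr').trans hq))
  have h3 := cj_avg_diff hH hw hp hq
  have i1' := cj_tr_int i1
  have i2' := cj_tr_int i2
  have i3 : IntegrableOn (fun y => |w (q + y) - w (p + y)|) (ball 0 s) := by
    have hwc : ∀ a, ball a s ⊆ ball x₀ ρ → IntegrableOn (fun z => w z) (ball a s) := by
      intro a ha
      have : IntegrableOn (fun z => |w a - w z|) (ball a s) :=
        (morrey_avg hH (x := a) (d := s) hs hM (fun z hz => hw z (ha hz))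
          (fun r hr hr' => hE a r hr ((ball_subset_ball hr').trans ha))).1
      have hc : ContinuousOn (fun z => w a - w z) (ball a s) :=
        continuousOn_const.sub fun z hz => (hw z (ha hz)).continuousAt.continuousWithinAt
      have h4 : IntegrableOn (fun z => w a - w z) (ball a s) := by
        refine Integrable.mono' this (hc.aestronglyMeasurable measurableSet_ball) ?_
        exact Eventually.of_forall fun z => le_of_eq (Real.norm_eq_abs _)
      have h5 : IntegrableOn (fun _ : ℂ => w a) (ball a s) := integrableOn_const (by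
        rw [Complex.volume_ball]; exact ENNReal.mul_ne_top (by finiteness) (by finiteness))
      have h6 := h5.sub h4
      refine h6.congr (Eventually.of_forall fun z => ?_)
      simp
    exact ((cj_tr_int (hwc q hq)).sub (cj_tr_int (hwc p hp))).abs
  rw [← cj_tr] at h1 h2
  have h5 : |w p - w q| * (Real.pi * s ^ 2) = ∫ _y in ball (0 : ℂ) s, |w p - w q| := by
    rw [setIntegral_const, measureReal_def, sc_vol 0 hs.le, smul_eq_mul, mul_comm]
  rw [h5]
  have h6 : ∫ _y in ball (0 : ℂ) s, |w p - w q| ≤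
      ∫ y in ball 0 s, (|w p - w (p + y)| + |w (q + y) - w (p + y)| + |w q - w (q + y)|) := by
    refine setIntegral_mono_on (integrableOn_const (by
      rw [Complex.volume_ball]; exact ENNReal.mul_ne_top (by finiteness) (by finiteness)))
      ((i1'.add i3).add i2') measurableSet_ball ?_
    intro y _
    have e1 := abs_sub_le (w p) (w (p + y)) (w q)
    have e2 := abs_sub_le (w (p + y)) (w (q + y)) (w q)
    rw [abs_sub_comm (w (p + y)) (w (q + y)), abs_sub_comm (w (q + y)) (w q)] at e2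
    linarith
  have i12 : IntegrableOn (fun y => |w p - w (p + y)| + |w (q + y) - w (p + y)|) (ball 0 s) :=
    i1'.add i3
  rw [integral_add i12 i2', integral_add i1' i3] at h6
  linarith

end Pool.Agent.MP099f24
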